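import Mathlib

set_option autoImplicit false

open Set Metric Filter
open scoped Topology

namespace Pool.Agent.SS

/-- holomorphic logarithm on a disc -/
theorem exists_log {f : ℂ → ℂ} {c : ℂ} {ρ : ℝ} (hf : DifferentiableOn ℂ f (ball c ρ))
    (h0 : ∀ z ∈ ball c ρ, f z ≠ 0) :
    ∃ k : ℂ → ℂ, (∀ z ∈ ball c ρ, HasDerivAt k (deriv f z / f z) z) ∧
      ∀ z ∈ ball c ρ, Complex.exp (k z) = f z := by
  rcases le_or_gt ρ 0 with hρ | hρ
  · refine ⟨0, ?_, ?_⟩
    · intro z hz; rw [ball_eq_empty.2 hρ] at hz; exact hz.elim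
    · intro z hz; rw [ball_eq_empty.2 hρ] at hz; exact hz.elim
  have hd : DifferentiableOn ℂ (fun z => deriv f z / f z) (ball c ρ) :=
    (hf.deriv isOpen_ball).div hf h0
  obtain ⟨K, hK⟩ := hd.isExactOn_ball
  have hc : c ∈ ball c ρ := mem_ball_self hρ
  set a := Complex.log (f c) - K c with ha
  refine ⟨fun z => K z + a, fun z hz => (hK z hz).add_const _, ?_⟩
  -- `f * exp (-k)` has zero derivative
  set F : ℂ → ℂ := fun z => f z * Complex.exp (-(K z + a)) with hF
  have hFd : ∀ z ∈ ball c ρ, HasDerivAt F 0 z := by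
    intro z hz
    have h1 := (hf.differentiableAt (isOpen_ball.mem_nhds hz)).hasDerivAt
    have h2 : HasDerivAt (fun z => Complex.exp (-(K z + a)))
        (Complex.exp (-(K z + a)) * (-(deriv f z / f z))) z :=
      ((hK z hz).add_const a).neg.cexp
    have h3 := h1.mul h2
    refine HasDerivAt.congr_deriv h3 ?_
    have h4 := h0 z hz
    field_simp
    ring
  have hconst : ∀ z ∈ ball c ρ, F z = F c := by
    intro z hz
    apply (convex_ball c ρ).is_const_of_fderivWithin_eq_zero (𝕜 := ℂ) (f := F) _ _ hz hc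
    · intro w hw; exact (hFd w hw).differentiableAt.differentiableWithinAt
    · intro w hw
      rw [fderivWithin_of_isOpen isOpen_ball hw]
      ext
      simp [(hFd w hw).deriv]
  have hFc : F c = 1 := by
    have e1 : K c + a = Complex.log (f c) := by rw [ha]; ring
    simp only [hF]
    rw [e1, Complex.exp_neg, Complex.exp_log (h0 c hc)]
    exact mul_inv_cancel₀ (h0 c hc)
  intro z hz
  have h1 : f z * Complex.exp (-(K z + a)) = 1 := by rw [← hFc, ← hconst z hz]
  rw [Complex.exp_neg] at h1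
  field_simp at h1
  exact h1.symm

theorem log_norm_of_exp {k f : ℂ} (h : Complex.exp k = f) : Real.log ‖f‖ = k.re := by
  rw [← h, Complex.norm_exp, Real.log_exp]

section Positive

variable {h : ℂ → ℂ} {c : ℂ} {ρ : ℝ}

/-- Cayley transform bound, strictly positive real part -/
theorem cayley_bound (hd : DifferentiableOn ℂ h (ball c ρ))
    (hre : ∀ z ∈ ball c ρ, 0 < (h z).re) {z : ℂ} (hz : z ∈ ball c ρ) :
    ‖(h z - h c) / (h z + (starRingEnd ℂ) (h c))‖ ≤ ‖z - c‖ / ρ := by
  have hρ : 0 < ρ := by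
    rw [mem_ball] at hz
    exact lt_of_le_of_lt dist_nonneg hz
  have hc : c ∈ ball c ρ := mem_ball_self hρ
  have hne : ∀ w ∈ ball c ρ, h w + (starRingEnd ℂ) (h c) ≠ 0 := by
    intro w hw h0
    have := congrArg Complex.re h0
    simp only [Complex.add_re, Complex.conj_re, Complex.zero_re] at this
    linarith [hre w hw, hre c hc]
  set F : ℂ → ℂ := fun w => (h w - h c) / (h w + (starRingEnd ℂ) (h c)) with hF
  have hFd : DifferentiableOn ℂ F (ball c ρ) :=
    (hd.sub_const _).div (hd.add_const _) hne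
  have hmaps : MapsTo F (ball c ρ) (closedBall (F c) 1) := by
    intro w hw
    have hFc : F c = 0 := by simp [hF]
    rw [hFc, mem_closedBall, dist_zero_right]
    simp only [hF]
    rw [norm_div, div_le_one (norm_pos_iff.2 (hne w hw))]
    have h1 := hre w hw
    have h2 := hre c hc
    rw [← sq_le_sq₀ (norm_nonneg _) (norm_nonneg _), Complex.sq_norm, Complex.sq_norm,
      Complex.normSq_apply, Complex.normSq_apply]
    simp only [Complex.sub_re, Complex.sub_im, Complex.add_re, Complex.add_im, Complex.conj_re,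
      Complex.conj_im]
    nlinarith
  have := Complex.dist_le_div_mul_dist_of_mapsTo_ball hFd hmaps hz
  have hFc : F c = 0 := by simp [hF]
  rw [hFc, dist_zero_right, dist_eq_norm] at this
  calc ‖F z‖ ≤ 1 / ρ * ‖z - c‖ := this
    _ = ‖z - c‖ / ρ := by ring

theorem deriv_le_pos (hρ : 0 < ρ) (hd : DifferentiableOn ℂ h (ball c ρ))
    (hre : ∀ z ∈ ball c ρ, 0 < (h z).re) : ‖deriv h c‖ ≤ 2 * (h c).re / ρ := by
  have hc : c ∈ ball c ρ := mem_ball_self hρ
  have hne : ∀ w ∈ ball c ρ, h w + (starRingEnd ℂ) (h c) ≠ 0 := by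
    intro w hw h0
    have := congrArg Complex.re h0
    simp only [Complex.add_re, Complex.conj_re, Complex.zero_re] at this
    linarith [hre w hw, hre c hc]
  set F : ℂ → ℂ := fun w => (h w - h c) / (h w + (starRingEnd ℂ) (h c)) with hF
  have hFd : DifferentiableOn ℂ F (ball c ρ) :=
    (hd.sub_const _).div (hd.add_const _) hne
  have hFc : F c = 0 := by simp [hF]
  have hmaps : MapsTo F (ball c ρ) (closedBall (F c) 1) := by
    intro w hw
    rw [hFc, mem_closedBall, dist_zero_right]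
    refine (cayley_bound hd hre hw).trans ?_
    rw [div_le_one hρ]
    rw [mem_ball, dist_eq_norm] at hw
    exact hw.le
  have h1 := Complex.norm_deriv_le_div_of_mapsTo_ball hFd hmaps hρ
  have h2 : HasDerivAt F (deriv h c / (2 * (h c).re)) c := by
    have e1 := (hd.differentiableAt (isOpen_ball.mem_nhds hc)).hasDerivAt
    have e2 := (e1.sub_const (h c)).div (e1.add_const ((starRingEnd ℂ) (h c))) (hne c hc)
    refine HasDerivAt.congr_deriv e2 ?_
    have e3 : h c + (starRingEnd ℂ) (h c) = 2 * (h c).re := by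
      rw [Complex.add_conj]; push_cast; ring
    rw [e3, sub_self, zero_mul, sub_zero]
    have : (2 * ((h c).re : ℂ)) ≠ 0 := by
      rw [← e3]; exact hne c hc
    field_simp
  rw [h2.deriv, norm_div] at h1
  have h3 : ‖(2 * ((h c).re : ℂ))‖ = 2 * (h c).re := by
    have := hre c hc
    rw [norm_mul, Complex.norm_real, Real.norm_of_nonneg this.le]; simp
  rw [h3] at h1
  have h4 : 0 < 2 * (h c).re := by have := hre c hc; linarith
  rw [div_le_iff₀ h4] at h1
  calc ‖deriv h c‖ ≤ 1 / ρ * (2 * (h c).re) := h1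
    _ = 2 * (h c).re / ρ := by ring

theorem harnack_pos (hd : DifferentiableOn ℂ h (ball c ρ))
    (hre : ∀ z ∈ ball c ρ, 0 < (h z).re) {z : ℂ} (hz : z ∈ ball c ρ) :
    (ρ - ‖z - c‖) / (ρ + ‖z - c‖) * (h c).re ≤ (h z).re := by
  have hρ : 0 < ρ := by
    rw [mem_ball] at hz
    exact lt_of_le_of_lt dist_nonneg hz
  have hc : c ∈ ball c ρ := mem_ball_self hρ
  have hz' : ‖z - c‖ < ρ := by rwa [mem_ball, dist_eq_norm] at hz
  have hb := cayley_bound hd hre hz
  set d := ‖z - c‖ / ρ with hdd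
  have hd0 : 0 ≤ d := by positivity
  have hd1 : d < 1 := by rw [hdd, div_lt_one hρ]; exact hz'
  have hne : h z + (starRingEnd ℂ) (h c) ≠ 0 := by
    intro h0
    have := congrArg Complex.re h0
    simp only [Complex.add_re, Complex.conj_re, Complex.zero_re] at this
    linarith [hre z hz, hre c hc]
  rw [norm_div, div_le_iff₀ (norm_pos_iff.2 hne)] at hb
  have h1 := hre z hz
  have h2 := hre c hc
  -- |h z - h c|² ≤ d² |h z + conj h c|²
  have hsq : (h z).re ^ 2 + (h c).re ^ 2 - 2 * (h z).re * (h c).re ≤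
      d ^ 2 * ((h z).re + (h c).re) ^ 2 := by
    have e1 : ‖h z - h c‖ ^ 2 ≤ d ^ 2 * ‖h z + (starRingEnd ℂ) (h c)‖ ^ 2 := by
      rw [← mul_pow]; exact pow_le_pow_left₀ (norm_nonneg _) hb 2
    rw [Complex.sq_norm, Complex.sq_norm, Complex.normSq_apply, Complex.normSq_apply] at e1
    simp only [Complex.sub_re, Complex.sub_im, Complex.add_re, Complex.add_im, Complex.conj_re,
      Complex.conj_im] at e1
    have e2 : d ^ 2 ≤ 1 := by nlinarith
    nlinarith [sq_nonneg ((h z).im - (h c).im), mul_nonneg (sub_nonneg.2 e2)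
      (sq_nonneg ((h z).im - (h c).im))]
  have hlin : (h c).re - (h z).re ≤ d * ((h z).re + (h c).re) := by
    have : ((h c).re - (h z).re) ^ 2 ≤ (d * ((h z).re + (h c).re)) ^ 2 := by nlinarith
    exact (abs_le_of_sq_le_sq' this (by positivity)).2
  have e3 : (ρ - ‖z - c‖) / (ρ + ‖z - c‖) = (1 - d) / (1 + d) := by
    rw [hdd]; field_simp
  rw [e3, div_mul_eq_mul_div, div_le_iff₀ (by linarith)]
  nlinarith

theorem deriv_le (hρ : 0 < ρ) (hd : DifferentiableOn ℂ h (ball c ρ))
    (hre : ∀ z ∈ ball c ρ, 0 ≤ (h z).re) : ‖deriv h c‖ ≤ 2 * (h c).re / ρ := by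
  apply le_of_forall_pos_le_add
  intro ε hε
  have hε' : 0 < ε * ρ / 2 := by positivity
  have := deriv_le_pos (h := fun z => h z + ((ε * ρ / 2 : ℝ) : ℂ)) hρ (hd.add_const _)
    (fun z hz => by
      have := hre z hz
      simp only [Complex.add_re, Complex.ofReal_re]; linarith)
  rw [deriv_add_const] at this
  simp only [Complex.add_re, Complex.ofReal_re] at this
  calc ‖deriv h c‖ ≤ 2 * ((h c).re + ε * ρ / 2) / ρ := this
    _ = 2 * (h c).re / ρ + ε := by field_simp

theorem harnack (hd : DifferentiableOn ℂ h (ball c ρ))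
    (hre : ∀ z ∈ ball c ρ, 0 ≤ (h z).re) {z : ℂ} (hz : z ∈ ball c ρ) :
    (ρ - ‖z - c‖) / (ρ + ‖z - c‖) * (h c).re ≤ (h z).re := by
  have hz' : ‖z - c‖ < ρ := by rwa [mem_ball, dist_eq_norm] at hz
  have hρ : 0 < ρ := lt_of_le_of_lt (norm_nonneg _) hz'
  apply le_of_forall_pos_le_add
  intro ε hε
  have := harnack_pos (h := fun z => h z + (ε : ℂ)) (hd.add_const _)
    (fun z hz => by
      have := hre z hz
      simp only [Complex.add_re, Complex.ofReal_re]; linarith) hz
  simp only [Complex.add_re, Complex.ofReal_re] at this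
  have h0 : 0 ≤ (ρ - ‖z - c‖) / (ρ + ‖z - c‖) := by
    apply div_nonneg <;> [linarith; positivity]
  nlinarith

end Positive

/-- logarithmic derivative of a bounded zero-free function -/
theorem logderiv_le {f : ℂ → ℂ} {c : ℂ} {ρ M : ℝ} (hρ : 0 < ρ) (hM : 0 < M)
    (hf : DifferentiableOn ℂ f (ball c ρ)) (h0 : ∀ z ∈ ball c ρ, f z ≠ 0)
    (hb : ∀ z ∈ ball c ρ, ‖f z‖ ≤ M) :
    ‖deriv f c / f c‖ ≤ 2 * Real.log (M / ‖f c‖) / ρ := by
  obtain ⟨k, hk, he⟩ := exists_log hf h0
  have hc : c ∈ ball c ρ := mem_ball_self hρ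
  have hkr : ∀ z ∈ ball c ρ, (((Real.log M : ℝ) : ℂ) - k z).re = Real.log (M / ‖f z‖) := by
    intro z hz
    rw [Complex.sub_re, Complex.ofReal_re, ← log_norm_of_exp (he z hz),
      Real.log_div hM.ne' (norm_ne_zero_iff.2 (h0 z hz))]
  have hkd : DifferentiableOn ℂ (fun z => ((Real.log M : ℝ) : ℂ) - k z) (ball c ρ) := fun z hz =>
    ((hk z hz).const_sub _).differentiableAt.differentiableWithinAt
  have h1 := deriv_le hρ hkd (fun z hz => by
    rw [hkr z hz]
    apply Real.log_nonneg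
    rw [one_le_div (norm_pos_iff.2 (h0 z hz))]
    exact hb z hz)
  rw [((hk c hc).const_sub _).deriv, norm_neg, hkr c hc] at h1
  exact h1

/-- Harnack's inequality for bounded zero-free functions -/
theorem zf_harnack {f : ℂ → ℂ} {c : ℂ} {ρ M : ℝ} (hM : 0 < M)
    (hf : DifferentiableOn ℂ f (ball c ρ)) (h0 : ∀ z ∈ ball c ρ, f z ≠ 0)
    (hb : ∀ z ∈ ball c ρ, ‖f z‖ ≤ M) {z : ℂ} (hz : z ∈ ball c ρ) :
    (ρ - ‖z - c‖) / (ρ + ‖z - c‖) * Real.log (M / ‖f c‖) ≤ Real.log (M / ‖f z‖) := by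
  obtain ⟨k, hk, he⟩ := exists_log hf h0
  have hz' : ‖z - c‖ < ρ := by rwa [mem_ball, dist_eq_norm] at hz
  have hρ : 0 < ρ := lt_of_le_of_lt (norm_nonneg _) hz'
  have hc : c ∈ ball c ρ := mem_ball_self hρ
  have hkr : ∀ z ∈ ball c ρ, (((Real.log M : ℝ) : ℂ) - k z).re = Real.log (M / ‖f z‖) := by
    intro z hz
    rw [Complex.sub_re, Complex.ofReal_re, ← log_norm_of_exp (he z hz),
      Real.log_div hM.ne' (norm_ne_zero_iff.2 (h0 z hz))]
  have hkd : DifferentiableOn ℂ (fun z => ((Real.log M : ℝ) : ℂ) - k z) (ball c ρ) := fun z hz =>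
    ((hk z hz).const_sub _).differentiableAt.differentiableWithinAt
  have h1 := harnack hkd (fun z hz => by
    rw [hkr z hz]
    apply Real.log_nonneg
    rw [one_le_div (norm_pos_iff.2 (h0 z hz))]
    exact hb z hz) hz
  rw [hkr c hc, hkr z hz] at h1
  exact h1

end Pool.Agent.SS
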