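import Pool.Agent.Lib52.SS.Taylor

/-!
Change of weight, dilation, and the mass near the zeros.
-/

set_option autoImplicit false

open Set Metric Filter MeasureTheory
open scoped Topology Real ComplexConjugate

namespace Pool.Agent.SSP

open Pool.Agent.SS

theorem sinh_ge {τ : ℝ} (hτ : 0 ≤ τ) : τ ≤ Real.sinh τ := Real.self_le_sinh_iff.2 hτ

theorem sinh_le_mul_cosh {τ : ℝ} (hτ : 0 ≤ τ) : Real.sinh τ ≤ τ * Real.cosh τ := by
  have hd : ∀ x : ℝ, HasDerivAt (fun x => x * Real.cosh x - Real.sinh x)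
      (x * Real.sinh x) x := by
    intro x
    refine (((hasDerivAt_id x).mul (Real.hasDerivAt_cosh x)).sub
      (Real.hasDerivAt_sinh x)).congr_deriv ?_
    simp
  have hmono : MonotoneOn (fun x => x * Real.cosh x - Real.sinh x) (Ici 0) := by
    refine monotoneOn_of_deriv_nonneg (convex_Ici 0) (by fun_prop)
      (fun x _ => (hd x).differentiableAt.differentiableWithinAt) (fun x hx => ?_)
    rw [interior_Ici] at hx
    rw [(hd x).deriv]
    exact mul_nonneg (le_of_lt hx) (Real.sinh_nonneg_iff.2 (le_of_lt hx))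
  have := hmono (mem_Ici.2 le_rfl) (mem_Ici.2 hτ) hτ
  simp only [Real.cosh_zero, Real.sinh_zero] at this
  linarith

theorem weight_bound {τ τ₁ : ℝ} (h1 : 0 < τ₁) (h2 : τ₁ ≤ τ) :
    |(τ - τ₁) / Real.sinh τ ^ 2 - 1 / τ| ≤ τ + τ₁ / τ ^ 2 := by
  have h0 : 0 < τ := lt_of_lt_of_le h1 h2
  have hs := sinh_ge h0.le
  have hsp : 0 < Real.sinh τ := lt_of_lt_of_le h0 hs
  have hsq : τ ^ 2 ≤ Real.sinh τ ^ 2 := pow_le_pow_left₀ h0.le hs 2
  have hneg : (τ - τ₁) / Real.sinh τ ^ 2 - 1 / τ ≤ 0 := by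
    rw [sub_nonpos, div_le_div_iff₀ (by positivity) h0]
    nlinarith
  rw [abs_of_nonpos hneg]
  have k1 : Real.sinh τ ^ 2 * (1 - τ ^ 2) ≤ τ ^ 2 := by
    have c1 : Real.sinh τ ^ 2 ≤ τ ^ 2 * Real.cosh τ ^ 2 := by
      rw [← mul_pow]
      exact pow_le_pow_left₀ hsp.le (sinh_le_mul_cosh h0.le) 2
    have c2 : Real.cosh τ ^ 2 = 1 + Real.sinh τ ^ 2 := by
      have := Real.cosh_sq τ
      linarith
    rw [c2] at c1
    nlinarith
  have k2 : τ₁ / Real.sinh τ ^ 2 ≤ τ₁ / τ ^ 2 := by gcongr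
  have k3 : 1 / τ - τ / Real.sinh τ ^ 2 ≤ τ := by
    rw [sub_le_iff_le_add, div_le_iff₀ h0]
    have : (τ + τ / Real.sinh τ ^ 2) * τ = τ ^ 2 + τ ^ 2 / Real.sinh τ ^ 2 := by
      field_simp
    rw [this]
    have k4 : 1 - τ ^ 2 ≤ τ ^ 2 / Real.sinh τ ^ 2 := by
      rw [le_div_iff₀ (by positivity)]
      linarith
    linarith
  rw [sub_div]
  linarith

/-- change of weight -/
theorem conv (M : ℝ → ℝ) (K : ℝ) (hc : ContinuousOn M (Ioi 0))
    (hM : ∀ τ, 0 < τ → τ ≤ 1 → |M τ| ≤ K)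
    {τ₁ : ℝ} (h1 : 0 < τ₁) (h2 : τ₁ ≤ 1) :
    |(∫ τ in τ₁..1, (τ - τ₁) * (M τ / Real.sinh τ ^ 2)) - ∫ τ in τ₁..1, M τ / τ| ≤ 2 * K := by
  have hK : 0 ≤ K := (abs_nonneg _).trans (hM 1 one_pos le_rfl)
  have hsub : uIcc τ₁ 1 ⊆ Ioi 0 := by
    rw [uIcc_of_le h2]
    exact fun x hx => lt_of_lt_of_le h1 hx.1
  have hc' := hc.mono hsub
  have hs0 : ∀ x ∈ uIcc τ₁ 1, Real.sinh x ^ 2 ≠ 0 := fun x hx =>
    pow_ne_zero 2 (lt_of_lt_of_le (hsub hx) (sinh_ge (le_of_lt (hsub hx)))).ne'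
  have i1 : IntervalIntegrable (fun τ => (τ - τ₁) * (M τ / Real.sinh τ ^ 2)) volume τ₁ 1 :=
    (ContinuousOn.mul (by fun_prop) (hc'.div (by fun_prop) hs0)).intervalIntegrable
  have i2 : IntervalIntegrable (fun τ => M τ / τ) volume τ₁ 1 :=
    (hc'.div continuousOn_id fun x hx => (hsub hx).ne').intervalIntegrable
  rw [← intervalIntegral.integral_sub i1 i2]
  have i3 : IntervalIntegrable (fun τ => K * (τ + τ₁ / τ ^ 2)) volume τ₁ 1 := by
    refine ContinuousOn.intervalIntegrable (continuousOn_const.mul (continuousOn_id.add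
      (continuousOn_const.div (by fun_prop) fun x hx => pow_ne_zero 2 (hsub hx).ne')))
  have hb := intervalIntegral.norm_integral_le_of_norm_le (μ := volume) h2
    (f := fun τ => (τ - τ₁) * (M τ / Real.sinh τ ^ 2) - M τ / τ)
    (g := fun τ => K * (τ + τ₁ / τ ^ 2)) (Eventually.of_forall fun τ hτ => by
      have hτ0 : 0 < τ := lt_trans h1 hτ.1
      have e1 : (τ - τ₁) * (M τ / Real.sinh τ ^ 2) - M τ / τ =
          M τ * ((τ - τ₁) / Real.sinh τ ^ 2 - 1 / τ) := by ring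
      rw [Real.norm_eq_abs, e1, abs_mul]
      exact mul_le_mul (hM τ hτ0 hτ.2) (weight_bound h1 hτ.1.le) (abs_nonneg _) hK) i3
  rw [Real.norm_eq_abs] at hb
  refine hb.trans ?_
  have hF : ∫ τ in τ₁..1, K * (τ + τ₁ / τ ^ 2) =
      K * (1 ^ 2 / 2 - τ₁ / 1) - K * (τ₁ ^ 2 / 2 - τ₁ / τ₁) := by
    refine intervalIntegral.integral_eq_sub_of_hasDerivAt
      (f := fun τ => K * (τ ^ 2 / 2 - τ₁ / τ)) (fun τ hτ => ?_) i3
    have hτ0 : τ ≠ 0 := (hsub hτ).ne'
    refine ((((hasDerivAt_pow 2 τ).div_const 2).sub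
      ((hasDerivAt_const τ τ₁).div (hasDerivAt_id τ) hτ0)).const_mul K).congr_deriv ?_
    simp only [id]
    field_simp
    ring
  rw [hF, div_self h1.ne']
  nlinarith [sq_nonneg τ₁, mul_nonneg hK h1.le, mul_nonneg hK (sq_nonneg τ₁)]

theorem log_piece (m : ℝ → ℝ) (K : ℝ) (hm : ∀ τ, 0 < τ → |m τ| ≤ K) {a b : ℝ}
    (ha : 0 < a) (hb : 0 < b) :
    |∫ τ in a..b, m τ / τ| ≤ K * |Real.log (b / a)| := by
  have hsub : uIcc a b ⊆ Ioi 0 := fun x hx => lt_of_lt_of_le (lt_min ha hb) hx.1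
  have hK : 0 ≤ K := (abs_nonneg _).trans (hm a ha)
  have i1 : IntervalIntegrable (fun τ => K * τ⁻¹) volume a b :=
    (continuousOn_const.mul (continuousOn_id.inv₀ fun x hx =>
      (hsub hx).ne')).intervalIntegrable
  have h := intervalIntegral.norm_integral_le_abs_of_norm_le (μ := volume)
    (f := fun τ => m τ / τ) (g := fun τ => K * τ⁻¹) (a := a) (b := b) (by
      filter_upwards [self_mem_ae_restrict measurableSet_uIoc] with τ hτ
      have hτ0 : 0 < τ := hsub (uIoc_subset_uIcc hτ)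
      rw [Real.norm_eq_abs, abs_div, abs_of_pos hτ0, div_eq_mul_inv]
      exact mul_le_mul_of_nonneg_right (hm τ hτ0) (by positivity)) i1
  rw [Real.norm_eq_abs, intervalIntegral.integral_const_mul, integral_inv_of_pos ha hb, abs_mul,
    abs_of_nonneg hK] at h
  exact h

/-- dilation -/
theorem dil (m : ℝ → ℝ) (K : ℝ) (hc : ContinuousOn m (Ioi 0))
    (hm : ∀ τ, 0 < τ → 0 ≤ m τ ∧ m τ ≤ K)
    {γ η : ℝ} (hγ : 0 < γ) (hη : 0 < η) :
    ∃ C : ℝ, ∀ τ₁ : ℝ, 0 < τ₁ → τ₁ ≤ 1 → τ₁ ≤ η →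
      ∫ τ in τ₁..η, m (γ * τ) / τ ≤ (∫ τ in τ₁..1, m τ / τ) + C := by
  have hm' : ∀ τ, 0 < τ → |m τ| ≤ K := fun τ h => by
    rw [abs_of_nonneg (hm τ h).1]
    exact (hm τ h).2
  refine ⟨K * |Real.log γ| + K * |Real.log (γ * η)|, fun τ₁ h1 h2 h3 => ?_⟩
  have e1 : ∫ τ in τ₁..η, m (γ * τ) / τ = ∫ s in (γ * τ₁)..(γ * η), m s / s := by
    have hcv := intervalIntegral.integral_comp_mul_left (a := τ₁) (b := η)
      (fun s => γ * (m s / s)) hγ.ne'
    have hcm : ∫ s in (γ * τ₁)..(γ * η), γ * (m s / s) =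
        γ * ∫ s in (γ * τ₁)..(γ * η), m s / s := intervalIntegral.integral_const_mul _ _
    have this : ∫ x in τ₁..η, γ * (m (γ * x) / (γ * x)) =
        ∫ s in (γ * τ₁)..(γ * η), m s / s := by
      rw [hcv, hcm, smul_eq_mul, inv_mul_cancel_left₀ hγ.ne']
    rw [← this]
    refine intervalIntegral.integral_congr fun τ hτ => ?_
    show m (γ * τ) / τ = γ * (m (γ * τ) / (γ * τ))
    rcases eq_or_ne τ 0 with h0 | h0
    · simp [h0]
    · field_simp
  have hii : ∀ a b : ℝ, 0 < a → 0 < b →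
      IntervalIntegrable (fun s => m s / s) volume a b := by
    intro a b ha hb
    have hsub : uIcc a b ⊆ Ioi 0 := fun x hx => lt_of_lt_of_le (lt_min ha hb) hx.1
    exact ((hc.mono hsub).div continuousOn_id fun x hx => (hsub hx).ne').intervalIntegrable
  have hγτ : 0 < γ * τ₁ := by positivity
  have hγη : 0 < γ * η := by positivity
  rw [e1, ← intervalIntegral.integral_add_adjacent_intervals (hii _ _ hγτ h1) (hii _ _ h1 hγη),
    ← intervalIntegral.integral_add_adjacent_intervals (hii _ _ h1 one_pos)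
      (hii _ _ one_pos hγη)]
  have p1 := (le_abs_self _).trans (log_piece m K hm' hγτ h1)
  have p2 := (le_abs_self _).trans (log_piece m K hm' one_pos hγη)
  have q1 : |Real.log (τ₁ / (γ * τ₁))| = |Real.log γ| := by
    have : τ₁ / (γ * τ₁) = γ⁻¹ := by field_simp
    rw [this, Real.log_inv, abs_neg]
  rw [q1] at p1
  rw [div_one] at p2
  linarith

theorem ii_sum {ι : Type*} (s : Finset ι) {f : ι → ℝ → ℝ} {a b : ℝ}
    (h : ∀ i ∈ s, IntervalIntegrable (f i) volume a b) :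
    IntervalIntegrable (fun x => ∑ i ∈ s, f i x) volume a b := by
  have := IntervalIntegrable.sum s h
  have e : (fun x => ∑ i ∈ s, f i x) = ∑ i ∈ s, f i := by
    funext x
    rw [Finset.sum_apply]
  rw [e]
  exact this

theorem zz_eq_iff {t θ θ' : ℝ} (h : zz t θ = zz t θ') : ∃ n : ℤ, θ = θ' + n * (2 * π) := by
  unfold zz at h
  rw [Complex.exp_eq_exp_iff_exists_int] at h
  obtain ⟨n, hn⟩ := h
  refine ⟨n, ?_⟩
  have := congrArg Complex.im hn
  simpa using this

theorem zz_tau_eq {t θ : ℝ} {a : ℂ} (h : zz t θ = a) : t = -Real.log ‖a‖ := by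
  rw [← h, zz, Complex.norm_exp]
  simp

theorem exB (a : ℂ) (t r : ℝ) (hr : 0 < r) :
    ∃ B : Set ℝ, MeasurableSet B ∧
      (∀ θ ∈ Icc (0 : ℝ) (2 * π), ∀ θ', zz t θ' = a → |θ' - θ| < r → θ ∈ B) ∧
      ∫ θ in (0 : ℝ)..2 * π, B.indicator (fun _ => (1 : ℝ)) θ ≤ 4 * r := by
  have hπ := Real.pi_pos
  rcases le_or_gt π r with h | h
  · refine ⟨univ, MeasurableSet.univ, fun θ _ θ' _ _ => mem_univ _, ?_⟩
    simp only [indicator_univ, intervalIntegral.integral_const, smul_eq_mul]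
    linarith
  · by_cases hex : ∃ θ₀, zz t θ₀ = a
    · obtain ⟨θ₀, hθ₀⟩ := hex
      obtain ⟨k, hk, -⟩ := existsUnique_add_zsmul_mem_Ioc Real.two_pi_pos θ₀ (-π)
      set α := θ₀ + k • (2 * π) with hα
      have hαm : -π < α ∧ α ≤ π := by
        rw [mem_Ioc] at hk
        constructor
        · exact hk.1
        · linarith [hk.2]
      refine ⟨Ioo (α - r) (α + r) ∪ Ioo (α + 2 * π - r) (α + 2 * π + r),
        measurableSet_Ioo.union measurableSet_Ioo, ?_, ?_⟩
      · intro θ hθ θ' hθ' hlt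
        obtain ⟨n, hn⟩ := zz_eq_iff (hθ'.trans hθ₀.symm)
        rw [abs_lt] at hlt
        have e1 : θ' = α + ((n - k : ℤ) : ℝ) * (2 * π) := by
          rw [hn, hα, zsmul_eq_mul]
          push_cast
          ring
        set j : ℤ := n - k with hj
        have j1 : (-1 : ℝ) < (j : ℝ) := by
          by_contra hcon
          push Not at hcon
          have : (j : ℝ) * (2 * π) ≤ (-1) * (2 * π) :=
            mul_le_mul_of_nonneg_right hcon (by positivity)
          linarith [hθ.1]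
        have j2 : (j : ℝ) < 2 := by
          by_contra hcon
          push Not at hcon
          have : 2 * (2 * π) ≤ (j : ℝ) * (2 * π) :=
            mul_le_mul_of_nonneg_right hcon (by positivity)
          linarith [hθ.2]
        have j1' : (-1 : ℤ) < j := by exact_mod_cast j1
        have j2' : j < (2 : ℤ) := by exact_mod_cast j2
        have j3 : j = 0 ∨ j = 1 := by omega
        rcases j3 with j3 | j3
        · left
          rw [j3] at e1
          simp only [Int.cast_zero, zero_mul, add_zero] at e1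
          constructor <;> linarith
        · right
          rw [j3] at e1
          simp only [Int.cast_one, one_mul] at e1
          constructor <;> linarith
      · have hone : ∀ S : Set ℝ, MeasurableSet S →
            ∫ x in Ioc 0 (2 * π), S.indicator (fun _ => (1 : ℝ)) x =
              (volume.restrict (Ioc 0 (2 * π))).real S := fun S hS => integral_indicator_one hS
        rw [intervalIntegral.integral_of_le (by positivity),
          hone _ (measurableSet_Ioo.union measurableSet_Ioo)]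
        have hv : (volume.restrict (Ioc 0 (2 * π)))
            (Ioo (α - r) (α + r) ∪ Ioo (α + 2 * π - r) (α + 2 * π + r)) ≤
            ENNReal.ofReal (4 * r) := by
          refine (Measure.restrict_apply_le _ _).trans ((measure_union_le _ _).trans ?_)
          rw [Real.volume_Ioo, Real.volume_Ioo, ← ENNReal.ofReal_add (by linarith) (by linarith)]
          refine ENNReal.ofReal_le_ofReal (by linarith)
        exact ENNReal.toReal_le_of_le_ofReal (by positivity) hv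
    · refine ⟨∅, MeasurableSet.empty, fun θ _ θ' h' _ => (hex ⟨θ', h'⟩).elim, ?_⟩
      simp only [indicator_empty, intervalIntegral.integral_zero]
      positivity

/-- the mass near the zeros -/
theorem nearZ (ρ : ℝ) (hρ : 1 ≤ ρ) :
    ∃ C : ℝ, 0 ≤ C ∧ ∀ (K τ₁ η₁ : ℝ) (ν : ℝ → ℝ → ℝ) (Z : Finset ℂ), 0 < τ₁ → τ₁ ≤ η₁ →
      ContinuousOn (fun p : ℝ × ℝ => ν p.1 p.2) (Ioi 0 ×ˢ univ) →
      (∀ τ θ, 0 < τ → 0 ≤ ν τ θ ∧ ν τ θ ≤ K) →
      (∀ a ∈ Z, 0 < ‖a‖ ∧ ‖a‖ < 1) →
      (∀ τ θ, τ₁ ≤ τ → τ < η₁ → ν τ θ ≠ 0 →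
        ∃ τ' θ', zz τ' θ' ∈ Z ∧ τ / ρ < τ' ∧ τ' < ρ * τ ∧ |θ' - θ| < ρ * τ) →
      ∫ τ in τ₁..η₁, (∫ θ in (0 : ℝ)..2 * π, ν τ θ) / τ ≤ C * K * ∑ a ∈ Z, (-Real.log ‖a‖) := by
  have hρ0 : 0 < ρ := by linarith
  have hlogρ : 0 ≤ Real.log ρ := Real.log_nonneg hρ
  refine ⟨8 * ρ ^ 2 * Real.log ρ, by positivity, ?_⟩
  intro K τ₁ η₁ ν Z h1 h2 hc hν hZ hsupp
  have hνHC : HC ν := by
    refine hc.mono fun p hp => ⟨hp, mem_univ _⟩
  have hK : 0 ≤ K := (hν 1 0 one_pos).1.trans (hν 1 0 one_pos).2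
  have ht : ∀ a ∈ Z, 0 < -Real.log ‖a‖ := fun a ha => by
    have := Real.log_neg (hZ a ha).1 (hZ a ha).2
    linarith
  -- the sets of angles
  have hB : ∀ a : ℂ, ∃ B : Set ℝ, MeasurableSet B ∧ (a ∈ Z →
      (∀ θ ∈ Icc (0 : ℝ) (2 * π), ∀ θ', zz (-Real.log ‖a‖) θ' = a →
        |θ' - θ| < ρ ^ 2 * (-Real.log ‖a‖) → θ ∈ B) ∧
      ∫ θ in (0 : ℝ)..2 * π, B.indicator (fun _ => (1 : ℝ)) θ ≤
        4 * (ρ ^ 2 * (-Real.log ‖a‖))) := by
    intro a
    by_cases ha : a ∈ Z
    · obtain ⟨B, b1, b2, b3⟩ := exB a (-Real.log ‖a‖) (ρ ^ 2 * (-Real.log ‖a‖))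
        (mul_pos (by positivity) (ht a ha))
      exact ⟨B, b1, fun _ => ⟨b2, b3⟩⟩
    · exact ⟨∅, MeasurableSet.empty, fun h => (ha h).elim⟩
  choose B hBm hB2 using hB
  -- the inner integral
  have hinner : ∀ τ ∈ Ioo τ₁ η₁, (∫ θ in (0 : ℝ)..2 * π, ν τ θ) / τ ≤
      ∑ a ∈ Z, K * (4 * (ρ ^ 2 * (-Real.log ‖a‖))) *
        (Ioo (-Real.log ‖a‖ / ρ) (ρ * -Real.log ‖a‖)).indicator (fun τ => τ⁻¹) τ := by
    intro τ hτ
    have hτ0 : 0 < τ := lt_trans h1 hτ.1
    have hind : ∀ a, IntervalIntegrable (fun θ => (B a).indicator (fun _ => (1 : ℝ)) θ)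
        volume 0 (2 * π) := by
      intro a
      rw [intervalIntegrable_iff]
      exact (integrableOn_const (by rw [Set.uIoc, Real.volume_Ioc]; exact ENNReal.ofReal_ne_top)).indicator (hBm a)
    have hle : ∫ θ in (0 : ℝ)..2 * π, ν τ θ ≤
        ∫ θ in (0 : ℝ)..2 * π, ∑ a ∈ Z, K *
          (Ioo (-Real.log ‖a‖ / ρ) (ρ * -Real.log ‖a‖)).indicator (fun _ => (1 : ℝ)) τ *
          (B a).indicator (fun _ => (1 : ℝ)) θ := by
      refine intervalIntegral.integral_mono_on (by positivity) (hνHC.ii hτ0 _ _) ?_ ?_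
      · exact ii_sum _ fun a _ => (hind a).const_mul _
      · intro θ hθ
        have hnn : ∀ a ∈ Z, 0 ≤ K *
            (Ioo (-Real.log ‖a‖ / ρ) (ρ * -Real.log ‖a‖)).indicator (fun _ => (1 : ℝ)) τ *
            (B a).indicator (fun _ => (1 : ℝ)) θ := fun a _ =>
          mul_nonneg (mul_nonneg hK (indicator_nonneg (fun _ _ => zero_le_one) _))
            (indicator_nonneg (fun _ _ => zero_le_one) _)
        by_cases h0 : ν τ θ = 0
        · rw [h0]
          exact Finset.sum_nonneg hnn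
        · obtain ⟨τ', θ', haZ, c1, c2, c3⟩ := hsupp τ θ hτ.1.le hτ.2 h0
          set a := zz τ' θ' with ha
          have hτ' : τ' = -Real.log ‖a‖ := zz_tau_eq ha.symm
          refine le_trans ?_ (Finset.single_le_sum hnn haZ)
          have m1 : τ ∈ Ioo (-Real.log ‖a‖ / ρ) (ρ * -Real.log ‖a‖) := by
            rw [← hτ']
            constructor
            · rw [div_lt_iff₀ hρ0]
              linarith
            · rw [div_lt_iff₀ hρ0] at c1
              linarith
          have m2 : θ ∈ B a := by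
            refine (hB2 a haZ).1 θ hθ θ' (by rw [← hτ']) ?_
            rw [← hτ']
            refine lt_of_lt_of_le c3 ?_
            have := m1.2
            rw [← hτ'] at this
            nlinarith
          rw [indicator_of_mem m1, indicator_of_mem m2]
          simpa using (hν τ θ hτ0).2
    have hsumint : ∫ θ in (0 : ℝ)..2 * π, ∑ a ∈ Z, K *
          (Ioo (-Real.log ‖a‖ / ρ) (ρ * -Real.log ‖a‖)).indicator (fun _ => (1 : ℝ)) τ *
          (B a).indicator (fun _ => (1 : ℝ)) θ ≤ ∑ a ∈ Z, K *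
          (Ioo (-Real.log ‖a‖ / ρ) (ρ * -Real.log ‖a‖)).indicator (fun _ => (1 : ℝ)) τ *
          (4 * (ρ ^ 2 * (-Real.log ‖a‖))) := by
      rw [intervalIntegral.integral_finsetSum fun a _ => (hind a).const_mul _]
      refine Finset.sum_le_sum fun a ha => ?_
      rw [intervalIntegral.integral_const_mul]
      exact mul_le_mul_of_nonneg_left (hB2 a ha).2
        (mul_nonneg hK (indicator_nonneg (fun _ _ => zero_le_one) _))
    rw [div_eq_mul_inv]
    refine (mul_le_mul_of_nonneg_right (hle.trans hsumint) (by positivity)).trans ?_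
    rw [Finset.sum_mul]
    refine Finset.sum_le_sum fun a ha => ?_
    by_cases hm : τ ∈ Ioo (-Real.log ‖a‖ / ρ) (ρ * -Real.log ‖a‖)
    · rw [indicator_of_mem hm, indicator_of_mem hm]
      apply le_of_eq
      ring
    · rw [indicator_of_notMem hm, indicator_of_notMem hm]
      apply le_of_eq
      ring
  -- the outer integral
  have hout : ∀ a ∈ Z, IntervalIntegrable
      ((Ioo (-Real.log ‖a‖ / ρ) (ρ * -Real.log ‖a‖)).indicator (fun τ => τ⁻¹))
      volume τ₁ η₁ ∧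
      ∫ τ in τ₁..η₁, (Ioo (-Real.log ‖a‖ / ρ) (ρ * -Real.log ‖a‖)).indicator
        (fun τ => τ⁻¹) τ ≤ 2 * Real.log ρ := by
    intro a ha
    have ht0 := ht a ha
    set t := -Real.log ‖a‖ with htdef
    have p1 : 0 < t / ρ := by positivity
    have p2 : 0 < ρ * t := by positivity
    have p3 : t / ρ ≤ ρ * t := by
      rw [div_le_iff₀ hρ0]
      nlinarith
    have hint : IntegrableOn (fun τ : ℝ => τ⁻¹) (Ioc (t / ρ) (ρ * t)) volume := by
      have : IntervalIntegrable (fun τ : ℝ => τ⁻¹) volume (t / ρ) (ρ * t) := by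
        refine (continuousOn_id.inv₀ fun x hx => ?_).intervalIntegrable
        rw [uIcc_of_le p3] at hx
        exact (lt_of_lt_of_le p1 hx.1).ne'
      exact (intervalIntegrable_iff_integrableOn_Ioc_of_le p3).1 this
    have hint2 : Integrable ((Ioo (t / ρ) (ρ * t)).indicator (fun τ : ℝ => τ⁻¹)) volume :=
      (integrable_indicator_iff measurableSet_Ioo).2 (hint.mono_set Ioo_subset_Ioc_self)
    refine ⟨hint2.intervalIntegrable, ?_⟩
    rw [intervalIntegral.integral_of_le h2]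
    have q1 : ∫ τ in Ioc τ₁ η₁, (Ioo (t / ρ) (ρ * t)).indicator (fun τ : ℝ => τ⁻¹) τ ≤
        ∫ τ, (Ioo (t / ρ) (ρ * t)).indicator (fun τ : ℝ => τ⁻¹) τ := by
      refine setIntegral_le_integral hint2 (Eventually.of_forall fun τ => ?_)
      refine indicator_nonneg (fun x hx => ?_) τ
      exact inv_nonneg.2 (lt_trans p1 hx.1).le
    refine q1.trans ?_
    rw [integral_indicator measurableSet_Ioo, ← integral_Ioc_eq_integral_Ioo,
      ← intervalIntegral.integral_of_le p3, integral_inv_of_pos p1 p2]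
    have : ρ * t / (t / ρ) = ρ ^ 2 := by
      field_simp
    rw [this, Real.log_pow]
    push_cast
    exact le_rfl
  have hlhs : IntervalIntegrable (fun τ => (∫ θ in (0 : ℝ)..2 * π, ν τ θ) / τ) volume τ₁ η₁ := by
    refine ContinuousOn.intervalIntegrable ?_
    have hsub : uIcc τ₁ η₁ ⊆ Ioi 0 := by
      rw [uIcc_of_le h2]
      exact fun x hx => lt_of_lt_of_le h1 hx.1
    exact (hνHC.mean.mono hsub).div continuousOn_id fun x hx => (hsub hx).ne'
  refine (intervalIntegral.integral_mono_on_of_le_Ioo h2 hlhs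
    (ii_sum _ fun a ha => ((hout a ha).1.const_mul _)) hinner).trans ?_
  rw [intervalIntegral.integral_finsetSum fun a ha => ((hout a ha).1.const_mul _), Finset.mul_sum]
  refine Finset.sum_le_sum fun a ha => ?_
  rw [intervalIntegral.integral_const_mul]
  have hnn : 0 ≤ K * (4 * (ρ ^ 2 * (-Real.log ‖a‖))) :=
    mul_nonneg hK (mul_nonneg (by norm_num) (mul_nonneg (by positivity) (ht a ha).le))
  refine (mul_le_mul_of_nonneg_left (hout a ha).2 hnn).trans (le_of_eq ?_)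
  ring

end Pool.Agent.SSP
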