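import Pool.Agent.Lib52.SS.Disc

set_option autoImplicit false

open Set Metric Filter
open scoped Topology ComplexConjugate

namespace Pool.Agent.SS

/-- uniform bounds on the sets `‖ζ‖ ≤ R`, `m ≤ im ζ` -/
def LocB2 (G : ℕ → ℂ → ℂ) : Prop :=
  ∀ R m : ℝ, 1 ≤ R → 0 < m → m ≤ 1 → ∃ M : ℝ, ∀ n, ∀ ζ : ℂ, ‖ζ‖ ≤ R → m ≤ ζ.im → ‖G n ζ‖ ≤ M

theorem LocB2.locB {G : ℕ → ℂ → ℂ} (h : LocB2 G) : LocB G := by
  intro ζ₀ hζ₀
  have h0 : 0 < ζ₀.im := hζ₀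
  obtain ⟨M, hM⟩ := h (1 + ‖ζ₀‖ + ζ₀.im) (min 1 (ζ₀.im / 2)) (by
    have := norm_nonneg ζ₀
    linarith) (lt_min one_pos (by positivity)) (min_le_left _ _)
  refine ⟨M, fun n ζ hζ => hM n ζ ?_ ?_⟩
  · rw [mem_ball, dist_eq_norm] at hζ
    have : ‖ζ‖ ≤ ‖ζ - ζ₀‖ + ‖ζ₀‖ := by
      calc ‖ζ‖ = ‖(ζ - ζ₀) + ζ₀‖ := by ring_nf
        _ ≤ _ := norm_add_le _ _
    linarith
  · rw [mem_ball, dist_eq_norm] at hζ
    have := Complex.abs_im_le_norm (ζ - ζ₀)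
    rw [Complex.sub_im] at this
    have := (abs_le.1 this).1
    refine (min_le_right _ _).trans ?_
    linarith

theorem LocB2.deriv {G : ℕ → ℂ → ℂ} (h : LocB2 G) (hd : ∀ n, DifferentiableOn ℂ (G n) HH) :
    LocB2 (fun n => deriv (G n)) := by
  intro R m hR hm hm1
  obtain ⟨M, hM⟩ := h (R + m) (m / 2) (by linarith) (by positivity) (by linarith)
  refine ⟨2 * M / (m / 2), fun n ζ hζR hζm => ?_⟩
  have hsub : ball ζ (m / 2) ⊆ HH := ball_sub_HH (by linarith)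
  have key := SP.norm_fderiv_le_of_bound (f := G n) (c := ζ) (R := m / 2) (K := M) (by positivity)
    ((hd n).mono hsub) (by
      intro w hw
      rw [mem_ball, dist_eq_norm] at hw
      apply hM n w
      · have : ‖w‖ ≤ ‖w - ζ‖ + ‖ζ‖ := by
          calc ‖w‖ = ‖(w - ζ) + ζ‖ := by ring_nf
            _ ≤ _ := norm_add_le _ _
        linarith
      · have := Complex.abs_im_le_norm (w - ζ)
        rw [Complex.sub_im] at this
        have := (abs_le.1 this).1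
        linarith)
  rw [← norm_deriv_eq_norm_fderiv] at key
  exact key

/-- the unit of scale -/
noncomputable def un (τ θ : ℝ) : ℂ := Complex.I * τ * Complex.exp (Complex.I * θ)

theorem norm_un {τ θ : ℝ} (hτ : 0 < τ) : ‖un τ θ‖ = τ := by
  rw [un, norm_mul, norm_mul, Complex.norm_I, Complex.norm_real, Real.norm_of_nonneg hτ.le,
    Complex.norm_exp]
  simp

theorem un_ne {τ θ : ℝ} (hτ : 0 < τ) : un τ θ ≠ 0 := by
  rw [← norm_pos_iff, norm_un hτ]; exact hτ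

noncomputable def gS (f : ℂ → ℂ) (τ θ : ℝ) (ζ : ℂ) : ℂ := f (xi τ θ ζ) / un τ θ

noncomputable def pS (f : ℂ → ℂ) (τ θ : ℝ) (ζ : ℂ) : ℂ := deriv f (xi τ θ ζ)

noncomputable def qS (f : ℂ → ℂ) (τ θ : ℝ) (ζ : ℂ) : ℂ := un τ θ * deriv (deriv f) (xi τ θ ζ)

theorem xi_split (τ θ : ℝ) (ζ : ℂ) :
    xi τ θ ζ = Complex.exp (Complex.I * θ) * Complex.exp (Complex.I * (τ * ζ)) := by
  rw [xi, ← Complex.exp_add]; ring_nf

section one

variable {f : ℂ → ℂ} {τ θ : ℝ}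

theorem gS_deriv (hf : ClsD f) (hτ : 0 < τ) {ζ : ℂ} (hζ : ζ ∈ HH) :
    HasDerivAt (gS f τ θ) (pS f τ θ ζ * Complex.exp (Complex.I * (τ * ζ))) ζ := by
  have h1 := xi_mem (θ := θ) hτ hζ
  have e1 : HasDerivAt (fun ζ => f (xi τ θ ζ)) (deriv f (xi τ θ ζ) * (Complex.I * τ * xi τ θ ζ)) ζ :=
    HasDerivAt.comp ζ (hf.diff.differentiableAt (isOpen_ball.mem_nhds h1)).hasDerivAt
      (xi_hasDerivAt τ θ ζ)
  refine (e1.div_const (un τ θ)).congr_deriv ?_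
  have h2 := un_ne (θ := θ) hτ
  rw [pS, div_eq_iff h2, un]
  nth_rewrite 2 [xi_split]
  ring

theorem pS_deriv (hf : ClsD f) (hτ : 0 < τ) {ζ : ℂ} (hζ : ζ ∈ HH) :
    HasDerivAt (pS f τ θ) (qS f τ θ ζ * Complex.exp (Complex.I * (τ * ζ))) ζ := by
  have h1 := xi_mem (θ := θ) hτ hζ
  have e1 : HasDerivAt (fun ζ => deriv f (xi τ θ ζ))
      (deriv (deriv f) (xi τ θ ζ) * (Complex.I * τ * xi τ θ ζ)) ζ :=
    HasDerivAt.comp ζ ((hf.diff.deriv isOpen_ball).differentiableAt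
      (isOpen_ball.mem_nhds h1)).hasDerivAt (xi_hasDerivAt τ θ ζ)
  refine e1.congr_deriv ?_
  rw [qS, un]
  nth_rewrite 2 [xi_split]
  ring

theorem gS_diff (hf : ClsD f) (hτ : 0 < τ) : DifferentiableOn ℂ (gS f τ θ) HH := fun _ hζ =>
  (gS_deriv hf hτ hζ).differentiableAt.differentiableWithinAt

theorem pS_diff (hf : ClsD f) (hτ : 0 < τ) : DifferentiableOn ℂ (pS f τ θ) HH := fun _ hζ =>
  (pS_deriv hf hτ hζ).differentiableAt.differentiableWithinAt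

theorem qS_diff (hf : ClsD f) (hτ : 0 < τ) : DifferentiableOn ℂ (qS f τ θ) HH := by
  intro ζ hζ
  have h1 := xi_mem (θ := θ) hτ hζ
  have e1 := HasDerivAt.comp ζ (((hf.diff.deriv isOpen_ball).deriv isOpen_ball).differentiableAt
      (isOpen_ball.mem_nhds h1)).hasDerivAt (xi_hasDerivAt τ θ ζ)
  exact (e1.const_mul (un τ θ)).differentiableAt.differentiableWithinAt

theorem norm_gS (hf : ClsD f) (hτ : 0 < τ) {ζ : ℂ} (hζ : ζ ∈ HH) :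
    ‖gS f τ θ ζ‖ = YY (τ * ζ.im) / τ * Real.exp (VD f (xi τ θ ζ)) := by
  rw [gS, norm_div, norm_un hτ, hf.norm_eq (xi_mem hτ hζ), YD_xi]
  ring

end one

section seq

variable {f : ℕ → ℂ → ℂ} {τ θ : ℕ → ℝ} {V₀ : ℝ}

theorem gS_LocB2 (hf : ∀ n, ClsD (f n)) (hτ : ∀ n, 0 < τ n) (hτ1 : ∀ n, τ n ≤ 1)
    (hV : ∀ n, |VD (f n) (zz (τ n) (θ n))| ≤ V₀) :
    LocB2 (fun n => gS (f n) (τ n) (θ n)) := by
  intro R m hR hm hm1
  refine ⟨R * Real.exp (Kb V₀ R m), fun n ζ h1 h2 => ?_⟩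
  have hζ : ζ ∈ HH := lt_of_lt_of_le hm h2
  have him : ζ.im ≤ R := (Complex.im_le_norm ζ).trans h1
  rw [norm_gS (hf n) (hτ n) hζ]
  have h3 := (hf n).V_bound (hτ n) (hτ1 n) (hV n) hm hm1 hR h1 h2
  have h4 : YY (τ n * ζ.im) / τ n ≤ R := by
    rw [div_le_iff₀ (hτ n)]
    refine YY_le.trans ?_
    have := hτ n
    nlinarith
  have h5 : VD (f n) (xi (τ n) (θ n) ζ) ≤ Kb V₀ R m := (le_abs_self _).trans h3
  gcongr

theorem pS_LocB2 (hf : ∀ n, ClsD (f n)) (hτ : ∀ n, 0 < τ n) (hτ1 : ∀ n, τ n ≤ 1)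
    (hV : ∀ n, |VD (f n) (zz (τ n) (θ n))| ≤ V₀) :
    LocB2 (fun n => pS (f n) (τ n) (θ n)) := by
  intro R m hR hm hm1
  refine ⟨Real.exp (Kb V₀ R m) * (C0 * (1 + Kb V₀ R m)), fun n ζ h1 h2 => ?_⟩
  have hζ : ζ ∈ HH := lt_of_lt_of_le hm h2
  have h3 := (hf n).V_bound (hτ n) (hτ1 n) (hV n) hm hm1 hR h1 h2
  have h5 : VD (f n) (xi (τ n) (θ n) ζ) ≤ Kb V₀ R m := (le_abs_self _).trans h3
  have h6 := C0_ge
  refine ((hf n).grad (xi_mem (hτ n) hζ)).trans ?_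
  gcongr

theorem qS_LocB2 (hf : ∀ n, ClsD (f n)) (hτ : ∀ n, 0 < τ n) (hτ1 : ∀ n, τ n ≤ 1)
    (hV : ∀ n, |VD (f n) (zz (τ n) (θ n))| ≤ V₀) :
    LocB2 (fun n => qS (f n) (τ n) (θ n)) := by
  intro R m hR hm hm1
  obtain ⟨M, hM⟩ := (pS_LocB2 hf hτ hτ1 hV).deriv (fun n => pS_diff (hf n) (hτ n)) R m hR hm hm1
  refine ⟨M * Real.exp R, fun n ζ h1 h2 => ?_⟩
  have hζ : ζ ∈ HH := lt_of_lt_of_le hm h2
  have h3 := hM n ζ h1 h2
  have h4 : deriv (pS (f n) (τ n) (θ n)) ζ = _ := (pS_deriv (hf n) (hτ n) hζ).deriv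
  simp only [h4, norm_mul] at h3
  have him : ζ.im ≤ R := (Complex.im_le_norm ζ).trans h1
  have him0 : 0 < ζ.im := hζ
  have h5 : ‖Complex.exp (Complex.I * (τ n * ζ))‖ = Real.exp (-(τ n * ζ.im)) := by
    rw [Complex.norm_exp]; simp
  have h6 : Real.exp (-R) ≤ ‖Complex.exp (Complex.I * (τ n * ζ))‖ := by
    rw [h5]
    apply Real.exp_le_exp.2
    have := hτ1 n
    have := hτ n
    nlinarith
  have h7 : ‖qS (f n) (τ n) (θ n) ζ‖ * Real.exp (-R) ≤ M :=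
    le_trans (by gcongr) h3
  calc ‖qS (f n) (τ n) (θ n) ζ‖ = ‖qS (f n) (τ n) (θ n) ζ‖ * Real.exp (-R) * Real.exp R := by
        rw [mul_assoc, ← Real.exp_add]; simp
    _ ≤ M * Real.exp R := by gcongr

theorem exp_tendsto {U : Filter ℕ} {τ : ℕ → ℝ} (hlim : Tendsto τ U (𝓝 0)) (ζ : ℂ) :
    Tendsto (fun n => Complex.exp (Complex.I * (τ n * ζ))) U (𝓝 1) := by
  have h1 : Tendsto (fun n => (τ n : ℂ)) U (𝓝 ((0 : ℝ) : ℂ)) :=
    (Complex.continuous_ofReal.tendsto 0).comp hlim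
  have h2 : Tendsto (fun n => Complex.I * (τ n * ζ)) U (𝓝 (Complex.I * (((0 : ℝ) : ℂ) * ζ))) :=
    (h1.mul_const ζ).const_mul _
  have h3 := (Complex.continuous_exp.tendsto _).comp h2
  have e : Complex.exp (Complex.I * (((0 : ℝ) : ℂ) * ζ)) = 1 := by simp
  rw [e] at h3
  exact h3

/-- compactness -/
theorem cpt (U : Ultrafilter ℕ) (hf : ∀ n, ClsD (f n)) (hτ : ∀ n, 0 < τ n) (hτ1 : ∀ n, τ n ≤ 1)
    (hlim : Tendsto τ U (𝓝 0)) (hV : ∀ n, |VD (f n) (zz (τ n) (θ n))| ≤ V₀) :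
    ∃ g : ℂ → ℂ, DifferentiableOn ℂ g HH ∧ (∀ ζ ∈ HH, g ζ ≠ 0) ∧
      ((∀ ζ ∈ HH, deriv g ζ ≠ 1) ∨ (∀ ζ ∈ HH, deriv g ζ = 1)) ∧
      (∀ ζ ∈ HH, Tendsto (fun n => gS (f n) (τ n) (θ n) ζ) U (𝓝 (g ζ))) ∧
      (∀ ζ ∈ HH, Tendsto (fun n => pS (f n) (τ n) (θ n) ζ) U (𝓝 (deriv g ζ))) ∧
      (∀ ζ ∈ HH, Tendsto (fun n => qS (f n) (τ n) (θ n) ζ) U (𝓝 (deriv (deriv g) ζ))) := by
  have hgd : ∀ n, DifferentiableOn ℂ (gS (f n) (τ n) (θ n)) HH := fun n => gS_diff (hf n) (hτ n)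
  have hpd : ∀ n, DifferentiableOn ℂ (pS (f n) (τ n) (θ n)) HH := fun n => pS_diff (hf n) (hτ n)
  have hgb := gS_LocB2 hf hτ hτ1 hV
  have hpb := pS_LocB2 hf hτ hτ1 hV
  obtain ⟨g, hg1, hg2, hg3⟩ := ultra_holo U hgd hgb.locB
  obtain ⟨p, hp1, hp2, hp3⟩ := ultra_holo U hpd hpb.locB
  have hexp := exp_tendsto hlim
  have hexp' : ∀ ζ : ℂ, Tendsto (fun n => Complex.exp (-(Complex.I * (τ n * ζ)))) U (𝓝 1) := by
    intro ζ
    have := hexp (-ζ)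
    refine this.congr fun n => ?_
    congr 1; ring
  have hpg : ∀ ζ ∈ HH, Tendsto (fun n => pS (f n) (τ n) (θ n) ζ) U (𝓝 (deriv g ζ)) := by
    intro ζ hζ
    have h1 := (hg3 ζ hζ).mul (hexp' ζ)
    rw [mul_one] at h1
    refine h1.congr fun n => ?_
    rw [(gS_deriv (hf n) (hτ n) hζ).deriv, mul_assoc, ← Complex.exp_add]
    simp
  have hpeq : ∀ ζ ∈ HH, p ζ = deriv g ζ := fun ζ hζ => tendsto_nhds_unique (hp1 ζ hζ) (hpg ζ hζ)
  have hqg : ∀ ζ ∈ HH, Tendsto (fun n => qS (f n) (τ n) (θ n) ζ) U (𝓝 (deriv (deriv g) ζ)) := by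
    intro ζ hζ
    have h0 : deriv p ζ = deriv (deriv g) ζ := by
      apply Filter.EventuallyEq.deriv_eq
      filter_upwards [isOpen_HH.mem_nhds hζ] with w hw
      exact hpeq w hw
    have h1 := (hp3 ζ hζ).mul (hexp' ζ)
    rw [mul_one, h0] at h1
    refine h1.congr fun n => ?_
    rw [(pS_deriv (hf n) (hτ n) hζ).deriv, mul_assoc, ← Complex.exp_add]
    simp
  have hdg : DifferentiableOn ℂ (deriv g) HH := hg2.deriv isOpen_HH
  refine ⟨g, hg2, ?_, ?_, hg1, hpg, hqg⟩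
  · intro ζ hζ
    have him : 0 < ζ.im := hζ
    set R := 1 + ‖ζ‖ with hR
    set m := min 1 ζ.im with hm
    have hm0 : 0 < m := lt_min one_pos him
    have hR1 : 1 ≤ R := by rw [hR]; linarith [norm_nonneg ζ]
    have hlow : ζ.im * Real.exp (-2 * ζ.im) * Real.exp (-(Kb V₀ R m)) ≤ ‖g ζ‖ := by
      apply ge_of_tendsto (hg1 ζ hζ).norm
      refine Filter.Eventually.of_forall fun n => ?_
      rw [norm_gS (hf n) (hτ n) hζ]
      have h3 := (hf n).V_bound (hτ n) (hτ1 n) (hV n) hm0 (min_le_left _ _) hR1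
        (by rw [hR]; linarith) (min_le_right _ _)
      have h5 : -(Kb V₀ R m) ≤ VD (f n) (xi (τ n) (θ n) ζ) := (abs_le.1 h3).1
      have h6 : ζ.im * Real.exp (-2 * ζ.im) ≤ YY (τ n * ζ.im) / τ n := by
        rw [le_div_iff₀ (hτ n)]
        refine le_trans ?_ (YY_ge (s := τ n * ζ.im))
        have h7 := hτ n
        have h8 := hτ1 n
        have h9 : Real.exp (-2 * ζ.im) ≤ Real.exp (-2 * (τ n * ζ.im)) := by
          apply Real.exp_le_exp.2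
          nlinarith
        calc ζ.im * Real.exp (-2 * ζ.im) * τ n = (τ n * ζ.im) * Real.exp (-2 * ζ.im) := by ring
          _ ≤ _ := by gcongr
      have h10 : 0 ≤ YY (τ n * ζ.im) / τ n := le_trans (by positivity) h6
      gcongr
    intro h0
    rw [h0, norm_zero] at hlow
    have : 0 < ζ.im * Real.exp (-2 * ζ.im) * Real.exp (-(Kb V₀ R m)) := by positivity
    linarith
  · have hG : LocB (fun n ζ => pS (f n) (τ n) (θ n) ζ - 1) := by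
      intro ζ₀ hζ₀
      obtain ⟨M, hM⟩ := hpb.locB ζ₀ hζ₀
      refine ⟨M + 1, fun n ζ hζ => ?_⟩
      refine (norm_sub_le _ _).trans ?_
      rw [norm_one]
      exact add_le_add (hM n ζ hζ) le_rfl
    have := hurwitz U (G := fun n ζ => pS (f n) (τ n) (θ n) ζ - 1) (g := fun ζ => deriv g ζ - 1)
      (fun n => (hpd n).sub_const 1) hG (fun ζ hζ => (hpg ζ hζ).sub_const 1)
      (hdg.sub_const 1) (fun ζ₀ hζ₀ => Filter.Eventually.of_forall fun n ζ hζ =>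
        sub_ne_zero.2 ((hf n).ne1 _ (xi_mem (hτ n) (half_ball_sub hζ₀ hζ))))
    rcases this with h | h
    · left; intro ζ hζ; exact sub_ne_zero.1 (h ζ hζ)
    · right; intro ζ hζ; exact sub_eq_zero.1 (h ζ hζ)

end seq

end Pool.Agent.SS
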