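import Mathlib

/-!
A smooth cut-off of half the logarithm.
-/

set_option autoImplicit false

open Set Metric Filter MeasureTheory
open scoped Topology Real

namespace Pool.Agent.SS

/-- smooth step from `0` (for `x ≤ δ`) to `1` (for `x ≥ 2 δ`) -/
noncomputable def sg (δ x : ℝ) : ℝ := Real.smoothTransition ((x - δ) / δ)

noncomputable def G1 (δ x : ℝ) : ℝ := sg δ x / (2 * x)

noncomputable def G2 (δ x : ℝ) : ℝ := deriv (G1 δ) x

noncomputable def Gf (δ x : ℝ) : ℝ := ∫ t in δ..x, G1 δ t

variable {δ x : ℝ}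

theorem sg_zero (hδ : 0 < δ) (hx : x ≤ δ) : sg δ x = 0 :=
  Real.smoothTransition.zero_of_nonpos (div_nonpos_of_nonpos_of_nonneg (by linarith) hδ.le)

theorem sg_one (hδ : 0 < δ) (hx : 2 * δ ≤ x) : sg δ x = 1 :=
  Real.smoothTransition.one_of_one_le (by rw [one_le_div hδ]; linarith)

theorem sg_nonneg (δ x : ℝ) : 0 ≤ sg δ x := Real.smoothTransition.nonneg _

theorem sg_le_one (δ x : ℝ) : sg δ x ≤ 1 := Real.smoothTransition.le_one _

theorem sg_contDiff (δ : ℝ) : ContDiff ℝ 2 (sg δ) := by
  unfold sg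
  exact (Real.smoothTransition.contDiff (n := 2)).comp (by fun_prop)

theorem sg_cont (δ : ℝ) : Continuous (sg δ) := (sg_contDiff δ).continuous

theorem sg_mono (hδ : 0 < δ) : Monotone (sg δ) := by
  intro a b hab
  exact Real.smoothTransition.monotone (div_le_div_of_nonneg_right (by linarith) hδ.le)

theorem G1_zero (hδ : 0 < δ) (hx : x ≤ δ) : G1 δ x = 0 := by
  unfold G1; rw [sg_zero hδ hx, zero_div]

theorem G1_nonneg (hδ : 0 < δ) (x : ℝ) : 0 ≤ G1 δ x := by
  rcases le_total x δ with h | h
  · rw [G1_zero hδ h]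
  · exact div_nonneg (sg_nonneg _ _) (by linarith)

theorem G1_mul (hδ : 0 < δ) (x : ℝ) : 2 * x * G1 δ x = sg δ x := by
  rcases eq_or_ne x 0 with h | h
  · rw [h, sg_zero hδ hδ.le]; simp
  · unfold G1; field_simp

theorem G1_contDiff (hδ : 0 < δ) : ContDiff ℝ 1 (G1 δ) := by
  rw [contDiff_iff_contDiffAt]
  intro x
  rcases lt_or_ge x δ with h | h
  · have : G1 δ =ᶠ[𝓝 x] fun _ => 0 := by
      filter_upwards [isOpen_Iio.mem_nhds h] with y hy
      exact G1_zero hδ (le_of_lt hy)
    exact contDiffAt_const.congr_of_eventuallyEq this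
  · unfold G1
    apply ContDiffAt.div
    · exact ((sg_contDiff δ).of_le (by norm_num)).contDiffAt
    · fun_prop
    · have : 0 < 2 * x := by linarith
      exact this.ne'

theorem G1_cont (hδ : 0 < δ) : Continuous (G1 δ) := (G1_contDiff hδ).continuous

theorem Gf_deriv (hδ : 0 < δ) (x : ℝ) : HasDerivAt (Gf δ) (G1 δ x) x :=
  intervalIntegral.integral_hasDerivAt_right ((G1_cont hδ).intervalIntegrable _ _)
    ((G1_cont hδ).stronglyMeasurableAtFilter _ _) (G1_cont hδ).continuousAt

theorem G1_deriv (hδ : 0 < δ) (x : ℝ) : HasDerivAt (G1 δ) (G2 δ x) x :=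
  ((G1_contDiff hδ).differentiable (by norm_num) x).hasDerivAt

theorem G2_cont (hδ : 0 < δ) : Continuous (G2 δ) := (G1_contDiff hδ).continuous_deriv (by norm_num)

theorem G_conv (hδ : 0 < δ) (x : ℝ) (_hx : 0 < x) : 0 ≤ G1 δ x + x * G2 δ x := by
  have e1 : HasDerivAt (fun y => y * G1 δ y) (1 * G1 δ x + x * G2 δ x) x :=
    (hasDerivAt_id x).mul (G1_deriv hδ x)
  have e2 : (fun y => y * G1 δ y) = fun y => sg δ y / 2 := by
    funext y
    have := G1_mul hδ y
    linarith
  have hmono : Monotone (fun y => y * G1 δ y) := by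
    rw [e2]
    intro a b hab
    have := sg_mono hδ hab
    simp only
    linarith
  have := hmono.deriv_nonneg (x := x)
  rw [e1.deriv, one_mul] at this
  exact this

theorem Gf_le (hδ : 0 < δ) (hx : 0 ≤ x) : Gf δ x ≤ 1 / 2 * Real.log (1 + x) + |Real.log δ| / 2 := by
  have hlog : 0 ≤ Real.log (1 + x) := Real.log_nonneg (by linarith)
  rcases le_total x δ with h | h
  · have : Gf δ x = 0 := by
      unfold Gf
      rw [intervalIntegral.integral_symm, intervalIntegral.integral_zero_ae, neg_zero]
      refine Filter.Eventually.of_forall fun t ht => ?_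
      rw [uIoc_of_le h] at ht
      exact G1_zero hδ ht.2
    rw [this]
    positivity
  · have hx0 : 0 < x := by linarith
    have h1 : Gf δ x ≤ ∫ t in δ..x, 1 / 2 * t⁻¹ := by
      unfold Gf
      apply intervalIntegral.integral_mono_on h ((G1_cont hδ).intervalIntegrable _ _)
      · apply ContinuousOn.intervalIntegrable
        rw [uIcc_of_le h]
        apply ContinuousOn.mul continuousOn_const
        apply ContinuousOn.inv₀ continuousOn_id
        intro t ht
        have : 0 < t := lt_of_lt_of_le hδ ht.1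
        exact this.ne'
      · intro t ht
        have h2 : 0 < t := lt_of_lt_of_le hδ ht.1
        unfold G1
        rw [div_le_iff₀ (by positivity)]
        have := sg_le_one δ t
        have e : 1 / 2 * t⁻¹ * (2 * t) = 1 := by field_simp
        rw [e]; exact this
    rw [intervalIntegral.integral_const_mul, integral_inv_of_pos hδ hx0] at h1
    rw [Real.log_div hx0.ne' hδ.ne'] at h1
    have h2 : Real.log x ≤ Real.log (1 + x) := Real.log_le_log hx0 (by linarith)
    have h3 := neg_abs_le (Real.log δ)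
    linarith

end Pool.Agent.SS
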