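import Mathlib

/-!
Log-polar quantities attached to a holomorphic function on the unit disc.
-/

set_option autoImplicit false

open Set Metric Filter
open scoped Topology Real ComplexConjugate

namespace Pool.Agent.SS

/-- the point of the unit disc with log-polar coordinates `τ > 0`, `θ` -/
noncomputable def zz (τ θ : ℝ) : ℂ := Complex.exp (-(τ : ℂ) + (θ : ℂ) * Complex.I)

/-- `(1 - |z|²)/2` at `z = zz τ θ` -/
noncomputable def YY (τ : ℝ) : ℝ := (1 - Real.exp (-2 * τ)) / 2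

/-- `S = Y² + |f|²` -/
noncomputable def SF (f : ℂ → ℂ) (τ θ : ℝ) : ℝ := YY τ ^ 2 + ‖f (zz τ θ)‖ ^ 2

/-- the density `j` -/
noncomputable def JJ (f : ℂ → ℂ) (τ θ : ℝ) : ℝ :=
  YY τ ^ 2 * (2 * ‖(YY τ : ℂ) * deriv f (zz τ θ) + conj (zz τ θ) * f (zz τ θ)‖ ^ 2
    / SF f τ θ ^ 2 - 1 / SF f τ θ)

/-- `E = Y² S |h|²` -/
noncomputable def EE (f h : ℂ → ℂ) (τ θ : ℝ) : ℝ := YY τ ^ 2 * SF f τ θ * ‖h (zz τ θ)‖ ^ 2

end Pool.Agent.SS
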