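import Pool.Agent.Lib52.SS.Ultra
import Pool.Agent.Lib52.SS.PolarDefs

set_option autoImplicit false

open Set Metric Filter
open scoped Topology ComplexConjugate

namespace Pool.Agent.SS

/-- the class in the disc -/
structure ClsD (f : ℂ → ℂ) : Prop where
  diff : DifferentiableOn ℂ f (ball 0 1)
  ne0 : ∀ z ∈ ball (0 : ℂ) 1, f z ≠ 0
  ne1 : ∀ z ∈ ball (0 : ℂ) 1, deriv f z ≠ 1

noncomputable def YD (z : ℂ) : ℝ := (1 - ‖z‖ ^ 2) / 2

noncomputable def VD (f : ℂ → ℂ) (z : ℂ) : ℝ := Real.log (‖f z‖ / YD z)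

theorem mem_D {z : ℂ} : z ∈ ball (0 : ℂ) 1 ↔ ‖z‖ < 1 := by rw [mem_ball, dist_zero_right]

theorem YD_pos {z : ℂ} (hz : z ∈ ball (0 : ℂ) 1) : 0 < YD z := by
  rw [mem_D] at hz
  unfold YD
  have := norm_nonneg z
  nlinarith

theorem YD_le {z : ℂ} : YD z ≤ 1 / 2 := by
  unfold YD
  have := sq_nonneg ‖z‖
  linarith

theorem ball_sub_D {z : ℂ} (hz : z ∈ ball (0 : ℂ) 1) {ρ : ℝ} (hρ : ρ ≤ YD z) :
    ball z ρ ⊆ ball 0 1 := by
  intro w hw
  rw [mem_D] at *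
  rw [mem_ball, dist_eq_norm] at hw
  have h1 : ‖w‖ ≤ ‖w - z‖ + ‖z‖ := by
    calc ‖w‖ = ‖(w - z) + z‖ := by ring_nf
      _ ≤ _ := norm_add_le _ _
  have h2 : YD z ≤ 1 - ‖z‖ := by
    unfold YD
    nlinarith [norm_nonneg z]
  linarith

section cls

variable {f : ℂ → ℂ}

theorem ClsD.norm_pos (hf : ClsD f) {z : ℂ} (hz : z ∈ ball (0 : ℂ) 1) : 0 < ‖f z‖ :=
  norm_pos_iff.2 (hf.ne0 z hz)

theorem ClsD.norm_eq (hf : ClsD f) {z : ℂ} (hz : z ∈ ball (0 : ℂ) 1) :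
    ‖f z‖ = YD z * Real.exp (VD f z) := by
  have h1 := YD_pos hz
  rw [VD, Real.exp_log (div_pos (hf.norm_pos hz) h1)]
  field_simp

theorem ClsD.grad (hf : ClsD f) {z : ℂ} (hz : z ∈ ball (0 : ℂ) 1) :
    ‖deriv f z‖ ≤ Real.exp (VD f z) * (C0 * (1 + |VD f z|)) := by
  have h1 := YD_pos hz
  have hsub : ball z (YD z) ⊆ ball 0 1 := ball_sub_D hz le_rfl
  have h2 := MG f z (YD z) h1 (hf.diff.mono hsub) (fun w hw => hf.ne0 w (hsub hw))
    (fun w hw => hf.ne1 w (hsub hw))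
  have h3 : ‖f z‖ / YD z = Real.exp (VD f z) := by
    rw [hf.norm_eq hz]; field_simp
  rw [VD]
  rw [Real.exp_log (div_pos (hf.norm_pos hz) h1)]
  exact h2

/-- the scaled logarithmic derivative -/
theorem ClsD.kap_le (hf : ClsD f) {z : ℂ} (hz : z ∈ ball (0 : ℂ) 1) :
    YD z * ‖deriv f z‖ / ‖f z‖ ≤ C0 * (1 + |VD f z|) := by
  have h1 := YD_pos hz
  have h2 := hf.grad hz
  rw [div_le_iff₀ (hf.norm_pos hz), hf.norm_eq hz]
  calc YD z * ‖deriv f z‖ ≤ YD z * (Real.exp (VD f z) * (C0 * (1 + |VD f z|))) := by gcongr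
    _ = _ := by ring

theorem ClsD.path (hf : ClsD f) {γ : ℝ → ℂ} {γ' : ℂ} {t : ℝ} (h : HasDerivAt γ γ' t)
    (hz : γ t ∈ ball (0 : ℂ) 1) :
    HasDerivAt (fun s => VD f (γ s))
      ((deriv f (γ t) / f (γ t) * γ').re - (-(inner ℝ (γ t) γ')) / YD (γ t)) t := by
  have h1 := YD_pos hz
  have e1 : HasDerivAt (fun s => f (γ s)) (deriv f (γ t) * γ') t :=
    HasDerivAt.comp t (hf.diff.differentiableAt (isOpen_ball.mem_nhds hz)).hasDerivAt h
  have e2 := hasDerivAt_log_norm e1 (hf.ne0 _ hz)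
  have e3 : HasDerivAt (fun s => YD (γ s)) (-(inner ℝ (γ t) γ')) t := by
    have := (h.norm_sq.const_sub 1).div_const 2
    refine this.congr_deriv ?_
    ring
  have e4 := e3.log h1.ne'
  have e5 := e2.sub e4
  have e6 : deriv f (γ t) * γ' / f (γ t) = deriv f (γ t) / f (γ t) * γ' := by ring
  rw [e6] at e5
  refine e5.congr_of_eventuallyEq ?_
  have hev : ∀ᶠ s in 𝓝 t, γ s ∈ ball (0 : ℂ) 1 :=
    h.continuousAt.eventually_mem (isOpen_ball.mem_nhds hz)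
  filter_upwards [hev] with s hs
  show VD f (γ s) = Real.log ‖f (γ s)‖ - Real.log (YD (γ s))
  rw [VD, Real.log_div (hf.norm_pos hs).ne' (YD_pos hs).ne']

theorem ClsD.path_bound (hf : ClsD f) {z γ' : ℂ} (hz : z ∈ ball (0 : ℂ) 1) :
    |(deriv f z / f z * γ').re - (-(inner ℝ z γ')) / YD z| ≤
      (C0 * (1 + |VD f z|) + 1) * (‖γ'‖ / YD z) := by
  have h1 := YD_pos hz
  have hz1 : ‖z‖ < 1 := mem_D.1 hz
  have e1 : |(deriv f z / f z * γ').re| ≤ (YD z * ‖deriv f z‖ / ‖f z‖) * (‖γ'‖ / YD z) := by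
    refine (Complex.abs_re_le_norm _).trans (le_of_eq ?_)
    rw [norm_mul, norm_div]
    field_simp
  have e2 : |(-(inner ℝ z γ')) / YD z| ≤ 1 * (‖γ'‖ / YD z) := by
    rw [abs_div, abs_of_pos h1, one_mul, abs_neg]
    gcongr
    calc |inner ℝ z γ'| ≤ ‖z‖ * ‖γ'‖ := abs_real_inner_le_norm _ _
      _ ≤ 1 * ‖γ'‖ := by gcongr
      _ = ‖γ'‖ := one_mul _
  calc |(deriv f z / f z * γ').re - (-(inner ℝ z γ')) / YD z|
      ≤ |(deriv f z / f z * γ').re| + |(-(inner ℝ z γ')) / YD z| := abs_sub _ _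
    _ ≤ (YD z * ‖deriv f z‖ / ‖f z‖) * (‖γ'‖ / YD z) + 1 * (‖γ'‖ / YD z) := add_le_add e1 e2
    _ = ((YD z * ‖deriv f z‖ / ‖f z‖) + 1) * (‖γ'‖ / YD z) := by ring
    _ ≤ _ := by
        gcongr
        exact hf.kap_le hz

theorem segD_min {z z' : ℂ} {t : ℝ} (ht : t ∈ Icc (0 : ℝ) 1) :
    min (YD z) (YD z') ≤ YD (z + t * (z' - z)) := by
  have h1 : (1 - t) * YD z + t * YD z' ≤ YD (z + t * (z' - z)) := by
    unfold YD
    rw [Complex.sq_norm, Complex.sq_norm, Complex.sq_norm, Complex.normSq_apply,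
      Complex.normSq_apply, Complex.normSq_apply]
    simp only [Complex.add_re, Complex.add_im, Complex.mul_re, Complex.mul_im,
      Complex.ofReal_re, Complex.ofReal_im, Complex.sub_re, Complex.sub_im]
    nlinarith [mul_nonneg ht.1 (sub_nonneg.2 ht.2), mul_nonneg (mul_nonneg ht.1 (sub_nonneg.2 ht.2))
      (add_nonneg (sq_nonneg (z'.re - z.re)) (sq_nonneg (z'.im - z.im)))]
  refine le_trans ?_ h1
  have h2 := min_le_left (YD z) (YD z')
  have h3 := min_le_right (YD z) (YD z')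
  nlinarith [ht.1, ht.2]

theorem segD_mem {z z' : ℂ} (hz : z ∈ ball (0 : ℂ) 1) (hz' : z' ∈ ball (0 : ℂ) 1) {t : ℝ}
    (ht : t ∈ Icc (0 : ℝ) 1) : z + t * (z' - z) ∈ ball (0 : ℂ) 1 := by
  have h1 := segD_min (z := z) (z' := z') ht
  have h2 : 0 < min (YD z) (YD z') := lt_min (YD_pos hz) (YD_pos hz')
  have h3 : 0 < YD (z + t * (z' - z)) := lt_of_lt_of_le h2 h1
  unfold YD at h3
  rw [mem_D]
  nlinarith [norm_nonneg (z + t * (z' - z))]

theorem ClsD.seg_N (hf : ClsD f) {z z' : ℂ} (hz : z ∈ ball (0 : ℂ) 1)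
    (hz' : z' ∈ ball (0 : ℂ) 1) :
    |NN (VD f z') - NN (VD f z)| ≤ C2 * (‖z' - z‖ / min (YD z) (YD z')) := by
  have hmin : 0 < min (YD z) (YD z') := lt_min (YD_pos hz) (YD_pos hz')
  set D := ‖z' - z‖ / min (YD z) (YD z') with hD
  have key := N_lip (r := 1) (W := fun t : ℝ => VD f (z + t * (z' - z)))
    (W' := fun t : ℝ => (deriv f (z + t * (z' - z)) / f (z + t * (z' - z)) * (z' - z)).re -
      (-(inner ℝ (z + t * (z' - z)) (z' - z))) / YD (z + t * (z' - z)))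
    (M := fun t => D * t) (m := fun _ => D)
    zero_le_one (fun t ht => hf.path (seg_deriv z z' t) (segD_mem hz hz' ht))
    (fun t _ => by simpa using (hasDerivAt_id t).const_mul D) (fun t _ => by positivity)
    (fun t ht => by
      refine (hf.path_bound (segD_mem hz hz' ht)).trans ?_
      have h4 := C0_ge
      gcongr
      rw [hD]
      exact div_le_div_of_nonneg_left (norm_nonneg _) hmin (segD_min ht))
  simpa using key

theorem NN_mono {x y : ℝ} (h : |x| ≤ y) : NN x ≤ NN y := by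
  unfold NN
  have h1 : x ^ 2 ≤ y ^ 2 := by
    rw [← sq_abs x]; exact pow_le_pow_left₀ (abs_nonneg _) h 2
  have := Real.log_le_log (show (0 : ℝ) < 1 + x ^ 2 by positivity)
    (show 1 + x ^ 2 ≤ 1 + y ^ 2 by linarith)
  linarith

end cls

section coord

theorem norm_zz (τ θ : ℝ) : ‖zz τ θ‖ = Real.exp (-τ) := by
  rw [zz, Complex.norm_exp]
  simp

theorem zz_mem {τ θ : ℝ} (hτ : 0 < τ) : zz τ θ ∈ ball (0 : ℂ) 1 := by
  rw [mem_D, norm_zz]
  rw [← Real.exp_zero]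
  exact Real.exp_lt_exp.2 (by linarith)

theorem YD_zz (τ θ : ℝ) : YD (zz τ θ) = YY τ := by
  rw [YD, YY, norm_zz, ← Real.exp_nat_mul]
  congr 3
  push_cast; ring_nf

theorem YY_le {s : ℝ} : YY s ≤ s := by
  unfold YY
  have := Real.add_one_le_exp (-2 * s)
  linarith

theorem YY_ge {s : ℝ} : s * Real.exp (-2 * s) ≤ YY s := by
  unfold YY
  have h1 := Real.add_one_le_exp (2 * s)
  have h2 : Real.exp (2 * s) * Real.exp (-2 * s) = 1 := by
    rw [← Real.exp_add]; simp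
  have h3 := Real.exp_pos (-2 * s)
  nlinarith

theorem YY_pos {s : ℝ} (hs : 0 < s) : 0 < YY s :=
  lt_of_lt_of_le (by positivity) YY_ge

/-- the blow-up coordinate -/
noncomputable def xi (τ θ : ℝ) (ζ : ℂ) : ℂ := Complex.exp (Complex.I * (θ + τ * ζ))

theorem xi_eq (τ θ : ℝ) (ζ : ℂ) : xi τ θ ζ = zz (τ * ζ.im) (θ + τ * ζ.re) := by
  rw [xi, zz]
  congr 1
  apply Complex.ext
  · simp
  · simp

theorem xi_I (τ θ : ℝ) : xi τ θ Complex.I = zz τ θ := by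
  rw [xi_eq]; simp

theorem xi_mem {τ θ : ℝ} {ζ : ℂ} (hτ : 0 < τ) (hζ : ζ ∈ HH) : xi τ θ ζ ∈ ball (0 : ℂ) 1 := by
  rw [xi_eq]
  exact zz_mem (mul_pos hτ hζ)

theorem xi_hasDerivAt (τ θ : ℝ) (ζ : ℂ) :
    HasDerivAt (xi τ θ) (Complex.I * τ * xi τ θ ζ) ζ := by
  have e1 : HasDerivAt (fun ζ : ℂ => Complex.I * (θ + τ * ζ)) (Complex.I * τ) ζ := by
    have := (((hasDerivAt_id ζ).const_mul (τ : ℂ)).const_add (θ : ℂ)).const_mul Complex.I
    simpa using this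
  have := e1.cexp
  refine this.congr_deriv ?_
  rw [xi]; ring

theorem YD_xi (τ θ : ℝ) (ζ : ℂ) : YD (xi τ θ ζ) = YY (τ * ζ.im) := by
  rw [xi_eq, YD_zz]

theorem xi_lip {τ θ : ℝ} (hτ : 0 < τ) {ζ ζ' : ℂ} (hζ : ζ ∈ HH) (hζ' : ζ' ∈ HH) :
    ‖xi τ θ ζ' - xi τ θ ζ‖ ≤ τ * ‖ζ' - ζ‖ := by
  refine convex_HH.norm_image_sub_le_of_norm_hasDerivWithin_le (f := xi τ θ)
      (f' := fun ζ => Complex.I * τ * xi τ θ ζ) ?_ ?_ hζ hζ'
  · intro w _
    exact (xi_hasDerivAt τ θ w).hasDerivWithinAt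
  · intro w hw
    rw [norm_mul, norm_mul, Complex.norm_I, one_mul, Complex.norm_real, Real.norm_of_nonneg hτ.le]
    have := mem_D.1 (xi_mem (θ := θ) hτ hw)
    nlinarith

/-- the bound constant -/
noncomputable def Kb (V₀ R m : ℝ) : ℝ := Real.exp (NN V₀ + C2 * ((R + 1) * Real.exp (2 * R) / m))

theorem ClsD.V_bound {f : ℂ → ℂ} (hf : ClsD f) {τ θ V₀ R m : ℝ} (hτ : 0 < τ) (hτ1 : τ ≤ 1)
    (hV : |VD f (zz τ θ)| ≤ V₀) (hm : 0 < m) (hm1 : m ≤ 1) (hR : 1 ≤ R) {ζ : ℂ} (hζR : ‖ζ‖ ≤ R)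
    (hζm : m ≤ ζ.im) : |VD f (xi τ θ ζ)| ≤ Kb V₀ R m := by
  have hζ : ζ ∈ HH := lt_of_lt_of_le hm hζm
  have hI : Complex.I ∈ HH := by show (0 : ℝ) < Complex.I.im; simp
  have h1 := hf.seg_N (xi_mem (θ := θ) hτ hI) (xi_mem (θ := θ) hτ hζ)
  rw [xi_I] at h1
  have h2 : NN (VD f (zz τ θ)) ≤ NN V₀ := NN_mono hV
  have him : ζ.im ≤ R := (Complex.im_le_norm ζ).trans hζR
  have hC2 := C2_pos
  have h3 : ‖xi τ θ ζ - zz τ θ‖ ≤ τ * (R + 1) := by
    have := xi_lip (θ := θ) hτ hI hζ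
    rw [xi_I] at this
    refine this.trans ?_
    gcongr
    calc ‖ζ - Complex.I‖ ≤ ‖ζ‖ + ‖Complex.I‖ := norm_sub_le _ _
      _ ≤ R + 1 := by rw [Complex.norm_I]; linarith
  have h4 : τ * (m * Real.exp (-(2 * R))) ≤ min (YD (zz τ θ)) (YD (xi τ θ ζ)) := by
    rw [YD_zz, YD_xi]
    apply le_min
    · refine le_trans ?_ (YY_ge (s := τ))
      gcongr
      calc m * Real.exp (-(2 * R)) ≤ 1 * Real.exp (-2 * τ) := by
            gcongr
            linarith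
        _ = _ := one_mul _
    · refine le_trans ?_ (YY_ge (s := τ * ζ.im))
      rw [mul_assoc]
      have : τ * ζ.im ≤ 1 * R := by
        apply mul_le_mul hτ1 him (by linarith) zero_le_one
      have e : Real.exp (-(2 * R)) ≤ Real.exp (-2 * (τ * ζ.im)) :=
        Real.exp_le_exp.2 (by linarith)
      apply mul_le_mul_of_nonneg_left _ hτ.le
      exact mul_le_mul hζm e (Real.exp_pos _).le (by linarith)
  have h5 : ‖xi τ θ ζ - zz τ θ‖ / min (YD (zz τ θ)) (YD (xi τ θ ζ)) ≤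
      (R + 1) * Real.exp (2 * R) / m := by
    calc _ ≤ (τ * (R + 1)) / (τ * (m * Real.exp (-(2 * R)))) := by
          apply div_le_div₀ (by positivity) h3 (by positivity) h4
      _ = (R + 1) * Real.exp (2 * R) / m := by
          rw [Real.exp_neg]
          have := Real.exp_pos (2 * R)
          field_simp
  have h6 : NN (VD f (xi τ θ ζ)) ≤ NN V₀ + C2 * ((R + 1) * Real.exp (2 * R) / m) := by
    have e1 := (abs_le.1 h1).2
    have e2 : C2 * (‖xi τ θ ζ - zz τ θ‖ / min (YD (zz τ θ)) (YD (xi τ θ ζ))) ≤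
      C2 * ((R + 1) * Real.exp (2 * R) / m) := by gcongr
    linarith
  exact (abs_le_exp_NN _).trans (Real.exp_le_exp.2 h6)

end coord

end Pool.Agent.SS
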