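import Pool.Agent.Lib52.SS.Taylor

/-!
Jensen formula on the circles `|z| = e^{-τ}`, mean value property, finiteness of zeros.
-/

set_option autoImplicit false

open Set Metric Filter MeasureTheory
open scoped Topology Real ComplexConjugate

namespace Pool.Agent.SSP

open Pool.Agent.SS

theorem zz_eq_circleMap (τ θ : ℝ) : zz τ θ = circleMap 0 (Real.exp (-τ)) θ := by
  rw [circleMap_zero, zz, Complex.exp_add]
  congr 1
  rw [← Complex.ofReal_neg, Complex.ofReal_exp]

theorem closedBall_sub {τ : ℝ} (hτ : 0 < τ) :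
    closedBall (0 : ℂ) |Real.exp (-τ)| ⊆ ball (0 : ℂ) 1 := by
  intro z hz
  rw [mem_closedBall_zero_iff, abs_of_pos (Real.exp_pos _)] at hz
  rw [mem_ball_zero_iff]
  refine lt_of_le_of_lt hz ?_
  rw [Real.exp_lt_one_iff]
  linarith

theorem analyticOnNhd_of {h : ℂ → ℂ} (hh : DifferentiableOn ℂ h (ball 0 1)) :
    AnalyticOnNhd ℂ h (ball 0 1) := hh.analyticOnNhd isOpen_ball

theorem integral_zz (g : ℂ → ℝ) (τ : ℝ) :
    ∫ θ in (0 : ℝ)..2 * π, g (zz τ θ) = 2 * π * Real.circleAverage g 0 (Real.exp (-τ)) := by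
  rw [Real.circleAverage_def]
  simp only [zz_eq_circleMap, smul_eq_mul]
  have : (2 * π) ≠ 0 := by positivity
  field_simp

/-- mean value property -/
theorem M1 (f : ℂ → ℂ) (hf : DifferentiableOn ℂ f (ball 0 1)) (h0 : ∀ z ∈ ball (0 : ℂ) 1, f z ≠ 0)
    {τ : ℝ} (hτ : 0 < τ) :
    ∫ θ in (0 : ℝ)..2 * π, Real.log ‖f (zz τ θ)‖ = 2 * π * Real.log ‖f 0‖ := by
  rw [integral_zz (fun z => Real.log ‖f z‖) τ]
  congr 1
  exact AnalyticOnNhd.circleAverage_log_norm_of_ne_zero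
    ((analyticOnNhd_of hf).mono (closedBall_sub hτ)) (fun u hu => h0 u (closedBall_sub hτ hu))

theorem not_freq (h : ℂ → ℂ) (hh : DifferentiableOn ℂ h (ball 0 1))
    (hne : ∃ z ∈ ball (0 : ℂ) 1, h z ≠ 0) {a : ℂ} (ha : a ∈ ball (0 : ℂ) 1) :
    ¬ ∃ᶠ z in 𝓝[≠] a, h z = 0 := by
  intro hfr
  obtain ⟨z, hz, hz0⟩ := hne
  exact hz0 ((analyticOnNhd_of hh).eqOn_zero_of_preconnected_of_frequently_eq_zero
    (convex_ball _ _).isPreconnected ha hfr hz)

/-- finitely many zeros in smaller closed discs -/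
theorem Zfin (h : ℂ → ℂ) (hh : DifferentiableOn ℂ h (ball 0 1))
    (hne : ∃ z ∈ ball (0 : ℂ) 1, h z ≠ 0) {r : ℝ} (hr : r < 1) :
    {a : ℂ | ‖a‖ ≤ r ∧ h a = 0}.Finite := by
  by_contra hinf
  have hinf' : {a : ℂ | ‖a‖ ≤ r ∧ h a = 0}.Infinite := hinf
  obtain ⟨a, haK, hacc⟩ := hinf'.exists_accPt_of_subset_isCompact
    (isCompact_closedBall (0 : ℂ) r) (fun a ha => by
      rw [mem_closedBall_zero_iff]
      exact ha.1)
  have ha : a ∈ ball (0 : ℂ) 1 := by
    rw [mem_closedBall_zero_iff] at haK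
    rw [mem_ball_zero_iff]
    linarith
  refine not_freq h hh hne ha ?_
  rw [accPt_iff_frequently_nhdsNE] at hacc
  exact hacc.mono fun z hz => hz.2

theorem J1 (h : ℂ → ℂ) (hh : DifferentiableOn ℂ h (ball 0 1))
    (hne : ∃ z ∈ ball (0 : ℂ) 1, h z ≠ 0) :
    ∃ C : ℝ, ∀ τ₁ : ℝ, 0 < τ₁ → τ₁ ≤ 1 → ∀ u : ℝ → ℝ, Continuous u →
      (∀ θ, h (zz τ₁ θ) ≠ 0 → Real.log ‖h (zz τ₁ θ)‖ ≤ u θ) →
      ∀ Z : Finset ℂ, (∀ a ∈ Z, h a = 0 ∧ Real.exp (-1) ≤ ‖a‖ ∧ ‖a‖ ≤ Real.exp (-τ₁)) →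
        ∑ a ∈ Z, (-Real.log ‖a‖ - τ₁) ≤ (2 * π)⁻¹ * (∫ θ in (0 : ℝ)..2 * π, u θ) + C := by
  refine ⟨((meromorphicOrderAt h 0).untop₀ : ℝ) + |Real.log ‖meromorphicTrailingCoeffAt h 0‖|,
    fun τ₁ h1 h2 u hu hle Z hZ => ?_⟩
  set R : ℝ := Real.exp (-τ₁) with hR
  have hR0 : 0 < R := Real.exp_pos _
  have hlogR : Real.log R = -τ₁ := by rw [hR, Real.log_exp]
  have han : AnalyticOnNhd ℂ h (closedBall (0 : ℂ) |R|) :=
    (analyticOnNhd_of hh).mono (closedBall_sub h1)
  have hJ := MeromorphicOn.circleAverage_log_norm (c := (0 : ℂ)) (R := R) (f := h) hR0.ne'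
    han.meromorphicOn
  set D := MeromorphicOn.divisor h (closedBall (0 : ℂ) |R|) with hD
  have hDnn : ∀ a, 0 ≤ D a := by
    have : 0 ≤ D := MeromorphicOn.AnalyticOnNhd.divisor_nonneg han
    exact fun a => this a
  have hD0 : D 0 = (meromorphicOrderAt h 0).untop₀ :=
    MeromorphicOn.divisor_apply han.meromorphicOn (by simp)
  have hDZ : ∀ a ∈ Z, 1 ≤ D a := by
    intro a ha
    obtain ⟨ha0, -, ha2⟩ := hZ a ha
    have hmem : a ∈ closedBall (0 : ℂ) |R| := by
      rw [mem_closedBall_zero_iff, abs_of_pos hR0]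
      exact ha2
    have hne' : D a ≠ 0 := by
      rw [hD, MeromorphicOn.divisor_apply han.meromorphicOn hmem,
        (han a hmem).meromorphicOrderAt_eq]
      have k1 : analyticOrderAt h a ≠ 0 := (han a hmem).analyticOrderAt_ne_zero.2 ha0
      have k2 : analyticOrderAt h a ≠ ⊤ := by
        rw [Ne, analyticOrderAt_eq_top]
        intro hev
        exact not_freq h hh hne (closedBall_sub h1 hmem)
          ((hev.filter_mono nhdsWithin_le_nhds).frequently)
      obtain ⟨n, hn⟩ := ENat.ne_top_iff_exists.1 k2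
      rw [← hn] at k1 ⊢
      have k3 : n ≠ 0 := by
        rintro rfl
        exact k1 rfl
      simpa using k3
    have := hDnn a
    omega
  have hfin : (Function.support D).Finite := D.finiteSupport (isCompact_closedBall _ _)
  have hterm : ∀ a, 0 ≤ (D a : ℝ) * Real.log (R * ‖0 - a‖⁻¹) := by
    intro a
    by_cases hmem : a ∈ closedBall (0 : ℂ) |R|
    · refine mul_nonneg (by exact_mod_cast hDnn a) ?_
      rw [zero_sub, norm_neg]
      by_cases ha : a = 0
      · simp [ha]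
      · have hpos : 0 < ‖a‖ := norm_pos_iff.2 ha
        rw [mem_closedBall_zero_iff, abs_of_pos hR0] at hmem
        refine Real.log_nonneg ?_
        rw [← div_eq_mul_inv, one_le_div hpos]
        exact hmem
    · rw [D.apply_eq_zero_of_notMem hmem]
      simp
  have hsum : ∑ a ∈ Z, (-Real.log ‖a‖ - τ₁) ≤
      ∑ᶠ a, (D a : ℝ) * Real.log (R * ‖0 - a‖⁻¹) := by
    classical
    rw [finsum_eq_sum_of_support_subset (s := hfin.toFinset ∪ Z) _ (by
      intro a ha
      rw [Function.mem_support] at ha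
      have : D a ≠ 0 := by
        intro h0
        apply ha
        rw [h0]
        simp
      simp [this])]
    refine le_trans ?_ (Finset.sum_le_sum_of_subset_of_nonneg
      (Finset.subset_union_right (s₁ := hfin.toFinset) (s₂ := Z)) (fun a _ _ => hterm a))
    refine Finset.sum_le_sum fun a ha => ?_
    obtain ⟨-, ha1, ha2⟩ := hZ a ha
    have hpos : 0 < ‖a‖ := lt_of_lt_of_le (Real.exp_pos _) ha1
    have e1 : Real.log (R * ‖0 - a‖⁻¹) = -Real.log ‖a‖ - τ₁ := by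
      rw [zero_sub, norm_neg, Real.log_mul hR0.ne' (inv_ne_zero hpos.ne'), Real.log_inv, hlogR]
      ring
    have e2 : 0 ≤ -Real.log ‖a‖ - τ₁ := by
      have := Real.log_le_log hpos ha2
      rw [hlogR] at this
      linarith
    rw [e1]
    have e3 : (1 : ℝ) ≤ D a := by exact_mod_cast hDZ a ha
    nlinarith
  have hav : Real.circleAverage (fun z => Real.log ‖h z‖) 0 R ≤
      (2 * π)⁻¹ * ∫ θ in (0 : ℝ)..2 * π, u θ := by
    rw [Real.circleAverage_def, smul_eq_mul]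
    refine mul_le_mul_of_nonneg_left ?_ (by positivity)
    have hci : CircleIntegrable (fun z => Real.log ‖h z‖) 0 R :=
      (han.mono sphere_subset_closedBall).meromorphicOn.circleIntegrable_log_norm
    refine intervalIntegral.integral_mono_ae (by positivity) hci (hu.intervalIntegrable _ _) ?_
    have hcount : ((circleMap (0 : ℂ) R) ⁻¹' {a : ℂ | ‖a‖ ≤ R ∧ h a = 0}).Countable := by
      refine (Zfin h hh hne ?_).countable.preimage_circleMap 0 hR0.ne'
      rw [hR, Real.exp_lt_one_iff]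
      linarith
    have hnull := hcount.measure_zero (volume : Measure ℝ)
    filter_upwards [measure_eq_zero_iff_ae_notMem.1 hnull] with θ hθ
    rw [← zz_eq_circleMap]
    refine hle θ fun h0 => hθ ?_
    rw [mem_preimage, ← zz_eq_circleMap]
    exact ⟨by rw [zz_eq_circleMap, norm_circleMap_zero, abs_of_pos hR0], h0⟩
  have hmain : ∑ᶠ a, (D a : ℝ) * Real.log (R * ‖0 - a‖⁻¹) =
      Real.circleAverage (fun z => Real.log ‖h z‖) 0 R - (D 0 : ℝ) * Real.log R -
        Real.log ‖meromorphicTrailingCoeffAt h 0‖ := by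
    rw [hJ]
    ring
  rw [hmain] at hsum
  have e4 : (0 : ℝ) ≤ D 0 := by exact_mod_cast hDnn 0
  have e5 : -((D 0 : ℝ) * Real.log R) ≤ (D 0 : ℝ) := by
    rw [hlogR]
    nlinarith
  have e6 := neg_abs_le (Real.log ‖meromorphicTrailingCoeffAt h 0‖)
  rw [hD0] at e5 hsum e4
  linarith

end Pool.Agent.SSP
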