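import Pool.Agent.Lib52.SS.Taylor

/-!
The log-polar Laplacians of `½ log S` and of `G(E)`.
-/

set_option autoImplicit false

open Set Metric Filter MeasureTheory
open scoped Topology Real ComplexConjugate

namespace Pool.Agent.SSP

open Pool.Agent.SS

/-! ### calculus along log-polar coordinates -/

theorem zz_mem {τ : ℝ} (hτ : 0 < τ) (θ : ℝ) : zz τ θ ∈ ball (0 : ℂ) 1 := by
  rw [mem_ball_zero_iff, zz, Complex.norm_exp]
  simp [hτ]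

theorem norm_zz (τ θ : ℝ) : ‖zz τ θ‖ = Real.exp (-τ) := by
  rw [zz, Complex.norm_exp]
  simp

theorem zz_per (τ : ℝ) : zz τ (2 * π) = zz τ 0 := by
  unfold zz
  rw [Complex.exp_eq_exp_iff_exists_int]
  exact ⟨1, by push_cast; ring⟩

theorem zz_tau (τ θ : ℝ) : HasDerivAt (fun t => zz t θ) (-zz τ θ) τ := by
  have h : HasDerivAt (fun t : ℝ => -(t : ℂ) + (θ : ℂ) * Complex.I) (-1) τ :=
    (Complex.ofRealCLM.hasDerivAt (x := τ)).neg.add_const _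
  have := h.cexp
  simpa [zz] using this

theorem zz_theta (τ θ : ℝ) : HasDerivAt (fun t => zz τ t) (Complex.I * zz τ θ) θ := by
  have h : HasDerivAt (fun t : ℝ => -(τ : ℂ) + (t : ℂ) * Complex.I) (1 * Complex.I) θ :=
    ((Complex.ofRealCLM.hasDerivAt (x := θ)).mul_const Complex.I).const_add _
  have := h.cexp
  refine this.congr_deriv ?_
  simp only [zz]
  ring

theorem zz_cont : Continuous fun p : ℝ × ℝ => zz p.1 p.2 := by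
  unfold zz
  fun_prop

/-- `z g'(z)` -/
noncomputable def DD (g : ℂ → ℂ) (z : ℂ) : ℂ := z * deriv g z

theorem DD_diff {g : ℂ → ℂ} (hg : DifferentiableOn ℂ g (ball 0 1)) :
    DifferentiableOn ℂ (DD g) (ball 0 1) :=
  differentiableOn_id.mul (hg.deriv isOpen_ball)

theorem comp_tau {g : ℂ → ℂ} (hg : DifferentiableOn ℂ g (ball 0 1)) {τ : ℝ} (hτ : 0 < τ)
    (θ : ℝ) : HasDerivAt (fun t => g (zz t θ)) (-DD g (zz τ θ)) τ := by
  have h := (hg.differentiableAt (isOpen_ball.mem_nhds (zz_mem hτ θ))).hasDerivAt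
  refine (h.comp τ (zz_tau τ θ)).congr_deriv ?_
  simp only [DD]
  ring

theorem comp_theta {g : ℂ → ℂ} (hg : DifferentiableOn ℂ g (ball 0 1)) {τ : ℝ} (hτ : 0 < τ)
    (θ : ℝ) : HasDerivAt (fun t => g (zz τ t)) (Complex.I * DD g (zz τ θ)) θ := by
  have h := (hg.differentiableAt (isOpen_ball.mem_nhds (zz_mem hτ θ))).hasDerivAt
  refine (h.comp θ (zz_theta τ θ)).congr_deriv ?_
  simp only [DD]
  ring

/-- real and imaginary parts along log-polar coordinates -/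
noncomputable def pr (g : ℂ → ℂ) (τ θ : ℝ) : ℝ := (g (zz τ θ)).re

/-- imaginary part along log-polar coordinates -/
noncomputable def pi' (g : ℂ → ℂ) (τ θ : ℝ) : ℝ := (g (zz τ θ)).im

theorem re_hasDerivAt {φ : ℝ → ℂ} {φ' : ℂ} {t : ℝ} (h : HasDerivAt φ φ' t) :
    HasDerivAt (fun s => (φ s).re) φ'.re t :=
  Complex.reCLM.hasFDerivAt.comp_hasDerivAt t h

theorem im_hasDerivAt {φ : ℝ → ℂ} {φ' : ℂ} {t : ℝ} (h : HasDerivAt φ φ' t) :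
    HasDerivAt (fun s => (φ s).im) φ'.im t :=
  Complex.imCLM.hasFDerivAt.comp_hasDerivAt t h

section
variable {g : ℂ → ℂ} (hg : DifferentiableOn ℂ g (ball 0 1)) {τ : ℝ} (hτ : 0 < τ) (θ : ℝ)
include hg hτ

theorem pr_tau : HasDerivAt (fun t => pr g t θ) (-pr (DD g) τ θ) τ := by
  have := re_hasDerivAt (comp_tau hg hτ θ)
  simpa [pr] using this

theorem pi_tau : HasDerivAt (fun t => pi' g t θ) (-pi' (DD g) τ θ) τ := by
  have := im_hasDerivAt (comp_tau hg hτ θ)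
  simpa [pi'] using this

theorem pr_theta : HasDerivAt (fun t => pr g τ t) (-pi' (DD g) τ θ) θ := by
  have := re_hasDerivAt (comp_theta hg hτ θ)
  simpa [pr, pi'] using this

theorem pi_theta : HasDerivAt (fun t => pi' g τ t) (pr (DD g) τ θ) θ := by
  have := im_hasDerivAt (comp_theta hg hτ θ)
  simpa [pr, pi'] using this

end

theorem pr_HC {g : ℂ → ℂ} (hg : DifferentiableOn ℂ g (ball 0 1)) : HC (pr g) :=
  Complex.continuous_re.comp_continuousOn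
    (hg.continuousOn.comp zz_cont.continuousOn fun _ hp => zz_mem hp _)

theorem pi_HC {g : ℂ → ℂ} (hg : DifferentiableOn ℂ g (ball 0 1)) : HC (pi' g) :=
  Complex.continuous_im.comp_continuousOn
    (hg.continuousOn.comp zz_cont.continuousOn fun _ hp => zz_mem hp _)

theorem pr_per (g : ℂ → ℂ) (τ : ℝ) : pr g τ (2 * π) = pr g τ 0 := by
  simp only [pr, zz_per]

theorem pi_per (g : ℂ → ℂ) (τ : ℝ) : pi' g τ (2 * π) = pi' g τ 0 := by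
  simp only [pi', zz_per]

/-! ### closure of `HC` -/

theorem HC.add {a b : ℝ → ℝ → ℝ} (ha : HC a) (hb : HC b) : HC fun τ θ => a τ θ + b τ θ :=
  ContinuousOn.add ha hb

theorem HC.sub {a b : ℝ → ℝ → ℝ} (ha : HC a) (hb : HC b) : HC fun τ θ => a τ θ - b τ θ :=
  ContinuousOn.sub ha hb

theorem HC.mul {a b : ℝ → ℝ → ℝ} (ha : HC a) (hb : HC b) : HC fun τ θ => a τ θ * b τ θ :=
  ContinuousOn.mul ha hb

theorem HC.neg {a : ℝ → ℝ → ℝ} (ha : HC a) : HC fun τ θ => - a τ θ :=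
  ContinuousOn.neg ha

theorem HC.div {a b : ℝ → ℝ → ℝ} (ha : HC a) (hb : HC b)
    (h0 : ∀ τ, 0 < τ → ∀ θ, b τ θ ≠ 0) : HC fun τ θ => a τ θ / b τ θ :=
  ContinuousOn.div ha hb fun p hp => h0 p.1 hp p.2

theorem HC.comp {a : ℝ → ℝ → ℝ} {G : ℝ → ℝ} (hG : Continuous G) (ha : HC a) :
    HC fun τ θ => G (a τ θ) := hG.comp_continuousOn ha

theorem HC.of_cont {c : ℝ → ℝ} (hc : Continuous c) : HC fun τ _ => c τ :=
  (hc.comp continuous_fst).continuousOn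

theorem HC.const (c : ℝ) : HC fun _ _ => c := continuousOn_const

/-! ### the function `Y` -/

/-- `|z|²` -/
noncomputable def rr (τ : ℝ) : ℝ := Real.exp (-2 * τ)

theorem rr_pos (τ : ℝ) : 0 < rr τ := Real.exp_pos _

theorem YY_eq (τ : ℝ) : YY τ = (1 - rr τ) / 2 := rfl

theorem rr_deriv (τ : ℝ) : HasDerivAt rr (-2 * rr τ) τ := by
  have h : HasDerivAt (fun t : ℝ => -2 * t) (-2 * 1) τ := (hasDerivAt_id τ).const_mul (-2)
  refine h.exp.congr_deriv ?_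
  simp only [rr]
  ring

theorem YY_deriv (τ : ℝ) : HasDerivAt YY (rr τ) τ := by
  refine (((rr_deriv τ).const_sub 1).div_const 2).congr_deriv ?_
  ring

theorem rr_cont : Continuous rr := by unfold rr; fun_prop

theorem YY_cont : Continuous YY := by unfold YY; fun_prop

theorem YY_pos {τ : ℝ} (hτ : 0 < τ) : 0 < YY τ := by
  have : Real.exp (-2 * τ) < 1 := by
    rw [Real.exp_lt_one_iff]
    linarith
  unfold YY
  linarith

theorem sinh_sq (τ : ℝ) : Real.sinh τ ^ 2 = YY τ ^ 2 / rr τ := by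
  have h1 : Real.sinh τ = Real.exp τ * YY τ := by
    rw [Real.sinh_eq, YY, mul_div_assoc', mul_sub, ← Real.exp_add]
    congr 2
    · ring
    · congr 1
      ring
  have h2 : Real.exp τ ^ 2 * rr τ = 1 := by
    rw [rr, ← Real.exp_nat_mul, ← Real.exp_add]
    simp
  rw [h1, eq_div_iff (rr_pos τ).ne', mul_pow]
  linear_combination (YY τ ^ 2) * h2

theorem conj_zz_mul (τ θ : ℝ) : conj (zz τ θ) * zz τ θ = (rr τ : ℂ) := by
  rw [mul_comm, Complex.mul_conj, Complex.normSq_eq_norm_sq, norm_zz, rr,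
    ← Real.exp_nat_mul]
  congr 2
  push_cast
  ring

/-! ### the function `S` -/

theorem SF_eq (f : ℂ → ℂ) (τ θ : ℝ) :
    SF f τ θ = YY τ ^ 2 + (pr f τ θ ^ 2 + pi' f τ θ ^ 2) := by
  rw [SF, ← Complex.normSq_eq_norm_sq, Complex.normSq_apply]
  simp only [pr, pi']
  ring

theorem SF_pos (f : ℂ → ℂ) {τ : ℝ} (hτ : 0 < τ) (θ : ℝ) : 0 < SF f τ θ := by
  have := YY_pos hτ
  unfold SF
  positivity

theorem norm_comb (f : ℂ → ℂ) (τ θ : ℝ) :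
    rr τ * ‖(YY τ : ℂ) * deriv f (zz τ θ) + conj (zz τ θ) * f (zz τ θ)‖ ^ 2 =
      (YY τ * pr (DD f) τ θ + rr τ * pr f τ θ) ^ 2 +
      (YY τ * pi' (DD f) τ θ + rr τ * pi' f τ θ) ^ 2 := by
  have h1 : rr τ * ‖(YY τ : ℂ) * deriv f (zz τ θ) + conj (zz τ θ) * f (zz τ θ)‖ ^ 2 =
      ‖(YY τ : ℂ) * DD f (zz τ θ) + (rr τ : ℂ) * f (zz τ θ)‖ ^ 2 := by
    have h2 : (YY τ : ℂ) * DD f (zz τ θ) + (rr τ : ℂ) * f (zz τ θ) =
        zz τ θ * ((YY τ : ℂ) * deriv f (zz τ θ) + conj (zz τ θ) * f (zz τ θ)) := by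
      rw [← conj_zz_mul τ θ, DD]
      ring
    rw [h2, norm_mul, mul_pow, norm_zz, rr, ← Real.exp_nat_mul]
    congr 2
    push_cast
    ring
  rw [h1, ← Complex.normSq_eq_norm_sq, Complex.normSq_apply]
  simp only [pr, pi', Complex.add_re, Complex.add_im, Complex.re_ofReal_mul,
    Complex.im_ofReal_mul]
  ring

theorem JJ_eq (f : ℂ → ℂ) {τ : ℝ} (hτ : 0 < τ) (θ : ℝ) :
    JJ f τ θ / Real.sinh τ ^ 2 =
      2 * ((YY τ * pr (DD f) τ θ + rr τ * pr f τ θ) ^ 2 +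
      (YY τ * pi' (DD f) τ θ + rr τ * pi' f τ θ) ^ 2) / SF f τ θ ^ 2 - rr τ / SF f τ θ := by
  have h0 := (YY_pos hτ).ne'
  have h1 := (rr_pos τ).ne'
  have h2 := (SF_pos f hτ θ).ne'
  rw [← norm_comb, JJ, sinh_sq τ]
  field_simp

/-! ### twice differentiable functions of log-polar coordinates -/

/-- `u` with its derivatives `u1, u2` in `τ` and `v1, v2` in `θ` -/
structure C2 (u u1 u2 v1 v2 : ℝ → ℝ → ℝ) : Prop where
  hu : HC u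
  hu1 : HC u1
  hu2 : HC u2
  hv1 : HC v1
  hv2 : HC v2
  d1 : ∀ τ, 0 < τ → ∀ θ, HasDerivAt (fun t => u t θ) (u1 τ θ) τ
  d2 : ∀ τ, 0 < τ → ∀ θ, HasDerivAt (fun t => u1 t θ) (u2 τ θ) τ
  e1 : ∀ τ, 0 < τ → ∀ θ, HasDerivAt (fun t => u τ t) (v1 τ θ) θ
  e2 : ∀ τ, 0 < τ → ∀ θ, HasDerivAt (fun t => v1 τ t) (v2 τ θ) θ
  p0 : ∀ τ, 0 < τ → u τ (2 * π) = u τ 0
  p1 : ∀ τ, 0 < τ → v1 τ (2 * π) = v1 τ 0

theorem C2.add {a a1 a2 a3 a4 b b1 b2 b3 b4 : ℝ → ℝ → ℝ} (ha : C2 a a1 a2 a3 a4)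
    (hb : C2 b b1 b2 b3 b4) :
    C2 (fun τ θ => a τ θ + b τ θ) (fun τ θ => a1 τ θ + b1 τ θ) (fun τ θ => a2 τ θ + b2 τ θ)
      (fun τ θ => a3 τ θ + b3 τ θ) (fun τ θ => a4 τ θ + b4 τ θ) where
  hu := ha.hu.add hb.hu
  hu1 := ha.hu1.add hb.hu1
  hu2 := ha.hu2.add hb.hu2
  hv1 := ha.hv1.add hb.hv1
  hv2 := ha.hv2.add hb.hv2
  d1 τ h θ := (ha.d1 τ h θ).add (hb.d1 τ h θ)
  d2 τ h θ := (ha.d2 τ h θ).add (hb.d2 τ h θ)
  e1 τ h θ := (ha.e1 τ h θ).add (hb.e1 τ h θ)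
  e2 τ h θ := (ha.e2 τ h θ).add (hb.e2 τ h θ)
  p0 τ h := by rw [ha.p0 τ h, hb.p0 τ h]
  p1 τ h := by rw [ha.p1 τ h, hb.p1 τ h]

theorem C2.mul {a a1 a2 a3 a4 b b1 b2 b3 b4 : ℝ → ℝ → ℝ} (ha : C2 a a1 a2 a3 a4)
    (hb : C2 b b1 b2 b3 b4) :
    C2 (fun τ θ => a τ θ * b τ θ) (fun τ θ => a1 τ θ * b τ θ + a τ θ * b1 τ θ)
      (fun τ θ => a2 τ θ * b τ θ + 2 * (a1 τ θ * b1 τ θ) + a τ θ * b2 τ θ)
      (fun τ θ => a3 τ θ * b τ θ + a τ θ * b3 τ θ)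
      (fun τ θ => a4 τ θ * b τ θ + 2 * (a3 τ θ * b3 τ θ) + a τ θ * b4 τ θ) where
  hu := ha.hu.mul hb.hu
  hu1 := (ha.hu1.mul hb.hu).add (ha.hu.mul hb.hu1)
  hu2 := ((ha.hu2.mul hb.hu).add ((HC.const 2).mul (ha.hu1.mul hb.hu1))).add (ha.hu.mul hb.hu2)
  hv1 := (ha.hv1.mul hb.hu).add (ha.hu.mul hb.hv1)
  hv2 := ((ha.hv2.mul hb.hu).add ((HC.const 2).mul (ha.hv1.mul hb.hv1))).add (ha.hu.mul hb.hv2)
  d1 τ h θ := (ha.d1 τ h θ).mul (hb.d1 τ h θ)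
  d2 τ h θ := (((ha.d2 τ h θ).mul (hb.d1 τ h θ)).add
    ((ha.d1 τ h θ).mul (hb.d2 τ h θ))).congr_deriv (by ring)
  e1 τ h θ := (ha.e1 τ h θ).mul (hb.e1 τ h θ)
  e2 τ h θ := (((ha.e2 τ h θ).mul (hb.e1 τ h θ)).add
    ((ha.e1 τ h θ).mul (hb.e2 τ h θ))).congr_deriv (by ring)
  p0 τ h := by rw [ha.p0 τ h, hb.p0 τ h]
  p1 τ h := by rw [ha.p0 τ h, hb.p0 τ h, ha.p1 τ h, hb.p1 τ h]

theorem C2.comp {a a1 a2 a3 a4 : ℝ → ℝ → ℝ} (ha : C2 a a1 a2 a3 a4) {G G1 G2 : ℝ → ℝ}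
    (h0 : HC fun τ θ => G (a τ θ)) (h1 : HC fun τ θ => G1 (a τ θ))
    (h2 : HC fun τ θ => G2 (a τ θ))
    (g1 : ∀ τ, 0 < τ → ∀ θ, HasDerivAt G (G1 (a τ θ)) (a τ θ))
    (g2 : ∀ τ, 0 < τ → ∀ θ, HasDerivAt G1 (G2 (a τ θ)) (a τ θ)) :
    C2 (fun τ θ => G (a τ θ)) (fun τ θ => G1 (a τ θ) * a1 τ θ)
      (fun τ θ => G2 (a τ θ) * a1 τ θ ^ 2 + G1 (a τ θ) * a2 τ θ)
      (fun τ θ => G1 (a τ θ) * a3 τ θ)
      (fun τ θ => G2 (a τ θ) * a3 τ θ ^ 2 + G1 (a τ θ) * a4 τ θ) where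
  hu := h0
  hu1 := h1.mul ha.hu1
  hu2 := (h2.mul (HC.comp (continuous_pow 2) ha.hu1)).add (h1.mul ha.hu2)
  hv1 := h1.mul ha.hv1
  hv2 := (h2.mul (HC.comp (continuous_pow 2) ha.hv1)).add (h1.mul ha.hv2)
  d1 τ h θ := HasDerivAt.comp τ (h₂ := G) (g1 τ h θ) (ha.d1 τ h θ)
  d2 τ h θ := ((HasDerivAt.comp τ (h₂ := G1) (g2 τ h θ) (ha.d1 τ h θ)).mul
    (ha.d2 τ h θ)).congr_deriv (by simp only [Function.comp]; ring)
  e1 τ h θ := HasDerivAt.comp θ (h₂ := G) (g1 τ h θ) (ha.e1 τ h θ)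
  e2 τ h θ := ((HasDerivAt.comp θ (h₂ := G1) (g2 τ h θ) (ha.e1 τ h θ)).mul
    (ha.e2 τ h θ)).congr_deriv (by simp only [Function.comp]; ring)
  p0 τ h := by rw [ha.p0 τ h]
  p1 τ h := by rw [ha.p0 τ h, ha.p1 τ h]

/-- the square of `Y` -/
theorem C2_YY : C2 (fun τ _ => YY τ ^ 2) (fun τ _ => 2 * YY τ * rr τ)
    (fun τ _ => 2 * rr τ ^ 2 - 4 * YY τ * rr τ) (fun _ _ => 0) (fun _ _ => 0) where
  hu := HC.of_cont (YY_cont.pow 2)
  hu1 := HC.of_cont ((continuous_const.mul YY_cont).mul rr_cont)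
  hu2 := HC.of_cont ((continuous_const.mul (rr_cont.pow 2)).sub
    ((continuous_const.mul YY_cont).mul rr_cont))
  hv1 := HC.const 0
  hv2 := HC.const 0
  d1 τ _ θ := ((YY_deriv τ).pow 2).congr_deriv (by ring)
  d2 τ _ θ := (((YY_deriv τ).const_mul 2).mul (rr_deriv τ)).congr_deriv (by ring)
  e1 _ _ θ := hasDerivAt_const θ _
  e2 _ _ θ := hasDerivAt_const θ _
  p0 _ _ := rfl
  p1 _ _ := rfl

/-- `|g|²` -/
theorem C2_norm {g : ℂ → ℂ} (hg : DifferentiableOn ℂ g (ball 0 1)) :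
    C2 (fun τ θ => pr g τ θ ^ 2 + pi' g τ θ ^ 2)
      (fun τ θ => -2 * (pr g τ θ * pr (DD g) τ θ + pi' g τ θ * pi' (DD g) τ θ))
      (fun τ θ => 2 * (pr (DD g) τ θ ^ 2 + pi' (DD g) τ θ ^ 2 +
        (pr g τ θ * pr (DD (DD g)) τ θ + pi' g τ θ * pi' (DD (DD g)) τ θ)))
      (fun τ θ => 2 * (pi' g τ θ * pr (DD g) τ θ - pr g τ θ * pi' (DD g) τ θ))
      (fun τ θ => 2 * (pr (DD g) τ θ ^ 2 + pi' (DD g) τ θ ^ 2 -
        (pr g τ θ * pr (DD (DD g)) τ θ + pi' g τ θ * pi' (DD (DD g)) τ θ))) where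
  hu := (HC.comp (continuous_pow 2) (pr_HC hg)).add (HC.comp (continuous_pow 2) (pi_HC hg))
  hu1 := (HC.const (-2)).mul (((pr_HC hg).mul (pr_HC (DD_diff hg))).add
    ((pi_HC hg).mul (pi_HC (DD_diff hg))))
  hu2 := (HC.const 2).mul (((HC.comp (continuous_pow 2) (pr_HC (DD_diff hg))).add
    (HC.comp (continuous_pow 2) (pi_HC (DD_diff hg)))).add
    (((pr_HC hg).mul (pr_HC (DD_diff (DD_diff hg)))).add
    ((pi_HC hg).mul (pi_HC (DD_diff (DD_diff hg))))))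
  hv1 := (HC.const 2).mul (((pi_HC hg).mul (pr_HC (DD_diff hg))).sub
    ((pr_HC hg).mul (pi_HC (DD_diff hg))))
  hv2 := (HC.const 2).mul (((HC.comp (continuous_pow 2) (pr_HC (DD_diff hg))).add
    (HC.comp (continuous_pow 2) (pi_HC (DD_diff hg)))).sub
    (((pr_HC hg).mul (pr_HC (DD_diff (DD_diff hg)))).add
    ((pi_HC hg).mul (pi_HC (DD_diff (DD_diff hg))))))
  d1 τ h θ := (((pr_tau hg h θ).pow 2).add ((pi_tau hg h θ).pow 2)).congr_deriv (by ring)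
  d2 τ h θ := ((((pr_tau hg h θ).mul (pr_tau (DD_diff hg) h θ)).add
    ((pi_tau hg h θ).mul (pi_tau (DD_diff hg) h θ))).const_mul (-2)).congr_deriv (by ring)
  e1 τ h θ := (((pr_theta hg h θ).pow 2).add ((pi_theta hg h θ).pow 2)).congr_deriv (by ring)
  e2 τ h θ := ((((pi_theta hg h θ).mul (pr_theta (DD_diff hg) h θ)).sub
    ((pr_theta hg h θ).mul (pi_theta (DD_diff hg) h θ))).const_mul 2).congr_deriv (by ring)
  p0 τ _ := by rw [pr_per, pi_per]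
  p1 τ _ := by rw [pr_per, pi_per, pr_per, pi_per]

theorem C2.taylor {u u1 u2 v1 v2 : ℝ → ℝ → ℝ} (hu : C2 u u1 u2 v1 v2) {τ₁ : ℝ} (hτ : 0 < τ₁)
    (hτ1 : τ₁ ≤ 1) :
    (∫ θ in (0 : ℝ)..2 * π, u τ₁ θ) = (∫ θ in (0 : ℝ)..2 * π, u 1 θ)
      + (τ₁ - 1) * (∫ θ in (0 : ℝ)..2 * π, u1 1 θ)
      + ∫ τ in τ₁..1, (τ - τ₁) * ∫ θ in (0 : ℝ)..2 * π, (u2 τ θ + v2 τ θ) :=
  taylor_mean u u1 u2 v1 v2 hu.hu hu.hu1 hu.hu2 hu.hv2 hu.d1 hu.d2 hu.e2 hu.p1 hτ hτ1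

/-- `S` -/
theorem C2_SF {f : ℂ → ℂ} (hf : DifferentiableOn ℂ f (ball 0 1)) :
    C2 (SF f)
      (fun τ θ => 2 * YY τ * rr τ +
        -2 * (pr f τ θ * pr (DD f) τ θ + pi' f τ θ * pi' (DD f) τ θ))
      (fun τ θ => 2 * rr τ ^ 2 - 4 * YY τ * rr τ +
        2 * (pr (DD f) τ θ ^ 2 + pi' (DD f) τ θ ^ 2 +
        (pr f τ θ * pr (DD (DD f)) τ θ + pi' f τ θ * pi' (DD (DD f)) τ θ)))
      (fun τ θ => 0 + 2 * (pi' f τ θ * pr (DD f) τ θ - pr f τ θ * pi' (DD f) τ θ))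
      (fun τ θ => 0 + 2 * (pr (DD f) τ θ ^ 2 + pi' (DD f) τ θ ^ 2 -
        (pr f τ θ * pr (DD (DD f)) τ θ + pi' f τ θ * pi' (DD (DD f)) τ θ))) := by
  have h := C2_YY.add (C2_norm hf)
  have h1 : SF f = fun τ θ => YY τ ^ 2 + (pr f τ θ ^ 2 + pi' f τ θ ^ 2) := by
    funext τ θ
    exact SF_eq f τ θ
  rw [h1]
  exact h

theorem P1 (f : ℂ → ℂ) (hf : DifferentiableOn ℂ f (ball 0 1)) :
    ∃ C : ℝ, ∀ τ₁ : ℝ, 0 < τ₁ → τ₁ ≤ 1 →
      |(∫ θ in (0 : ℝ)..2 * π, (1 / 2) * Real.log (SF f τ₁ θ)) -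
        ∫ τ in τ₁..1, (τ - τ₁) * ∫ θ in (0 : ℝ)..2 * π, JJ f τ θ / Real.sinh τ ^ 2| ≤ C := by
  have hS := C2_SF hf
  have hl : HC fun τ θ => (1 / 2) * Real.log (SF f τ θ) :=
    (HC.const (1 / 2)).mul (ContinuousOn.log hS.hu fun p hp => (SF_pos f hp p.2).ne')
  have hl1 : HC fun τ θ => (1 / 2) / (SF f τ θ) :=
    (HC.const (1 / 2)).div hS.hu fun τ h θ => (SF_pos f h θ).ne'
  have hl2 : HC fun τ θ => -(1 / 2) / (SF f τ θ) ^ 2 :=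
    (HC.const (-(1 / 2))).div (HC.comp (continuous_pow 2) hS.hu)
      fun τ h θ => pow_ne_zero 2 (SF_pos f h θ).ne'
  have hL := hS.comp (G := fun x => (1 / 2) * Real.log x) (G1 := fun x => (1 / 2) / x)
    (G2 := fun x => -(1 / 2) / x ^ 2) hl hl1 hl2
    (fun τ h θ => by
      refine ((Real.hasDerivAt_log (SF_pos f h θ).ne').const_mul (1 / 2)).congr_deriv ?_
      ring)
    (fun τ h θ => by
      refine ((hasDerivAt_const (SF f τ θ) (1 / 2 : ℝ)).div (hasDerivAt_id (SF f τ θ))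
        (SF_pos f h θ).ne').congr_deriv ?_
      simp)
  refine ⟨|∫ θ in (0 : ℝ)..2 * π, (1 / 2) * Real.log (SF f 1 θ)| +
    |∫ θ in (0 : ℝ)..2 * π, (1 / 2) / (SF f 1 θ) * (2 * YY 1 * rr 1 +
        -2 * (pr f 1 θ * pr (DD f) 1 θ + pi' f 1 θ * pi' (DD f) 1 θ))|,
    fun τ₁ h h1 => ?_⟩
  have hT := hL.taylor h h1
  have hI : (∫ τ in τ₁..1, (τ - τ₁) * ∫ θ in (0 : ℝ)..2 * π,
      ((-(1 / 2) / SF f τ θ ^ 2 * (2 * YY τ * rr τ +
        -2 * (pr f τ θ * pr (DD f) τ θ + pi' f τ θ * pi' (DD f) τ θ)) ^ 2 +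
        (1 / 2) / SF f τ θ * (2 * rr τ ^ 2 - 4 * YY τ * rr τ +
        2 * (pr (DD f) τ θ ^ 2 + pi' (DD f) τ θ ^ 2 +
        (pr f τ θ * pr (DD (DD f)) τ θ + pi' f τ θ * pi' (DD (DD f)) τ θ)))) +
      (-(1 / 2) / SF f τ θ ^ 2 *
        (0 + 2 * (pi' f τ θ * pr (DD f) τ θ - pr f τ θ * pi' (DD f) τ θ)) ^ 2 +
        (1 / 2) / SF f τ θ * (0 + 2 * (pr (DD f) τ θ ^ 2 + pi' (DD f) τ θ ^ 2 -
        (pr f τ θ * pr (DD (DD f)) τ θ + pi' f τ θ * pi' (DD (DD f)) τ θ)))))) =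
      ∫ τ in τ₁..1, (τ - τ₁) * ∫ θ in (0 : ℝ)..2 * π, JJ f τ θ / Real.sinh τ ^ 2 := by
    refine intervalIntegral.integral_congr fun τ ht => ?_
    rw [uIcc_of_le h1] at ht
    have ht0 : 0 < τ := lt_of_lt_of_le h ht.1
    show (τ - τ₁) * _ = (τ - τ₁) * _
    congr 1
    refine intervalIntegral.integral_congr fun θ _ => ?_
    show _ = JJ f τ θ / Real.sinh τ ^ 2
    rw [JJ_eq f ht0]
    have hs := (SF_pos f ht0 θ).ne'
    have hs2 := SF_eq f τ θ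
    have hY := YY_eq τ
    field_simp
    rw [hs2]
    have hr : rr τ = 1 - 2 * YY τ := by rw [hY]; ring
    rw [hr]
    ring
  rw [hI] at hT
  rw [hT]
  have e1 : ∀ a b c : ℝ, |a + (τ₁ - 1) * b + c - c| ≤ |a| + |b| := by
    intro a b c
    have : a + (τ₁ - 1) * b + c - c = a + (τ₁ - 1) * b := by ring
    rw [this]
    refine (abs_add_le _ _).trans ?_
    have h2 : |(τ₁ - 1) * b| ≤ |b| := by
      rw [abs_mul]
      have : |τ₁ - 1| ≤ 1 := by rw [abs_le]; constructor <;> linarith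
      nlinarith [abs_nonneg b]
    linarith
  exact e1 _ _ _

theorem EE_eq (f h : ℂ → ℂ) (τ θ : ℝ) :
    EE f h τ θ = YY τ ^ 2 * SF f τ θ * (pr h τ θ ^ 2 + pi' h τ θ ^ 2) := by
  rw [EE, ← Complex.normSq_eq_norm_sq, Complex.normSq_apply]
  simp only [pr, pi']
  ring

theorem lap_mul (A A1 A2 A3 A4 B B1 B2 B3 B4 : ℝ) :
    (A * B) * ((A2 * B + 2 * (A1 * B1) + A * B2) + (A4 * B + 2 * (A3 * B3) + A * B4)) -
      ((A1 * B + A * B1) ^ 2 + (A3 * B + A * B3) ^ 2) =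
    (A * (A2 + A4) - (A1 ^ 2 + A3 ^ 2)) * B ^ 2 + A ^ 2 * (B * (B2 + B4) - (B1 ^ 2 + B3 ^ 2)) := by
  ring

theorem JJ_HC {f : ℂ → ℂ} (hf : DifferentiableOn ℂ f (ball 0 1)) :
    HC fun τ θ => JJ f τ θ / Real.sinh τ ^ 2 := by
  have hS := (C2_SF hf).hu
  have h1 : HC fun τ θ =>
      2 * ((YY τ * pr (DD f) τ θ + rr τ * pr f τ θ) ^ 2 +
      (YY τ * pi' (DD f) τ θ + rr τ * pi' f τ θ) ^ 2) / SF f τ θ ^ 2 - rr τ / SF f τ θ := by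
    have hY := HC.of_cont YY_cont
    have hr := HC.of_cont rr_cont
    refine HC.sub (HC.div (HC.mul (HC.const 2) (HC.add (HC.comp (continuous_pow 2)
      ((hY.mul (pr_HC (DD_diff hf))).add (hr.mul (pr_HC hf)))) (HC.comp (continuous_pow 2)
      ((hY.mul (pi_HC (DD_diff hf))).add (hr.mul (pi_HC hf))))))
      (HC.comp (continuous_pow 2) hS) ?_) (HC.div hr hS ?_)
    · exact fun τ h θ => pow_ne_zero 2 (SF_pos f h θ).ne'
    · exact fun τ h θ => (SF_pos f h θ).ne'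
  exact ContinuousOn.congr h1 fun p hp => JJ_eq f hp p.2

theorem sub_div_sinh (f : ℂ → ℂ) {τ : ℝ} (hτ : 0 < τ) (θ : ℝ) :
    (JJ f τ θ - 1) / Real.sinh τ ^ 2 = JJ f τ θ / Real.sinh τ ^ 2 - rr τ / YY τ ^ 2 := by
  have h0 := (YY_pos hτ).ne'
  have h1 := (rr_pos τ).ne'
  rw [sub_div, sinh_sq τ]
  field_simp

theorem P2 (f h : ℂ → ℂ) (hf : DifferentiableOn ℂ f (ball 0 1))
    (hh : DifferentiableOn ℂ h (ball 0 1)) (G G1 G2 : ℝ → ℝ) (δ : ℝ) (hδ : 0 < δ)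
    (hG : ∀ x, HasDerivAt G (G1 x) x) (hG1 : ∀ x, HasDerivAt G1 (G2 x) x)
    (hG2 : Continuous G2) (h0 : ∀ x ≤ δ, G1 x = 0) (hpos : ∀ x, 0 ≤ G1 x)
    (hconv : ∀ x, 0 < x → 0 ≤ G1 x + x * G2 x) :
    ∃ C : ℝ, ∀ τ₁ : ℝ, 0 < τ₁ → τ₁ ≤ 1 →
      ∫ τ in τ₁..1, (τ - τ₁) * ∫ θ in (0 : ℝ)..2 * π,
        2 * EE f h τ θ * G1 (EE f h τ θ) * (JJ f τ θ - 1) / Real.sinh τ ^ 2
      ≤ (∫ θ in (0 : ℝ)..2 * π, G (EE f h τ₁ θ)) + C := by
  have hGc : Continuous G := continuous_iff_continuousAt.2 fun x => (hG x).continuousAt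
  have hG1c : Continuous G1 := continuous_iff_continuousAt.2 fun x => (hG1 x).continuousAt
  have hEE : EE f h = fun τ θ => YY τ ^ 2 * SF f τ θ * (pr h τ θ ^ 2 + pi' h τ θ ^ 2) := by
    funext τ θ
    exact EE_eq f h τ θ
  have hE := (C2_YY.mul (C2_SF hf)).mul (C2_norm hh)
  have hL := hE.comp (G := G) (G1 := G1) (G2 := G2) (HC.comp hGc hE.hu) (HC.comp hG1c hE.hu)
    (HC.comp hG2 hE.hu) (fun τ _ θ => hG _) (fun τ _ θ => hG1 _)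
  have hG20 : G2 0 = 0 := by
    have h1 : HasDerivAt G1 0 0 := by
      refine (hasDerivAt_const (0 : ℝ) (0 : ℝ)).congr_of_eventuallyEq ?_
      filter_upwards [Iio_mem_nhds hδ] with x hx
      exact h0 x (le_of_lt hx)
    exact (hG1 0).unique h1
  have hrhs : HC fun τ θ =>
      2 * EE f h τ θ * G1 (EE f h τ θ) * (JJ f τ θ - 1) / Real.sinh τ ^ 2 := by
    have h1 : HC fun τ θ => 2 * EE f h τ θ * G1 (EE f h τ θ) *
        (JJ f τ θ / Real.sinh τ ^ 2 - rr τ / YY τ ^ 2) := by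
      rw [hEE]
      refine HC.mul (HC.mul (HC.mul (HC.const 2) hE.hu) (HC.comp hG1c hE.hu)) (HC.sub (JJ_HC hf)
        (HC.div (HC.of_cont rr_cont) (HC.of_cont (YY_cont.pow 2)) ?_))
      exact fun τ h θ => pow_ne_zero 2 (YY_pos h).ne'
    refine ContinuousOn.congr h1 fun p hp => ?_
    show _ / _ = _ * _
    rw [← sub_div_sinh f hp, mul_div_assoc]
  obtain ⟨u1, u2, v1, v2, hU, hlap⟩ : ∃ u1 u2 v1 v2 : ℝ → ℝ → ℝ,
      C2 (fun τ θ => G (EE f h τ θ)) u1 u2 v1 v2 ∧ ∀ τ, 0 < τ → ∀ θ,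
        2 * EE f h τ θ * G1 (EE f h τ θ) * (JJ f τ θ - 1) / Real.sinh τ ^ 2 ≤
          u2 τ θ + v2 τ θ := by
    refine ⟨_, _, _, _, by rw [hEE]; exact hL, fun τ ht θ => ?_⟩
    rw [mul_div_assoc, sub_div_sinh f ht, JJ_eq f ht, EE_eq]
    have key : ∀ E E1 E2 E3 E4 K : ℝ, 0 ≤ E → E * (E2 + E4) - (E1 ^ 2 + E3 ^ 2) = 2 * E ^ 2 * K →
        2 * E * G1 E * K ≤ (G2 E * E1 ^ 2 + G1 E * E2) + (G2 E * E3 ^ 2 + G1 E * E4) := by
      intro E E1 E2 E3 E4 K hE0 hid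
      rcases hE0.eq_or_lt with h1 | h1
      · rw [← h1, h0 0 hδ.le, hG20]
        simp
      · have h2 := hconv E h1
        have h3 : 0 ≤ (G1 E + E * G2 E) * (E1 ^ 2 + E3 ^ 2) := by positivity
        have h4 : E * (2 * E * G1 E * K) ≤
            E * ((G2 E * E1 ^ 2 + G1 E * E2) + (G2 E * E3 ^ 2 + G1 E * E4)) := by
          have : E * ((G2 E * E1 ^ 2 + G1 E * E2) + (G2 E * E3 ^ 2 + G1 E * E4)) -
              E * (2 * E * G1 E * K) = (G1 E + E * G2 E) * (E1 ^ 2 + E3 ^ 2) := by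
            linear_combination (G1 E) * hid
          linarith
        exact le_of_mul_le_mul_left h4 h1
    have hs0 := SF_pos f ht θ
    have hy0 := YY_pos ht
    refine key _ _ _ _ _ _ (by positivity) ?_
    rw [lap_mul, lap_mul]
    have i1 : YY τ ^ 2 * ((2 * rr τ ^ 2 - 4 * YY τ * rr τ) + 0) -
        ((2 * YY τ * rr τ) ^ 2 + 0 ^ 2) = -2 * YY τ ^ 2 * rr τ := by
      have hr : rr τ = 1 - 2 * YY τ := by rw [YY_eq τ]; ring
      rw [hr]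
      ring
    have i2 : SF f τ θ * ((2 * rr τ ^ 2 - 4 * YY τ * rr τ +
        2 * (pr (DD f) τ θ ^ 2 + pi' (DD f) τ θ ^ 2 +
        (pr f τ θ * pr (DD (DD f)) τ θ + pi' f τ θ * pi' (DD (DD f)) τ θ))) +
        (0 + 2 * (pr (DD f) τ θ ^ 2 + pi' (DD f) τ θ ^ 2 -
        (pr f τ θ * pr (DD (DD f)) τ θ + pi' f τ θ * pi' (DD (DD f)) τ θ)))) -
        ((2 * YY τ * rr τ +
        -2 * (pr f τ θ * pr (DD f) τ θ + pi' f τ θ * pi' (DD f) τ θ)) ^ 2 +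
        (0 + 2 * (pi' f τ θ * pr (DD f) τ θ - pr f τ θ * pi' (DD f) τ θ)) ^ 2) =
        4 * ((YY τ * pr (DD f) τ θ + rr τ * pr f τ θ) ^ 2 +
        (YY τ * pi' (DD f) τ θ + rr τ * pi' f τ θ) ^ 2) - 2 * rr τ * SF f τ θ := by
      have hr : rr τ = 1 - 2 * YY τ := by rw [YY_eq τ]; ring
      rw [SF_eq, hr]
      ring
    have i3 : (pr h τ θ ^ 2 + pi' h τ θ ^ 2) * (2 * (pr (DD h) τ θ ^ 2 + pi' (DD h) τ θ ^ 2 +
        (pr h τ θ * pr (DD (DD h)) τ θ + pi' h τ θ * pi' (DD (DD h)) τ θ)) +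
        2 * (pr (DD h) τ θ ^ 2 + pi' (DD h) τ θ ^ 2 -
        (pr h τ θ * pr (DD (DD h)) τ θ + pi' h τ θ * pi' (DD (DD h)) τ θ))) -
        ((-2 * (pr h τ θ * pr (DD h) τ θ + pi' h τ θ * pi' (DD h) τ θ)) ^ 2 +
        (2 * (pi' h τ θ * pr (DD h) τ θ - pr h τ θ * pi' (DD h) τ θ)) ^ 2) = 0 := by
      ring
    rw [i1, i2, i3]
    have hs := hs0.ne'
    have hy := hy0.ne'
    field_simp
    ring
  refine ⟨|∫ θ in (0 : ℝ)..2 * π, G (EE f h 1 θ)| + |∫ θ in (0 : ℝ)..2 * π, u1 1 θ|,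
    fun τ₁ ht h1 => ?_⟩
  have hT := hU.taylor ht h1
  have hlv : HC fun τ θ => u2 τ θ + v2 τ θ := hU.hu2.add hU.hv2
  have hle : ∫ τ in τ₁..1, (τ - τ₁) * ∫ θ in (0 : ℝ)..2 * π,
        2 * EE f h τ θ * G1 (EE f h τ θ) * (JJ f τ θ - 1) / Real.sinh τ ^ 2 ≤
      ∫ τ in τ₁..1, (τ - τ₁) * ∫ θ in (0 : ℝ)..2 * π, (u2 τ θ + v2 τ θ) := by
    have hpos' : ∀ τ ∈ uIcc τ₁ 1, 0 < τ := by
      intro τ ht'
      rw [uIcc_of_le h1] at ht'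
      exact lt_of_lt_of_le ht ht'.1
    refine intervalIntegral.integral_mono_on h1 ?_ ?_ fun τ ht' => ?_
    · refine ContinuousOn.intervalIntegrable (ContinuousOn.mul (by fun_prop) ?_)
      exact hrhs.mean.mono fun τ ht' => hpos' τ ht'
    · refine ContinuousOn.intervalIntegrable (ContinuousOn.mul (by fun_prop) ?_)
      exact hlv.mean.mono fun τ ht' => hpos' τ ht'
    · have ht0 : 0 < τ := lt_of_lt_of_le ht ht'.1
      refine mul_le_mul_of_nonneg_left ?_ (by linarith [ht'.1])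
      exact intervalIntegral.integral_mono_on (by positivity) (hrhs.ii ht0 _ _)
        (hlv.ii ht0 _ _) fun θ _ => hlap τ ht0 θ
  have e1 : ∀ a b c : ℝ, c ≤ a + (τ₁ - 1) * b + c + (|a| + |b|) := by
    intro a b c
    have h2 : |(τ₁ - 1) * b| ≤ |b| := by
      rw [abs_mul]
      have : |τ₁ - 1| ≤ 1 := by rw [abs_le]; constructor <;> linarith
      nlinarith [abs_nonneg b]
    have h3 := neg_abs_le ((τ₁ - 1) * b)
    have h4 := neg_abs_le a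
    linarith
  rw [hT]
  exact hle.trans (e1 _ _ _)

end Pool.Agent.SSP
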