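import Pool.Agent.Lib52.SS.PB

set_option autoImplicit false

open Set Metric Filter
open scoped Topology ComplexConjugate

namespace Pool.Agent.SS

noncomputable def KE : ℝ := (1 + (3 * C0) ^ 2) * (4 * PA1 + 4 + PA) + 4 * (4 * PA + PA ^ 2)

theorem KE_pos : 0 < KE := by
  have := PA_pos
  have := PA1_pos
  unfold KE
  positivity

variable {f : ℂ → ℂ}

theorem ClsD.deriv_small (hf : ClsD f) {z : ℂ} (hz : z ∈ ball (0 : ℂ) 1)
    (h : VD f z < -(2 * Real.log (3 * C0))) : ‖deriv f z‖ ≤ 1 / 2 := by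
  have hC := C0_ge
  have h1 := hf.grad hz
  set x := -VD f z with hx
  have hlog : 0 ≤ Real.log (3 * C0) := Real.log_nonneg (by linarith)
  have hx0 : 0 < x := by linarith
  have h2 : |VD f z| = x := by rw [hx, abs_of_neg (by linarith)]
  have h3 : VD f z = -x := by rw [hx]; ring
  rw [h2, h3] at h1
  have h4 := one_add_le hx0.le
  have h5 : Real.exp (-x) = Real.exp (-(x / 2)) * Real.exp (-(x / 2)) := by
    rw [← Real.exp_add]; ring_nf
  have h6 : Real.exp (x / 2) * Real.exp (-(x / 2)) = 1 := by rw [← Real.exp_add]; simp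
  have h7 : Real.exp (-(x / 2)) ≤ 1 / (3 * C0) := by
    rw [Real.exp_neg, inv_eq_one_div]
    apply one_div_le_one_div_of_le (by positivity)
    rw [← Real.log_le_iff_le_exp (by positivity)]
    linarith
  calc ‖deriv f z‖ ≤ Real.exp (-x) * (C0 * (1 + x)) := h1
    _ ≤ Real.exp (-x) * (C0 * (3 / 2 * Real.exp (x / 2))) := by gcongr
    _ = C0 * (3 / 2) * Real.exp (-(x / 2)) * (Real.exp (x / 2) * Real.exp (-(x / 2))) := by
        rw [h5]; ring
    _ = C0 * (3 / 2) * Real.exp (-(x / 2)) := by rw [h6, mul_one]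
    _ ≤ C0 * (3 / 2) * (1 / (3 * C0)) := by gcongr
    _ = 1 / 2 := by field_simp

theorem ClsD.sqrtE (hf : ClsD f) {z : ℂ} (hz : z ∈ ball (0 : ℂ) 1) :
    YD z * ‖E1 f z‖ * (YD z + ‖f z‖) ≤
      KE * (1 + |VD f z| + |Real.log ‖deriv f z - 1‖|) ^ 2 := by
  have hY := YD_pos hz
  have h0 := hf.norm_pos hz
  have hP := PA_pos
  have hP1 := PA1_pos
  have hC := C0_ge
  have hne1 : deriv f z - 1 ≠ 0 := sub_ne_zero.2 (hf.ne1 z hz)
  have h1p : 0 < ‖deriv f z - 1‖ := norm_pos_iff.2 hne1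
  set w := ‖deriv (deriv f) z / (deriv f z - 1)‖ with hw
  set x := |VD f z| with hx
  set u := |Real.log ‖deriv f z - 1‖| with hu
  have hx0 : 0 ≤ x := abs_nonneg _
  have hu0 : 0 ≤ u := abs_nonneg _
  have hw0 : 0 ≤ w := norm_nonneg _
  have hE : ‖E1 f z‖ = w / ‖f z‖ := by
    rw [E1, hw, norm_div, norm_div, norm_mul]
    field_simp
  have hfe := hf.norm_eq hz
  have hev := Real.exp_pos (VD f z)
  have e1 : YD z * ‖E1 f z‖ * (YD z + ‖f z‖) = YD z * w * (1 + Real.exp (-VD f z)) := by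
    rw [hE, hfe, Real.exp_neg]
    field_simp
    ring
  have hT1 : 1 ≤ 1 + x + u := by linarith
  have hT2 : (1 + x + u) ≤ (1 + x + u) ^ 2 := by nlinarith
  rw [e1]
  rcases le_or_gt (-(2 * Real.log (3 * C0))) (VD f z) with h | h
  · have h2 : Real.exp (-VD f z) ≤ (3 * C0) ^ 2 := by
      calc Real.exp (-VD f z) ≤ Real.exp (2 * Real.log (3 * C0)) :=
            Real.exp_le_exp.2 (by linarith)
        _ = (3 * C0) ^ 2 := by
            rw [two_mul, Real.exp_add, Real.exp_log (by positivity)]; ring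
    have h3 := hf.w_le hz
    calc YD z * w * (1 + Real.exp (-VD f z)) ≤
          ((4 * PA1 + 4 + PA) * (1 + x + u)) * (1 + (3 * C0) ^ 2) := by
          gcongr
      _ ≤ ((4 * PA1 + 4 + PA) * (1 + x + u) ^ 2) * (1 + (3 * C0) ^ 2) := by gcongr
      _ ≤ KE * (1 + x + u) ^ 2 := by
          unfold KE
          have : 0 ≤ 4 * (4 * PA + PA ^ 2) * (1 + x + u) ^ 2 := by positivity
          nlinarith
  · have h2 := hf.deriv_small hz h
    have h3 : 1 / 2 ≤ ‖deriv f z - 1‖ := by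
      have := norm_sub_norm_le (1 : ℂ) (1 - (1 - deriv f z))
      have h4 := norm_sub_norm_le (1 : ℂ) (deriv f z)
      rw [norm_one, norm_sub_rev] at h4
      linarith
    have h4 := hf.dd hz
    have h5 : w ≤ 2 * ((4 * PA + PA ^ 2) * (1 + x) ^ 2 / YD z ^ 2 * ‖f z‖) := by
      rw [hw, norm_div, div_le_iff₀ h1p]
      have h6 : 0 ≤ (4 * PA + PA ^ 2) * (1 + x) ^ 2 / YD z ^ 2 * ‖f z‖ := by positivity
      nlinarith
    have hlog : 0 ≤ Real.log (3 * C0) := Real.log_nonneg (by linarith)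
    have h7 : Real.exp (VD f z) ≤ 1 := Real.exp_le_one_iff.2 (by linarith)
    have h8 : Real.exp (VD f z) * Real.exp (-VD f z) = 1 := by rw [← Real.exp_add]; simp
    calc YD z * w * (1 + Real.exp (-VD f z)) ≤
          YD z * (2 * ((4 * PA + PA ^ 2) * (1 + x) ^ 2 / YD z ^ 2 * ‖f z‖)) *
            (1 + Real.exp (-VD f z)) := by
          have := Real.exp_pos (-VD f z)
          gcongr
      _ = 2 * (4 * PA + PA ^ 2) * (1 + x) ^ 2 *
            (Real.exp (VD f z) + Real.exp (VD f z) * Real.exp (-VD f z)) := by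
          rw [hfe]; field_simp
      _ ≤ 2 * (4 * PA + PA ^ 2) * (1 + x) ^ 2 * (1 + 1) := by
          rw [h8]; gcongr
      _ = 4 * (4 * PA + PA ^ 2) * (1 + x) ^ 2 := by ring
      _ ≤ 4 * (4 * PA + PA ^ 2) * (1 + x + u) ^ 2 :=
          mul_le_mul_of_nonneg_left (pow_le_pow_left₀ (by positivity) (by linarith) 2)
            (by positivity)
      _ ≤ KE * (1 + x + u) ^ 2 := by
          unfold KE
          have : 0 ≤ (1 + (3 * C0) ^ 2) * (4 * PA1 + 4 + PA) * (1 + x + u) ^ 2 := by positivity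
          nlinarith

theorem ClsD.logE (hf : ClsD f) {τ θ ε : ℝ} (hτ : 0 < τ) (hε : 0 < ε) :
    1 / 2 * Real.log (1 + EE f (E1 f) τ θ) ≤ Real.log (1 + KE) + 2 * (ε - Real.log ε) +
      2 * ε * (|VD f (zz τ θ)| + |Real.log ‖deriv f (zz τ θ) - 1‖|) := by
  have hz : zz τ θ ∈ ball (0 : ℂ) 1 := zz_mem hτ
  have hY := YD_pos hz
  have hK := KE_pos
  have h1 := hf.sqrtE hz
  set T := 1 + |VD f (zz τ θ)| + |Real.log ‖deriv f (zz τ θ) - 1‖| with hT
  have hT1 : 1 ≤ T := by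
    have := abs_nonneg (VD f (zz τ θ))
    have := abs_nonneg (Real.log ‖deriv f (zz τ θ) - 1‖)
    linarith
  have h0 := hf.norm_pos hz
  have hE0 : 0 ≤ EE f (E1 f) τ θ := by
    unfold EE SF; positivity
  have h2 : EE f (E1 f) τ θ ≤ (KE * T ^ 2) ^ 2 := by
    have h3 : EE f (E1 f) τ θ ≤ (YD (zz τ θ) * ‖E1 f (zz τ θ)‖ * (YD (zz τ θ) + ‖f (zz τ θ)‖)) ^ 2 := by
      rw [EE, SF, YD_zz]
      have h4 : 0 ≤ YY τ := by rw [← YD_zz τ θ]; exact hY.le
      have h5 : YY τ ^ 2 + ‖f (zz τ θ)‖ ^ 2 ≤ (YY τ + ‖f (zz τ θ)‖) ^ 2 := by nlinarith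
      calc YY τ ^ 2 * (YY τ ^ 2 + ‖f (zz τ θ)‖ ^ 2) * ‖E1 f (zz τ θ)‖ ^ 2 ≤
            YY τ ^ 2 * (YY τ + ‖f (zz τ θ)‖) ^ 2 * ‖E1 f (zz τ θ)‖ ^ 2 := by gcongr
        _ = _ := by ring
    refine h3.trans ?_
    apply pow_le_pow_left₀ _ h1
    positivity
  have h3 : 1 + EE f (E1 f) τ θ ≤ ((1 + KE) * T ^ 2) ^ 2 := by
    have h5 : 1 ≤ T ^ 2 := by nlinarith
    have h6 : 0 ≤ KE * T ^ 2 := by positivity
    nlinarith
  have h4 := Real.log_le_log (by linarith) h3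
  rw [Real.log_pow, Real.log_mul (by positivity) (by positivity), Real.log_pow] at h4
  push_cast at h4
  have h5 : Real.log T ≤ ε * T - 1 - Real.log ε := by
    have := Real.log_le_sub_one_of_pos (show 0 < ε * T by positivity)
    rw [Real.log_mul hε.ne' (by positivity)] at this
    linarith
  have h6 : ε * T = ε + ε * (|VD f (zz τ θ)| + |Real.log ‖deriv f (zz τ θ) - 1‖|) := by
    rw [hT]; ring
  linarith

/-- pointwise bound of `|V|` -/
theorem ClsD.V_le (hf : ClsD f) {τ θ : ℝ} (hτ : 0 < τ) :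
    |VD f (zz τ θ)| ≤ 2 * (1 / 2 * Real.log (SF f τ θ)) - 3 * Real.log (YY τ) -
      Real.log ‖f (zz τ θ)‖ := by
  have hz : zz τ θ ∈ ball (0 : ℂ) 1 := zz_mem hτ
  have hY := YYp hτ
  have h0 := hf.norm_pos hz
  have hY1 : YY τ ≤ 1 := by rw [← YD_zz τ θ]; linarith [YD_le (z := zz τ θ)]
  have hlY : Real.log (YY τ) ≤ 0 := Real.log_nonpos hY.le hY1
  have h1 : Real.log (YY τ) ≤ 1 / 2 * Real.log (SF f τ θ) := by
    have := Real.log_le_log (by positivity) (SF_ge f τ θ)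
    rw [Real.log_pow] at this
    push_cast at this
    linarith
  have h2 : Real.log ‖f (zz τ θ)‖ ≤ 1 / 2 * Real.log (SF f τ θ) := by
    have h3 : ‖f (zz τ θ)‖ ^ 2 ≤ SF f τ θ := by
      unfold SF; have := sq_nonneg (YY τ); linarith
    have := Real.log_le_log (by positivity) h3
    rw [Real.log_pow] at this
    push_cast at this
    linarith
  rw [VD, YD_zz, Real.log_div h0.ne' hY.ne', abs_le]
  constructor <;> linarith

theorem ClsD.U_le (hf : ClsD f) {τ θ : ℝ} (hτ : 0 < τ) :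
    |Real.log ‖deriv f (zz τ θ) - 1‖| ≤ 2 * Real.log (2 + C0) + 4 * |VD f (zz τ θ)| -
      Real.log ‖deriv f (zz τ θ) - 1‖ := by
  have hz : zz τ θ ∈ ball (0 : ℂ) 1 := zz_mem hτ
  have hC := C0_ge
  have hne1 : deriv f (zz τ θ) - 1 ≠ 0 := sub_ne_zero.2 (hf.ne1 _ hz)
  have h1p : 0 < ‖deriv f (zz τ θ) - 1‖ := norm_pos_iff.2 hne1
  set x := |VD f (zz τ θ)| with hx
  have hx0 : 0 ≤ x := abs_nonneg _
  have h1 : ‖deriv f (zz τ θ) - 1‖ ≤ (2 + C0) * Real.exp (2 * x) := by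
    have h2 := hf.grad hz
    have h3 : Real.exp (VD f (zz τ θ)) ≤ Real.exp x := Real.exp_le_exp.2 (le_abs_self _)
    have h4 := Real.add_one_le_exp x
    have h5 : Real.exp (2 * x) = Real.exp x * Real.exp x := by rw [← Real.exp_add]; ring_nf
    have h6 : 1 ≤ Real.exp (2 * x) := Real.one_le_exp (by linarith)
    calc ‖deriv f (zz τ θ) - 1‖ ≤ ‖deriv f (zz τ θ)‖ + ‖(1 : ℂ)‖ := norm_sub_le _ _
      _ ≤ Real.exp (VD f (zz τ θ)) * (C0 * (1 + x)) + 1 := by rw [norm_one]; linarith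
      _ ≤ Real.exp x * (C0 * Real.exp x) + 1 := by
          gcongr
          linarith
      _ = C0 * Real.exp (2 * x) + 1 := by rw [h5]; ring
      _ ≤ _ := by nlinarith
  have h2 := Real.log_le_log h1p h1
  rw [Real.log_mul (by positivity) (by positivity), Real.log_exp] at h2
  have h3 : 0 ≤ Real.log (2 + C0) := Real.log_nonneg (by linarith)
  rw [abs_le]
  constructor <;> linarith

theorem neg_log_YY {τ : ℝ} (hτ : 0 < τ) (hτ1 : τ ≤ 1) : -Real.log (YY τ) ≤ -Real.log τ + 2 := by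
  have h1 := Real.log_le_log (by positivity) (YY_ge (s := τ))
  rw [Real.log_mul hτ.ne' (by positivity), Real.log_exp] at h1
  linarith

end Pool.Agent.SS
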