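import Pool.Agent.Lib52.SS.LC
import Pool.Agent.Lib52.SS.PB2
import Pool.Agent.Lib52.SS.Cut
import Pool.Agent.Lib52.SS.P1
import Pool.Agent.Lib52.SS.J1
import Pool.Agent.Lib52.SS.Blocks

set_option autoImplicit false

open Set Metric Filter MeasureTheory
open scoped Topology Real ComplexConjugate
open Pool.Agent.SSP (HC)

namespace Pool.Agent.SS

theorem HC_of {F : ℂ → ℝ} (hF : ContinuousOn F (ball 0 1)) : HC (fun τ θ => F (zz τ θ)) := by
  refine ContinuousOn.comp (g := F) (f := fun p : ℝ × ℝ => zz p.1 p.2) hF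
    SSP.zz_cont.continuousOn ?_
  intro p hp
  exact zz_mem hp

/-- the circular integral -/
noncomputable def mI (F : ℝ → ℝ → ℝ) (τ : ℝ) : ℝ := ∫ θ in (0 : ℝ)..2 * π, F τ θ

/-- the logarithmic integral -/
noncomputable def II (F : ℝ → ℝ → ℝ) (τ₁ : ℝ) : ℝ := ∫ τ in τ₁..1, mI F τ / τ

section basics

variable {F G : ℝ → ℝ → ℝ} {τ τ₁ : ℝ}

theorem mI_mono (hF : HC F) (hG : HC G) (hτ : 0 < τ) (h : ∀ θ, F τ θ ≤ G τ θ) :
    mI F τ ≤ mI G τ :=
  intervalIntegral.integral_mono (by positivity) (hF.ii hτ _ _) (hG.ii hτ _ _) h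

theorem mI_add (hF : HC F) (hG : HC G) (hτ : 0 < τ) :
    mI (fun τ θ => F τ θ + G τ θ) τ = mI F τ + mI G τ :=
  intervalIntegral.integral_add (hF.ii hτ _ _) (hG.ii hτ _ _)

theorem mI_sub (hF : HC F) (hG : HC G) (hτ : 0 < τ) :
    mI (fun τ θ => F τ θ - G τ θ) τ = mI F τ - mI G τ :=
  intervalIntegral.integral_sub (hF.ii hτ _ _) (hG.ii hτ _ _)

theorem mI_cmul (c : ℝ) : mI (fun τ θ => c * F τ θ) τ = c * mI F τ :=
  intervalIntegral.integral_const_mul _ _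

theorem mI_const (c : ℝ) : mI (fun _ _ => c) τ = 2 * π * c := by
  unfold mI
  rw [intervalIntegral.integral_const]
  simp

theorem mI_cont (hF : HC F) : ContinuousOn (mI F) (Ioi 0) := hF.mean

theorem II_ii (hF : HC F) {a b : ℝ} (ha : 0 < a) (hb : 0 < b) :
    IntervalIntegrable (fun τ => mI F τ / τ) volume a b := by
  apply ContinuousOn.intervalIntegrable
  have hsub : uIcc a b ⊆ Ioi 0 := fun x hx => lt_of_lt_of_le (lt_min ha hb) hx.1
  exact ((mI_cont hF).mono hsub).div continuousOn_id fun x hx => (hsub hx).ne'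

theorem II_mono (hF : HC F) (hG : HC G) (h1 : 0 < τ₁) (h2 : τ₁ ≤ 1)
    (h : ∀ τ θ, 0 < τ → F τ θ ≤ G τ θ) : II F τ₁ ≤ II G τ₁ := by
  apply intervalIntegral.integral_mono_on h2 (II_ii hF h1 one_pos) (II_ii hG h1 one_pos)
  intro τ hτ
  have h0 : 0 < τ := lt_of_lt_of_le h1 hτ.1
  exact div_le_div_of_nonneg_right (mI_mono hF hG h0 fun θ => h τ θ h0) h0.le

theorem II_congr (h1 : 0 < τ₁) (h2 : τ₁ ≤ 1)
    (h : ∀ τ, 0 < τ → mI F τ = mI G τ) : II F τ₁ = II G τ₁ := by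
  apply intervalIntegral.integral_congr
  intro τ hτ
  rw [uIcc_of_le h2] at hτ
  show mI F τ / τ = mI G τ / τ
  rw [h τ (lt_of_lt_of_le h1 hτ.1)]

theorem II_add (hF : HC F) (hG : HC G) (h1 : 0 < τ₁) (h2 : τ₁ ≤ 1) :
    II (fun τ θ => F τ θ + G τ θ) τ₁ = II F τ₁ + II G τ₁ := by
  unfold II
  rw [← intervalIntegral.integral_add (II_ii hF h1 one_pos) (II_ii hG h1 one_pos)]
  apply intervalIntegral.integral_congr
  intro τ hτ
  rw [uIcc_of_le h2] at hτ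
  show mI (fun τ θ => F τ θ + G τ θ) τ / τ = mI F τ / τ + mI G τ / τ
  rw [mI_add hF hG (lt_of_lt_of_le h1 hτ.1), add_div]

theorem II_cmul (c : ℝ) : II (fun τ θ => c * F τ θ) τ₁ = c * II F τ₁ := by
  unfold II
  rw [← intervalIntegral.integral_const_mul]
  apply intervalIntegral.integral_congr
  intro τ _
  show mI (fun τ θ => c * F τ θ) τ / τ = c * (mI F τ / τ)
  rw [mI_cmul]; ring

theorem II_const (c : ℝ) (h1 : 0 < τ₁) : II (fun _ _ => c) τ₁ = 2 * π * c * (-Real.log τ₁) := by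
  unfold II
  simp only [mI_const]
  have : ∀ τ : ℝ, 2 * π * c / τ = 2 * π * c * τ⁻¹ := fun τ => by rw [div_eq_mul_inv]
  simp only [this]
  rw [intervalIntegral.integral_const_mul, integral_inv_of_pos h1 one_pos, one_div, Real.log_inv]

end basics

section cls

variable {f : ℂ → ℂ}

theorem ClsD.contV (hf : ClsD f) : ContinuousOn (VD f) (ball 0 1) := by
  unfold VD
  apply ContinuousOn.log
  · apply ContinuousOn.div hf.diff.continuousOn.norm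
    · unfold YD; fun_prop
    · intro z hz
      exact (YD_pos hz).ne'
  · intro z hz
    exact (div_pos (hf.norm_pos hz) (YD_pos hz)).ne'

theorem ClsD.contLog (hf : ClsD f) : ContinuousOn (fun z => Real.log ‖f z‖) (ball 0 1) :=
  hf.diff.continuousOn.norm.log fun _ hz => (hf.norm_pos hz).ne'

theorem ClsD.diff1 (hf : ClsD f) : DifferentiableOn ℂ (fun z => deriv f z - 1) (ball 0 1) :=
  (hf.diff.deriv isOpen_ball).sub_const 1

theorem ClsD.contLogU (hf : ClsD f) :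
    ContinuousOn (fun z => Real.log ‖deriv f z - 1‖) (ball 0 1) :=
  hf.diff1.continuousOn.norm.log fun z hz =>
    (norm_pos_iff.2 (sub_ne_zero.2 (hf.ne1 z hz))).ne'

theorem ClsD.diffE1 (hf : ClsD f) : DifferentiableOn ℂ (E1 f) (ball 0 1) := by
  unfold E1
  apply DifferentiableOn.div ((hf.diff.deriv isOpen_ball).deriv isOpen_ball)
    (hf.diff.mul hf.diff1)
  intro z hz
  exact mul_ne_zero (hf.ne0 z hz) (sub_ne_zero.2 (hf.ne1 z hz))

theorem hcV (hf : ClsD f) : HC (fun τ θ => |VD f (zz τ θ)|) :=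
  HC_of (F := fun z => |VD f z|) hf.contV.abs

theorem hcU (hf : ClsD f) : HC (fun τ θ => |Real.log ‖deriv f (zz τ θ) - 1‖|) :=
  HC_of (F := fun z => |Real.log ‖deriv f z - 1‖|) hf.contLogU.abs

theorem hcSF (hf : ClsD f) : HC (SF f) := by
  have h1 : HC (fun τ θ => ‖f (zz τ θ)‖) := HC_of (F := fun z => ‖f z‖) hf.diff.continuousOn.norm
  have h2 : HC (fun τ _ => YY τ ^ 2) := HC.of_cont (by unfold YY; fun_prop)
  have h3 := h2.add (h1.mul h1)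
  refine ContinuousOn.congr h3 fun p _ => ?_
  show YY p.1 ^ 2 + ‖f (zz p.1 p.2)‖ ^ 2 = YY p.1 ^ 2 + ‖f (zz p.1 p.2)‖ * ‖f (zz p.1 p.2)‖
  ring

theorem SFp (f : ℂ → ℂ) {τ : ℝ} (hτ : 0 < τ) (θ : ℝ) : 0 < SF f τ θ :=
  lt_of_lt_of_le (by have := YYp hτ; positivity) (SF_ge f τ θ)

theorem hcB (hf : ClsD f) : HC (fun τ θ => 1 / 2 * Real.log (SF f τ θ)) :=
  (HC.const (1 / 2)).mul (ContinuousOn.log (hcSF hf) fun p hp => (SFp f hp p.2).ne')

theorem hcJ (hf : ClsD f) : HC (JJ f) := by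
  have h1 := SSP.JJ_HC hf.diff
  have h2 : HC (fun τ _ => Real.sinh τ ^ 2) := HC.of_cont (by fun_prop)
  refine ContinuousOn.congr (h1.mul h2) fun p hp => ?_
  have : Real.sinh p.1 ≠ 0 := (Real.sinh_pos_iff.2 hp).ne'
  show JJ f p.1 p.2 = JJ f p.1 p.2 / Real.sinh p.1 ^ 2 * Real.sinh p.1 ^ 2
  field_simp

theorem hcE (hf : ClsD f) : HC (EE f (E1 f)) := by
  have h1 : HC (fun τ θ => ‖E1 f (zz τ θ)‖) :=
    HC_of (F := fun z => ‖E1 f z‖) hf.diffE1.continuousOn.norm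
  have h2 : HC (fun τ _ => YY τ ^ 2) := HC.of_cont (by unfold YY; fun_prop)
  have h3 := (h2.mul (hcSF hf)).mul (h1.mul h1)
  refine ContinuousOn.congr h3 fun p _ => ?_
  show YY p.1 ^ 2 * SF f p.1 p.2 * ‖E1 f (zz p.1 p.2)‖ ^ 2 =
    YY p.1 ^ 2 * SF f p.1 p.2 * (‖E1 f (zz p.1 p.2)‖ * ‖E1 f (zz p.1 p.2)‖)
  ring

theorem EE_nonneg (f h : ℂ → ℂ) (τ θ : ℝ) : 0 ≤ EE f h τ θ := by
  unfold EE SF; positivity

theorem mJ_bound (hf : ClsD f) {τ : ℝ} (hτ : 0 < τ) : |mI (JJ f) τ| ≤ 2 * π * Cj := by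
  have hC := Cj_ge
  have h1 := mI_mono (hcJ hf) (HC.const Cj) hτ (fun θ => JJ_le_Cj hf hτ)
  have h2 := mI_mono (HC.const (-1)) (hcJ hf) hτ (fun θ => JJ_ge f hτ)
  rw [mI_const] at h1 h2
  have hπ := Real.pi_pos
  rw [abs_le]
  constructor
  · nlinarith
  · exact h1

/-- the identity for `½ log S` in terms of the logarithmic integral -/
theorem B1 (hf : ClsD f) : ∃ C : ℝ, ∀ τ₁ : ℝ, 0 < τ₁ → τ₁ ≤ 1 →
    |mI (fun τ θ => 1 / 2 * Real.log (SF f τ θ)) τ₁ - II (JJ f) τ₁| ≤ C := by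
  obtain ⟨C, hC⟩ := SSP.P1 f hf.diff
  refine ⟨C + 2 * (2 * π * Cj), fun τ₁ h1 h2 => ?_⟩
  have h3 := hC τ₁ h1 h2
  have h4 := SSP.conv (mI (JJ f)) (2 * π * Cj) (mI_cont (hcJ hf)) (fun τ h _ => mJ_bound hf h) h1 h2
  have e1 : ∫ τ in τ₁..1, (τ - τ₁) * ∫ θ in (0 : ℝ)..2 * π, JJ f τ θ / Real.sinh τ ^ 2 =
      ∫ τ in τ₁..1, (τ - τ₁) * (mI (JJ f) τ / Real.sinh τ ^ 2) := by
    apply intervalIntegral.integral_congr
    intro τ _
    show (τ - τ₁) * (∫ θ in (0 : ℝ)..2 * π, JJ f τ θ / Real.sinh τ ^ 2) =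
      (τ - τ₁) * (mI (JJ f) τ / Real.sinh τ ^ 2)
    rw [mI, intervalIntegral.integral_div]
  rw [e1] at h3
  have h5 := abs_add_le (mI (fun τ θ => 1 / 2 * Real.log (SF f τ θ)) τ₁ -
    ∫ τ in τ₁..1, (τ - τ₁) * (mI (JJ f) τ / Real.sinh τ ^ 2))
    ((∫ τ in τ₁..1, (τ - τ₁) * (mI (JJ f) τ / Real.sinh τ ^ 2)) - II (JJ f) τ₁)
  rw [sub_add_sub_cancel] at h5
  refine h5.trans (add_le_add h3 h4)

/-- the inequality for the truncated logarithm of `E` -/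
theorem B2 (hf : ClsD f) {δ : ℝ} (hδ : 0 < δ) : ∃ C : ℝ, ∀ τ₁ : ℝ, 0 < τ₁ → τ₁ ≤ 1 →
    II (fun τ θ => sg δ (EE f (E1 f) τ θ) * (JJ f τ θ - 1)) τ₁ ≤
      mI (fun τ θ => Gf δ (EE f (E1 f) τ θ)) τ₁ + C := by
  obtain ⟨C, hC⟩ := SSP.P2 f (E1 f) hf.diff hf.diffE1 (Gf δ) (G1 δ) (G2 δ) δ hδ (Gf_deriv hδ)
    (G1_deriv hδ) (G2_cont hδ) (fun x hx => G1_zero hδ hx) (G1_nonneg hδ) (G_conv hδ)
  set F : ℝ → ℝ → ℝ := fun τ θ => sg δ (EE f (E1 f) τ θ) * (JJ f τ θ - 1) with hF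
  have hFc : HC F := (HC.comp (sg_cont δ) (hcE hf)).mul ((hcJ hf).sub (HC.const 1))
  have hCj := Cj_ge
  have hπ := Real.pi_pos
  have hFb : ∀ τ, 0 < τ → |mI F τ| ≤ 2 * π * (Cj + 1) := by
    intro τ hτ
    have h1 := mI_mono hFc (HC.const (Cj + 1)) hτ (fun θ => by
      have e1 := JJ_le_Cj (θ := θ) hf hτ
      have e2 := sg_nonneg δ (EE f (E1 f) τ θ)
      have e3 := sg_le_one δ (EE f (E1 f) τ θ)
      show sg δ (EE f (E1 f) τ θ) * (JJ f τ θ - 1) ≤ Cj + 1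
      rcases le_total 0 (JJ f τ θ - 1) with h | h
      · nlinarith
      · nlinarith)
    have h2 := mI_mono (HC.const (-(Cj + 1))) hFc hτ (fun θ => by
      have e1 := JJ_ge (θ := θ) f hτ
      have e2 := sg_nonneg δ (EE f (E1 f) τ θ)
      have e3 := sg_le_one δ (EE f (E1 f) τ θ)
      show -(Cj + 1) ≤ sg δ (EE f (E1 f) τ θ) * (JJ f τ θ - 1)
      rcases le_total 0 (JJ f τ θ - 1) with h | h
      · nlinarith
      · nlinarith)
    rw [mI_const] at h1 h2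
    rw [abs_le]
    constructor
    · linarith
    · exact h1
  refine ⟨C + 2 * (2 * π * (Cj + 1)), fun τ₁ h1 h2 => ?_⟩
  have h3 := hC τ₁ h1 h2
  have h4 := SSP.conv (mI F) (2 * π * (Cj + 1)) (mI_cont hFc) (fun τ h _ => hFb τ h) h1 h2
  have e1 : ∫ τ in τ₁..1, (τ - τ₁) * ∫ θ in (0 : ℝ)..2 * π,
        2 * EE f (E1 f) τ θ * G1 δ (EE f (E1 f) τ θ) * (JJ f τ θ - 1) / Real.sinh τ ^ 2 =
      ∫ τ in τ₁..1, (τ - τ₁) * (mI F τ / Real.sinh τ ^ 2) := by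
    apply intervalIntegral.integral_congr
    intro τ _
    show (τ - τ₁) * (∫ θ in (0 : ℝ)..2 * π,
        2 * EE f (E1 f) τ θ * G1 δ (EE f (E1 f) τ θ) * (JJ f τ θ - 1) / Real.sinh τ ^ 2) =
      (τ - τ₁) * (mI F τ / Real.sinh τ ^ 2)
    rw [mI, intervalIntegral.integral_div]
    simp only [hF, G1_mul hδ]
  rw [e1] at h3
  have h5 := (abs_le.1 h4).1
  have h6 : II F τ₁ = ∫ τ in τ₁..1, mI F τ / τ := rfl
  have h7 : mI (fun τ θ => Gf δ (EE f (E1 f) τ θ)) τ₁ =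
    ∫ θ in (0 : ℝ)..2 * π, Gf δ (EE f (E1 f) τ₁ θ) := rfl
  rw [h6, h7]
  linarith

/-- growth of the means of `|V|` and `|U|` -/
noncomputable def KM : ℝ := 5 * (2 * (2 * π * Cj) + 3 * (2 * π))

theorem KM_pos : 0 < KM := by
  have := Cj_ge
  have := Real.pi_pos
  unfold KM
  positivity

theorem mV (hf : ClsD f) : ∃ C : ℝ, ∀ τ : ℝ, 0 < τ → τ ≤ 1 →
    mI (fun τ θ => |VD f (zz τ θ)| + |Real.log ‖deriv f (zz τ θ) - 1‖|) τ ≤
      C + KM * (-Real.log τ) := by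
  obtain ⟨C, hC⟩ := B1 hf
  set CV : ℝ := 2 * C + 12 * π - 2 * π * Real.log ‖f 0‖ with hCV
  refine ⟨5 * CV + 2 * π * (2 * Real.log (2 + C0)) - 2 * π * Real.log ‖deriv f 0 - 1‖,
    fun τ h1 h2 => ?_⟩
  have hπ := Real.pi_pos
  have hlog : 0 ≤ -Real.log τ := by
    have := Real.log_nonpos h1.le h2
    linarith
  have hII : II (JJ f) τ ≤ 2 * π * Cj * (-Real.log τ) := by
    rw [← II_const Cj h1]
    exact II_mono (hcJ hf) (HC.const Cj) h1 h2 (fun τ θ h => JJ_le_Cj hf h)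
  have hB := (abs_le.1 (hC τ h1 h2)).2
  have hf0 := SSP.M1 f hf.diff hf.ne0 h1
  have hu0 := SSP.M1 (fun z => deriv f z - 1) hf.diff1 (fun z hz => sub_ne_zero.2 (hf.ne1 z hz)) h1
  have hcL : HC (fun τ θ => Real.log ‖f (zz τ θ)‖) := HC_of hf.contLog
  have hcLU : HC (fun τ θ => Real.log ‖deriv f (zz τ θ) - 1‖) := HC_of hf.contLogU
  have hY : HC (fun τ _ => 3 * Real.log (YY τ)) := by
    apply (HC.const 3).mul
    refine ContinuousOn.log ?_ (fun p hp => (YYp hp).ne')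
    exact (HC.of_cont (c := YY) (by unfold YY; fun_prop))
  -- V
  have hV : mI (fun τ θ => |VD f (zz τ θ)|) τ ≤ CV + (2 * (2 * π * Cj) + 3 * (2 * π)) *
      (-Real.log τ) := by
    have h3 := mI_mono (hcV hf) ((((HC.const 2).mul (hcB hf)).sub hY).sub hcL) h1
      (fun θ => hf.V_le h1)
    rw [mI_sub (((HC.const 2).mul (hcB hf)).sub hY) hcL h1, mI_sub ((HC.const 2).mul (hcB hf)) hY h1,
      mI_cmul] at h3
    have e1 : mI (fun τ θ => Real.log ‖f (zz τ θ)‖) τ = 2 * π * Real.log ‖f 0‖ := hf0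
    have e2 : mI (fun τ _ => 3 * Real.log (YY τ)) τ = 2 * π * (3 * Real.log (YY τ)) := by
      unfold mI
      rw [intervalIntegral.integral_const]; simp
    rw [e1, e2] at h3
    have h4 := neg_log_YY h1 h2
    have h5 : -(2 * π * (3 * Real.log (YY τ))) ≤ 2 * π * (3 * (-Real.log τ + 2)) := by
      have : -(2 * π * (3 * Real.log (YY τ))) = 2 * π * (3 * (-Real.log (YY τ))) := by ring
      rw [this]; gcongr
    rw [hCV]
    linarith
  -- U
  have hU : mI (fun τ θ => |Real.log ‖deriv f (zz τ θ) - 1‖|) τ ≤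
      2 * π * (2 * Real.log (2 + C0)) + 4 * mI (fun τ θ => |VD f (zz τ θ)|) τ -
        2 * π * Real.log ‖deriv f 0 - 1‖ := by
    have h3 := mI_mono (hcU hf) (((HC.const (2 * Real.log (2 + C0))).add
      ((HC.const 4).mul (hcV hf))).sub hcLU) h1 (fun θ => hf.U_le h1)
    rw [mI_sub ((HC.const (2 * Real.log (2 + C0))).add ((HC.const 4).mul (hcV hf))) hcLU h1,
      mI_add (HC.const (2 * Real.log (2 + C0))) ((HC.const 4).mul (hcV hf)) h1,
      mI_cmul (F := fun τ θ => |VD f (zz τ θ)|), mI_const] at h3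
    have e1 : mI (fun τ θ => Real.log ‖deriv f (zz τ θ) - 1‖) τ =
      2 * π * Real.log ‖deriv f 0 - 1‖ := hu0
    rw [e1] at h3
    exact h3
  rw [mI_add (hcV hf) (hcU hf) h1]
  unfold KM
  linarith

/-- the mean of `½ log (1 + E)` is small -/
theorem mE (hf : ClsD f) {ε : ℝ} (hε : 0 < ε) : ∃ C : ℝ, ∀ τ : ℝ, 0 < τ → τ ≤ 1 →
    mI (fun τ θ => 1 / 2 * Real.log (1 + EE f (E1 f) τ θ)) τ ≤ C + ε * (-Real.log τ) := by
  obtain ⟨C, hC⟩ := mV hf
  have hK := KM_pos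
  set e : ℝ := ε / (2 * KM) with he
  have he0 : 0 < e := by positivity
  refine ⟨2 * π * (Real.log (1 + KE) + 2 * (e - Real.log e)) + 2 * e * C, fun τ h1 h2 => ?_⟩
  have hcl : HC (fun τ θ => 1 / 2 * Real.log (1 + EE f (E1 f) τ θ)) := by
    apply (HC.const (1 / 2)).mul
    refine ContinuousOn.log ((HC.const 1).add (hcE hf)) (fun p _ => ?_)
    have := EE_nonneg f (E1 f) p.1 p.2
    show 1 + EE f (E1 f) p.1 p.2 ≠ 0
    positivity
  have h3 := mI_mono hcl ((HC.const (Real.log (1 + KE) + 2 * (e - Real.log e))).add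
    ((HC.const (2 * e)).mul ((hcV hf).add (hcU hf)))) h1 (fun θ => hf.logE h1 he0)
  rw [mI_add (HC.const _) ((HC.const (2 * e)).mul ((hcV hf).add (hcU hf))) h1, mI_const,
    mI_cmul (F := fun τ θ => |VD f (zz τ θ)| + |Real.log ‖deriv f (zz τ θ) - 1‖|)] at h3
  have h4 := hC τ h1 h2
  have h5 : 2 * e * mI (fun τ θ => |VD f (zz τ θ)| + |Real.log ‖deriv f (zz τ θ) - 1‖|) τ ≤
      2 * e * (C + KM * (-Real.log τ)) := by gcongr
  have h6 : 2 * e * (C + KM * (-Real.log τ)) = 2 * e * C + ε * (-Real.log τ) := by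
    rw [he]; field_simp
  linarith

end cls

end Pool.Agent.SS
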