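import Pool.Agent.Lib52.SS.Glob1

set_option autoImplicit false

open Set Metric Filter MeasureTheory
open scoped Topology Real ComplexConjugate
open Pool.Agent.SSP (HC)

namespace Pool.Agent.SS

/-- the cut-off -/
noncomputable def bt (δ : ℝ) (f : ℂ → ℂ) (τ θ : ℝ) : ℝ := 1 - sg δ (EE f (E1 f) τ θ)

noncomputable def nu (δ : ℝ) (f : ℂ → ℂ) (τ θ : ℝ) : ℝ := bt δ f τ θ * max (JJ f τ θ - 1 / 4) 0

section steps

variable {f : ℂ → ℂ} {δ : ℝ}

theorem bt_nonneg (δ : ℝ) (f : ℂ → ℂ) (τ θ : ℝ) : 0 ≤ bt δ f τ θ := by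
  unfold bt; linarith [sg_le_one δ (EE f (E1 f) τ θ)]

theorem bt_le_one (δ : ℝ) (f : ℂ → ℂ) (τ θ : ℝ) : bt δ f τ θ ≤ 1 := by
  unfold bt; linarith [sg_nonneg δ (EE f (E1 f) τ θ)]

theorem hcbt (hf : ClsD f) : HC (bt δ f) := (HC.const 1).sub (HC.comp (sg_cont δ) (hcE hf))

theorem hcmax (hf : ClsD f) (c : ℝ) : HC (fun τ θ => max (JJ f τ θ - c) 0) :=
  HC.comp (G := fun x => max (x - c) 0) (by fun_prop) (hcJ hf)

theorem hcnu (hf : ClsD f) : HC (nu δ f) := (hcbt hf).mul (hcmax hf (1 / 4))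

theorem nu_nonneg (δ : ℝ) (f : ℂ → ℂ) (τ θ : ℝ) : 0 ≤ nu δ f τ θ :=
  mul_nonneg (bt_nonneg _ _ _ _) (le_max_right _ _)

theorem max_le_Cj (hf : ClsD f) {τ θ : ℝ} (hτ : 0 < τ) {c : ℝ} (hc : 0 ≤ c) :
    max (JJ f τ θ - c) 0 ≤ Cj := by
  have h1 := JJ_le_Cj (θ := θ) hf hτ
  have h2 := Cj_ge
  exact max_le (by linarith) (by linarith)

theorem nu_le (hf : ClsD f) {τ θ : ℝ} (hτ : 0 < τ) : nu δ f τ θ ≤ Cj := by
  have h1 := max_le_Cj (θ := θ) hf hτ (show (0 : ℝ) ≤ 1 / 4 by norm_num)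
  have h2 := bt_le_one δ f τ θ
  have h3 := bt_nonneg δ f τ θ
  have h4 : 0 ≤ max (JJ f τ θ - 1 / 4) 0 := le_max_right _ _
  unfold nu
  nlinarith

theorem step1 (hf : ClsD f) {τ₁ : ℝ} (h1 : 0 < τ₁) (h2 : τ₁ ≤ 1) :
    II (JJ f) τ₁ - 2 * π * (-Real.log τ₁) ≤
      II (fun τ θ => sg δ (EE f (E1 f) τ θ) * (JJ f τ θ - 1)) τ₁ - 3 / 4 * II (bt δ f) τ₁ +
        II (nu δ f) τ₁ := by
  have hs : HC (fun τ θ => sg δ (EE f (E1 f) τ θ) * (JJ f τ θ - 1)) :=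
    (HC.comp (sg_cont δ) (hcE hf)).mul ((hcJ hf).sub (HC.const 1))
  have hb := hcbt (δ := δ) hf
  have hn := hcnu (δ := δ) hf
  have key := II_mono (hcJ hf) ((((HC.const 1).add hs).add ((HC.const (-(3 / 4))).mul hb)).add hn)
    h1 h2 (fun τ θ _ => by
      have e1 : JJ f τ θ - 1 = sg δ (EE f (E1 f) τ θ) * (JJ f τ θ - 1) +
        bt δ f τ θ * (JJ f τ θ - 1) := by unfold bt; ring
      have e2 : bt δ f τ θ * (JJ f τ θ - 1 / 4) ≤ nu δ f τ θ := by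
        unfold nu
        exact mul_le_mul_of_nonneg_left (le_max_left _ _) (bt_nonneg _ _ _ _)
      linarith)
  rw [II_add (((HC.const 1).add hs).add ((HC.const (-(3 / 4))).mul hb)) hn h1 h2,
    II_add ((HC.const 1).add hs) ((HC.const (-(3 / 4))).mul hb) h1 h2,
    II_add (HC.const 1) hs h1 h2, II_cmul (F := bt δ f), II_const 1 h1] at key
  linarith

theorem zz_per' (τ θ : ℝ) : zz τ (θ + 2 * π) = zz τ θ := by
  unfold zz
  rw [Complex.exp_eq_exp_iff_exists_int]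
  exact ⟨1, by push_cast; ring⟩

theorem bt_per (δ : ℝ) (f : ℂ → ℂ) (τ : ℝ) : Function.Periodic (bt δ f τ) (2 * π) := by
  intro θ
  show bt δ f τ (θ + 2 * π) = bt δ f τ θ
  unfold bt EE SF
  rw [zz_per']

theorem bt_shift (δ : ℝ) (f : ℂ → ℂ) (τ c : ℝ) :
    ∫ θ in (0 : ℝ)..2 * π, bt δ f τ (θ + c) = mI (bt δ f) τ := by
  rw [intervalIntegral.integral_comp_add_right (fun x => bt δ f τ x)]
  have h := (bt_per δ f τ).intervalIntegral_add_eq c 0
  have e1 : (0 : ℝ) + c = c := zero_add c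
  have e2 : 2 * π + c = c + 2 * π := by ring
  rw [e1, e2, h, zero_add, mI]

theorem mbt_bd (hf : ClsD f) {τ : ℝ} (hτ : 0 < τ) :
    0 ≤ mI (bt δ f) τ ∧ mI (bt δ f) τ ≤ 2 * π := by
  have h1 := mI_mono (HC.const 0) (hcbt (δ := δ) hf) hτ (fun θ => bt_nonneg _ _ _ _)
  have h2 := mI_mono (hcbt (δ := δ) hf) (HC.const 1) hτ (fun θ => bt_le_one _ _ _ _)
  rw [mI_const] at h1 h2
  constructor <;> linarith

theorem II_nonneg {F : ℝ → ℝ → ℝ} (hF : HC F) {τ₁ : ℝ} (h1 : 0 < τ₁) (h2 : τ₁ ≤ 1)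
    (h : ∀ τ θ, 0 < τ → 0 ≤ F τ θ) : 0 ≤ II F τ₁ := by
  have := II_mono (HC.const 0) hF h1 h2 h
  rw [II_const 0 h1] at this
  linarith

/-- splitting off the range away from the boundary -/
theorem II_split {F : ℝ → ℝ → ℝ} (hF : HC F) {K : ℝ} (hK : ∀ τ θ, 0 < τ → F τ θ ≤ K)
    {τ₁ η : ℝ} (h1 : 0 < τ₁) (h2 : 0 < η) (h3 : η ≤ 1) :
    II F τ₁ ≤ (∫ τ in τ₁..η, mI F τ / τ) + 2 * π * K * (-Real.log η) := by
  have h4 : II F τ₁ = (∫ τ in τ₁..η, mI F τ / τ) + II F η :=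
    (intervalIntegral.integral_add_adjacent_intervals (II_ii hF h1 h2) (II_ii hF h2 one_pos)).symm
  have h5 := II_mono hF (HC.const K) h2 h3 hK
  rw [II_const K h2] at h5
  linarith

theorem sum_aux {ι : Type*} (I : Finset ι) (b : ι → ℝ) (hb : ∀ x ∈ I, 0 ≤ b x) {x : ι}
    (hx : x ∈ I) (h1 : b x = 1) : 1 ≤ ∑ x ∈ I, b x := by
  have h := Finset.single_le_sum hb hx
  rw [h1] at h
  exact h

theorem P_le_sum (hδ : 0 < δ) (hf : ClsD f) {τ θ : ℝ} (hτ : 0 < τ) (I : Finset (ℝ × ℝ))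
    (h : 1 / 2 ≤ JJ f τ θ → ∃ x ∈ I, EE f (E1 f) (τ * x.2) (θ + τ * x.1) < δ) :
    max (JJ f τ θ - 1 / 2) 0 ≤ Cj * ∑ x ∈ I, bt δ f (τ * x.2) (θ + τ * x.1) := by
  have hCj := Cj_ge
  have hsum0 : 0 ≤ ∑ x ∈ I, bt δ f (τ * x.2) (θ + τ * x.1) :=
    Finset.sum_nonneg fun x _ => bt_nonneg δ f (τ * x.2) (θ + τ * x.1)
  rcases le_or_gt (1 / 2) (JJ f τ θ) with h0 | h0
  · obtain ⟨x, hx, hEx⟩ := h h0
    have h6 : bt δ f (τ * x.2) (θ + τ * x.1) = 1 := by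
      unfold bt
      rw [sg_zero hδ hEx.le, sub_zero]
    have h7 : 1 ≤ ∑ x ∈ I, bt δ f (τ * x.2) (θ + τ * x.1) :=
      sum_aux I (fun x => bt δ f (τ * x.2) (θ + τ * x.1))
        (fun x _ => bt_nonneg δ f (τ * x.2) (θ + τ * x.1)) hx h6
    have h8 : max (JJ f τ θ - 1 / 2) 0 ≤ Cj :=
      max_le_Cj (θ := θ) hf hτ (show (0 : ℝ) ≤ 1 / 2 by norm_num)
    have h9 := mul_le_mul_of_nonneg_left h7 (show (0 : ℝ) ≤ Cj from by linarith)
    rw [mul_one] at h9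
    exact h8.trans h9
  · rw [max_eq_right (by linarith)]
    exact mul_nonneg (by linarith) hsum0

theorem step2 (hδ : 0 < δ) : ∃ A : ℝ, 0 < A ∧ ∀ f : ℂ → ℂ, ClsD f → ∃ C : ℝ, ∀ τ₁ : ℝ, 0 < τ₁ →
    τ₁ ≤ 1 → II (JJ f) τ₁ ≤ π * (-Real.log τ₁) + A * II (bt δ f) τ₁ + C := by
  obtain ⟨I, hI, η₂, hη₂, hcc⟩ := CC δ hδ
  have hCj := Cj_ge
  have hπ := Real.pi_pos
  refine ⟨Cj * (I.card + 1), by positivity, fun f hf => ?_⟩
  set η := min η₂ 1 / 2 with hη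
  have hm : 0 < min η₂ 1 := lt_min hη₂ one_pos
  have hη0 : 0 < η := by positivity
  have hη1 : η ≤ 1 := by have := min_le_right η₂ 1; linarith
  have hηlt : η < η₂ := by have := min_le_left η₂ 1; linarith
  have hlogη : 0 ≤ -Real.log η := by have := Real.log_nonpos hη0.le hη1; linarith
  have hdil : ∀ x : ℝ × ℝ, ∃ C : ℝ, 0 < x.2 → ∀ τ₁ : ℝ, 0 < τ₁ → τ₁ ≤ 1 → τ₁ ≤ η →
      ∫ τ in τ₁..η, mI (bt δ f) (x.2 * τ) / τ ≤ II (bt δ f) τ₁ + C := by
    intro x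
    by_cases hx : 0 < x.2
    · obtain ⟨C, hC⟩ := SSP.dil (mI (bt δ f)) (2 * π) (mI_cont (hcbt hf))
        (fun τ h => mbt_bd hf h) hx hη0
      exact ⟨C, fun _ => hC⟩
    · exact ⟨0, fun h => absurd h hx⟩
  choose D hD using hdil
  set P : ℝ → ℝ → ℝ := fun τ θ => max (JJ f τ θ - 1 / 2) 0 with hP
  have hPc : HC P := hcmax hf (1 / 2)
  have hbc := hcbt (δ := δ) hf
  set C : ℝ := 2 * π * Cj * (-Real.log η) + Cj * ∑ x ∈ I, |D x| with hC
  have hS0 : 0 ≤ ∑ x ∈ I, |D x| := Finset.sum_nonneg fun x _ => abs_nonneg _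
  refine ⟨C, fun τ₁ h1 h2 => ?_⟩
  have hlog1 : 0 ≤ -Real.log τ₁ := by have := Real.log_nonpos h1.le h2; linarith
  have hb0 : 0 ≤ II (bt δ f) τ₁ := II_nonneg hbc h1 h2 fun τ θ _ => bt_nonneg _ _ _ _
  rcases le_or_gt τ₁ η with h3 | h3
  · -- main case
    have e1 : II (JJ f) τ₁ ≤ π * (-Real.log τ₁) + II P τ₁ := by
      have := II_mono (hcJ hf) ((HC.const (1 / 2)).add hPc) h1 h2 (fun τ θ _ => by
        have := le_max_left (JJ f τ θ - 1 / 2) 0
        show JJ f τ θ ≤ 1 / 2 + max (JJ f τ θ - 1 / 2) 0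
        linarith)
      rw [II_add (HC.const (1 / 2)) hPc h1 h2, II_const (1 / 2) h1] at this
      linarith
    have e2 := II_split hPc (K := Cj) (fun τ θ h => max_le_Cj hf h (by norm_num)) h1 hη0 hη1
    have e3 : ∫ τ in τ₁..η, mI P τ / τ ≤ Cj * ∑ x ∈ I, (II (bt δ f) τ₁ + D x) := by
      have hshift : ∀ x ∈ I, ∀ τ, 0 < τ → Continuous fun θ => bt δ f (τ * x.2) (θ + τ * x.1) := by
        intro x hx τ hτ
        exact (hbc.slice (mul_pos hτ (hI x hx))).comp (by fun_prop)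
      have e4 : ∀ τ ∈ Icc τ₁ η, mI P τ / τ ≤ Cj * ∑ x ∈ I, mI (bt δ f) (x.2 * τ) / τ := by
        intro τ hτ
        have hτ0 : 0 < τ := lt_of_lt_of_le h1 hτ.1
        have e5 : mI P τ ≤ ∫ θ in (0 : ℝ)..2 * π,
            Cj * ∑ x ∈ I, bt δ f (τ * x.2) (θ + τ * x.1) := by
          apply intervalIntegral.integral_mono (by positivity) (hPc.ii hτ0 _ _)
          · apply Continuous.intervalIntegrable
            apply continuous_const.mul
            exact continuous_finsetSum I fun x hx => hshift x hx τ hτ0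
          · intro θ
            exact P_le_sum hδ hf hτ0 I (fun h => hcc f hf τ θ hτ0 (lt_of_le_of_lt hτ.2 hηlt) h)
        have e6 : ∫ θ in (0 : ℝ)..2 * π, Cj * ∑ x ∈ I, bt δ f (τ * x.2) (θ + τ * x.1) =
            Cj * ∑ x ∈ I, mI (bt δ f) (x.2 * τ) := by
          rw [intervalIntegral.integral_const_mul,
            intervalIntegral.integral_finsetSum fun x hx =>
              (hshift x hx τ hτ0).intervalIntegrable _ _]
          congr 1
          apply Finset.sum_congr rfl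
          intro x _
          rw [bt_shift, mul_comm]
        rw [e6] at e5
        calc mI P τ / τ ≤ (Cj * ∑ x ∈ I, mI (bt δ f) (x.2 * τ)) / τ :=
              div_le_div_of_nonneg_right e5 hτ0.le
          _ = _ := by rw [mul_div_assoc, Finset.sum_div]
      have hint : ∀ x ∈ I, IntervalIntegrable (fun τ => mI (bt δ f) (x.2 * τ) / τ) volume τ₁ η := by
        intro x hx
        apply ContinuousOn.intervalIntegrable
        have hsub : uIcc τ₁ η ⊆ Ioi 0 := fun y hy => lt_of_lt_of_le (lt_min h1 hη0) hy.1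
        apply ContinuousOn.div _ continuousOn_id fun y hy => (hsub hy).ne'
        refine (mI_cont hbc).comp (by fun_prop) ?_
        intro y hy
        exact mul_pos (hI x hx) (hsub hy)
      calc ∫ τ in τ₁..η, mI P τ / τ ≤ ∫ τ in τ₁..η, Cj * ∑ x ∈ I, mI (bt δ f) (x.2 * τ) / τ := by
            apply intervalIntegral.integral_mono_on h3 (II_ii hPc h1 hη0) _ e4
            exact (SSP.ii_sum I hint).const_mul Cj
        _ = Cj * ∑ x ∈ I, ∫ τ in τ₁..η, mI (bt δ f) (x.2 * τ) / τ := by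
            rw [intervalIntegral.integral_const_mul, intervalIntegral.integral_finsetSum hint]
        _ ≤ Cj * ∑ x ∈ I, (II (bt δ f) τ₁ + D x) := by
            apply mul_le_mul_of_nonneg_left _ (by linarith)
            apply Finset.sum_le_sum
            intro x hx
            exact hD x (hI x hx) τ₁ h1 h2 h3
    have e7 : Cj * ∑ x ∈ I, (II (bt δ f) τ₁ + D x) ≤
        Cj * (I.card + 1) * II (bt δ f) τ₁ + Cj * ∑ x ∈ I, |D x| := by
      rw [Finset.sum_add_distrib, Finset.sum_const, nsmul_eq_mul]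
      have e8 : ∑ x ∈ I, D x ≤ ∑ x ∈ I, |D x| := Finset.sum_le_sum fun x _ => le_abs_self _
      have e9 : 0 ≤ Cj * II (bt δ f) τ₁ := by positivity
      have e10 : Cj * ∑ x ∈ I, D x ≤ Cj * ∑ x ∈ I, |D x| := by gcongr
      rw [mul_add]
      linarith
    rw [hC]
    linarith
  · -- trivial case
    have e1 := II_mono (hcJ hf) (HC.const Cj) h1 h2 (fun τ θ h => JJ_le_Cj hf h)
    rw [II_const Cj h1] at e1
    have e2 : -Real.log τ₁ ≤ -Real.log η := by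
      have := Real.log_le_log hη0 h3.le
      linarith
    have e3 : 2 * π * Cj * (-Real.log τ₁) ≤ 2 * π * Cj * (-Real.log η) := by gcongr
    have e4 : 0 ≤ Cj * (I.card + 1) * II (bt δ f) τ₁ := by positivity
    have e5 : 0 ≤ Cj * ∑ x ∈ I, |D x| := by positivity
    have e6 : 0 ≤ π * (-Real.log τ₁) := by positivity
    rw [hC]
    linarith

end steps

end Pool.Agent.SS
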