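import Pool.Agent.Lib52.SS.Glob2

set_option autoImplicit false

open Set Metric Filter MeasureTheory
open scoped Topology Real ComplexConjugate
open Pool.Agent.SSP (HC)

namespace Pool.Agent.SS

variable {f : ℂ → ℂ} {δ : ℝ}

theorem hclogE (hf : ClsD f) : HC (fun τ θ => 1 / 2 * Real.log (1 + EE f (E1 f) τ θ)) := by
  apply (HC.const (1 / 2)).mul
  refine ContinuousOn.log ((HC.const 1).add (hcE hf)) (fun p _ => ?_)
  have := EE_nonneg f (E1 f) p.1 p.2
  show 1 + EE f (E1 f) p.1 p.2 ≠ 0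
  positivity

/-- upper bound for the logarithm of the auxiliary function on circles -/
theorem logE1_le (_hf : ClsD f) {τ θ : ℝ} (hτ : 0 < τ) (h0 : E1 f (zz τ θ) ≠ 0) :
    Real.log ‖E1 f (zz τ θ)‖ ≤ 1 / 2 * Real.log (1 + EE f (E1 f) τ θ) - Real.log (YY τ) -
      1 / 2 * Real.log (SF f τ θ) := by
  have hY := YYp hτ
  have hS := SFp f hτ θ
  have hE : 0 < ‖E1 f (zz τ θ)‖ := norm_pos_iff.2 h0
  have h1 : Real.log (EE f (E1 f) τ θ) = 2 * Real.log (YY τ) + Real.log (SF f τ θ) +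
      2 * Real.log ‖E1 f (zz τ θ)‖ := by
    rw [EE, Real.log_mul (by positivity) (by positivity), Real.log_mul (by positivity) hS.ne',
      Real.log_pow, Real.log_pow]
    push_cast; ring
  have h2 : Real.log (EE f (E1 f) τ θ) ≤ Real.log (1 + EE f (E1 f) τ θ) := by
    apply Real.log_le_log
    · unfold EE; positivity
    · linarith
  linarith

/-- the sum over the zeros -/
theorem zero_sum (hf : ClsD f) (hne : ∃ z ∈ ball (0 : ℂ) 1, E1 f z ≠ 0) {ε ρ : ℝ} (hε : 0 < ε)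
    (hρ : 1 ≤ ρ) : ∃ C : ℝ, ∀ τ₁ : ℝ, 0 < τ₁ → τ₁ ≤ 1 → ∀ Z : Finset ℂ,
      (∀ a ∈ Z, E1 f a = 0 ∧ Real.exp (-1) ≤ ‖a‖ ∧ ‖a‖ ≤ Real.exp (-(τ₁ / ρ))) →
      ∑ a ∈ Z, (-Real.log ‖a‖) ≤
        1 / π * ((ε + 2 * π) * (-Real.log τ₁) - II (JJ f) τ₁) + C := by
  obtain ⟨CE, hCE⟩ := mE hf hε
  obtain ⟨CB, hCB⟩ := B1 hf
  obtain ⟨CJ, hCJ⟩ := SSP.J1 (E1 f) hf.diffE1 hne
  have hπ := Real.pi_pos
  have hρ0 : 0 < ρ := by linarith
  set C' : ℝ := CE + (ε + 2 * π) * Real.log (2 * ρ) + 4 * π + CB + 2 * π * Real.log (2 * ρ) with hC'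
  refine ⟨2 * ((2 * π)⁻¹ * C' + CJ), fun τ₁ h1 h2 Z hZ => ?_⟩
  set τ₃ : ℝ := τ₁ / (2 * ρ) with hτ₃
  have h3 : 0 < τ₃ := by positivity
  have h31 : τ₃ ≤ τ₁ := by
    rw [hτ₃]; exact div_le_self h1.le (by linarith)
  have h32 : τ₃ ≤ 1 := h31.trans h2
  have h33 : τ₁ / ρ = 2 * τ₃ := by rw [hτ₃]; field_simp
  set u : ℝ → ℝ := fun θ => 1 / 2 * Real.log (1 + EE f (E1 f) τ₃ θ) - Real.log (YY τ₃) -
      1 / 2 * Real.log (SF f τ₃ θ) with hu
  have huc : Continuous u :=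
    (((hclogE hf).slice h3).sub continuous_const).sub ((hcB hf).slice h3)
  have key := hCJ τ₃ h3 h32 u huc (fun θ h0 => logE1_le hf h3 h0) Z (fun a ha => by
    obtain ⟨e1, e2, e3⟩ := hZ a ha
    refine ⟨e1, e2, e3.trans ?_⟩
    apply Real.exp_le_exp.2
    linarith)
  have h4 : ∑ a ∈ Z, (-Real.log ‖a‖) ≤ 2 * ∑ a ∈ Z, (-Real.log ‖a‖ - τ₃) := by
    rw [Finset.mul_sum]
    apply Finset.sum_le_sum
    intro a ha
    obtain ⟨_, e2, e3⟩ := hZ a ha
    have ha0 : 0 < ‖a‖ := lt_of_lt_of_le (Real.exp_pos _) e2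
    have e4 := Real.log_le_log ha0 e3
    rw [Real.log_exp] at e4
    linarith
  have h5 : ∫ θ in (0 : ℝ)..2 * π, u θ =
      mI (fun τ θ => 1 / 2 * Real.log (1 + EE f (E1 f) τ θ)) τ₃ - 2 * π * Real.log (YY τ₃) -
        mI (fun τ θ => 1 / 2 * Real.log (SF f τ θ)) τ₃ := by
    have i1 := (hclogE hf).ii h3 0 (2 * π)
    have i2 : IntervalIntegrable (fun _ : ℝ => Real.log (YY τ₃)) volume 0 (2 * π) :=
      intervalIntegrable_const
    have i3 := (hcB hf).ii h3 0 (2 * π)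
    rw [hu]
    have e1 := intervalIntegral.integral_sub (i1.sub i2) i3
    have e2 := intervalIntegral.integral_sub i1 i2
    have e3 : ∫ _ in (0 : ℝ)..2 * π, Real.log (YY τ₃) = 2 * π * Real.log (YY τ₃) := by
      rw [intervalIntegral.integral_const]; simp
    rw [e3] at e2
    calc _ = _ := e1
      _ = _ := by rw [e2]; rfl
  have h6 := hCE τ₃ h3 h32
  have h7 := neg_log_YY h3 h32
  have h8 := (abs_le.1 (hCB τ₃ h3 h32)).1
  have h9 : -Real.log τ₃ = -Real.log τ₁ + Real.log (2 * ρ) := by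
    rw [hτ₃, Real.log_div h1.ne' (by positivity)]; ring
  -- comparison of the two logarithmic integrals
  have h10 : II (JJ f) τ₁ - 2 * π * Real.log (2 * ρ) ≤ II (JJ f) τ₃ := by
    have e1 : II (JJ f) τ₃ = (∫ τ in τ₃..τ₁, mI (JJ f) τ / τ) + II (JJ f) τ₁ :=
      (intervalIntegral.integral_add_adjacent_intervals (II_ii (hcJ hf) h3 h1)
        (II_ii (hcJ hf) h1 one_pos)).symm
    have e2 : ∫ τ in τ₃..τ₁, (-(2 * π)) * τ⁻¹ ≤ ∫ τ in τ₃..τ₁, mI (JJ f) τ / τ := by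
      apply intervalIntegral.integral_mono_on h31
      · apply ContinuousOn.intervalIntegrable
        have hsub : uIcc τ₃ τ₁ ⊆ Ioi 0 := fun y hy => lt_of_lt_of_le (lt_min h3 h1) hy.1
        exact continuousOn_const.mul (continuousOn_id.inv₀ fun y hy => (hsub hy).ne')
      · exact II_ii (hcJ hf) h3 h1
      · intro τ hτ
        have hτ0 : 0 < τ := lt_of_lt_of_le h3 hτ.1
        have e3 := mI_mono (HC.const (-1)) (hcJ hf) hτ0 (fun θ => JJ_ge f hτ0)
        rw [mI_const] at e3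
        rw [← div_eq_mul_inv]
        apply div_le_div_of_nonneg_right _ hτ0.le
        linarith
    rw [intervalIntegral.integral_const_mul, integral_inv_of_pos h3 h1] at e2
    have e4 : Real.log (τ₁ / τ₃) = Real.log (2 * ρ) := by
      congr 1; rw [hτ₃]; field_simp
    rw [e4] at e2
    linarith
  have h11 : ∫ θ in (0 : ℝ)..2 * π, u θ ≤ (ε + 2 * π) * (-Real.log τ₁) - II (JJ f) τ₁ + C' := by
    rw [h5]
    have e1 : -(2 * π * Real.log (YY τ₃)) ≤ 2 * π * (-Real.log τ₃ + 2) := by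
      have : -(2 * π * Real.log (YY τ₃)) = 2 * π * (-Real.log (YY τ₃)) := by ring
      rw [this]; gcongr
    rw [h9] at h6 e1
    rw [hC']
    linarith
  have h12 : (2 * π)⁻¹ * (∫ θ in (0 : ℝ)..2 * π, u θ) ≤
      (2 * π)⁻¹ * ((ε + 2 * π) * (-Real.log τ₁) - II (JJ f) τ₁ + C') := by gcongr
  have h13 : 1 / π * ((ε + 2 * π) * (-Real.log τ₁) - II (JJ f) τ₁) =
      2 * ((2 * π)⁻¹ * ((ε + 2 * π) * (-Real.log τ₁) - II (JJ f) τ₁)) := by
    field_simp
  rw [h13]
  linarith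

theorem step3 : ∃ δ : ℝ, 0 < δ ∧ ∃ K₃ : ℝ, 0 ≤ K₃ ∧ ∀ f : ℂ → ℂ, ClsD f →
    (∃ z ∈ ball (0 : ℂ) 1, E1 f z ≠ 0) → ∀ ε : ℝ, 0 < ε → ∃ C : ℝ, ∀ τ₁ : ℝ, 0 < τ₁ →
    τ₁ ≤ 1 → II (nu δ f) τ₁ ≤ K₃ * ((ε + 2 * π) * (-Real.log τ₁) - II (JJ f) τ₁) + C := by
  classical
  obtain ⟨δ₁, hδ₁, ρ, hρ, η₁, hη₁, hL⟩ := L1
  obtain ⟨Cρ, hCρ, hnear⟩ := SSP.nearZ ρ hρ
  have hCj := Cj_ge
  have hπ := Real.pi_pos
  have hρ0 : 0 < ρ := by linarith
  refine ⟨δ₁ / 2, by positivity, Cρ * Cj * (1 / π), by positivity, ?_⟩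
  intro f hf hne ε hε
  obtain ⟨CZ, hCZ⟩ := zero_sum hf hne hε hρ
  have hnc := hcnu (δ := δ₁ / 2) hf
  set η := min η₁ (1 / ρ) / 2 with hη
  have hm : 0 < min η₁ (1 / ρ) := lt_min hη₁ (by positivity)
  have hη0 : 0 < η := by positivity
  have hρ1 : 1 / ρ ≤ 1 := by rw [div_le_one hρ0]; exact hρ
  have hηρ : η < 1 / ρ := by have := min_le_right η₁ (1 / ρ); linarith
  have hη1 : η ≤ 1 := by linarith
  have hηlt : η < η₁ := by have := min_le_left η₁ (1 / ρ); linarith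
  have hlogη : 0 ≤ -Real.log η := by have := Real.log_nonpos hη0.le hη1; linarith
  set K₃ := Cρ * Cj * (1 / π) with hK₃
  have hK₃0 : 0 ≤ K₃ := by positivity
  refine ⟨2 * π * Cj * (-Real.log η) * (1 + K₃) + Cρ * Cj * |CZ|, fun τ₁ h1 h2 => ?_⟩
  have hlog1 : 0 ≤ -Real.log τ₁ := by have := Real.log_nonpos h1.le h2; linarith
  rcases le_or_gt τ₁ η with h3 | h3
  · have e1 := II_split hnc (K := Cj) (fun τ θ h => nu_le hf h) h1 hη0 hη1
    have hr : Real.exp (-(τ₁ / ρ)) < 1 := by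
      rw [← Real.exp_zero]
      apply Real.exp_lt_exp.2
      have : 0 < τ₁ / ρ := by positivity
      linarith
    have hfin := SSP.Zfin (E1 f) hf.diffE1 hne hr
    set Z : Finset ℂ := hfin.toFinset.filter (fun a => Real.exp (-1) ≤ ‖a‖) with hZ
    have hZmem : ∀ a, a ∈ Z ↔ (‖a‖ ≤ Real.exp (-(τ₁ / ρ)) ∧ E1 f a = 0) ∧ Real.exp (-1) ≤ ‖a‖ := by
      intro a
      rw [hZ, Finset.mem_filter, Set.Finite.mem_toFinset]
      rfl
    have e2 := hnear Cj τ₁ η (nu (δ₁ / 2) f) Z h1 h3 (by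
        have : (Ioi (0 : ℝ) ×ˢ (univ : Set ℝ)) ⊆ {p : ℝ × ℝ | 0 < p.1} := fun p hp => hp.1
        exact ContinuousOn.mono hnc this) (fun τ θ h => ⟨nu_nonneg _ _ _ _, nu_le hf h⟩)
      (fun a ha => by
        obtain ⟨⟨e1, _⟩, e3⟩ := (hZmem a).1 ha
        exact ⟨lt_of_lt_of_le (Real.exp_pos _) e3, lt_of_le_of_lt e1 hr⟩)
      (fun τ θ hτ1 hτ2 hnu => by
        have hτ0 : 0 < τ := lt_of_lt_of_le h1 hτ1
        have hb : bt (δ₁ / 2) f τ θ ≠ 0 := fun h => hnu (by unfold nu; rw [h, zero_mul])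
        have hj : max (JJ f τ θ - 1 / 4) 0 ≠ 0 := fun h => hnu (by unfold nu; rw [h, mul_zero])
        have hE : EE f (E1 f) τ θ ≤ δ₁ := by
          by_contra hcon
          push Not at hcon
          apply hb
          unfold bt
          rw [sg_one (by positivity) (by linarith), sub_self]
        have hJ : 1 / 4 < JJ f τ θ := by
          by_contra hcon
          push Not at hcon
          exact hj (max_eq_right (by linarith))
        obtain ⟨τ', θ', z0, z1, z2, z3⟩ := hL f hf τ θ hτ0 (lt_trans hτ2 hηlt) hE hJ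
        refine ⟨τ', θ', ?_, z1, z2, z3⟩
        rw [hZmem, norm_zz]
        refine ⟨⟨?_, ?_⟩, ?_⟩
        · apply Real.exp_le_exp.2
          have : τ₁ / ρ ≤ τ / ρ := by gcongr
          linarith
        · rw [E1, z0, zero_div]
        · apply Real.exp_le_exp.2
          have : ρ * τ ≤ 1 := by
            rw [lt_div_iff₀ hρ0] at hηρ
            nlinarith
          linarith)
    have e3 := hCZ τ₁ h1 h2 Z (fun a ha => by
      obtain ⟨⟨e1, e2⟩, e3⟩ := (hZmem a).1 ha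
      exact ⟨e2, e3, e1⟩)
    have e4 : ∫ τ in τ₁..η, mI (nu (δ₁ / 2) f) τ / τ ≤ Cρ * Cj * ∑ a ∈ Z, (-Real.log ‖a‖) := e2
    have e5 : Cρ * Cj * ∑ a ∈ Z, (-Real.log ‖a‖) ≤ Cρ * Cj *
        (1 / π * ((ε + 2 * π) * (-Real.log τ₁) - II (JJ f) τ₁) + CZ) := by gcongr
    have e6 : Cρ * Cj * CZ ≤ Cρ * Cj * |CZ| := by
      have := le_abs_self CZ
      gcongr
    have e7 : 0 ≤ 2 * π * Cj * (-Real.log η) * K₃ := by positivity
    have e8 : Cρ * Cj * (1 / π * ((ε + 2 * π) * (-Real.log τ₁) - II (JJ f) τ₁) + CZ) =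
        K₃ * ((ε + 2 * π) * (-Real.log τ₁) - II (JJ f) τ₁) + Cρ * Cj * CZ := by
      rw [hK₃]; ring
    rw [e8] at e5
    linarith
  · have e1 := II_mono (hcJ hf) (HC.const Cj) h1 h2 (fun τ θ h => JJ_le_Cj hf h)
    have e0 := II_mono hnc (HC.const Cj) h1 h2 (fun τ θ h => nu_le hf h)
    rw [II_const Cj h1] at e1 e0
    have e2 : -Real.log τ₁ ≤ -Real.log η := by
      have := Real.log_le_log hη0 h3.le
      linarith
    have e3 : 2 * π * Cj * (-Real.log τ₁) ≤ 2 * π * Cj * (-Real.log η) := by gcongr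
    have e4 : 0 ≤ (ε + 2 * π) * (-Real.log τ₁) := by positivity
    have e5 : K₃ * (-(2 * π * Cj * (-Real.log η))) ≤
        K₃ * ((ε + 2 * π) * (-Real.log τ₁) - II (JJ f) τ₁) := by
      apply mul_le_mul_of_nonneg_left _ hK₃0
      linarith
    have e6 : 0 ≤ Cρ * Cj * |CZ| := by positivity
    nlinarith

/-- the mean of the positive part of the logarithm -/
theorem T_le (hf : ClsD f) : ∃ C : ℝ, ∀ τ : ℝ, 0 < τ → τ ≤ 1 →
    mI (fun τ θ => max 0 (Real.log ‖f (zz τ θ)‖)) τ ≤ II (JJ f) τ + 2 * π * (-Real.log τ) + C := by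
  obtain ⟨CB, hCB⟩ := B1 hf
  have hπ := Real.pi_pos
  refine ⟨CB + 4 * π, fun τ h1 h2 => ?_⟩
  have hcm : HC (fun τ θ => max 0 (Real.log ‖f (zz τ θ)‖)) :=
    HC_of (F := fun z => max 0 (Real.log ‖f z‖)) (continuousOn_const.sup hf.contLog)
  have hcY : HC (fun τ _ => Real.log (YY τ)) := by
    refine ContinuousOn.log ?_ (fun p hp => (YYp hp).ne')
    exact (HC.of_cont (c := YY) (by unfold YY; fun_prop))
  have h3 := mI_mono hcm ((hcB hf).sub hcY) h1 (fun θ => by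
    have hz : zz τ θ ∈ ball (0 : ℂ) 1 := zz_mem h1
    have hY := YYp h1
    have h0 := hf.norm_pos hz
    have hY1 : YY τ ≤ 1 := by rw [← YD_zz τ θ]; linarith [YD_le (z := zz τ θ)]
    have hlY : Real.log (YY τ) ≤ 0 := Real.log_nonpos hY.le hY1
    have e1 : Real.log (YY τ) ≤ 1 / 2 * Real.log (SF f τ θ) := by
      have := Real.log_le_log (by positivity) (SF_ge f τ θ)
      rw [Real.log_pow] at this
      push_cast at this
      linarith
    have e2 : Real.log ‖f (zz τ θ)‖ ≤ 1 / 2 * Real.log (SF f τ θ) := by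
      have h3 : ‖f (zz τ θ)‖ ^ 2 ≤ SF f τ θ := by
        unfold SF; have := sq_nonneg (YY τ); linarith
      have := Real.log_le_log (by positivity) h3
      rw [Real.log_pow] at this
      push_cast at this
      linarith
    exact max_le (by linarith) (by linarith))
  rw [mI_sub (hcB hf) hcY h1] at h3
  have e2 : mI (fun τ _ => Real.log (YY τ)) τ = 2 * π * Real.log (YY τ) := by
    unfold mI
    rw [intervalIntegral.integral_const]; simp
  rw [e2] at h3
  have h4 := neg_log_YY h1 h2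
  have h5 : -(2 * π * Real.log (YY τ)) ≤ 2 * π * (-Real.log τ + 2) := by
    have : -(2 * π * Real.log (YY τ)) = 2 * π * (-Real.log (YY τ)) := by ring
    rw [this]; gcongr
  have h6 := (abs_le.1 (hCB τ h1 h2)).2
  linarith

/-- the main theorem in log-polar form -/
theorem main : ∃ η : ℝ, 0 < η ∧ η ≤ 1 ∧ ∀ f : ℂ → ℂ, ClsD f → ∃ τ₀ : ℝ, 0 < τ₀ ∧ τ₀ ≤ 1 ∧
    ∀ τ : ℝ, 0 < τ → τ < τ₀ →
      mI (fun τ θ => max 0 (Real.log ‖f (zz τ θ)‖)) τ < 2 * π * (2 - η) * (-Real.log τ) := by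
  obtain ⟨δ, hδ, K₃, hK₃, hs3⟩ := step3
  obtain ⟨A, hA, hs2⟩ := step2 hδ
  have hπ := Real.pi_pos
  set κ : ℝ := 3 / 4 * π / A with hκ
  have hκ0 : 0 < κ := by positivity
  set W : ℝ := 2 * κ + 2 * π + 1 + K₃ * (1 + 2 * π) with hW
  have hW0 : 0 < W := by positivity
  set η : ℝ := κ / (2 * W) with hη
  have hη0 : 0 < η := by positivity
  have hηW : η * W = κ / 2 := by rw [hη]; field_simp
  have hη1 : η ≤ 1 := by
    rw [hη, div_le_one (by positivity)]
    have : 0 ≤ K₃ * (1 + 2 * π) := by positivity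
    linarith
  refine ⟨η, hη0, hη1, fun f hf => ?_⟩
  by_cases hne : ∃ z ∈ ball (0 : ℂ) 1, E1 f z ≠ 0
  · obtain ⟨C2', hC2⟩ := hs2 f hf
    obtain ⟨C3', hC3⟩ := hs3 f hf hne η hη0
    obtain ⟨CT, hCT⟩ := T_le hf
    obtain ⟨CG, hCG⟩ := B2 hf hδ
    obtain ⟨CE, hCE⟩ := mE hf hη0
    -- the total constant
    set Ct : ℝ := |CT| + (2 * π * (|Real.log δ| / 2) + |CE| + |CG|) + 3 / 4 / A * (|CT| + |C2'|) +
      K₃ * |CT| + |C3'| with hCt
    have hCt0 : 0 ≤ Ct := by positivity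
    refine ⟨Real.exp (-(2 * Ct / κ + 1)), Real.exp_pos _, ?_, fun τ h1 h2 => ?_⟩
    · apply Real.exp_le_one_iff.2
      have : 0 ≤ 2 * Ct / κ := by positivity
      linarith
    by_contra hcon
    push Not at hcon
    have hτ1 : τ ≤ 1 := by
      refine h2.le.trans ?_
      apply Real.exp_le_one_iff.2
      have : 0 ≤ 2 * Ct / κ := by positivity
      linarith
    set Lg := -Real.log τ with hLg
    have hLbig : 2 * Ct / κ + 1 < Lg := by
      have := Real.log_lt_log h1 h2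
      rw [Real.log_exp] at this
      linarith
    have hL0 : 0 < Lg := by
      have : 0 ≤ 2 * Ct / κ := by positivity
      linarith
    set a := II (JJ f) τ with ha
    set b := II (bt δ f) τ with hb
    set n := II (nu δ f) τ with hn
    have e1 := hCT τ h1 hτ1
    have e2 := hC2 τ h1 hτ1
    have e3 := hC3 τ h1 hτ1
    have e4 := hCG τ h1 hτ1
    have e5 := hCE τ h1 hτ1
    have e6 := step1 (δ := δ) hf h1 hτ1
    rw [← hLg] at e1 e2 e3 e5 e6
    rw [← ha] at e1 e2 e3 e6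
    rw [← hb] at e2 e6
    rw [← hn] at e3 e6
    have hGE : mI (fun τ θ => Gf δ (EE f (E1 f) τ θ)) τ ≤
        mI (fun τ θ => 1 / 2 * Real.log (1 + EE f (E1 f) τ θ)) τ + 2 * π * (|Real.log δ| / 2) := by
      have hGc : Continuous (Gf δ) :=
        continuous_iff_continuousAt.2 fun x => (Gf_deriv hδ x).continuousAt
      have := mI_mono (HC.comp hGc (hcE hf)) ((hclogE hf).add (HC.const (|Real.log δ| / 2))) h1
        (fun θ => Gf_le hδ (EE_nonneg f (E1 f) τ θ))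
      rw [mI_add (hclogE hf) (HC.const (|Real.log δ| / 2)) h1, mI_const] at this
      exact this
    -- lower bound for `a`
    have f1 : 2 * π * (1 - η) * Lg - |CT| ≤ a := by
      have := le_abs_self CT
      linarith
    -- lower bound for `b`
    have f2 : (π * (1 - 2 * η) * Lg - (|CT| + |C2'|)) ≤ A * b := by
      have := le_abs_self C2'
      linarith
    have f3 : 3 / 4 / A * (π * (1 - 2 * η) * Lg - (|CT| + |C2'|)) ≤ 3 / 4 * b := by
      have := mul_le_mul_of_nonneg_left f2 (show 0 ≤ 3 / 4 / A by positivity)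
      calc _ ≤ 3 / 4 / A * (A * b) := this
        _ = 3 / 4 * b := by field_simp
    have f4 : n ≤ K₃ * ((η + 2 * π * η) * Lg + |CT|) + |C3'| := by
      have g1 := le_abs_self C3'
      have g2 : (η + 2 * π) * Lg - a ≤ (η + 2 * π * η) * Lg + |CT| := by linarith
      have g3 := mul_le_mul_of_nonneg_left g2 hK₃
      linarith
    have f5 : II (fun τ θ => sg δ (EE f (E1 f) τ θ) * (JJ f τ θ - 1)) τ ≤
        η * Lg + (2 * π * (|Real.log δ| / 2) + |CE| + |CG|) := by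
      have g1 := le_abs_self CE
      have g2 := le_abs_self CG
      linarith
    have f6 : 3 / 4 / A * (π * (1 - 2 * η) * Lg - (|CT| + |C2'|)) =
        κ * (1 - 2 * η) * Lg - 3 / 4 / A * (|CT| + |C2'|) := by
      rw [hκ]; field_simp
    rw [f6] at f3
    have f7 : (κ - η * W) * Lg ≤ Ct := by
      have g1 : (κ - η * W) * Lg = κ * (1 - 2 * η) * Lg - (2 * π * η) * Lg - η * Lg -
          K₃ * ((η + 2 * π * η) * Lg) := by rw [hW]; ring
      rw [g1, hCt]
      linarith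
    rw [hηW] at f7
    have f8 : κ * (2 * Ct / κ + 1) < κ * Lg := by gcongr
    have f9 : κ * (2 * Ct / κ + 1) = 2 * Ct + κ := by field_simp
    linarith
  · -- the affine case
    push Not at hne
    have hdd : ∀ z ∈ ball (0 : ℂ) 1, deriv (deriv f) z = 0 := by
      intro z hz
      have h1 := hne z hz
      rw [E1, div_eq_zero_iff] at h1
      exact h1.resolve_right (mul_ne_zero (hf.ne0 z hz) (sub_ne_zero.2 (hf.ne1 z hz)))
    have hd1 := hf.diff.deriv isOpen_ball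
    have hconst : ∀ z ∈ ball (0 : ℂ) 1, deriv f z = deriv f 0 := by
      intro z hz
      refine (convex_ball (0 : ℂ) 1).is_const_of_fderivWithin_eq_zero (𝕜 := ℂ) hd1 ?_ hz
        (mem_ball_self one_pos)
      intro w hw
      rw [fderivWithin_of_isOpen isOpen_ball hw]
      have e1 := (hd1.differentiableAt (isOpen_ball.mem_nhds hw)).hasDerivAt
      rw [hdd w hw] at e1
      rw [e1.hasFDerivAt.fderiv]
      ext; simp
    set M : ℝ := ‖f 0‖ + ‖deriv f 0‖ + 1 with hM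
    have hM1 : 1 ≤ M := by
      have := norm_nonneg (f 0)
      have := norm_nonneg (deriv f 0)
      linarith
    have hbd : ∀ z ∈ ball (0 : ℂ) 1, ‖f z‖ ≤ M := by
      intro z hz
      have h1 := (convex_ball (0 : ℂ) 1).norm_image_sub_le_of_norm_hasDerivWithin_le
        (f := f) (f' := fun w => deriv f w) (C := ‖deriv f 0‖)
        (fun w hw => (hf.diff.differentiableAt (isOpen_ball.mem_nhds hw)).hasDerivAt.hasDerivWithinAt)
        (fun w hw => by rw [hconst w hw]) (mem_ball_self one_pos) hz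
      have h2 := mem_D.1 hz
      rw [sub_zero] at h1
      have h3 : ‖f z‖ ≤ ‖f z - f 0‖ + ‖f 0‖ := by
        calc ‖f z‖ = ‖(f z - f 0) + f 0‖ := by ring_nf
          _ ≤ _ := norm_add_le _ _
      have h4 : ‖deriv f 0‖ * ‖z‖ ≤ ‖deriv f 0‖ * 1 := by gcongr
      linarith
    have hlogM : 0 ≤ Real.log M := Real.log_nonneg hM1
    refine ⟨Real.exp (-(Real.log M + 1)), Real.exp_pos _, ?_, fun τ h1 h2 => ?_⟩
    · apply Real.exp_le_one_iff.2
      linarith
    have hcm : HC (fun τ θ => max 0 (Real.log ‖f (zz τ θ)‖)) :=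
      HC_of (F := fun z => max 0 (Real.log ‖f z‖)) (continuousOn_const.sup hf.contLog)
    have h3 := mI_mono hcm (HC.const (Real.log M)) h1 (fun θ => by
      have hz : zz τ θ ∈ ball (0 : ℂ) 1 := zz_mem h1
      exact max_le hlogM (Real.log_le_log (hf.norm_pos hz) (hbd _ hz)))
    rw [mI_const] at h3
    have h4 : Real.log M + 1 < -Real.log τ := by
      have := Real.log_lt_log h1 h2
      rw [Real.log_exp] at this
      linarith
    have h5 : Real.log M < (2 - η) * (-Real.log τ) := by nlinarith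
    have h6 := mul_lt_mul_of_pos_left h5 (show 0 < 2 * π by positivity)
    calc _ ≤ 2 * π * Real.log M := h3
      _ < 2 * π * ((2 - η) * (-Real.log τ)) := h6
      _ = _ := by ring

end Pool.Agent.SS
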