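import Pool.Agent.Lib52.SS.Lip

set_option autoImplicit false

open Set Metric Filter
open scoped Topology

namespace Pool.Agent.SS

/-- the upper half plane -/
def HH : Set ℂ := {z | 0 < z.im}

theorem isOpen_HH : IsOpen HH := isOpen_lt continuous_const Complex.continuous_im

theorem convex_HH : Convex ℝ HH := convex_halfSpace_im_gt 0

/-- zero-free functions on the half plane whose derivative omits one -/
structure ClsH (g : ℂ → ℂ) : Prop where
  diff : DifferentiableOn ℂ g HH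
  ne0 : ∀ z ∈ HH, g z ≠ 0
  ne1 : ∀ z ∈ HH, deriv g z ≠ 1

noncomputable def VH (g : ℂ → ℂ) (z : ℂ) : ℝ := Real.log (‖g z‖ / z.im)

noncomputable def kap (g : ℂ → ℂ) (z : ℂ) : ℝ := z.im * ‖deriv g z‖ / ‖g z‖

theorem ball_sub_HH {z : ℂ} {ρ : ℝ} (hρ : ρ ≤ z.im) : ball z ρ ⊆ HH := by
  intro w hw
  rw [mem_ball, dist_eq_norm] at hw
  have := Complex.abs_im_le_norm (w - z)
  rw [Complex.sub_im] at this
  have := abs_le.1 this
  show 0 < w.im
  linarith

variable {g : ℂ → ℂ}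

theorem ClsH.norm_pos (hg : ClsH g) {z : ℂ} (hz : z ∈ HH) : 0 < ‖g z‖ :=
  norm_pos_iff.2 (hg.ne0 z hz)

theorem ClsH.norm_eq (hg : ClsH g) {z : ℂ} (hz : z ∈ HH) :
    ‖g z‖ = z.im * Real.exp (VH g z) := by
  have h1 : 0 < z.im := hz
  rw [VH, Real.exp_log (div_pos (hg.norm_pos hz) h1)]
  field_simp

theorem ClsH.kap_nonneg (_hg : ClsH g) {z : ℂ} (hz : z ∈ HH) : 0 ≤ kap g z := by
  have h1 : 0 < z.im := hz
  unfold kap
  positivity

theorem ClsH.kap_le (hg : ClsH g) {z : ℂ} (hz : z ∈ HH) :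
    kap g z ≤ C0 * (1 + |VH g z|) := by
  have h1 : 0 < z.im := hz
  have hsub : ball z z.im ⊆ HH := ball_sub_HH le_rfl
  have h2 := MG g z z.im h1 (hg.diff.mono hsub) (fun w hw => hg.ne0 w (hsub hw))
    (fun w hw => hg.ne1 w (hsub hw))
  have h3 := hg.norm_pos hz
  unfold kap
  rw [div_le_iff₀ h3]
  calc z.im * ‖deriv g z‖ ≤ z.im * (‖g z‖ / z.im * (C0 * (1 + |Real.log (‖g z‖ / z.im)|))) := by
        gcongr
    _ = C0 * (1 + |VH g z|) * ‖g z‖ := by unfold VH; field_simp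

theorem ClsH.deriv_norm (hg : ClsH g) {z : ℂ} (hz : z ∈ HH) :
    ‖deriv g z‖ = kap g z * Real.exp (VH g z) := by
  have h1 : 0 < z.im := hz
  have h3 := hg.norm_pos hz
  unfold kap
  rw [hg.norm_eq hz]
  have := Real.exp_pos (VH g z)
  field_simp

theorem ClsH.path (hg : ClsH g) {γ : ℝ → ℂ} {γ' : ℂ} {t : ℝ} (h : HasDerivAt γ γ' t)
    (hz : γ t ∈ HH) :
    HasDerivAt (fun s => VH g (γ s))
      ((deriv g (γ t) / g (γ t) * γ').re - γ'.im / (γ t).im) t := by
  have h1 : 0 < (γ t).im := hz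
  have e1 : HasDerivAt (fun s => g (γ s)) (deriv g (γ t) * γ') t :=
    HasDerivAt.comp t (hg.diff.differentiableAt (isOpen_HH.mem_nhds hz)).hasDerivAt h
  have e2 := hasDerivAt_log_norm e1 (hg.ne0 _ hz)
  have e3 : HasDerivAt (fun s => (γ s).im) γ'.im t :=
    Complex.imCLM.hasFDerivAt.comp_hasDerivAt t h
  have e4 := e3.log h1.ne'
  have e5 := e2.sub e4
  have e6 : deriv g (γ t) * γ' / g (γ t) = deriv g (γ t) / g (γ t) * γ' := by ring
  rw [e6] at e5
  refine e5.congr_of_eventuallyEq ?_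
  have hev : ∀ᶠ s in 𝓝 t, γ s ∈ HH := h.continuousAt.eventually_mem (isOpen_HH.mem_nhds hz)
  filter_upwards [hev] with s hs
  have h2 : 0 < (γ s).im := hs
  show VH g (γ s) = Real.log ‖g (γ s)‖ - Real.log (γ s).im
  rw [VH, Real.log_div (hg.norm_pos hs).ne' h2.ne']

theorem ClsH.path_bound (hg : ClsH g) {z γ' : ℂ} (hz : z ∈ HH) :
    |(deriv g z / g z * γ').re - γ'.im / z.im| ≤
      (C0 * (1 + |VH g z|) + 1) * (‖γ'‖ / z.im) := by
  have h1 : 0 < z.im := hz
  have e1 : |(deriv g z / g z * γ').re| ≤ kap g z * (‖γ'‖ / z.im) := by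
    refine (Complex.abs_re_le_norm _).trans (le_of_eq ?_)
    rw [norm_mul, norm_div, kap]
    field_simp
  have e2 : |γ'.im / z.im| ≤ 1 * (‖γ'‖ / z.im) := by
    rw [abs_div, abs_of_pos h1, one_mul]
    gcongr
    exact Complex.abs_im_le_norm _
  calc |(deriv g z / g z * γ').re - γ'.im / z.im|
      ≤ |(deriv g z / g z * γ').re| + |γ'.im / z.im| := abs_sub _ _
    _ ≤ kap g z * (‖γ'‖ / z.im) + 1 * (‖γ'‖ / z.im) := add_le_add e1 e2
    _ = (kap g z + 1) * (‖γ'‖ / z.im) := by ring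
    _ ≤ _ := by
        gcongr
        exact hg.kap_le hz

section segment

theorem seg_mem {z z' : ℂ} (hz : z ∈ HH) (hz' : z' ∈ HH) {t : ℝ} (ht : t ∈ Icc (0 : ℝ) 1) :
    min z.im z'.im ≤ (z + t * (z' - z)).im := by
  have h1 : 0 < z.im := hz
  have h2 : 0 < z'.im := hz'
  simp only [Complex.add_im, Complex.mul_im, Complex.ofReal_re, Complex.sub_im, Complex.ofReal_im,
    Complex.sub_re, zero_mul, add_zero]
  rcases min_cases z.im z'.im with ⟨h, h3⟩ | ⟨h, h3⟩
  · rw [h]; nlinarith [ht.1, ht.2]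
  · rw [h]; nlinarith [ht.1, ht.2]

theorem seg_deriv (z z' : ℂ) (t : ℝ) : HasDerivAt (fun t : ℝ => z + t * (z' - z)) (z' - z) t := by
  have := ((Complex.ofRealCLM.hasDerivAt (x := t)).mul_const (z' - z)).const_add z
  simpa using this

theorem ClsH.seg_N (hg : ClsH g) {z z' : ℂ} (hz : z ∈ HH) (hz' : z' ∈ HH) :
    |NN (VH g z') - NN (VH g z)| ≤ C2 * (‖z' - z‖ / min z.im z'.im) := by
  have hmin : 0 < min z.im z'.im := lt_min hz hz'
  set D := ‖z' - z‖ / min z.im z'.im with hD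
  have key := N_lip (r := 1) (W := fun t : ℝ => VH g (z + t * (z' - z)))
    (W' := fun t : ℝ => (deriv g (z + t * (z' - z)) / g (z + t * (z' - z)) * (z' - z)).re -
      (z' - z).im / (z + t * (z' - z)).im) (M := fun t => D * t) (m := fun _ => D)
    zero_le_one (fun t ht => hg.path (seg_deriv z z' t) (lt_of_lt_of_le hmin (seg_mem hz hz' ht)))
    (fun t _ => by simpa using (hasDerivAt_id t).const_mul D) (fun t _ => by positivity)
    (fun t ht => by
      have h3 : z + t * (z' - z) ∈ HH := lt_of_lt_of_le hmin (seg_mem hz hz' ht)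
      refine (hg.path_bound h3).trans ?_
      have h4 := C0_ge
      gcongr
      rw [hD]
      exact div_le_div_of_nonneg_left (norm_nonneg _) hmin (seg_mem hz hz' ht))
  simpa using key

theorem ClsH.seg_pos (hg : ClsH g) {z z' : ℂ} (hz : z ∈ HH) (hz' : z' ∈ HH)
    (h0 : 0 < VH g z) (hlt : C2 * (‖z' - z‖ / min z.im z'.im) < NN (VH g z)) :
    0 < VH g z' := by
  have hmin : 0 < min z.im z'.im := lt_min hz hz'
  set D := ‖z' - z‖ / min z.im z'.im with hD
  have key := N_pos (r := 1) (W := fun t : ℝ => VH g (z + t * (z' - z)))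
    (W' := fun t : ℝ => (deriv g (z + t * (z' - z)) / g (z + t * (z' - z)) * (z' - z)).re -
      (z' - z).im / (z + t * (z' - z)).im) (M := fun t => D * t) (m := fun _ => D)
    zero_le_one (fun t ht => hg.path (seg_deriv z z' t) (lt_of_lt_of_le hmin (seg_mem hz hz' ht)))
    (fun t _ => by simpa using (hasDerivAt_id t).const_mul D) (fun t _ => by positivity)
    (fun t ht => by
      have h3 : z + t * (z' - z) ∈ HH := lt_of_lt_of_le hmin (seg_mem hz hz' ht)
      refine (hg.path_bound h3).trans ?_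
      have h4 := C0_ge
      gcongr
      rw [hD]
      exact div_le_div_of_nonneg_left (norm_nonneg _) hmin (seg_mem hz hz' ht))
    (by simpa using h0) (by simpa using hlt)
  simpa using key

end segment

section cayley

/-- the Cayley map onto the half plane with `cay p 0 = p` -/
noncomputable def cay (p w : ℂ) : ℂ := p.re + p.im * Complex.I * ((1 + w) / (1 - w))

theorem cay_zero (p : ℂ) : cay p 0 = p := by
  simp [cay, Complex.re_add_im]

theorem one_sub_ne {w : ℂ} (hw : ‖w‖ < 1) : 1 - w ≠ 0 := by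
  intro h
  have : w = 1 := by linear_combination -h
  rw [this, norm_one] at hw
  exact lt_irrefl _ hw

theorem cay_im (p : ℂ) {w : ℂ} (hw : ‖w‖ < 1) :
    (cay p w).im = p.im * (1 - ‖w‖ ^ 2) / ‖1 - w‖ ^ 2 := by
  have h1 := one_sub_ne hw
  have h2 : Complex.normSq (1 - w) ≠ 0 := by simpa using h1
  have e1 : (cay p w).im = p.im * ((1 + w) / (1 - w)).re := by
    simp only [cay, Complex.add_im, Complex.ofReal_im, Complex.mul_im, Complex.mul_re,
      Complex.ofReal_re, Complex.I_re, Complex.I_im]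
    ring
  rw [e1, Complex.div_re, Complex.sq_norm, Complex.sq_norm]
  rw [← add_div, mul_div_assoc]
  congr 2
  simp only [Complex.normSq_apply, Complex.add_re, Complex.add_im, Complex.sub_re, Complex.sub_im,
    Complex.one_re, Complex.one_im]
  ring

theorem cay_mem {p w : ℂ} (hp : p ∈ HH) (hw : ‖w‖ < 1) : cay p w ∈ HH := by
  have h1 : 0 < p.im := hp
  show 0 < (cay p w).im
  rw [cay_im p hw]
  have h2 : 0 < ‖1 - w‖ := norm_pos_iff.2 (one_sub_ne hw)
  have h3 : 0 < 1 - ‖w‖ ^ 2 := by nlinarith [norm_nonneg w]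
  positivity

theorem cay_hasDerivAt (p : ℂ) {w : ℂ} (hw : ‖w‖ < 1) :
    HasDerivAt (cay p) (p.im * Complex.I * (2 / (1 - w) ^ 2)) w := by
  have h1 := one_sub_ne hw
  have e1 : HasDerivAt (fun w : ℂ => 1 + w) 1 w := by simpa using (hasDerivAt_id w).const_add 1
  have e2 : HasDerivAt (fun w : ℂ => 1 - w) (-1) w := by simpa using (hasDerivAt_id w).const_sub 1
  have e3 := ((e1.div e2 h1).const_mul (p.im * Complex.I)).const_add (p.re : ℂ)
  refine HasDerivAt.congr_deriv e3 ?_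
  congr 2
  ring

theorem ClsH.disc_pos (hg : ClsH g) {p ζ : ℂ} (hp : p ∈ HH) (hζ : ‖ζ‖ < 1)
    (h0 : 0 < VH g p) (hlt : C2 * Real.log ((1 + ‖ζ‖) / (1 - ‖ζ‖)) < NN (VH g p)) :
    0 < VH g (cay p ζ) := by
  have hp' : 0 < p.im := hp
  set d := ‖ζ‖ with hd
  have hd0 : 0 ≤ d := norm_nonneg _
  have htd : ∀ t ∈ Icc (0 : ℝ) 1, ‖(t : ℂ) * ζ‖ = t * d := fun t ht => by
    rw [norm_mul, Complex.norm_real, Real.norm_of_nonneg ht.1]
  have htd1 : ∀ t ∈ Icc (0 : ℝ) 1, t * d < 1 := fun t ht => by nlinarith [ht.1, ht.2]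
  have key := N_pos (r := 1) (W := fun t : ℝ => VH g (cay p (t * ζ)))
    (W' := fun t : ℝ => (deriv g (cay p (t * ζ)) / g (cay p (t * ζ)) *
        ((p.im * Complex.I * (2 / (1 - t * ζ) ^ 2)) * ζ)).re -
      ((p.im * Complex.I * (2 / (1 - t * ζ) ^ 2)) * ζ).im / (cay p (t * ζ)).im)
    (M := fun t => Real.log (1 + t * d) - Real.log (1 - t * d))
    (m := fun t => 2 * d / (1 - (t * d) ^ 2)) zero_le_one ?_ ?_ ?_ ?_ ?_ ?_
  · simpa using key
  · intro t ht
    have h1 : ‖(t : ℂ) * ζ‖ < 1 := by rw [htd t ht]; exact htd1 t ht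
    have e1 : HasDerivAt (fun t : ℝ => (t : ℂ) * ζ) ζ t := by
      simpa using (Complex.ofRealCLM.hasDerivAt (x := t)).mul_const ζ
    have e2 : HasDerivAt (fun t : ℝ => cay p (t * ζ))
        ((p.im * Complex.I * (2 / (1 - t * ζ) ^ 2)) * ζ) t :=
      HasDerivAt.comp (h₂ := cay p) (h := fun t : ℝ => (t : ℂ) * ζ) t (cay_hasDerivAt p h1) e1
    exact hg.path e2 (cay_mem hp h1)
  · intro t ht
    have h1 := htd1 t ht
    have h2 : 0 ≤ t * d := mul_nonneg ht.1 hd0
    have e1 : HasDerivAt (fun t : ℝ => 1 + t * d) d t := by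
      simpa using ((hasDerivAt_id t).mul_const d).const_add 1
    have e2 : HasDerivAt (fun t : ℝ => 1 - t * d) (-d) t := by
      simpa using ((hasDerivAt_id t).mul_const d).const_sub 1
    have e3 := (e1.log (by linarith)).sub (e2.log (by linarith))
    refine HasDerivAt.congr_deriv e3 ?_
    have h3 : 1 + t * d ≠ 0 := by linarith
    have h4 : 1 - t * d ≠ 0 := by linarith
    have h5 : 1 - (t * d) ^ 2 ≠ 0 := by
      have : 1 - (t * d) ^ 2 = (1 + t * d) * (1 - t * d) := by ring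
      rw [this]; exact mul_ne_zero h3 h4
    rw [div_sub_div _ _ h3 h4, div_eq_div_iff (mul_ne_zero h3 h4) h5]
    ring
  · intro t ht
    have h1 := htd1 t ht
    have h2 : 0 ≤ t * d := mul_nonneg ht.1 hd0
    have : 0 < 1 - (t * d) ^ 2 := by nlinarith
    positivity
  · intro t ht
    have h1 : ‖(t : ℂ) * ζ‖ < 1 := by rw [htd t ht]; exact htd1 t ht
    refine (hg.path_bound (cay_mem hp h1)).trans ?_
    apply mul_le_mul_of_nonneg_left _ (by have := C0_ge; positivity)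
    rw [cay_im p h1, htd t ht]
    have h2 : 0 < ‖1 - (t : ℂ) * ζ‖ := norm_pos_iff.2 (one_sub_ne h1)
    have h3 : 0 < 1 - (t * d) ^ 2 := by
      have := htd1 t ht
      have := mul_nonneg ht.1 hd0
      nlinarith
    have e1 : ‖(p.im * Complex.I * (2 / (1 - t * ζ) ^ 2)) * ζ‖ =
        p.im * (2 / ‖1 - (t : ℂ) * ζ‖ ^ 2) * d := by
      rw [norm_mul, norm_mul, norm_mul, Complex.norm_I, norm_div, norm_pow, Complex.norm_real,
        Real.norm_of_nonneg hp'.le, ← hd]
      simp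
    rw [e1]
    apply le_of_eq
    field_simp
  · simpa [cay_zero] using h0
  · have h1 : 0 < 1 - d := by linarith
    rw [Real.log_div (by linarith) h1.ne'] at hlt
    simpa [cay_zero] using hlt

/-- S1: lower bound through the maximum principle -/
theorem ClsH.disc_lower (hg : ClsH g) {p : ℂ} {r c : ℝ} (hp : p ∈ HH) (hr0 : 0 < r) (hr1 : r < 1)
    (hc : 0 < c)
    (h : ∀ ζ : ℂ, ‖ζ‖ ≤ r → c * ‖deriv g (cay p ζ) - 1‖ ≤
      (cay p ζ).im * ‖deriv (deriv g) (cay p ζ)‖) :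
    c * ‖deriv g p - 1‖ ≤ (1 - r ^ 2) * (p.im * ‖deriv (deriv g) p‖) := by
  have hp' : 0 < p.im := hp
  have hmem : ∀ ζ : ℂ, ‖ζ‖ ≤ r → cay p ζ ∈ HH := fun ζ hζ => cay_mem hp (lt_of_le_of_lt hζ hr1)
  have hne1 : ∀ ζ : ℂ, ‖ζ‖ ≤ r → 0 < ‖deriv g (cay p ζ) - 1‖ := fun ζ hζ =>
    norm_pos_iff.2 (sub_ne_zero.2 (hg.ne1 _ (hmem ζ hζ)))
  have hne2 : ∀ ζ : ℂ, ‖ζ‖ ≤ r → deriv (deriv g) (cay p ζ) ≠ 0 := by
    intro ζ hζ h0
    have h1 := h ζ hζ
    rw [h0, norm_zero, mul_zero] at h1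
    have := mul_pos hc (hne1 ζ hζ)
    linarith
  have hd1 : DifferentiableOn ℂ (deriv g) HH := hg.diff.deriv isOpen_HH
  have hd2 : DifferentiableOn ℂ (deriv (deriv g)) HH := hd1.deriv isOpen_HH
  set F : ℂ → ℂ := fun ζ => (1 - ζ) ^ 2 * (deriv g (cay p ζ) - 1) / deriv (deriv g) (cay p ζ)
    with hF
  have hcl : closure (ball (0 : ℂ) r) = closedBall 0 r := closure_ball 0 hr0.ne'
  have hFd : ∀ ζ : ℂ, ‖ζ‖ ≤ r → DifferentiableAt ℂ F ζ := by
    intro ζ hζ
    have hlt : ‖ζ‖ < 1 := lt_of_le_of_lt hζ hr1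
    have e1 : DifferentiableAt ℂ (cay p) ζ := (cay_hasDerivAt p hlt).differentiableAt
    have e2 : DifferentiableAt ℂ (fun ζ => deriv g (cay p ζ)) ζ :=
      (hd1.differentiableAt (isOpen_HH.mem_nhds (hmem ζ hζ))).comp ζ e1
    have e3 : DifferentiableAt ℂ (fun ζ => deriv (deriv g) (cay p ζ)) ζ :=
      (hd2.differentiableAt (isOpen_HH.mem_nhds (hmem ζ hζ))).comp ζ e1
    apply DifferentiableAt.div _ e3 (hne2 ζ hζ)
    exact DifferentiableAt.mul (by fun_prop) (e2.sub_const 1)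
  have hdc : DiffContOnCl ℂ F (ball 0 r) := by
    apply DifferentiableOn.diffContOnCl
    rw [hcl]
    intro ζ hζ
    exact (hFd ζ (by simpa using hζ)).differentiableWithinAt
  have key := Complex.norm_le_of_forall_mem_frontier_norm_le (U := ball (0 : ℂ) r) isBounded_ball
    hdc (C := p.im * (1 - r ^ 2) / c) (by
      intro ζ hζ
      rw [frontier_ball (0 : ℂ) hr0.ne'] at hζ
      have hζr : ‖ζ‖ = r := by simpa using hζ
      have h1 := h ζ hζr.le
      have hlt : ‖ζ‖ < 1 := by linarith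
      rw [cay_im p hlt, hζr] at h1
      have h2 : 0 < ‖1 - ζ‖ := norm_pos_iff.2 (one_sub_ne hlt)
      have h3 := norm_pos_iff.2 (hne2 ζ hζr.le)
      simp only [hF]
      rw [norm_div, norm_mul, norm_pow, div_le_div_iff₀ h3 hc]
      rw [div_mul_eq_mul_div, le_div_iff₀ (by positivity)] at h1
      nlinarith) (z := 0) (by rw [hcl]; exact mem_closedBall_self hr0.le)
  have h3 := norm_pos_iff.2 (hne2 0 (by simpa using hr0.le))
  simp only [hF, cay_zero, sub_zero, one_pow, one_mul] at key h3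
  rw [norm_div, div_le_div_iff₀ h3 hc] at key
  nlinarith

end cayley

end Pool.Agent.SS
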