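import Pool.Agent.Lib52.SS.Cpt

set_option autoImplicit false

open Set Metric Filter
open scoped Topology ComplexConjugate

namespace Pool.Agent.SS

theorem one_add_le {x : ℝ} (hx : 0 ≤ x) : 1 + x ≤ 3 / 2 * Real.exp (x / 2) := by
  have := Real.quadratic_le_exp_of_nonneg (show 0 ≤ x / 2 by linarith)
  nlinarith [sq_nonneg (x - 2)]

/-- the basic auxiliary function -/
noncomputable def E1 (f : ℂ → ℂ) (z : ℂ) : ℂ := deriv (deriv f) z / (f z * (deriv f z - 1))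

noncomputable def Cj : ℝ := 2 * (C0 + 1) ^ 2

theorem Cj_ge : 1 ≤ Cj := by
  have := C0_ge
  unfold Cj
  nlinarith

noncomputable def V0c : ℝ := 2 * Real.log (5 * (C0 + 1))

section bounds

variable {f : ℂ → ℂ} {τ θ : ℝ}

theorem YYp {s : ℝ} (hs : 0 < s) : 0 < YY s := YY_pos hs

theorem SF_eq' (hf : ClsD f) (hτ : 0 < τ) :
    SF f τ θ = YY τ ^ 2 * (1 + Real.exp (VD f (zz τ θ)) ^ 2) := by
  rw [SF, hf.norm_eq (zz_mem hτ), YD_zz]
  ring

theorem SF_ge (f : ℂ → ℂ) (τ θ : ℝ) : YY τ ^ 2 ≤ SF f τ θ := by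
  unfold SF
  have := sq_nonneg ‖f (zz τ θ)‖
  linarith

theorem JJ_ge (f : ℂ → ℂ) (hτ : 0 < τ) : -1 ≤ JJ f τ θ := by
  have h1 := YYp hτ
  have h2 := SF_ge f τ θ
  have h3 : 0 < SF f τ θ := lt_of_lt_of_le (by positivity) h2
  unfold JJ
  have h4 : YY τ ^ 2 * (1 / SF f τ θ) ≤ 1 := by
    rw [mul_one_div, div_le_one h3]
    exact h2
  have h5 : 0 ≤ YY τ ^ 2 * (2 * ‖(YY τ : ℂ) * deriv f (zz τ θ) + conj (zz τ θ) * f (zz τ θ)‖ ^ 2
    / SF f τ θ ^ 2) := by positivity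
  rw [mul_sub]
  linarith

theorem JJ_le (hf : ClsD f) (hτ : 0 < τ) :
    JJ f τ θ ≤ 2 * ((C0 + 1) * ((1 + |VD f (zz τ θ)|) * Real.exp (-|VD f (zz τ θ)|))) ^ 2 := by
  have hz : zz τ θ ∈ ball (0 : ℂ) 1 := zz_mem hτ
  have hY := YYp hτ
  have hC := C0_ge
  set V := VD f (zz τ θ) with hV
  set a := Real.exp V with ha
  have ha0 : 0 < a := Real.exp_pos _
  have hfn : ‖f (zz τ θ)‖ = YY τ * a := by rw [hf.norm_eq hz, YD_zz]
  have hS : SF f τ θ = YY τ ^ 2 * (1 + a ^ 2) := SF_eq' hf hτ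
  have hgr : ‖deriv f (zz τ θ)‖ ≤ a * (C0 * (1 + |V|)) := hf.grad hz
  set K := (C0 + 1) * (1 + |V|) with hK
  have hV0 := abs_nonneg V
  have hN : ‖(YY τ : ℂ) * deriv f (zz τ θ) + conj (zz τ θ) * f (zz τ θ)‖ ≤ YY τ * a * K := by
    calc _ ≤ ‖(YY τ : ℂ) * deriv f (zz τ θ)‖ + ‖conj (zz τ θ) * f (zz τ θ)‖ := norm_add_le _ _
      _ = YY τ * ‖deriv f (zz τ θ)‖ + ‖zz τ θ‖ * ‖f (zz τ θ)‖ := by
          rw [norm_mul, norm_mul, Complex.norm_real, Real.norm_of_nonneg hY.le, RCLike.norm_conj]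
      _ ≤ YY τ * (a * (C0 * (1 + |V|))) + 1 * (YY τ * a) := by
          rw [hfn]
          have := mem_D.1 hz
          gcongr
      _ ≤ YY τ * a * K := by
          rw [hK]
          have : 0 ≤ YY τ * a * |V| := by positivity
          nlinarith
  have h1 : YY τ ^ 2 * (2 * ‖(YY τ : ℂ) * deriv f (zz τ θ) + conj (zz τ θ) * f (zz τ θ)‖ ^ 2
    / SF f τ θ ^ 2) ≤ 2 * (a / (1 + a ^ 2) * K) ^ 2 := by
    rw [hS]
    calc _ ≤ YY τ ^ 2 * (2 * (YY τ * a * K) ^ 2 / (YY τ ^ 2 * (1 + a ^ 2)) ^ 2) := by gcongr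
      _ = 2 * (a / (1 + a ^ 2) * K) ^ 2 := by field_simp
  have h2 : a / (1 + a ^ 2) ≤ Real.exp (-|V|) := by
    rw [div_le_iff₀ (by positivity)]
    rcases le_total 0 V with h | h
    · rw [abs_of_nonneg h]
      have : Real.exp (-V) * a = 1 := by rw [ha, ← Real.exp_add]; simp
      have h3 := Real.exp_pos (-V)
      nlinarith
    · rw [abs_of_nonpos h, neg_neg]
      have h3 : 0 < a ^ 2 := by positivity
      nlinarith
  have h3 : 0 ≤ YY τ ^ 2 * (1 / SF f τ θ) := by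
    rw [hS]; positivity
  have h4 : a / (1 + a ^ 2) * K ≤ (C0 + 1) * ((1 + |V|) * Real.exp (-|V|)) := by
    rw [hK]
    calc a / (1 + a ^ 2) * ((C0 + 1) * (1 + |V|)) ≤ Real.exp (-|V|) * ((C0 + 1) * (1 + |V|)) := by
          gcongr
      _ = _ := by ring
  have h5 : 2 * (a / (1 + a ^ 2) * K) ^ 2 ≤ 2 * ((C0 + 1) * ((1 + |V|) * Real.exp (-|V|))) ^ 2 := by
    gcongr
  unfold JJ
  rw [mul_sub]
  linarith

theorem JJ_le_Cj (hf : ClsD f) (hτ : 0 < τ) : JJ f τ θ ≤ Cj := by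
  refine (JJ_le hf hτ).trans ?_
  have hC := C0_ge
  set V := VD f (zz τ θ)
  have h1 : (1 + |V|) * Real.exp (-|V|) ≤ 1 := by
    have := Real.add_one_le_exp |V|
    rw [Real.exp_neg, ← div_eq_mul_inv, div_le_one (Real.exp_pos _)]
    linarith
  have h2 : 0 ≤ (1 + |V|) * Real.exp (-|V|) := by positivity
  unfold Cj
  calc 2 * ((C0 + 1) * ((1 + |V|) * Real.exp (-|V|))) ^ 2 ≤ 2 * ((C0 + 1) * 1) ^ 2 := by gcongr
    _ = _ := by ring

theorem V_le_of_JJ (hf : ClsD f) (hτ : 0 < τ) (h : 1 / 4 ≤ JJ f τ θ) :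
    |VD f (zz τ θ)| ≤ V0c := by
  have h1 := h.trans (JJ_le hf hτ)
  have hC := C0_ge
  set x := |VD f (zz τ θ)| with hx
  have hx0 : 0 ≤ x := abs_nonneg _
  set t := (C0 + 1) * ((1 + x) * Real.exp (-x)) with ht
  have ht0 : 0 ≤ t := by positivity
  have h2 : 1 / 3 ≤ t := by
    by_contra hcon
    push Not at hcon
    nlinarith
  have h3 := one_add_le hx0
  have h4 : Real.exp (x / 2) * Real.exp (-x) = Real.exp (-(x / 2)) := by
    rw [← Real.exp_add]; ring_nf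
  have h5 : t ≤ (C0 + 1) * (3 / 2) * Real.exp (-(x / 2)) := by
    calc t ≤ (C0 + 1) * ((3 / 2 * Real.exp (x / 2)) * Real.exp (-x)) := by
          rw [ht]; gcongr
      _ = (C0 + 1) * (3 / 2) * (Real.exp (x / 2) * Real.exp (-x)) := by ring
      _ = _ := by rw [h4]
  have h6 : Real.exp (x / 2) * Real.exp (-(x / 2)) = 1 := by rw [← Real.exp_add]; simp
  have h7 : Real.exp (x / 2) ≤ 5 * (C0 + 1) := by
    have h8 := Real.exp_pos (x / 2)
    have h9 : 1 / 3 ≤ (C0 + 1) * (3 / 2) * Real.exp (-(x / 2)) := h2.trans h5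
    calc Real.exp (x / 2) = 3 * Real.exp (x / 2) * (1 / 3) := by ring
      _ ≤ 3 * Real.exp (x / 2) * ((C0 + 1) * (3 / 2) * Real.exp (-(x / 2))) := by gcongr
      _ = 9 / 2 * (C0 + 1) * (Real.exp (x / 2) * Real.exp (-(x / 2))) := by ring
      _ = 9 / 2 * (C0 + 1) := by rw [h6, mul_one]
      _ ≤ _ := by linarith
  have h8 : x / 2 ≤ Real.log (5 * (C0 + 1)) := by
    rw [Real.le_log_iff_exp_le (by positivity)]; exact h7
  unfold V0c
  linarith

end bounds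

section limits

/-- the density in the limit -/
noncomputable def jH (g : ℂ → ℂ) : ℝ :=
  2 * ‖deriv g Complex.I + Complex.I * g Complex.I‖ ^ 2 / (1 + ‖g Complex.I‖ ^ 2) ^ 2 -
    1 / (1 + ‖g Complex.I‖ ^ 2)

theorem conj_zz_un (τ θ : ℝ) : conj (zz τ θ) * un τ θ = (Real.exp (-τ) * τ : ℝ) * Complex.I := by
  have h1 : conj (zz τ θ) * Complex.exp (Complex.I * θ) = (Real.exp (-τ) : ℝ) := by
    rw [zz, ← Complex.exp_conj, ← Complex.exp_add, Complex.ofReal_exp]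
    congr 1
    simp only [map_add, map_neg, map_mul, Complex.conj_ofReal, Complex.conj_I]
    push_cast; ring
  calc conj (zz τ θ) * un τ θ = (conj (zz τ θ) * Complex.exp (Complex.I * θ)) *
        (τ * Complex.I) := by
        rw [un]; ring
    _ = _ := by rw [h1]; push_cast; ring

theorem JJ_scaled (f : ℂ → ℂ) {τ θ : ℝ} (hτ : 0 < τ) :
    JJ f τ θ = (YY τ / τ) ^ 2 * (2 * ‖((YY τ / τ : ℝ) : ℂ) * pS f τ θ Complex.I +
      (Real.exp (-τ) : ℝ) * (Complex.I * gS f τ θ Complex.I)‖ ^ 2 /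
        ((YY τ / τ) ^ 2 + ‖gS f τ θ Complex.I‖ ^ 2) ^ 2 -
      1 / ((YY τ / τ) ^ 2 + ‖gS f τ θ Complex.I‖ ^ 2)) := by
  have hY := YYp hτ
  set a := YY τ / τ with ha
  have hYa : YY τ = τ * a := by rw [ha]; field_simp
  have ha0 : 0 < a := by rw [ha]; positivity
  set G := gS f τ θ Complex.I with hG
  have hfz : f (zz τ θ) = un τ θ * G := by
    rw [hG, gS, xi_I]
    have := un_ne (θ := θ) hτ
    field_simp
  have hP : pS f τ θ Complex.I = deriv f (zz τ θ) := by rw [pS, xi_I]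
  have hSF : SF f τ θ = τ ^ 2 * (a ^ 2 + ‖G‖ ^ 2) := by
    rw [SF, hfz, norm_mul, norm_un hτ, hYa]; ring
  have hin : ((τ * a : ℝ) : ℂ) * deriv f (zz τ θ) + conj (zz τ θ) * f (zz τ θ) =
      (τ : ℂ) * ((a : ℂ) * pS f τ θ Complex.I + (Real.exp (-τ) : ℝ) * (Complex.I * G)) := by
    rw [hfz, ← mul_assoc (conj (zz τ θ)), conj_zz_un, hP]
    push_cast; ring
  rw [JJ, hSF, hYa, hin, norm_mul, Complex.norm_real, Real.norm_of_nonneg hτ.le]
  have hne : a ^ 2 + ‖G‖ ^ 2 ≠ 0 := by positivity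
  field_simp

theorem YY_div_tendsto {U : Filter ℕ} {τ : ℕ → ℝ} (hτ : ∀ n, 0 < τ n) (hlim : Tendsto τ U (𝓝 0))
    {γ : ℝ} (_hγ : 0 < γ) : Tendsto (fun n => YY (τ n * γ) / τ n) U (𝓝 γ) := by
  have h1 : Tendsto (fun n => γ * Real.exp (-2 * (τ n * γ))) U (𝓝 γ) := by
    have h2 : Tendsto (fun n => γ * Real.exp (-2 * (τ n * γ))) U
        (𝓝 (γ * Real.exp (-2 * (0 * γ)))) :=
      (((Real.continuous_exp.tendsto _).comp ((hlim.mul_const γ).const_mul (-2))).const_mul γ)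
    simpa using h2
  refine tendsto_of_tendsto_of_tendsto_of_le_of_le h1 tendsto_const_nhds ?_ ?_
  · intro n
    show γ * Real.exp (-2 * (τ n * γ)) ≤ YY (τ n * γ) / τ n
    rw [le_div_iff₀ (hτ n)]
    calc γ * Real.exp (-2 * (τ n * γ)) * τ n = (τ n * γ) * Real.exp (-2 * (τ n * γ)) := by ring
      _ ≤ _ := YY_ge
  · intro n
    show YY (τ n * γ) / τ n ≤ γ
    rw [div_le_iff₀ (hτ n)]
    calc YY (τ n * γ) ≤ τ n * γ := YY_le
      _ = γ * τ n := by ring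

theorem JJ_tendsto {U : Filter ℕ} {f : ℕ → ℂ → ℂ} {τ θ : ℕ → ℝ} (hτ : ∀ n, 0 < τ n)
    (hlim : Tendsto τ U (𝓝 0)) {g : ℂ → ℂ}
    (hg : Tendsto (fun n => gS (f n) (τ n) (θ n) Complex.I) U (𝓝 (g Complex.I)))
    (hp : Tendsto (fun n => pS (f n) (τ n) (θ n) Complex.I) U (𝓝 (deriv g Complex.I))) :
    Tendsto (fun n => JJ (f n) (τ n) (θ n)) U (𝓝 (jH g)) := by
  have ha : Tendsto (fun n => YY (τ n) / τ n) U (𝓝 1) := by
    have := YY_div_tendsto hτ hlim one_pos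
    simpa using this
  have hac : Tendsto (fun n => ((YY (τ n) / τ n : ℝ) : ℂ)) U (𝓝 ((1 : ℝ) : ℂ)) :=
    (Complex.continuous_ofReal.tendsto _).comp ha
  have he : Tendsto (fun n => Real.exp (-τ n)) U (𝓝 1) := by
    have := (Real.continuous_exp.tendsto _).comp hlim.neg
    simpa [Function.comp_def] using this
  have hec : Tendsto (fun n => ((Real.exp (-τ n) : ℝ) : ℂ)) U (𝓝 ((1 : ℝ) : ℂ)) :=
    (Complex.continuous_ofReal.tendsto _).comp he
  have h1 : Tendsto (fun n => (YY (τ n) / τ n) ^ 2 + ‖gS (f n) (τ n) (θ n) Complex.I‖ ^ 2) U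
      (𝓝 ((1 : ℝ) ^ 2 + ‖g Complex.I‖ ^ 2)) := (ha.pow 2).add (hg.norm.pow 2)
  have hne : (1 : ℝ) ^ 2 + ‖g Complex.I‖ ^ 2 ≠ 0 := by positivity
  have h2 := ((hac.mul hp).add (hec.mul (hg.const_mul Complex.I))).norm.pow 2
  have h3 := (ha.pow 2).mul (((h2.const_mul 2).div (h1.pow 2) (pow_ne_zero 2 hne)).sub
    (tendsto_const_nhds (x := (1 : ℝ)).div h1 hne))
  have e1 : (1 : ℝ) ^ 2 * (2 * ‖((1 : ℝ) : ℂ) * deriv g Complex.I + ((1 : ℝ) : ℂ) *
      (Complex.I * g Complex.I)‖ ^ 2 / ((1 : ℝ) ^ 2 + ‖g Complex.I‖ ^ 2) ^ 2 -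
      1 / ((1 : ℝ) ^ 2 + ‖g Complex.I‖ ^ 2)) = jH g := by
    rw [jH]; simp
  rw [e1] at h3
  refine h3.congr fun n => ?_
  rw [JJ_scaled (f n) (hτ n)]
  rfl

theorem I_mem : Complex.I ∈ HH := by show (0 : ℝ) < Complex.I.im; simp

/-- zero-free linear functions have small density -/
theorem jH_linear {g : ℂ → ℂ} (hd : DifferentiableOn ℂ g HH) (h0 : ∀ ζ ∈ HH, g ζ ≠ 0)
    {a : ℂ} (ha : ∀ ζ ∈ HH, deriv g ζ = a) : jH g ≤ 1 / 8 := by
  set b : ℂ := a * Complex.I - g Complex.I with hb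
  have hI := I_mem
  have hlin : ∀ ζ ∈ HH, g ζ = a * ζ - b := by
    intro ζ hζ
    have hconst := convex_HH.is_const_of_fderivWithin_eq_zero (𝕜 := ℂ)
      (f := fun ζ => g ζ - a * ζ) (hd.sub (by fun_prop)) (by
        intro w hw
        rw [fderivWithin_of_isOpen isOpen_HH hw]
        have e1 : HasDerivAt (fun ζ => g ζ - a * ζ) (deriv g w - a * 1) w :=
          (hd.differentiableAt (isOpen_HH.mem_nhds hw)).hasDerivAt.sub
            ((hasDerivAt_id w).const_mul a)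
        rw [ha w hw, mul_one, sub_self] at e1
        have := e1.hasFDerivAt.fderiv
        rw [this]
        ext; simp) hζ hI
    rw [hb]
    linear_combination hconst
  have hgI : g Complex.I = a * Complex.I - b := hlin _ hI
  have h1 : deriv g Complex.I + Complex.I * g Complex.I = -(Complex.I * b) := by
    rw [ha _ hI, hgI]
    linear_combination a * Complex.I_mul_I
  have h2 : ‖deriv g Complex.I + Complex.I * g Complex.I‖ = ‖b‖ := by
    rw [h1, norm_neg, norm_mul, Complex.norm_I, one_mul]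
  have h3 : ‖b‖ ^ 2 ≤ ‖g Complex.I‖ ^ 2 := by
    by_cases ha0 : a = 0
    · rw [hgI, ha0, zero_mul, zero_sub, norm_neg]
    · set c := b / a with hc
      have hbc : b = a * c := by rw [hc]; field_simp
      have hcim : c.im ≤ 0 := by
        by_contra hcon
        push Not at hcon
        apply h0 c hcon
        rw [hlin c hcon, hbc]; ring
      rw [hgI, hbc, ← mul_sub, norm_mul, norm_mul, mul_pow, mul_pow]
      apply mul_le_mul_of_nonneg_left _ (sq_nonneg _)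
      rw [Complex.sq_norm, Complex.sq_norm, Complex.normSq_apply, Complex.normSq_apply]
      simp only [Complex.sub_re, Complex.sub_im, Complex.I_re, Complex.I_im]
      nlinarith
  rw [jH, h2]
  set D := 1 + ‖g Complex.I‖ ^ 2 with hD
  have hD0 : 0 < D := by positivity
  set t := ‖b‖ ^ 2 with ht
  have h4 : 2 * t / D ^ 2 - 1 / D = (2 * t - D) / D ^ 2 := by field_simp
  rw [h4, div_le_iff₀ (by positivity)]
  nlinarith [sq_nonneg (D - 4)]

end limits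

end Pool.Agent.SS
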