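import Pool.Agent.Lib52.SS.JB

set_option autoImplicit false

open Set Metric Filter
open scoped Topology ComplexConjugate

namespace Pool.Agent.SS

/-- the identity defining `EE` without division -/
theorem EE_mul {f : ℂ → ℂ} (hf : ClsD f) {τ θ : ℝ} (hτ : 0 < τ) {ζ : ℂ} (hζ : ζ ∈ HH) :
    EE f (E1 f) (τ * ζ.im) (θ + τ * ζ.re) * (‖gS f τ θ ζ‖ ^ 2 * ‖pS f τ θ ζ - 1‖ ^ 2) =
      (YY (τ * ζ.im) / τ) ^ 2 * ((YY (τ * ζ.im) / τ) ^ 2 + ‖gS f τ θ ζ‖ ^ 2) *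
        ‖qS f τ θ ζ‖ ^ 2 := by
  have hz : xi τ θ ζ ∈ ball (0 : ℂ) 1 := xi_mem hτ hζ
  have h0 := hf.norm_pos hz
  have h1 : 0 < ‖deriv f (xi τ θ ζ) - 1‖ := norm_pos_iff.2 (sub_ne_zero.2 (hf.ne1 _ hz))
  have hu := norm_un (θ := θ) hτ
  rw [EE, SF, ← xi_eq, E1, gS, pS, qS, norm_div, norm_div, norm_mul, norm_mul, hu]
  field_simp

theorem one_div_tendsto (U : Ultrafilter ℕ) (hU : (U : Filter ℕ) ≤ atTop) :
    Tendsto (fun n : ℕ => 1 / ((n : ℝ) + 1)) U (𝓝 0) :=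
  tendsto_one_div_add_atTop_nhds_zero_nat.mono_left hU

theorem tau_tendsto (U : Ultrafilter ℕ) (hU : (U : Filter ℕ) ≤ atTop) {τ : ℕ → ℝ}
    (h0 : ∀ n, 0 < τ n) (h1 : ∀ n, τ n < 1 / ((n : ℝ) + 1)) : Tendsto τ U (𝓝 0) :=
  tendsto_of_tendsto_of_tendsto_of_le_of_le tendsto_const_nhds (one_div_tendsto U hU)
    (fun n => (h0 n).le) (fun n => (h1 n).le)

theorem one_div_le_one (n : ℕ) : 1 / ((n : ℝ) + 1) ≤ 1 := by
  rw [div_le_one (by positivity)]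
  have : (0 : ℝ) ≤ n := Nat.cast_nonneg n
  linarith

/-- near a point where `E` is small and `j` is not small there is a zero of `f''` -/
theorem L1 : ∃ δ₁ : ℝ, 0 < δ₁ ∧ ∃ ρ₁ : ℝ, 1 ≤ ρ₁ ∧ ∃ η₁ : ℝ, 0 < η₁ ∧ ∀ f : ℂ → ℂ, ClsD f →
    ∀ τ θ : ℝ, 0 < τ → τ < η₁ → EE f (E1 f) τ θ ≤ δ₁ → 1 / 4 < JJ f τ θ →
      ∃ τ' θ' : ℝ, deriv (deriv f) (zz τ' θ') = 0 ∧ τ / ρ₁ < τ' ∧ τ' < ρ₁ * τ ∧
        |θ' - θ| < ρ₁ * τ := by
  by_contra hcon
  push Not at hcon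
  have hseq : ∀ n : ℕ, ∃ f : ℂ → ℂ, ClsD f ∧ ∃ τ θ : ℝ, 0 < τ ∧ τ < 1 / ((n : ℝ) + 1) ∧
      EE f (E1 f) τ θ ≤ 1 / ((n : ℝ) + 1) ∧ 1 / 4 < JJ f τ θ ∧
      ∀ τ' θ' : ℝ, deriv (deriv f) (zz τ' θ') = 0 → τ / ((n : ℝ) + 1) < τ' →
        τ' < ((n : ℝ) + 1) * τ → ((n : ℝ) + 1) * τ ≤ |θ' - θ| := fun n =>
    hcon (1 / ((n : ℝ) + 1)) (by positivity) ((n : ℝ) + 1)
      (by have : (0 : ℝ) ≤ n := Nat.cast_nonneg n
          linarith) (1 / ((n : ℝ) + 1)) (by positivity)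
  choose f hf τ θ hτ hτn hE hJ hz using hseq
  set U : Ultrafilter ℕ := hyperfilter ℕ with hU
  have hUt : (U : Filter ℕ) ≤ atTop := Nat.hyperfilter_le_atTop
  have hlim := tau_tendsto U hUt hτ hτn
  have hτ1 : ∀ n, τ n ≤ 1 := fun n => (hτn n).le.trans (one_div_le_one n)
  have hV : ∀ n, |VD (f n) (zz (τ n) (θ n))| ≤ V0c := fun n =>
    V_le_of_JJ (hf n) (hτ n) (hJ n).le
  obtain ⟨g, hgd, hg0, hg1, hgl, hpl, hql⟩ := cpt U hf hτ hτ1 hlim hV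
  have hI := I_mem
  have hjl := JJ_tendsto hτ hlim (hgl _ hI) (hpl _ hI)
  have hj : 1 / 4 ≤ jH g := ge_of_tendsto hjl (Filter.Eventually.of_forall fun n => (hJ n).le)
  have hlin : ∀ a : ℂ, (∀ ζ ∈ HH, deriv g ζ = a) → False := by
    intro a ha
    have := jH_linear hgd hg0 ha
    linarith
  -- `g''` vanishes at `I`
  have hq0 : deriv (deriv g) Complex.I = 0 := by
    have ha : Tendsto (fun n => YY (τ n * 1) / τ n) U (𝓝 1) := YY_div_tendsto hτ hlim one_pos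
    have hG := (hgl _ hI).norm.pow 2
    have hP := ((hpl _ hI).sub_const 1).norm.pow 2
    have hQ := (hql _ hI).norm.pow 2
    have t1 := ((ha.pow 2).mul ((ha.pow 2).add hG)).mul hQ
    have t2 := (one_div_tendsto U hUt).mul (hG.mul hP)
    have h1 : (1 : ℝ) ^ 2 * ((1 : ℝ) ^ 2 + ‖g Complex.I‖ ^ 2) * ‖deriv (deriv g) Complex.I‖ ^ 2 ≤
        0 * (‖g Complex.I‖ ^ 2 * ‖deriv g Complex.I - 1‖ ^ 2) := by
      refine le_of_tendsto_of_tendsto t1 t2 (Filter.Eventually.of_forall fun n => ?_)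
      have h2 := EE_mul (hf n) (θ := θ n) (hτ n) hI
      simp only [Complex.I_im, Complex.I_re, mul_one, mul_zero, add_zero] at h2
      show (YY (τ n * 1) / τ n) ^ 2 * ((YY (τ n * 1) / τ n) ^ 2 +
        ‖gS (f n) (τ n) (θ n) Complex.I‖ ^ 2) * ‖qS (f n) (τ n) (θ n) Complex.I‖ ^ 2 ≤
        1 / ((n : ℝ) + 1) * (‖gS (f n) (τ n) (θ n) Complex.I‖ ^ 2 *
          ‖pS (f n) (τ n) (θ n) Complex.I - 1‖ ^ 2)
      rw [mul_one, ← h2]
      exact mul_le_mul_of_nonneg_right (hE n) (by positivity)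
    rw [zero_mul] at h1
    by_contra hne
    have h3 : 0 < ‖deriv (deriv g) Complex.I‖ := norm_pos_iff.2 hne
    have : 0 < (1 : ℝ) ^ 2 * ((1 : ℝ) ^ 2 + ‖g Complex.I‖ ^ 2) * ‖deriv (deriv g) Complex.I‖ ^ 2 := by
      positivity
    linarith
  -- zero free in the limit
  have hdd : DifferentiableOn ℂ (deriv (deriv g)) HH := (hgd.deriv isOpen_HH).deriv isOpen_HH
  have hne : ∀ ζ₀ ∈ HH, ∀ᶠ n in (U : Filter ℕ), ∀ ζ ∈ ball ζ₀ (ζ₀.im / 2),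
      qS (f n) (τ n) (θ n) ζ ≠ 0 := by
    intro ζ₀ hζ₀
    have him : 0 < ζ₀.im := hζ₀
    have hev : ∀ᶠ n : ℕ in atTop, max (2 / ζ₀.im) (‖ζ₀‖ + 2 * ζ₀.im) < (n : ℝ) :=
      tendsto_natCast_atTop_atTop.eventually_gt_atTop _
    filter_upwards [hev.filter_mono hUt] with n hn ζ hζ h0
    have hn1 : 2 / ζ₀.im < n := lt_of_le_of_lt (le_max_left _ _) hn
    have hn2 : ‖ζ₀‖ + 2 * ζ₀.im < n := lt_of_le_of_lt (le_max_right _ _) hn
    have hζH : ζ ∈ HH := half_ball_sub hζ₀ hζ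
    rw [mem_ball, dist_eq_norm] at hζ
    have h1 := Complex.abs_im_le_norm (ζ - ζ₀)
    have h2 := Complex.abs_re_le_norm (ζ - ζ₀)
    have h3 := Complex.abs_re_le_norm ζ₀
    rw [Complex.sub_im] at h1
    rw [Complex.sub_re] at h2
    have h1' := abs_le.1 h1
    have h2' := abs_le.1 h2
    have h3' := abs_le.1 h3
    have hz0 : deriv (deriv (f n)) (zz (τ n * ζ.im) (θ n + τ n * ζ.re)) = 0 := by
      rw [← xi_eq]
      rw [qS] at h0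
      exact (mul_eq_zero.1 h0).resolve_left (un_ne (hτ n))
    have hτn' := hτ n
    have hn0 : (0 : ℝ) < n := lt_trans (by positivity) hn1
    have h4 := hz n _ _ hz0 (by
      rw [div_lt_iff₀ (by positivity)]
      have h5 : 1 < ζ.im * ((n : ℝ) + 1) := by
        rw [div_lt_iff₀ him] at hn1
        nlinarith
      nlinarith) (by
      have : ζ.im < (n : ℝ) + 1 := by linarith
      nlinarith)
    have h5 : |θ n + τ n * ζ.re - θ n| = τ n * |ζ.re| := by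
      rw [add_sub_cancel_left, abs_mul, abs_of_pos (hτ n)]
    rw [h5] at h4
    have h6 : |ζ.re| < (n : ℝ) + 1 := by
      rw [abs_lt]; constructor <;> linarith
    nlinarith
  have hqb : LocB (fun n => qS (f n) (τ n) (θ n)) := (qS_LocB2 hf hτ hτ1 hV).locB
  rcases hurwitz U (fun n => qS_diff (hf n) (hτ n)) hqb hql hdd hne with h | h
  · exact h _ hI hq0
  · apply hlin (deriv g Complex.I)
    intro ζ hζ
    have := convex_HH.is_const_of_fderivWithin_eq_zero (𝕜 := ℂ)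
      (f := deriv g) (hgd.deriv isOpen_HH) (by
        intro w hw
        rw [fderivWithin_of_isOpen isOpen_HH hw]
        have e1 := ((hgd.deriv isOpen_HH).differentiableAt (isOpen_HH.mem_nhds hw)).hasDerivAt
        rw [h w hw] at e1
        rw [e1.hasFDerivAt.fderiv]
        ext; simp) hζ hI
    exact this

/-- when `j ≥ 1/2`, `E` is small at one of finitely many relative positions -/
theorem CC (δ : ℝ) (hδ : 0 < δ) : ∃ I : Finset (ℝ × ℝ), (∀ x ∈ I, 0 < x.2) ∧ ∃ η : ℝ, 0 < η ∧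
    ∀ f : ℂ → ℂ, ClsD f → ∀ τ θ : ℝ, 0 < τ → τ < η → 1 / 2 ≤ JJ f τ θ →
      ∃ x ∈ I, EE f (E1 f) (τ * x.2) (θ + τ * x.1) < δ := by
  classical
  by_contra hcon
  push Not at hcon
  set J : ℕ → Finset (ℝ × ℝ) := fun n =>
    (((Finset.range n).image (TopologicalSpace.denseSeq ℂ)).filter (fun z => 0 < z.im)).image
      (fun z => (z.re, z.im)) with hJd
  have hJpos : ∀ n, ∀ x ∈ J n, 0 < x.2 := by
    intro n x hx
    simp only [hJd, Finset.mem_image, Finset.mem_filter] at hx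
    obtain ⟨z, ⟨-, hz⟩, rfl⟩ := hx
    exact hz
  have hseq : ∀ n : ℕ, ∃ f : ℂ → ℂ, ClsD f ∧ ∃ τ θ : ℝ, 0 < τ ∧ τ < 1 / ((n : ℝ) + 1) ∧
      1 / 2 ≤ JJ f τ θ ∧ ∀ x ∈ J n, δ ≤ EE f (E1 f) (τ * x.2) (θ + τ * x.1) := fun n =>
    hcon (J n) (hJpos n) (1 / ((n : ℝ) + 1)) (by positivity)
  choose f hf τ θ hτ hτn hJ hE using hseq
  set U : Ultrafilter ℕ := hyperfilter ℕ with hU
  have hUt : (U : Filter ℕ) ≤ atTop := Nat.hyperfilter_le_atTop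
  have hlim := tau_tendsto U hUt hτ hτn
  have hτ1 : ∀ n, τ n ≤ 1 := fun n => (hτn n).le.trans (one_div_le_one n)
  have hV : ∀ n, |VD (f n) (zz (τ n) (θ n))| ≤ V0c := fun n =>
    V_le_of_JJ (hf n) (hτ n) (by linarith [hJ n])
  obtain ⟨g, hgd, hg0, hg1, hgl, hpl, hql⟩ := cpt U hf hτ hτ1 hlim hV
  have hI := I_mem
  have hjl := JJ_tendsto hτ hlim (hgl _ hI) (hpl _ hI)
  have hj : 1 / 2 ≤ jH g := ge_of_tendsto hjl (Filter.Eventually.of_forall hJ)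
  have hcls : ClsH g := by
    refine ⟨hgd, hg0, ?_⟩
    rcases hg1 with h | h
    · exact h
    · have := jH_linear hgd hg0 h
      linarith
  have hd1 := hgd.deriv isOpen_HH
  have hd2 := hd1.deriv isOpen_HH
  -- the inequality on the dense sequence
  have hdense : ∀ k : ℕ, TopologicalSpace.denseSeq ℂ k ∈ HH →
      0 ≤ (TopologicalSpace.denseSeq ℂ k).im ^ 2 * ((TopologicalSpace.denseSeq ℂ k).im ^ 2 +
        ‖g (TopologicalSpace.denseSeq ℂ k)‖ ^ 2) *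
        ‖deriv (deriv g) (TopologicalSpace.denseSeq ℂ k)‖ ^ 2 -
        δ * (‖g (TopologicalSpace.denseSeq ℂ k)‖ ^ 2 *
          ‖deriv g (TopologicalSpace.denseSeq ℂ k) - 1‖ ^ 2) := by
    intro k hk
    set ζ := TopologicalSpace.denseSeq ℂ k with hζ
    have him : 0 < ζ.im := hk
    have ha : Tendsto (fun n => YY (τ n * ζ.im) / τ n) U (𝓝 ζ.im) := YY_div_tendsto hτ hlim him
    have hG := (hgl _ hk).norm.pow 2
    have hP := ((hpl _ hk).sub_const 1).norm.pow 2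
    have hQ := (hql _ hk).norm.pow 2
    have t1 := (((ha.pow 2).mul ((ha.pow 2).add hG)).mul hQ).sub ((hG.mul hP).const_mul δ)
    refine ge_of_tendsto t1 ?_
    have hev : ∀ᶠ n : ℕ in atTop, k < n := eventually_gt_atTop k
    filter_upwards [hev.filter_mono hUt] with n hn
    have hmem : (ζ.re, ζ.im) ∈ J n := by
      simp only [hJd, Finset.mem_image, Finset.mem_filter]
      exact ⟨ζ, ⟨⟨k, Finset.mem_range.2 hn, rfl⟩, him⟩, rfl⟩
    have h1 := hE n _ hmem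
    simp only at h1
    have h2 := EE_mul (hf n) (θ := θ n) (hτ n) hk
    rw [← h2]
    have h3 : 0 ≤ ‖gS (f n) (τ n) (θ n) ζ‖ ^ 2 * ‖pS (f n) (τ n) (θ n) ζ - 1‖ ^ 2 := by positivity
    have := mul_le_mul_of_nonneg_right h1 h3
    linarith
  -- the inequality everywhere
  have hall : ∀ ζ ∈ HH, 0 ≤ ζ.im ^ 2 * (ζ.im ^ 2 + ‖g ζ‖ ^ 2) * ‖deriv (deriv g) ζ‖ ^ 2 -
        δ * (‖g ζ‖ ^ 2 * ‖deriv g ζ - 1‖ ^ 2) := by
    intro ζ hζ
    by_contra hneg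
    push Not at hneg
    have hc1 : ContinuousAt g ζ := hgd.continuousOn.continuousAt (isOpen_HH.mem_nhds hζ)
    have hc2 : ContinuousAt (deriv g) ζ := hd1.continuousOn.continuousAt (isOpen_HH.mem_nhds hζ)
    have hc3 : ContinuousAt (deriv (deriv g)) ζ :=
      hd2.continuousOn.continuousAt (isOpen_HH.mem_nhds hζ)
    have hc4 : ContinuousAt (fun ζ : ℂ => ζ.im) ζ := Complex.continuous_im.continuousAt
    have hc : ContinuousAt (fun ζ : ℂ => ζ.im ^ 2 * (ζ.im ^ 2 + ‖g ζ‖ ^ 2) *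
        ‖deriv (deriv g) ζ‖ ^ 2 - δ * (‖g ζ‖ ^ 2 * ‖deriv g ζ - 1‖ ^ 2)) ζ := by
      exact (((hc4.pow 2).mul ((hc4.pow 2).add (hc1.norm.pow 2))).mul (hc3.norm.pow 2)).sub
        (((hc1.norm.pow 2).mul ((hc2.sub continuousAt_const).norm.pow 2)).const_mul δ)
    have hopen : ∀ᶠ w in 𝓝 ζ, w ∈ HH ∧ w.im ^ 2 * (w.im ^ 2 + ‖g w‖ ^ 2) *
        ‖deriv (deriv g) w‖ ^ 2 - δ * (‖g w‖ ^ 2 * ‖deriv g w - 1‖ ^ 2) < 0 :=
      Filter.Eventually.and (isOpen_HH.mem_nhds hζ) (hc.eventually (isOpen_Iio.mem_nhds hneg))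
    obtain ⟨O, hO1, hO2, hO3⟩ := _root_.mem_nhds_iff.1 hopen
    obtain ⟨w, hw1, ⟨k, hk⟩⟩ := (TopologicalSpace.denseRange_denseSeq ℂ).inter_open_nonempty O hO2
      ⟨ζ, hO3⟩
    have h5 := hO1 hw1
    have h6 := hdense k (by rw [hk]; exact h5.1)
    rw [hk] at h6
    have h7 := h5.2
    linarith
  have hHyp : Hyp g (Real.sqrt δ) := by
    intro z hz
    have hy : 0 < z.im := hz
    have hgz := hcls.norm_pos hz
    have h1 := hall z hz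
    have h2 : (Real.sqrt δ * ‖deriv g z - 1‖ * ‖g z‖) ^ 2 ≤
        (z.im * ‖deriv (deriv g) z‖ * (‖g z‖ + z.im)) ^ 2 := by
      have e1 : (Real.sqrt δ * ‖deriv g z - 1‖ * ‖g z‖) ^ 2 =
          δ * (‖g z‖ ^ 2 * ‖deriv g z - 1‖ ^ 2) := by
        rw [mul_pow, mul_pow, Real.sq_sqrt hδ.le]; ring
      have e2 : (z.im * ‖deriv (deriv g) z‖ * (‖g z‖ + z.im)) ^ 2 =
          z.im ^ 2 * (z.im ^ 2 + ‖g z‖ ^ 2) * ‖deriv (deriv g) z‖ ^ 2 +
            2 * (z.im ^ 2 * ‖deriv (deriv g) z‖ ^ 2 * (‖g z‖ * z.im)) := by ring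
      have e3 : 0 ≤ z.im ^ 2 * ‖deriv (deriv g) z‖ ^ 2 * (‖g z‖ * z.im) := by positivity
      rw [e1, e2]
      linarith
    have h3 : Real.sqrt δ * ‖deriv g z - 1‖ * ‖g z‖ ≤
        z.im * ‖deriv (deriv g) z‖ * (‖g z‖ + z.im) :=
      (abs_le_of_sq_le_sq' h2 (by positivity)).2
    have h4 : z.im * ‖deriv (deriv g) z‖ * (1 + z.im / ‖g z‖) =
        z.im * ‖deriv (deriv g) z‖ * (‖g z‖ + z.im) / ‖g z‖ := by field_simp
    rw [h4, le_div_iff₀ hgz]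
    exact h3
  exact rigid (Real.sqrt_pos.2 hδ) hcls hHyp

end Pool.Agent.SS
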