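import Pool.Agent.Lib52.SS.LemH

set_option autoImplicit false

open Set Metric Filter
open scoped Topology

namespace Pool.Agent.SS

theorem lemZ (g : ℂ → ℂ) (R : ℝ) (hR : 10000000 ≤ R) (hd : DifferentiableOn ℂ g (ball 0 R))
    (h0 : ∀ z ∈ ball (0 : ℂ) R, g z ≠ 0) (h1 : ∀ z ∈ ball (0 : ℂ) R, deriv g z ≠ 1)
    (hn : ‖deriv g 0‖ = 1 + ‖g 0‖ ^ 2)
    (hb : ∀ z : ℂ, ‖z‖ < R / 2 → ‖deriv g z‖ ≤ 1 + 4 * ‖g z‖ ^ 2) : False := by
  have hR0 : 0 < R := by linarith
  obtain ⟨k, hk, he⟩ := exists_log hd h0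
  set k' : ℂ → ℂ := fun z => deriv g z / g z with hk'
  have hmem : ∀ z : ℂ, ‖z‖ < R → z ∈ ball (0 : ℂ) R := fun z hz => by
    rw [mem_ball, dist_zero_right]; exact hz
  have hnorm : ∀ z : ℂ, ‖z‖ < R → ‖g z‖ = Real.exp (k z).re := fun z hz => by
    rw [← he z (hmem z hz), Complex.norm_exp]
  -- bound on k' in terms of Re k
  have hk'b : ∀ z : ℂ, ‖z‖ < R / 2 →
      ‖k' z‖ ≤ Real.exp (-(k z).re) + 4 * Real.exp (k z).re := by
    intro z hz
    have e1 := hb z hz
    rw [hnorm z (by linarith)] at e1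
    simp only [hk']
    rw [norm_div, hnorm z (by linarith), div_le_iff₀ (Real.exp_pos _)]
    refine e1.trans (le_of_eq ?_)
    rw [add_mul, ← Real.exp_add, neg_add_cancel, Real.exp_zero]
    ring
  have hexp1 : Real.exp 1 < 2.8 := by linarith [Real.exp_one_lt_d9]
  have hbound1 : ∀ z : ℂ, ‖z‖ < R / 2 → |(k z).re| ≤ 1 → ‖k' z‖ ≤ 14 := by
    intro z hz habs
    have e1 := hk'b z hz
    have e2 := abs_le.1 habs
    have e3 : Real.exp (-(k z).re) ≤ Real.exp 1 := Real.exp_le_exp.2 (by linarith)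
    have e4 : Real.exp (k z).re ≤ Real.exp 1 := Real.exp_le_exp.2 (by linarith)
    linarith
  have hbound2 : ∀ z : ℂ, ‖z‖ < R / 4 → ‖k' z‖ ≤ 56 + 16 / R * |(k z).re| := by
    intro z hz
    have hsub : ∀ w ∈ ball z (R / 4), ‖w‖ < R / 2 := by
      intro w hw
      rw [mem_ball, dist_eq_norm] at hw
      have : ‖w‖ ≤ ‖w - z‖ + ‖z‖ := by simpa using norm_add_le (w - z) z
      linarith
    have := lemH (k := k) (k' := k') (c := z) (ρ := R / 4) (B := 14) (by positivity)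
      (fun w hw => hk w (hmem w (by linarith [hsub w hw])))
      (fun w hw => hbound1 w (hsub w hw)) (by norm_num)
    calc ‖k' z‖ ≤ 4 * 14 + 4 / (R / 4) * |(k z).re| := this
      _ = 56 + 16 / R * |(k z).re| := by field_simp; ring
  have h16R : 16 / R ≤ 1 := by rw [div_le_one hR0]; linarith
  -- at the centre
  set u0 := (k 0).re with hu0
  have hk0 : ‖k' 0‖ = Real.exp (-u0) + Real.exp u0 := by
    simp only [hk']
    rw [norm_div, hn, hnorm 0 (by simpa using hR0)]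
    rw [div_eq_iff (Real.exp_pos _).ne']
    rw [add_mul, ← Real.exp_add, neg_add_cancel, Real.exp_zero]
    ring
  have hk0le : ‖k' 0‖ ≤ 56 + |u0| := by
    have e1 := hbound2 0 (by simpa using (by positivity : 0 < R / 4))
    have e2 : 16 / R * |u0| ≤ 1 * |u0| := by gcongr
    linarith
  have hu0le : |u0| ≤ 15 := by
    by_contra hlt
    push Not at hlt
    have e1 : Real.exp |u0| ≤ ‖k' 0‖ := by
      rw [hk0]
      rcases abs_cases u0 with ⟨h, _⟩ | ⟨h, _⟩
      · rw [h]; linarith [Real.exp_pos (-u0)]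
      · rw [h]; linarith [Real.exp_pos u0]
    have e2 : (1 + |u0| / 2) ^ 2 ≤ Real.exp |u0| := by
      have : Real.exp |u0| = Real.exp (|u0| / 2) ^ 2 := by
        rw [← Real.exp_nat_mul]; congr 1; push_cast; ring
      rw [this]
      apply pow_le_pow_left₀ (by positivity)
      linarith [Real.add_one_le_exp (|u0| / 2)]
    nlinarith
  have ha71 : ‖k' 0‖ ≤ 71 := by linarith
  have ha2 : 2 ≤ ‖k' 0‖ := by
    rw [hk0]
    have e1 := Real.add_one_le_exp u0
    have e2 := Real.add_one_le_exp (-u0)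
    linarith
  have hk'diff : DifferentiableOn ℂ k' (ball 0 R) := (hd.deriv isOpen_ball).div hd h0
  -- uniform bound on k' on a big disc
  have hbig : ∀ z ∈ closedBall (0 : ℂ) (R / 32), ‖k' z‖ ≤ 142 := by
    have hsub : closedBall (0 : ℂ) (R / 32) ⊆ ball 0 R := closedBall_subset_ball (by linarith)
    obtain ⟨m, hm, hmax⟩ := (isCompact_closedBall (0 : ℂ) (R / 32)).exists_isMaxOn
      ⟨0, mem_closedBall_self (by positivity)⟩ ((hk'diff.continuousOn.mono hsub).norm)
    have hQ : ∀ z ∈ closedBall (0 : ℂ) (R / 32), ‖k' z‖ ≤ ‖k' m‖ := fun z hz => hmax hz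
    have hm' : ‖m‖ ≤ R / 32 := by simpa using hm
    have e1 := hbound2 m (by linarith)
    have e2 : ‖k m - k 0‖ ≤ ‖k' m‖ * ‖m - 0‖ :=
      (convex_closedBall (0 : ℂ) (R / 32)).norm_image_sub_le_of_norm_hasDerivWithin_le
        (fun z hz => (hk z (hsub hz)).hasDerivWithinAt) hQ
        (mem_closedBall_self (by positivity)) hm
    have e3 : |(k m).re| ≤ 15 + ‖k' m‖ * (R / 32) := by
      have e4 : |(k m - k 0).re| ≤ ‖k m - k 0‖ := Complex.abs_re_le_norm _
      rw [Complex.sub_re] at e4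
      have e5 : |(k m).re| ≤ |(k m).re - (k 0).re| + |(k 0).re| := by
        have := abs_add_le ((k m).re - (k 0).re) (k 0).re
        simpa using this
      have e6 : ‖k' m‖ * ‖m - 0‖ ≤ ‖k' m‖ * (R / 32) := by
        rw [sub_zero]; gcongr
      linarith
    have e7 : 16 / R * |(k m).re| ≤ 15 + ‖k' m‖ / 2 := by
      calc 16 / R * |(k m).re| ≤ 16 / R * (15 + ‖k' m‖ * (R / 32)) := by gcongr
        _ = 16 / R * 15 + ‖k' m‖ / 2 := by field_simp; ring
        _ ≤ 1 * 15 + ‖k' m‖ / 2 := by gcongr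
        _ = _ := by ring
    intro z hz
    have := hQ z hz
    linarith
  set a := k' 0 with ha
  have ha0 : a ≠ 0 := by
    intro h; rw [h, norm_zero] at ha2; linarith
  have hlip : ∀ z : ℂ, ‖z‖ < R / 32 → ‖k' z - a‖ ≤ 9088 / R * ‖z‖ := by
    intro z hz
    have hmaps : MapsTo k' (ball 0 (R / 32)) (closedBall (k' 0) 284) := by
      intro w hw
      rw [mem_closedBall, dist_eq_norm]
      have e1 := hbig w (ball_subset_closedBall hw)
      have e2 := hbig 0 (mem_closedBall_self (by positivity))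
      calc ‖k' w - k' 0‖ ≤ ‖k' w‖ + ‖k' 0‖ := norm_sub_le _ _
        _ ≤ 284 := by linarith
    have := Complex.dist_le_div_mul_dist_of_mapsTo_ball
      (hk'diff.mono (ball_subset_ball (by linarith))) hmaps (z := z) (by simpa using hz)
    rw [dist_eq_norm, dist_zero_right] at this
    calc ‖k' z - a‖ ≤ 284 / (R / 32) * ‖z‖ := this
      _ = 9088 / R * ‖z‖ := by field_simp; ring
  have hlip2 : ∀ z : ℂ, ‖z‖ < 201 → ‖k' z - a‖ ≤ 1 / 4 := by
    intro z hz
    have e1 := hlip z (by linarith)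
    have e2 : 9088 / R * ‖z‖ ≤ 9088 / R * 201 := by gcongr
    have e3 : 9088 / R * 201 ≤ 1 / 4 := by
      rw [div_mul_eq_mul_div, div_le_iff₀ hR0]; linarith
    linarith
  have hratio : ∀ z : ℂ, ‖z‖ < 201 → ‖k' z / a - 1‖ ≤ 1 / 8 := by
    intro z hz
    have : k' z / a - 1 = (k' z - a) / a := by field_simp
    rw [this, norm_div, div_le_iff₀ (by linarith)]
    have := hlip2 z hz
    linarith
  have hslit : ∀ z : ℂ, ‖z‖ < 201 → k' z / a ∈ Complex.slitPlane := by
    intro z hz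
    left
    have e1 := hratio z hz
    have e2 := (Complex.abs_re_le_norm (k' z / a - 1))
    rw [Complex.sub_re, Complex.one_re] at e2
    have := abs_le.1 (e2.trans e1)
    linarith
  set q : ℂ → ℂ := fun z => k z + Complex.log (k' z / a) with hq
  have hqd : DifferentiableOn ℂ q (ball 0 201) := by
    have hsub : ball (0 : ℂ) 201 ⊆ ball 0 R := ball_subset_ball (by linarith)
    have e1 : DifferentiableOn ℂ k (ball 0 201) := fun z hz =>
      (hk z (hsub hz)).differentiableAt.differentiableWithinAt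
    apply e1.add
    apply DifferentiableOn.clog
    · exact (hk'diff.mono hsub).div_const a
    · intro z hz; exact hslit z (by simpa using hz)
  have hq0 : q 0 = k 0 := by
    simp only [hq]
    rw [← ha, div_self ha0, Complex.log_one, add_zero]
  have hsph : ∀ z ∈ sphere (0 : ℂ) 200, 200 ≤ ‖q z - q 0‖ := by
    intro z hz
    have hz' : ‖z‖ = 200 := by simpa using hz
    have e1 : ‖(k z - a * z) - (k 0 - a * 0)‖ ≤ 1 / 4 * ‖z - 0‖ := by
      apply (convex_ball (0 : ℂ) 201).norm_image_sub_le_of_norm_hasDerivWithin_le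
        (f := fun z => k z - a * z) (f' := fun z => k' z - a)
      · intro w hw
        have hw' : ‖w‖ < 201 := by simpa using hw
        have e1 := hk w (hmem w (by linarith))
        have e2 : HasDerivAt (fun z : ℂ => a * z) a w := by
          simpa using (hasDerivAt_id w).const_mul a
        exact (e1.sub e2).hasDerivWithinAt
      · intro w hw
        exact hlip2 w (by simpa using hw)
      · simp
      · simp [hz']; norm_num
    have e2 : ‖Complex.log (k' z / a)‖ ≤ 1 := by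
      have e3 := hratio z (by linarith)
      have e4 := Complex.norm_log_one_add_half_le_self (z := k' z / a - 1) (by linarith)
      rw [add_sub_cancel] at e4
      linarith
    have e5 : q z - q 0 = a * z + ((k z - a * z) - (k 0 - a * 0)) + Complex.log (k' z / a) := by
      rw [hq0]; simp only [hq]; ring
    have e6 : ‖a * z‖ = ‖a‖ * 200 := by rw [norm_mul, hz']
    have e7 : ‖a * z‖ ≤ ‖q z - q 0‖ + ‖(k z - a * z) - (k 0 - a * 0)‖ +
        ‖Complex.log (k' z / a)‖ := by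
      have : a * z = (q z - q 0) - ((k z - a * z) - (k 0 - a * 0)) - Complex.log (k' z / a) := by
        rw [e5]; ring
      calc ‖a * z‖ = ‖(q z - q 0) - ((k z - a * z) - (k 0 - a * 0)) -
            Complex.log (k' z / a)‖ := congrArg norm this
        _ ≤ _ := (norm_sub_le _ _).trans (add_le_add (norm_sub_le _ _) le_rfl)
    rw [sub_zero, hz'] at e1
    nlinarith
  have hfreq : ∃ᶠ z in 𝓝 (0 : ℂ), q z ≠ q 0 := by
    intro hev
    have hev' : q =ᶠ[𝓝 0] fun _ => q 0 := by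
      filter_upwards [hev] with z hz
      by_contra h; exact hz h
    have han : AnalyticOnNhd ℂ q (ball 0 201) := hqd.analyticOnNhd isOpen_ball
    have := han.eqOn_of_preconnected_of_eventuallyEq analyticOnNhd_const
      (convex_ball (0 : ℂ) 201).isPreconnected (mem_ball_self (by norm_num)) hev'
    have h200 : (200 : ℂ) ∈ ball (0 : ℂ) 201 := by simp; norm_num
    have e1 := this h200
    have e2 := hsph 200 (by simp)
    simp only at e1
    rw [e1, sub_self, norm_zero] at e2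
    linarith
  have hdc : DiffContOnCl ℂ q (ball 0 200) :=
    hqd.diffContOnCl_ball (closedBall_subset_ball (by norm_num))
  have himg := hdc.ball_subset_image_closedBall (by norm_num) hsph hfreq
  set b := deriv g 0 with hb'
  have hb0 : b = a * Complex.exp (k 0) := by
    rw [he 0 (mem_ball_self hR0), ha, hk']
    simp only
    rw [div_mul_cancel₀ _ (h0 0 (mem_ball_self hR0))]
  have hbne : b ≠ 0 := by
    rw [hb0]; exact mul_ne_zero ha0 (Complex.exp_ne_zero _)
  have hlogb : ‖Complex.log b‖ < 100 := by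
    have e1 : ‖Complex.log b‖ ≤ |(Complex.log b).re| + |(Complex.log b).im| :=
      Complex.norm_le_abs_re_add_abs_im _
    rw [Complex.log_re, Complex.log_im] at e1
    have e2 : |Complex.arg b| ≤ Real.pi := Complex.abs_arg_le_pi b
    have e3 : Real.log ‖b‖ = Real.log ‖a‖ + u0 := by
      rw [hb0, norm_mul, Real.log_mul (norm_ne_zero_iff.2 ha0)
        (norm_ne_zero_iff.2 (Complex.exp_ne_zero _)), Complex.norm_exp, Real.log_exp]
    have e4 : 0 ≤ Real.log ‖a‖ := Real.log_nonneg (by linarith)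
    have e5 : Real.log ‖a‖ ≤ 70 := by
      have := Real.log_le_sub_one_of_pos (show 0 < ‖a‖ by linarith)
      linarith
    have e6 : |Real.log ‖b‖| ≤ 85 := by
      rw [e3]
      have := abs_le.1 hu0le
      rw [abs_le]; constructor <;> linarith
    have := Real.pi_lt_four
    linarith
  have hT : k 0 - Complex.log b ∈ ball (q 0) (200 / 2) := by
    rw [mem_ball, dist_eq_norm, hq0]
    have : k 0 - Complex.log b - k 0 = -Complex.log b := by ring
    rw [this, norm_neg]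
    linarith
  obtain ⟨z, hz, hqz⟩ := himg hT
  have hz' : ‖z‖ ≤ 200 := by simpa using hz
  have hzR : z ∈ ball (0 : ℂ) R := hmem z (by linarith)
  apply h1 z hzR
  have e1 : Complex.exp (q z) = g z * (k' z / a) := by
    simp only [hq]
    rw [Complex.exp_add, he z hzR, Complex.exp_log]
    exact Complex.slitPlane_ne_zero (hslit z (by linarith))
  rw [hqz, Complex.exp_sub, Complex.exp_log hbne, hb0] at e1
  have e2 : Complex.exp (k 0) / (a * Complex.exp (k 0)) = 1 / a := by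
    have := Complex.exp_ne_zero (k 0)
    field_simp
  rw [e2] at e1
  have e3 : g z * (k' z / a) = deriv g z / a := by
    simp only [hk']
    have := h0 z hzR
    field_simp
  rw [e3] at e1
  have := div_left_inj' ha0 |>.1 e1
  exact this.symm

theorem hasDerivAt_rescale {f : ℂ → ℂ} {f' a ζ : ℂ} {s : ℂ} (hs : s ≠ 0)
    (h : HasDerivAt f f' (a + s * ζ)) : HasDerivAt (fun ζ : ℂ => f (a + s * ζ) / s) f' ζ := by
  have e1 : HasDerivAt (fun ζ : ℂ => a + s * ζ) s ζ := by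
    simpa using ((hasDerivAt_id ζ).const_mul s).const_add a
  have e2 := (HasDerivAt.comp ζ h e1).div_const s
  refine HasDerivAt.congr_deriv e2 ?_
  field_simp

theorem LG0 (f : ℂ → ℂ) (hd : DifferentiableOn ℂ f (ball 0 2))
    (h0 : ∀ z ∈ ball (0 : ℂ) 2, f z ≠ 0) (h1 : ∀ z ∈ ball (0 : ℂ) 2, deriv f z ≠ 1) :
    ‖deriv f 0‖ ≤ 1 + 10000000 ^ 2 * ‖f 0‖ ^ 2 := by
  by_contra hlt
  push Not at hlt
  have hf0 : 0 < ‖f 0‖ := norm_pos_iff.2 (h0 0 (mem_ball_self (by norm_num)))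
  set Φ : ℂ → ℝ := fun z => (1 - ‖z‖) ^ 2 * (‖deriv f z‖ - 1) / ‖f z‖ ^ 2 with hΦ
  have hsub : closedBall (0 : ℂ) 1 ⊆ ball 0 2 := closedBall_subset_ball (by norm_num)
  have hΦc : ContinuousOn Φ (closedBall 0 1) := by
    apply ContinuousOn.div
    · apply ContinuousOn.mul (by fun_prop)
      exact (((hd.deriv isOpen_ball).continuousOn.mono hsub).norm).sub continuousOn_const
    · exact ((hd.continuousOn.mono hsub).norm).pow 2
    · intro z hz
      exact pow_ne_zero 2 (norm_ne_zero_iff.2 (h0 z (hsub hz)))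
  obtain ⟨a, ha, hmax⟩ := (isCompact_closedBall (0 : ℂ) 1).exists_isMaxOn
    ⟨0, mem_closedBall_self (by norm_num)⟩ hΦc
  set M := Φ a with hM
  have hM0 : 10000000 ^ 2 < M := by
    have e1 : Φ 0 ≤ Φ a := hmax (mem_closedBall_self (by norm_num))
    have e2 : 10000000 ^ 2 < Φ 0 := by
      simp only [hΦ, norm_zero, sub_zero, one_pow, one_mul]
      rw [lt_div_iff₀ (by positivity)]
      linarith
    linarith
  have hMpos : 0 < M := lt_trans (by norm_num) hM0
  have ha1 : ‖a‖ < 1 := by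
    have e1 : ‖a‖ ≤ 1 := by simpa using ha
    rcases lt_or_eq_of_le e1 with h | h
    · exact h
    · exfalso
      have : M = 0 := by rw [hM, hΦ]; simp [h]
      linarith
  set R := Real.sqrt M with hR
  have hR1 : 10000000 ≤ R := by
    rw [hR]; apply Real.le_sqrt_of_sq_le; exact hM0.le
  have hR0 : 0 < R := by linarith
  have hRsq : R ^ 2 = M := Real.sq_sqrt hMpos.le
  set s := (1 - ‖a‖) / R with hs
  have hs0 : 0 < s := div_pos (by linarith) hR0
  have hsR : s * R = 1 - ‖a‖ := by rw [hs]; field_simp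
  have hsc : (s : ℂ) ≠ 0 := by exact_mod_cast hs0.ne'
  have hin : ∀ ζ : ℂ, ‖ζ‖ < R → ‖a + s * ζ‖ < 1 := by
    intro ζ hζ
    calc ‖a + s * ζ‖ ≤ ‖a‖ + ‖(s : ℂ) * ζ‖ := norm_add_le _ _
      _ = ‖a‖ + s * ‖ζ‖ := by rw [norm_mul, Complex.norm_real, Real.norm_of_nonneg hs0.le]
      _ < ‖a‖ + s * R := by gcongr
      _ = 1 := by rw [hsR]; ring
  have hin2 : ∀ ζ : ℂ, ‖ζ‖ < R → a + s * ζ ∈ ball (0 : ℂ) 2 := by
    intro ζ hζ
    rw [mem_ball, dist_zero_right]
    linarith [hin ζ hζ]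
  set g : ℂ → ℂ := fun ζ => f (a + s * ζ) / s with hg
  have hgd : ∀ ζ : ℂ, ‖ζ‖ < R → HasDerivAt g (deriv f (a + s * ζ)) ζ := by
    intro ζ hζ
    exact hasDerivAt_rescale hsc
      (hd.differentiableAt (isOpen_ball.mem_nhds (hin2 ζ hζ))).hasDerivAt
  have hgn : ∀ ζ : ℂ, ‖f (a + s * ζ)‖ = s * ‖g ζ‖ := by
    intro ζ
    simp only [hg]
    rw [norm_div, Complex.norm_real, Real.norm_of_nonneg hs0.le]
    field_simp
  apply lemZ g R hR1
  · intro ζ hζ
    exact (hgd ζ (by simpa using hζ)).differentiableAt.differentiableWithinAt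
  · intro ζ hζ
    exact div_ne_zero (h0 _ (hin2 ζ (by simpa using hζ))) hsc
  · intro ζ hζ
    rw [(hgd ζ (by simpa using hζ)).deriv]
    exact h1 _ (hin2 ζ (by simpa using hζ))
  · have e0 : ‖(0 : ℂ)‖ < R := by simpa using hR0
    rw [(hgd 0 e0).deriv]
    have e1 := hgn 0
    rw [mul_zero, add_zero] at e1 ⊢
    have hfa : 0 < ‖f a‖ := norm_pos_iff.2 (h0 a (hsub ha))
    have e2 : M * ‖f a‖ ^ 2 = (1 - ‖a‖) ^ 2 * (‖deriv f a‖ - 1) := by
      rw [hM, hΦ]; simp only
      field_simp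
    rw [← hRsq, e1] at e2
    have e3 : (R * s) ^ 2 * ‖g 0‖ ^ 2 = (1 - ‖a‖) ^ 2 * (‖deriv f a‖ - 1) := by
      rw [← e2]; ring
    rw [mul_comm R s, hsR] at e3
    have e4 : (1 - ‖a‖) ^ 2 ≠ 0 := pow_ne_zero 2 (by linarith)
    have := mul_left_cancel₀ e4 e3
    linarith
  · intro ζ hζ
    rw [(hgd ζ (by linarith)).deriv]
    set z := a + s * ζ with hz
    have hz1 : ‖z‖ < 1 := hin ζ (by linarith)
    have hzc : z ∈ closedBall (0 : ℂ) 1 := by
      rw [mem_closedBall, dist_zero_right]; exact hz1.le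
    have e1 : Φ z ≤ M := hmax hzc
    have hfz : 0 < ‖f z‖ := norm_pos_iff.2 (h0 z (hsub hzc))
    simp only [hΦ] at e1
    rw [div_le_iff₀ (by positivity), ← hRsq, hgn ζ] at e1
    have e2 : (1 - ‖a‖) / 2 ≤ 1 - ‖z‖ := by
      have e3 : ‖z‖ ≤ ‖a‖ + s * ‖ζ‖ := by
        calc ‖z‖ ≤ ‖a‖ + ‖(s : ℂ) * ζ‖ := norm_add_le _ _
          _ = ‖a‖ + s * ‖ζ‖ := by rw [norm_mul, Complex.norm_real, Real.norm_of_nonneg hs0.le]
      have e4 : s * ‖ζ‖ ≤ s * (R / 2) := by gcongr
      have e5 : s * (R / 2) = (1 - ‖a‖) / 2 := by rw [← hsR]; ring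
      linarith
    rcases le_or_gt ‖deriv f z‖ 1 with h | h
    · have : 0 ≤ 4 * ‖g ζ‖ ^ 2 := by positivity
      linarith
    · have e6 : ((1 - ‖a‖) / 2) ^ 2 * (‖deriv f z‖ - 1) ≤ (1 - ‖z‖) ^ 2 * (‖deriv f z‖ - 1) := by
        apply mul_le_mul_of_nonneg_right _ (by linarith)
        apply pow_le_pow_left₀ (by linarith) e2
      have e7 : R ^ 2 * (s * ‖g ζ‖) ^ 2 = (1 - ‖a‖) ^ 2 * ‖g ζ‖ ^ 2 := by
        rw [← hsR]; ring
      rw [e7] at e1
      have e8 : (1 - ‖a‖) ^ 2 * (‖deriv f z‖ - 1) ≤ (1 - ‖a‖) ^ 2 * (4 * ‖g ζ‖ ^ 2) := by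
        nlinarith
      have e9 : 0 < (1 - ‖a‖) ^ 2 := by
        apply pow_pos; linarith
      have := le_of_mul_le_mul_left e8 e9
      linarith

/-- rescaled version -/
theorem LG1 (f : ℂ → ℂ) (c : ℂ) (ρ : ℝ) (hρ : 0 < ρ) (hd : DifferentiableOn ℂ f (ball c ρ))
    (h0 : ∀ z ∈ ball c ρ, f z ≠ 0) (h1 : ∀ z ∈ ball c ρ, deriv f z ≠ 1) :
    ‖deriv f c‖ ≤ 1 + 10000000 ^ 2 * (2 * ‖f c‖ / ρ) ^ 2 := by
  set s := ρ / 2 with hs
  have hs0 : 0 < s := by positivity
  have hsc : (s : ℂ) ≠ 0 := by exact_mod_cast hs0.ne'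
  have hin : ∀ ζ ∈ ball (0 : ℂ) 2, c + s * ζ ∈ ball c ρ := by
    intro ζ hζ
    rw [mem_ball, dist_zero_right] at hζ
    rw [mem_ball, dist_eq_norm, add_sub_cancel_left, norm_mul, Complex.norm_real,
      Real.norm_of_nonneg hs0.le]
    calc s * ‖ζ‖ < s * 2 := by gcongr
      _ = ρ := by rw [hs]; ring
  have hgd : ∀ ζ ∈ ball (0 : ℂ) 2,
      HasDerivAt (fun ζ : ℂ => f (c + s * ζ) / s) (deriv f (c + s * ζ)) ζ := by
    intro ζ hζ
    exact hasDerivAt_rescale hsc
      (hd.differentiableAt (isOpen_ball.mem_nhds (hin ζ hζ))).hasDerivAt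
  have := LG0 (fun ζ : ℂ => f (c + s * ζ) / s)
    (fun ζ hζ => (hgd ζ hζ).differentiableAt.differentiableWithinAt)
    (fun ζ hζ => div_ne_zero (h0 _ (hin ζ hζ)) hsc)
    (fun ζ hζ => by rw [(hgd ζ hζ).deriv]; exact h1 _ (hin ζ hζ))
  rw [(hgd 0 (mem_ball_self (by norm_num))).deriv, mul_zero, add_zero, norm_div,
    Complex.norm_real, Real.norm_of_nonneg hs0.le] at this
  calc ‖deriv f c‖ ≤ 1 + 10000000 ^ 2 * (‖f c‖ / s) ^ 2 := this
    _ = 1 + 10000000 ^ 2 * (2 * ‖f c‖ / ρ) ^ 2 := by rw [hs]; field_simp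

/-- Miranda's gradient bound: the constant -/
noncomputable def C0 : ℝ := 4 * (3 * (1 + 10000000 ^ 2 * 144))

theorem C0_ge : 8 ≤ C0 := by unfold C0; norm_num

/-- Miranda's gradient bound on the unit disc -/
theorem MG0 (f : ℂ → ℂ) (hd : DifferentiableOn ℂ f (ball 0 1))
    (h0 : ∀ z ∈ ball (0 : ℂ) 1, f z ≠ 0) (h1 : ∀ z ∈ ball (0 : ℂ) 1, deriv f z ≠ 1) :
    ‖deriv f 0‖ ≤ ‖f 0‖ * (C0 * (1 + |Real.log ‖f 0‖|)) := by
  obtain ⟨k, hk, he⟩ := exists_log hd h0
  set B : ℝ := 3 * (1 + 10000000 ^ 2 * 144) with hB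
  have hB0 : 0 ≤ B := by rw [hB]; norm_num
  have key := lemH (k := k) (k' := fun z => deriv f z / f z) (c := 0) (ρ := 1 / 2) (B := B)
    (by norm_num) (fun z hz => hk z (ball_subset_ball (by norm_num) hz)) (by
      intro z hz habs
      have hz' : ‖z‖ < 1 / 2 := by simpa using hz
      have hsub : ball z (1 / 2) ⊆ ball (0 : ℂ) 1 := by
        intro w hw
        rw [mem_ball, dist_eq_norm] at hw
        rw [mem_ball, dist_zero_right]
        have : ‖w‖ ≤ ‖w - z‖ + ‖z‖ := by simpa using norm_add_le (w - z) z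
        linarith
      have hzb : z ∈ ball (0 : ℂ) 1 := ball_subset_ball (by norm_num) hz
      have e1 := LG1 f z (1 / 2) (by norm_num) (hd.mono hsub) (fun w hw => h0 w (hsub hw))
        (fun w hw => h1 w (hsub hw))
      have hexp1 : Real.exp 1 < 3 := by linarith [Real.exp_one_lt_d9]
      have e2 := abs_le.1 habs
      have e3 : ‖f z‖ = Real.exp (k z).re := by rw [← he z hzb, Complex.norm_exp]
      have e4 : ‖f z‖ ≤ 3 := by
        rw [e3]
        have : Real.exp (k z).re ≤ Real.exp 1 := Real.exp_le_exp.2 (by linarith)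
        linarith
      have e5 : 1 ≤ 3 * ‖f z‖ := by
        rw [e3]
        have e6 : Real.exp (-1) ≤ Real.exp (k z).re := Real.exp_le_exp.2 (by linarith)
        have e7 : Real.exp (-1) * Real.exp 1 = 1 := by rw [← Real.exp_add]; simp
        have e8 := Real.exp_pos (-1)
        nlinarith
      rw [norm_div, div_le_iff₀ (by linarith)]
      have e9 : (2 * ‖f z‖ / (1 / 2)) ^ 2 ≤ 144 := by
        have : 2 * ‖f z‖ / (1 / 2) = 4 * ‖f z‖ := by ring
        rw [this]
        nlinarith [norm_nonneg (f z)]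
      rw [hB]
      nlinarith) hB0
  have hz0 : (0 : ℂ) ∈ ball (0 : ℂ) 1 := mem_ball_self one_pos
  rw [norm_div, ← log_norm_of_exp (he 0 hz0)] at key
  have hf0 : 0 < ‖f 0‖ := norm_pos_iff.2 (h0 0 hz0)
  rw [div_le_iff₀ hf0] at key
  have e1 : 4 * B + 4 / (1 / 2) * |Real.log ‖f 0‖| ≤ C0 * (1 + |Real.log ‖f 0‖|) := by
    have e2 := C0_ge
    have e3 : C0 = 4 * B := rfl
    have e4 := abs_nonneg (Real.log ‖f 0‖)
    nlinarith
  calc ‖deriv f 0‖ ≤ (4 * B + 4 / (1 / 2) * |Real.log ‖f 0‖|) * ‖f 0‖ := key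
    _ ≤ (C0 * (1 + |Real.log ‖f 0‖|)) * ‖f 0‖ := by gcongr
    _ = _ := by ring

/-- Miranda's gradient bound -/
theorem MG (f : ℂ → ℂ) (c : ℂ) (ρ : ℝ) (hρ : 0 < ρ) (hd : DifferentiableOn ℂ f (ball c ρ))
    (h0 : ∀ z ∈ ball c ρ, f z ≠ 0) (h1 : ∀ z ∈ ball c ρ, deriv f z ≠ 1) :
    ‖deriv f c‖ ≤ ‖f c‖ / ρ * (C0 * (1 + |Real.log (‖f c‖ / ρ)|)) := by
  have hsc : (ρ : ℂ) ≠ 0 := by exact_mod_cast hρ.ne'
  have hin : ∀ ζ ∈ ball (0 : ℂ) 1, c + ρ * ζ ∈ ball c ρ := by
    intro ζ hζ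
    rw [mem_ball, dist_zero_right] at hζ
    rw [mem_ball, dist_eq_norm, add_sub_cancel_left, norm_mul, Complex.norm_real,
      Real.norm_of_nonneg hρ.le]
    nlinarith
  have hgd : ∀ ζ ∈ ball (0 : ℂ) 1,
      HasDerivAt (fun ζ : ℂ => f (c + ρ * ζ) / ρ) (deriv f (c + ρ * ζ)) ζ := by
    intro ζ hζ
    exact hasDerivAt_rescale hsc
      (hd.differentiableAt (isOpen_ball.mem_nhds (hin ζ hζ))).hasDerivAt
  have := MG0 (fun ζ : ℂ => f (c + ρ * ζ) / ρ)
    (fun ζ hζ => (hgd ζ hζ).differentiableAt.differentiableWithinAt)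
    (fun ζ hζ => div_ne_zero (h0 _ (hin ζ hζ)) hsc)
    (fun ζ hζ => by rw [(hgd ζ hζ).deriv]; exact h1 _ (hin ζ hζ))
  rw [(hgd 0 (mem_ball_self (by norm_num))).deriv, mul_zero, add_zero, norm_div,
    Complex.norm_real, Real.norm_of_nonneg hρ.le] at this
  exact this

end Pool.Agent.SS
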