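import Pool.Agent.Lib52.SS.Basic

set_option autoImplicit false

open Set Metric Filter
open scoped Topology

namespace Pool.Agent.SS

/-- gradient transfer, one-sided version -/
theorem lemH_pos {k k' : ℂ → ℂ} {c : ℂ} {ρ B : ℝ} (hρ : 0 < ρ) (hB : 0 ≤ B)
    (hk : ∀ z ∈ ball c ρ, HasDerivAt k (k' z) z)
    (hb : ∀ z ∈ ball c ρ, (k z).re = 1 → ‖k' z‖ ≤ B) (h1 : 1 < (k c).re) :
    ‖k' c‖ ≤ 4 * B + 4 / ρ * (k c).re := by
  have hρ2 : 0 < ρ / 2 := by positivity
  have hc : c ∈ ball c ρ := mem_ball_self hρ
  set Z : Set ℂ := closedBall c (ρ / 2) ∩ {z | (k z).re ≤ 1} with hZ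
  have hcont : ContinuousOn k (ball c ρ) := fun z hz =>
    (hk z hz).continuousAt.continuousWithinAt
  have hsub : closedBall c (ρ / 2) ⊆ ball c ρ := closedBall_subset_ball (by linarith)
  have hcre : ContinuousOn (fun z => (k z).re) (closedBall c (ρ / 2)) :=
    Complex.continuous_re.comp_continuousOn (hcont.mono hsub)
  have hZc : IsCompact Z := by
    have hcl : IsClosed Z := by
      have : Z = closedBall c (ρ / 2) ∩ (fun z => (k z).re) ⁻¹' Iic 1 := rfl
      rw [this]
      exact hcre.preimage_isClosed_of_isClosed isClosed_closedBall isClosed_Iic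
    exact (isCompact_closedBall c (ρ / 2)).of_isClosed_subset hcl inter_subset_left
  have main : ∀ r : ℝ, 0 < r → r ≤ ρ / 2 → (∀ z ∈ ball c r, 1 ≤ (k z).re) →
      ‖k' c‖ ≤ 2 * ((k c).re - 1) / r := by
    intro r hr hr2 hge
    have hd : DifferentiableOn ℂ (fun z => k z - 1) (ball c r) := fun z hz =>
      ((hk z (ball_subset_ball (by linarith) hz)).sub_const 1).differentiableAt.differentiableWithinAt
    have := deriv_le (h := fun z => k z - 1) hr hd (fun z hz => by
      have := hge z hz
      simp only [Complex.sub_re, Complex.one_re]; linarith)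
    rw [((hk c hc).sub_const 1).deriv] at this
    simpa using this
  rcases Z.eq_empty_or_nonempty with hE | hne
  · have := main (ρ / 2) hρ2 le_rfl (fun z hz => by
      by_contra hlt
      push Not at hlt
      have : z ∈ Z := ⟨ball_subset_closedBall hz, hlt.le⟩
      rw [hE] at this; exact this)
    calc ‖k' c‖ ≤ 2 * ((k c).re - 1) / (ρ / 2) := this
      _ = 4 / ρ * ((k c).re - 1) := by field_simp; ring
      _ ≤ 4 / ρ * (k c).re := by gcongr; linarith
      _ ≤ 4 * B + 4 / ρ * (k c).re := by linarith
  · obtain ⟨w, hw, hmin⟩ := hZc.exists_isMinOn hne (f := fun z => dist z c) (by fun_prop)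
    set r := dist w c with hr
    have hwc : w ≠ c := by
      rintro rfl
      have := hw.2
      simp only [mem_ofPred_eq] at this
      linarith
    have hr0 : 0 < r := dist_pos.2 hwc
    have hr2 : r ≤ ρ / 2 := mem_closedBall.1 hw.1
    have hge : ∀ z ∈ ball c r, 1 < (k z).re := by
      intro z hz
      by_contra hlt
      push Not at hlt
      have hzr : dist z c < r := hz
      have : z ∈ Z := ⟨by rw [mem_closedBall]; linarith, hlt⟩
      have := hmin this
      simp only [mem_ofPred_eq] at this
      linarith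
    have hwb : w ∈ ball c ρ := hsub hw.1
    -- the path
    have hpath : ∀ t : ℝ, 0 ≤ t → t < 1 → c + t * (w - c) ∈ ball c r := by
      intro t ht0 ht1
      rw [mem_ball, dist_eq_norm, add_sub_cancel_left, norm_mul, Complex.norm_real,
        Real.norm_of_nonneg ht0, ← dist_eq_norm, ← hr]
      nlinarith
    set φ : ℝ → ℝ := fun t => (k (c + t * (w - c))).re with hφ
    have hφd : HasDerivAt φ ((k' w) * (w - c)).re 1 := by
      have e1 : HasDerivAt (fun t : ℝ => c + (t : ℂ) * (w - c)) (w - c) 1 := by
        have := ((Complex.ofRealCLM.hasDerivAt (x := (1 : ℝ))).mul_const (w - c)).const_add c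
        simpa using this
      have e2 : HasDerivAt k (k' w) ((fun t : ℝ => c + (t : ℂ) * (w - c)) 1) := by
        have : (fun t : ℝ => c + (t : ℂ) * (w - c)) 1 = w := by simp
        rw [this]; exact hk w hwb
      have e3 := HasDerivAt.comp_of_eq (1 : ℝ) e2 e1 rfl
      exact (Complex.reCLM.hasFDerivAt.comp_hasDerivAt (1 : ℝ) e3)
    have hφ1 : φ 1 ≤ 1 := by
      have : c + ((1 : ℝ) : ℂ) * (w - c) = w := by push_cast; ring
      simp only [hφ, this]; exact hw.2
    have hφc : Tendsto φ (𝓝[<] 1) (𝓝 (φ 1)) :=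
      hφd.continuousAt.tendsto.mono_left nhdsWithin_le_nhds
    have hφ1' : 1 ≤ φ 1 := by
      apply ge_of_tendsto hφc
      filter_upwards [Ioo_mem_nhdsLT (show (0 : ℝ) < 1 by norm_num)] with t ht
      exact (hge _ (hpath t ht.1.le ht.2)).le
    have hφ1e : φ 1 = 1 := le_antisymm hφ1 hφ1'
    have hkw : (k w).re = 1 := by
      have : c + ((1 : ℝ) : ℂ) * (w - c) = w := by push_cast; ring
      rw [← hφ1e, hφ]; simp only [this]
    have hslope : ((k' w) * (w - c)).re ≤ -(((k c).re - 1) / 2) := by
      have ht := hφd.tendsto_slope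
      have ht2 : Tendsto (slope φ 1) (𝓝[<] 1) (𝓝 ((k' w) * (w - c)).re) :=
        ht.mono_left (nhdsWithin_mono _ (fun x hx => ne_of_lt hx))
      apply le_of_tendsto ht2
      filter_upwards [Ioo_mem_nhdsLT (show (0 : ℝ) < 1 by norm_num)] with t ht
      -- Harnack
      have hd : DifferentiableOn ℂ (fun z => k z - 1) (ball c r) := fun z hz =>
        ((hk z (ball_subset_ball (by linarith) hz)).sub_const
          1).differentiableAt.differentiableWithinAt
      have hh := harnack (h := fun z => k z - 1) hd (fun z hz => by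
        have := hge z hz
        simp only [Complex.sub_re, Complex.one_re]; linarith) (hpath t ht.1.le ht.2)
      simp only [Complex.sub_re, Complex.one_re] at hh
      have hnorm : ‖c + (t : ℂ) * (w - c) - c‖ = t * r := by
        rw [add_sub_cancel_left, norm_mul, Complex.norm_real, Real.norm_of_nonneg ht.1.le,
          ← dist_eq_norm]
      rw [hnorm] at hh
      have hfrac : (1 - t) / 2 ≤ (r - t * r) / (r + t * r) := by
        have : (r - t * r) / (r + t * r) = (1 - t) / (1 + t) := by
          have h1t : (1 + t) ≠ 0 := by linarith [ht.1]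
          field_simp
        rw [this]
        apply div_le_div_of_nonneg_left <;> linarith [ht.1, ht.2]
      have h5 : (1 - t) / 2 * ((k c).re - 1) ≤ φ t - 1 := by
        calc (1 - t) / 2 * ((k c).re - 1) ≤ (r - t * r) / (r + t * r) * ((k c).re - 1) := by
              apply mul_le_mul_of_nonneg_right hfrac; linarith
          _ ≤ φ t - 1 := hh
      rw [slope_def_field, hφ1e]
      have ht1 : t - 1 < 0 := by linarith [ht.2]
      rw [div_le_iff_of_neg ht1]
      nlinarith
    have hnw : ((k c).re - 1) / 2 ≤ B * r := by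
      have e1 : |((k' w) * (w - c)).re| ≤ ‖k' w‖ * r := by
        calc |((k' w) * (w - c)).re| ≤ ‖(k' w) * (w - c)‖ := Complex.abs_re_le_norm _
          _ = ‖k' w‖ * r := by rw [norm_mul, ← dist_eq_norm]
      have e2 : ‖k' w‖ * r ≤ B * r := by
        gcongr; exact hb w hwb hkw
      have e3 := neg_abs_le ((k' w) * (w - c)).re
      linarith
    have h6 := main r hr0 hr2 (fun z hz => (hge z hz).le)
    have h7 : 2 * ((k c).re - 1) / r ≤ 4 * B := by
      rw [div_le_iff₀ hr0]; linarith
    have h8 : 0 ≤ 4 / ρ * (k c).re := by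
      have : 0 < (k c).re := by linarith
      positivity
    linarith

/-- gradient transfer -/
theorem lemH {k k' : ℂ → ℂ} {c : ℂ} {ρ B : ℝ} (hρ : 0 < ρ)
    (hk : ∀ z ∈ ball c ρ, HasDerivAt k (k' z) z)
    (hb : ∀ z ∈ ball c ρ, |(k z).re| ≤ 1 → ‖k' z‖ ≤ B) (hB : 0 ≤ B) :
    ‖k' c‖ ≤ 4 * B + 4 / ρ * |(k c).re| := by
  have hc : c ∈ ball c ρ := mem_ball_self hρ
  rcases le_or_gt |(k c).re| 1 with h1 | h1
  · have := hb c hc h1
    have h2 : 0 ≤ 4 / ρ * |(k c).re| := by positivity
    linarith
  · rcases lt_abs.1 h1 with h2 | h2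
    · have := lemH_pos hρ hB hk (fun z hz h => hb z hz (by rw [h]; simp)) h2
      rwa [abs_of_pos (by linarith)]
    · have := lemH_pos (k := fun z => -k z) (k' := fun z => -k' z) hρ hB
        (fun z hz => (hk z hz).neg) (fun z hz h => by
          rw [norm_neg]
          apply hb z hz
          simp only [Complex.neg_re] at h
          rw [abs_of_neg (by linarith)]; linarith) (by simpa using h2)
      simp only [norm_neg, Complex.neg_re] at this
      rwa [abs_of_neg (by linarith)]

end Pool.Agent.SS
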