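import Pool.Agent.Lib52.SS.Land

set_option autoImplicit false

open Set Metric Filter
open scoped Topology

namespace Pool.Agent.SS

/-- `NN x = log √(1+x²)` -/
noncomputable def NN (x : ℝ) : ℝ := Real.log (1 + x ^ 2) / 2

noncomputable def C2 : ℝ := 2 * (C0 + 1)

theorem C2_pos : 0 < C2 := by unfold C2; linarith [C0_ge]

theorem NN_zero : NN 0 = 0 := by simp [NN]

theorem exp_NN_sq (x : ℝ) : Real.exp (NN x) ^ 2 = 1 + x ^ 2 := by
  rw [NN, ← Real.exp_nat_mul]
  push_cast
  rw [mul_div_cancel₀ _ (two_ne_zero), Real.exp_log (by positivity)]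

theorem abs_le_exp_NN (x : ℝ) : |x| ≤ Real.exp (NN x) := by
  apply abs_le_of_sq_le_sq _ (Real.exp_pos _).le
  rw [exp_NN_sq]; linarith

theorem exp_NN_le (x : ℝ) : Real.exp (NN x) ≤ 1 + |x| := by
  apply le_of_sq_le_sq _ (by positivity)
  rw [exp_NN_sq, add_sq, sq_abs]
  have := abs_nonneg x
  linarith

theorem NN_nonneg (x : ℝ) : 0 ≤ NN x := by
  unfold NN
  have : 0 ≤ Real.log (1 + x ^ 2) := Real.log_nonneg (by nlinarith [sq_nonneg x])
  linarith

theorem log_le_NN {x : ℝ} (hx : 0 < x) : Real.log x ≤ NN x := by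
  rw [← Real.log_exp (NN x)]
  apply Real.log_le_log hx
  exact (le_abs_self x).trans (abs_le_exp_NN x)

theorem NN_hasDerivAt {W : ℝ → ℝ} {W' t : ℝ} (h : HasDerivAt W W' t) :
    HasDerivAt (fun t => NN (W t)) (W t * W' / (1 + W t ^ 2)) t := by
  have h1 : HasDerivAt (fun t => 1 + W t ^ 2) (2 * W t * W') t := by
    have := (h.fun_pow 2).const_add 1
    refine HasDerivAt.congr_deriv this ?_
    push_cast; ring
  have h2 := (h1.log (by positivity)).div_const 2
  refine HasDerivAt.congr_deriv h2 ?_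
  field_simp

section lip

variable {W W' M m : ℝ → ℝ} {r : ℝ}

theorem N_aux (_hW : ∀ t ∈ Icc 0 r, HasDerivAt W (W' t) t)
    (hm : ∀ t ∈ Icc 0 r, 0 ≤ m t)
    (hb : ∀ t ∈ Icc 0 r, |W' t| ≤ (C0 * (1 + |W t|) + 1) * m t) (t : ℝ) (ht : t ∈ Icc 0 r) :
    |W t * W' t / (1 + W t ^ 2)| ≤ C2 * m t := by
  have h1 := hb t ht
  have h2 := hm t ht
  have hC := C0_ge
  set x := |W t| with hx
  have hx0 : 0 ≤ x := abs_nonneg _
  have hx2 : W t ^ 2 = x ^ 2 := (sq_abs _).symm
  rw [abs_div, abs_mul, ← hx, hx2, abs_of_pos (by positivity : 0 < 1 + x ^ 2),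
    div_le_iff₀ (by positivity)]
  calc x * |W' t| ≤ x * ((C0 * (1 + x) + 1) * m t) := by gcongr
    _ ≤ C2 * m t * (1 + x ^ 2) := by
        have : x * (C0 * (1 + x) + 1) ≤ C2 * (1 + x ^ 2) := by
          unfold C2; nlinarith [sq_nonneg (x - 1)]
        calc x * ((C0 * (1 + x) + 1) * m t) = (x * (C0 * (1 + x) + 1)) * m t := by ring
          _ ≤ (C2 * (1 + x ^ 2)) * m t := by gcongr
          _ = _ := by ring

theorem N_lip (hr : 0 ≤ r) (hW : ∀ t ∈ Icc 0 r, HasDerivAt W (W' t) t)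
    (hM : ∀ t ∈ Icc 0 r, HasDerivAt M (m t) t) (hm : ∀ t ∈ Icc 0 r, 0 ≤ m t)
    (hb : ∀ t ∈ Icc 0 r, |W' t| ≤ (C0 * (1 + |W t|) + 1) * m t) :
    |NN (W r) - NN (W 0)| ≤ C2 * (M r - M 0) := by
  have haux := N_aux hW hm hb
  have h0 : (0 : ℝ) ∈ Icc 0 r := ⟨le_rfl, hr⟩
  have hr' : r ∈ Icc 0 r := ⟨hr, le_rfl⟩
  have hcont : ContinuousOn (fun t => NN (W t)) (Icc 0 r) := fun t ht =>
    (NN_hasDerivAt (hW t ht)).continuousAt.continuousWithinAt
  have hcontM : ContinuousOn M (Icc 0 r) := fun t ht =>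
    (hM t ht).continuousAt.continuousWithinAt
  have hmono : MonotoneOn (fun t => C2 * M t + NN (W t)) (Icc 0 r) := by
    apply monotoneOn_of_hasDerivWithinAt_nonneg (convex_Icc 0 r)
      (f' := fun t => C2 * m t + W t * W' t / (1 + W t ^ 2))
    · exact (continuousOn_const.mul hcontM).add hcont
    · intro t ht
      rw [interior_Icc] at ht
      have ht' := Ioo_subset_Icc_self ht
      exact (((hM t ht').const_mul C2).add (NN_hasDerivAt (hW t ht'))).hasDerivWithinAt
    · intro t ht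
      rw [interior_Icc] at ht
      have := abs_le.1 (haux t (Ioo_subset_Icc_self ht))
      linarith
  have hanti : MonotoneOn (fun t => C2 * M t - NN (W t)) (Icc 0 r) := by
    apply monotoneOn_of_hasDerivWithinAt_nonneg (convex_Icc 0 r)
      (f' := fun t => C2 * m t - W t * W' t / (1 + W t ^ 2))
    · exact (continuousOn_const.mul hcontM).sub hcont
    · intro t ht
      rw [interior_Icc] at ht
      have ht' := Ioo_subset_Icc_self ht
      exact (((hM t ht').const_mul C2).sub (NN_hasDerivAt (hW t ht'))).hasDerivWithinAt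
    · intro t ht
      rw [interior_Icc] at ht
      have := abs_le.1 (haux t (Ioo_subset_Icc_self ht))
      linarith
  have e1 := hmono h0 hr' hr
  have e2 := hanti h0 hr' hr
  simp only at e1 e2
  rw [abs_le]
  constructor <;> linarith

theorem N_pos (hr : 0 ≤ r) (hW : ∀ t ∈ Icc 0 r, HasDerivAt W (W' t) t)
    (hM : ∀ t ∈ Icc 0 r, HasDerivAt M (m t) t) (hm : ∀ t ∈ Icc 0 r, 0 ≤ m t)
    (hb : ∀ t ∈ Icc 0 r, |W' t| ≤ (C0 * (1 + |W t|) + 1) * m t)
    (h0 : 0 < W 0) (hlt : C2 * (M r - M 0) < NN (W 0)) : 0 < W r := by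
  by_contra hle
  push Not at hle
  have hcontW : ContinuousOn W (Icc 0 r) := fun t ht =>
    (hW t ht).continuousAt.continuousWithinAt
  obtain ⟨t, ht, ht0⟩ := intermediate_value_Icc' hr hcontW ⟨hle, h0.le⟩
  have hsub : Icc 0 t ⊆ Icc 0 r := Icc_subset_Icc_right ht.2
  have e1 := N_lip (M := M) (m := m) ht.1 (fun s hs => hW s (hsub hs)) (fun s hs => hM s (hsub hs))
    (fun s hs => hm s (hsub hs)) (fun s hs => hb s (hsub hs))
  rw [ht0, NN_zero, zero_sub, abs_neg, abs_of_nonneg (NN_nonneg _)] at e1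
  have hcontM : ContinuousOn M (Icc 0 r) := fun t ht =>
    (hM t ht).continuousAt.continuousWithinAt
  have hMmono : MonotoneOn M (Icc 0 r) := by
    apply monotoneOn_of_hasDerivWithinAt_nonneg (convex_Icc 0 r) (f' := m) hcontM
    · intro t ht
      rw [interior_Icc] at ht
      exact (hM t (Ioo_subset_Icc_self ht)).hasDerivWithinAt
    · intro t ht
      rw [interior_Icc] at ht
      exact hm t (Ioo_subset_Icc_self ht)
  have e2 := hMmono ht ⟨hr, le_rfl⟩ ht.2
  have := C2_pos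
  nlinarith

end lip

theorem hasDerivAt_log_norm {F : ℝ → ℂ} {F' : ℂ} {t : ℝ} (h : HasDerivAt F F' t)
    (h0 : F t ≠ 0) : HasDerivAt (fun s => Real.log ‖F s‖) (F' / F t).re t := by
  have e1 : HasDerivAt (fun s => Complex.log (F s / F t)) (F' / F t) t := by
    have e2 : HasDerivAt (fun s => F s / F t) (F' / F t) t := h.div_const _
    have e3 := e2.clog_real (by rw [div_self h0]; exact Complex.one_mem_slitPlane)
    rw [div_self h0, div_one] at e3
    exact e3
  have e4 : HasDerivAt (fun s => (Complex.log (F s / F t)).re + Real.log ‖F t‖) (F' / F t).re t := by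
    exact (Complex.reCLM.hasFDerivAt.comp_hasDerivAt t e1).add_const _
  refine e4.congr_of_eventuallyEq ?_
  have hev : ∀ᶠ s in 𝓝 t, F s ≠ 0 := h.continuousAt.eventually_ne h0
  filter_upwards [hev] with s hs
  rw [Complex.log_re, norm_div, Real.log_div (norm_ne_zero_iff.2 hs) (norm_ne_zero_iff.2 h0)]
  ring

end Pool.Agent.SS
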