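import Pool.Agent.Lib52.SS.JB

set_option autoImplicit false

open Set Metric Filter
open scoped Topology ComplexConjugate

namespace Pool.Agent.SS

/-- constants of the pointwise bound -/
noncomputable def PA : ℝ := 2 * C0 * (1 + Real.exp C2)

noncomputable def PA1 : ℝ := Real.log (PA + 2) + Real.exp C2 + 1

theorem PA_pos : 0 < PA := by
  have := C0_ge
  unfold PA
  positivity

theorem PA1_pos : 0 < PA1 := by
  have := PA_pos
  unfold PA1
  have : 0 ≤ Real.log (PA + 2) := Real.log_nonneg (by linarith)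
  positivity

section pb

variable {f : ℂ → ℂ}

theorem YD_ball {z z' : ℂ} (hz : z ∈ ball (0 : ℂ) 1) (h : z' ∈ ball z (YD z / 2)) :
    z' ∈ ball (0 : ℂ) 1 ∧ YD z / 2 ≤ YD z' := by
  have hY := YD_pos hz
  have h1 : z' ∈ ball (0 : ℂ) 1 := ball_sub_D hz (ρ := YD z / 2) (by linarith) h
  refine ⟨h1, ?_⟩
  have h2 := mem_D.1 h1
  have h3 := mem_D.1 hz
  rw [mem_ball, dist_eq_norm] at h
  have h4 : ‖z'‖ - ‖z‖ ≤ ‖z' - z‖ := norm_sub_norm_le _ _
  have e1 : YD z' = YD z - (‖z'‖ - ‖z‖) * (‖z'‖ + ‖z‖) / 2 := by unfold YD; ring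
  rw [e1]
  have h5 : (‖z'‖ - ‖z‖) * (‖z'‖ + ‖z‖) ≤ (YD z / 2) * 2 := by
    rcases le_total (‖z'‖ - ‖z‖) 0 with h6 | h6
    · have h7 := norm_nonneg z
      have h8 := norm_nonneg z'
      nlinarith
    · have h7 := norm_nonneg z
      have h8 := norm_nonneg z'
      nlinarith
  linarith

theorem ClsD.V_ball (hf : ClsD f) {z z' : ℂ} (hz : z ∈ ball (0 : ℂ) 1)
    (h : z' ∈ ball z (YD z / 2)) : |VD f z'| ≤ Real.exp C2 * (1 + |VD f z|) := by
  have hY := YD_pos hz
  obtain ⟨h1, h2⟩ := YD_ball hz h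
  have hC2 := C2_pos
  have h3 := hf.seg_N hz h1
  rw [mem_ball, dist_eq_norm] at h
  have h4 : ‖z' - z‖ / min (YD z) (YD z') ≤ 1 := by
    have hm : YD z / 2 ≤ min (YD z) (YD z') := le_min (by linarith) h2
    rw [div_le_one (by linarith)]
    linarith
  have h5 : NN (VD f z') ≤ NN (VD f z) + C2 := by
    have e1 := (abs_le.1 h3).2
    have e2 : C2 * (‖z' - z‖ / min (YD z) (YD z')) ≤ C2 * 1 := by gcongr
    linarith
  calc |VD f z'| ≤ Real.exp (NN (VD f z')) := abs_le_exp_NN _
    _ ≤ Real.exp (NN (VD f z) + C2) := Real.exp_le_exp.2 h5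
    _ = Real.exp C2 * Real.exp (NN (VD f z)) := by rw [Real.exp_add]; ring
    _ ≤ _ := by
        gcongr
        exact exp_NN_le _

/-- bound for the logarithmic derivative on the half ball -/
theorem ClsD.h_ball (hf : ClsD f) {z z' : ℂ} (hz : z ∈ ball (0 : ℂ) 1)
    (h : z' ∈ ball z (YD z / 2)) : ‖deriv f z' / f z'‖ ≤ PA * (1 + |VD f z|) / YD z := by
  have hY := YD_pos hz
  obtain ⟨h1, h2⟩ := YD_ball hz h
  have h3 := hf.kap_le h1
  have h4 := hf.V_ball hz h
  have h5 := hf.norm_pos h1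
  have hC := C0_ge
  have h6 : YD z' * ‖deriv f z' / f z'‖ ≤ C0 * (1 + Real.exp C2 * (1 + |VD f z|)) := by
    rw [norm_div, mul_div_assoc']
    refine h3.trans ?_
    gcongr
  have hV := abs_nonneg (VD f z)
  have he := Real.exp_pos C2
  rw [le_div_iff₀ hY]
  have h7 : YD z / 2 * ‖deriv f z' / f z'‖ ≤ YD z' * ‖deriv f z' / f z'‖ := by gcongr
  have h8 : C0 * (1 + Real.exp C2 * (1 + |VD f z|)) ≤
      C0 * ((1 + Real.exp C2) * (1 + |VD f z|)) := by
    gcongr
    nlinarith
  have h9 : PA * (1 + |VD f z|) = 2 * (C0 * ((1 + Real.exp C2) * (1 + |VD f z|))) := by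
    unfold PA; ring
  rw [h9]
  linarith

theorem ClsD.dd (hf : ClsD f) {z : ℂ} (hz : z ∈ ball (0 : ℂ) 1) :
    ‖deriv (deriv f) z‖ ≤ (4 * PA + PA ^ 2) * (1 + |VD f z|) ^ 2 / YD z ^ 2 * ‖f z‖ := by
  have hY := YD_pos hz
  have hP := PA_pos
  have hsub : ball z (YD z / 2) ⊆ ball 0 1 := fun w hw => (YD_ball hz hw).1
  have hd1 := hf.diff.deriv isOpen_ball
  have hhd : DifferentiableOn ℂ (fun w => deriv f w / f w) (ball z (YD z / 2)) :=
    (hd1.mono hsub).div (hf.diff.mono hsub) (fun w hw => hf.ne0 w (hsub hw))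
  have h1 := SP.norm_fderiv_le_of_bound (by positivity) hhd (fun w hw => hf.h_ball hz hw)
  rw [← norm_deriv_eq_norm_fderiv] at h1
  have hf1 := (hf.diff.differentiableAt (isOpen_ball.mem_nhds hz)).hasDerivAt
  have hf2 := (hd1.differentiableAt (isOpen_ball.mem_nhds hz)).hasDerivAt
  have h2 : HasDerivAt (fun w => deriv f w / f w)
      ((deriv (deriv f) z * f z - deriv f z * deriv f z) / f z ^ 2) z := hf2.div hf1 (hf.ne0 z hz)
  rw [h2.deriv] at h1
  have h0 := hf.norm_pos hz
  have hne := hf.ne0 z hz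
  have e1 : deriv (deriv f) z = ((deriv (deriv f) z * f z - deriv f z * deriv f z) / f z ^ 2 +
      (deriv f z / f z) ^ 2) * f z := by
    field_simp
    ring
  have h3 := hf.h_ball hz (mem_ball_self (show 0 < YD z / 2 by positivity))
  set A := PA * (1 + |VD f z|) / YD z with hA
  have hV := abs_nonneg (VD f z)
  have hA0 : 0 ≤ A := by positivity
  rw [e1, norm_mul]
  apply mul_le_mul_of_nonneg_right _ h0.le
  calc _ ≤ ‖(deriv (deriv f) z * f z - deriv f z * deriv f z) / f z ^ 2‖ +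
        ‖(deriv f z / f z) ^ 2‖ := norm_add_le _ _
    _ ≤ 2 * A / (YD z / 2) + A ^ 2 := by
        rw [norm_pow]
        exact add_le_add h1 (pow_le_pow_left₀ (norm_nonneg _) h3 2)
    _ = (4 * PA * (1 + |VD f z|) + PA ^ 2 * (1 + |VD f z|) ^ 2) / YD z ^ 2 := by
        rw [hA]; field_simp; ring
    _ ≤ _ := by
        rw [div_le_div_iff_of_pos_right (by positivity)]
        have : 4 * PA * (1 + |VD f z|) ≤ 4 * PA * (1 + |VD f z|) ^ 2 := by
          have : (1 + |VD f z|) ≤ (1 + |VD f z|) ^ 2 := by nlinarith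
          gcongr
        linarith

/-- bound for the logarithmic derivative of `f' - 1` -/
theorem ClsD.w_le (hf : ClsD f) {z : ℂ} (hz : z ∈ ball (0 : ℂ) 1) :
    YD z * ‖deriv (deriv f) z / (deriv f z - 1)‖ ≤
      (4 * PA1 + 4 + PA) * (1 + |VD f z| + |Real.log ‖deriv f z - 1‖|) := by
  have hY := YD_pos hz
  have hP := PA_pos
  have hP1 := PA1_pos
  have hC2 := C2_pos
  have hsub : ball z (YD z / 2) ⊆ ball 0 1 := fun w hw => (YD_ball hz hw).1
  have hd1 := hf.diff.deriv isOpen_ball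
  have hV := abs_nonneg (VD f z)
  set x := |VD f z| with hx
  set Q := PA * (1 + x) + 2 * Real.exp (Real.exp C2 * (1 + x)) with hQ
  have hQ0 : 0 < Q := by positivity
  have hFd : DifferentiableOn ℂ (fun w => (deriv f w - 1) / f w) (ball z (YD z / 2)) :=
    ((hd1.mono hsub).sub_const 1).div (hf.diff.mono hsub) (fun w hw => hf.ne0 w (hsub hw))
  have hFb : ∀ w ∈ ball z (YD z / 2), ‖(deriv f w - 1) / f w‖ ≤ Q / YD z := by
    intro w hw
    have hwD := hsub hw
    have h1 := hf.h_ball hz hw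
    have h2 := (YD_ball hz hw).2
    have h3 := hf.V_ball hz hw
    have h4 : ‖1 / f w‖ ≤ 2 / YD z * Real.exp (Real.exp C2 * (1 + x)) := by
      rw [norm_div, norm_one, hf.norm_eq hwD, div_le_iff₀ (mul_pos (YD_pos hwD) (Real.exp_pos _))]
      have h5 : Real.exp (-VD f w) ≤ Real.exp (Real.exp C2 * (1 + x)) := by
        apply Real.exp_le_exp.2
        exact (neg_le_abs _).trans h3
      have h6 : Real.exp (-VD f w) * Real.exp (VD f w) = 1 := by rw [← Real.exp_add]; simp
      calc (1 : ℝ) = 2 / YD z * Real.exp (-VD f w) * ((YD z / 2) * Real.exp (VD f w)) := by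
            have : 2 / YD z * Real.exp (-VD f w) * ((YD z / 2) * Real.exp (VD f w)) =
              (2 / YD z * (YD z / 2)) * (Real.exp (-VD f w) * Real.exp (VD f w)) := by ring
            rw [this, h6]; field_simp
        _ ≤ _ := by gcongr
    have h7 : (deriv f w - 1) / f w = deriv f w / f w - 1 / f w := by ring
    rw [h7]
    calc _ ≤ ‖deriv f w / f w‖ + ‖1 / f w‖ := norm_sub_le _ _
      _ ≤ PA * (1 + x) / YD z + 2 / YD z * Real.exp (Real.exp C2 * (1 + x)) := add_le_add h1 h4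
      _ = Q / YD z := by rw [hQ]; ring
  have key := logderiv_le (c := z) (ρ := YD z / 2) (M := Q / YD z) (by positivity) (by positivity)
    hFd (fun w hw => div_ne_zero (sub_ne_zero.2 (hf.ne1 w (hsub hw))) (hf.ne0 w (hsub hw))) hFb
  have h0 := hf.norm_pos hz
  have hne := hf.ne0 z hz
  have hne1 : deriv f z - 1 ≠ 0 := sub_ne_zero.2 (hf.ne1 z hz)
  have h1p : 0 < ‖deriv f z - 1‖ := norm_pos_iff.2 hne1
  have hf1 := (hf.diff.differentiableAt (isOpen_ball.mem_nhds hz)).hasDerivAt
  have hf2 := (hd1.differentiableAt (isOpen_ball.mem_nhds hz)).hasDerivAt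
  have h2 : HasDerivAt (fun w => (deriv f w - 1) / f w)
      ((deriv (deriv f) z * f z - (deriv f z - 1) * deriv f z) / f z ^ 2) z :=
    (hf2.sub_const 1).div hf1 hne
  rw [h2.deriv] at key
  have e1 : (deriv (deriv f) z * f z - (deriv f z - 1) * deriv f z) / f z ^ 2 /
      ((deriv f z - 1) / f z) = deriv (deriv f) z / (deriv f z - 1) - deriv f z / f z := by
    field_simp
  rw [e1] at key
  have h3 : Real.log (Q / YD z / ‖(deriv f z - 1) / f z‖) =
      Real.log Q + VD f z - Real.log ‖deriv f z - 1‖ := by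
    rw [norm_div, Real.log_div (by positivity) (by positivity), Real.log_div hQ0.ne' hY.ne',
      Real.log_div h1p.ne' h0.ne', VD, Real.log_div h0.ne' hY.ne']
    ring
  rw [h3] at key
  have hlogQ : Real.log Q ≤ PA1 * (1 + x) := by
    have e2 : Q ≤ (PA + 2) * Real.exp ((Real.exp C2 + 1) * (1 + x)) := by
      have e3 : (1 + x) ≤ Real.exp ((Real.exp C2 + 1) * (1 + x)) := by
        have e4 := Real.add_one_le_exp x
        have e5 : Real.exp x ≤ Real.exp ((Real.exp C2 + 1) * (1 + x)) := by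
          apply Real.exp_le_exp.2
          have := Real.exp_pos C2
          nlinarith
        linarith
      have e6 : Real.exp (Real.exp C2 * (1 + x)) ≤ Real.exp ((Real.exp C2 + 1) * (1 + x)) := by
        apply Real.exp_le_exp.2
        nlinarith
      rw [hQ]
      nlinarith
    have e7 := Real.log_le_log hQ0 e2
    rw [Real.log_mul (by positivity) (by positivity), Real.log_exp] at e7
    have e8 : 0 ≤ Real.log (PA + 2) := Real.log_nonneg (by linarith)
    have e9 : Real.log (PA + 2) ≤ Real.log (PA + 2) * (1 + x) := by nlinarith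
    unfold PA1
    linarith
  have h4 := hf.h_ball hz (mem_ball_self (show 0 < YD z / 2 by positivity))
  have h5 : ‖deriv (deriv f) z / (deriv f z - 1)‖ ≤
      ‖deriv (deriv f) z / (deriv f z - 1) - deriv f z / f z‖ + ‖deriv f z / f z‖ := by
    calc ‖deriv (deriv f) z / (deriv f z - 1)‖ =
          ‖(deriv (deriv f) z / (deriv f z - 1) - deriv f z / f z) + deriv f z / f z‖ := by
          ring_nf
      _ ≤ _ := norm_add_le _ _
  set u := Real.log ‖deriv f z - 1‖ with hu
  have hub : -u ≤ |u| := neg_le_abs _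
  have hvb : VD f z ≤ x := le_abs_self _
  have hu0 := abs_nonneg u
  calc YD z * ‖deriv (deriv f) z / (deriv f z - 1)‖
      ≤ YD z * (2 * (Real.log Q + VD f z - u) / (YD z / 2) + PA * (1 + x) / YD z) := by
        gcongr
        exact h5.trans (add_le_add key h4)
    _ = 4 * (Real.log Q + VD f z - u) + PA * (1 + x) := by field_simp; ring
    _ ≤ 4 * (PA1 * (1 + x) + x + |u|) + PA * (1 + x) := by linarith
    _ ≤ _ := by nlinarith

end pb

end Pool.Agent.SS
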