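import Pool.Agent.Lib52.SS.Half

set_option autoImplicit false

open Set Metric Filter
open scoped Topology

namespace Pool.Agent.SS

theorem sinh_re' (A B : ℝ) : (Complex.sinh (A + B * Complex.I)).re = Real.sinh A * Real.cos B := by
  rw [Complex.sinh_add, Complex.sinh_mul_I, Complex.cosh_mul_I]
  rw [← Complex.ofReal_sinh, ← Complex.ofReal_cosh, ← Complex.ofReal_sin, ← Complex.ofReal_cos]
  simp only [Complex.mul_re, Complex.add_re, Complex.mul_im, Complex.ofReal_re,
    Complex.ofReal_im, Complex.I_re, Complex.I_im]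
  ring

/-- no holomorphic function on a rectangle standing on the real axis is bounded below by `c / y` -/
theorem rect_false {F : ℂ → ℂ} {x₀ a y₀ c : ℝ} (ha : 0 < a) (hy : 0 < y₀) (hc : 0 < c)
    (hF : DifferentiableOn ℂ F HH)
    (hb : ∀ z ∈ HH, |z.re - x₀| ≤ a → z.im ≤ y₀ → c / z.im ≤ ‖F z‖) : False := by
  have hpos : ∀ z ∈ HH, |z.re - x₀| ≤ a → z.im ≤ y₀ → 0 < ‖F z‖ := fun z hz h1 h2 =>
    lt_of_lt_of_le (div_pos hc hz) (hb z hz h1 h2)
  set k : ℝ := Real.pi / (2 * a) with hk
  have hk0 : 0 < k := by have := Real.pi_pos; positivity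
  have hka : k * a = Real.pi / 2 := by rw [hk]; field_simp
  set z₁ : ℂ := x₀ + (y₀ / 2 : ℝ) * Complex.I with hz₁
  have hz₁re : z₁.re = x₀ := by simp [hz₁]
  have hz₁im : z₁.im = y₀ / 2 := by simp [hz₁]
  set β : ℝ := Real.sinh (k * (y₀ / 2)) / Real.sinh (k * y₀) with hβ
  have hsinh : 0 < Real.sinh (k * y₀) := Real.sinh_pos_iff.2 (by positivity)
  have hβ0 : 0 < β := div_pos (Real.sinh_pos_iff.2 (by positivity)) hsinh
  set C : ℝ := (y₀ + 1) / c with hC
  have hC0 : 0 < C := by positivity
  -- the main estimate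
  have main : ∀ L : ℝ, 0 < L → Real.exp (-L) < y₀ / 2 → β * L ≤ C * ‖F z₁‖ := by
    intro L hL hδy
    set δ := Real.exp (-L) with hδ
    have hδ0 : 0 < δ := Real.exp_pos _
    have hsδ : 0 < Real.sinh (k * (y₀ - δ)) := Real.sinh_pos_iff.2 (by
      apply mul_pos hk0; linarith)
    set b : ℝ := L / Real.sinh (k * (y₀ - δ)) with hb'
    have hb0 : 0 < b := div_pos hL hsδ
    set G : ℂ → ℂ := fun z => (F z)⁻¹ *
      Complex.exp (b * Complex.sinh (k * (y₀ + Complex.I * (z - x₀)))) with hG
    set U : Set ℂ := Ioo (x₀ - a) (x₀ + a) ×ℂ Ioo δ y₀ with hU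
    have hclU : closure U ⊆ {z | |z.re - x₀| ≤ a ∧ δ ≤ z.im ∧ z.im ≤ y₀} := by
      apply closure_minimal
      · intro z hz
        obtain ⟨h1, h2⟩ := Complex.mem_reProdIm.1 hz
        exact ⟨abs_le.2 ⟨by linarith [h1.1], by linarith [h1.2]⟩, h2.1.le, h2.2.le⟩
      · refine IsClosed.inter ?_ (IsClosed.inter ?_ ?_)
        · exact isClosed_le ((Complex.continuous_re.sub continuous_const).abs) continuous_const
        · exact isClosed_le continuous_const Complex.continuous_im
        · exact isClosed_le Complex.continuous_im continuous_const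
    have hUb : Bornology.IsBounded U :=
      (Metric.isBounded_Ioo _ _).reProdIm (Metric.isBounded_Ioo _ _)
    have hUo : IsOpen U := isOpen_Ioo.reProdIm isOpen_Ioo
    have hexp : ∀ z : ℂ, ‖Complex.exp (b * Complex.sinh (k * (y₀ + Complex.I * (z - x₀))))‖ =
        Real.exp (b * (Real.sinh (k * (y₀ - z.im)) * Real.cos (k * (z.re - x₀)))) := by
      intro z
      rw [Complex.norm_exp]
      congr 1
      have e1 : (k : ℂ) * (y₀ + Complex.I * (z - x₀)) =
          ((k * (y₀ - z.im) : ℝ) : ℂ) + ((k * (z.re - x₀) : ℝ) : ℂ) * Complex.I := by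
        apply Complex.ext
        · simp only [Complex.mul_re, Complex.add_re, Complex.add_im, Complex.sub_re,
            Complex.sub_im, Complex.mul_im, Complex.ofReal_re, Complex.ofReal_im, Complex.I_re,
            Complex.I_im]
          ring
        · simp only [Complex.mul_re, Complex.add_re, Complex.add_im, Complex.sub_re,
            Complex.sub_im, Complex.mul_im, Complex.ofReal_re, Complex.ofReal_im, Complex.I_re,
            Complex.I_im]
          ring
      rw [e1, Complex.re_ofReal_mul, sinh_re']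
    have hGd : DiffContOnCl ℂ G U := by
      apply DifferentiableOn.diffContOnCl
      intro z hz
      obtain ⟨h1, h2, h3⟩ := hclU hz
      have hzH : z ∈ HH := lt_of_lt_of_le hδ0 h2
      apply DifferentiableAt.differentiableWithinAt
      apply DifferentiableAt.mul
      · exact (hF.differentiableAt (isOpen_HH.mem_nhds hzH)).inv
          (norm_pos_iff.1 (hpos z hzH h1 h3))
      · fun_prop
    have hfr : ∀ z ∈ frontier U, ‖G z‖ ≤ C := by
      intro z hz
      have hz1 : z ∈ closure U := frontier_subset_closure hz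
      have hz2 : z ∉ U := by
        have := hz.2
        rwa [hUo.interior_eq] at this
      obtain ⟨h1, h2, h3⟩ := hclU hz1
      have hzim : 0 < z.im := lt_of_lt_of_le hδ0 h2
      have hzH : z ∈ HH := hzim
      have hFz := hb z hzH h1 h3
      have hFpos := hpos z hzH h1 h3
      have hFinv : ‖(F z)⁻¹‖ ≤ z.im / c := by
        rw [norm_inv, inv_le_comm₀ hFpos (by positivity), inv_div]
        exact hFz
      simp only [hG]
      rw [norm_mul, hexp]
      have hcase : |z.re - x₀| = a ∨ z.im = y₀ ∨ z.im = δ := by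
        by_contra hne
        push Not at hne
        apply hz2
        rw [hU, Complex.mem_reProdIm]
        have h4 := lt_of_le_of_ne h1 hne.1
        have h5 := abs_lt.1 h4
        exact ⟨⟨by linarith, by linarith⟩, lt_of_le_of_ne h2 (Ne.symm hne.2.2),
          lt_of_le_of_ne h3 hne.2.1⟩
      rcases hcase with h | h | h
      · have : Real.cos (k * (z.re - x₀)) = 0 := by
          rw [← Real.cos_abs, abs_mul, abs_of_pos hk0, h, hka, Real.cos_pi_div_two]
        rw [this, mul_zero, mul_zero, Real.exp_zero, mul_one]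
        refine hFinv.trans ?_
        rw [hC]; gcongr; linarith
      · have : Real.sinh (k * (y₀ - z.im)) = 0 := by rw [h]; simp
        rw [this, zero_mul, mul_zero, Real.exp_zero, mul_one]
        refine hFinv.trans ?_
        rw [hC]; gcongr; linarith
      · have e1 : b * (Real.sinh (k * (y₀ - z.im)) * Real.cos (k * (z.re - x₀))) ≤ L := by
          rw [h]
          calc b * (Real.sinh (k * (y₀ - δ)) * Real.cos (k * (z.re - x₀)))
              ≤ b * (Real.sinh (k * (y₀ - δ)) * 1) := by
                gcongr; exact Real.cos_le_one _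
            _ = L := by rw [hb']; field_simp
        calc ‖(F z)⁻¹‖ * Real.exp (b * (Real.sinh (k * (y₀ - z.im)) *
              Real.cos (k * (z.re - x₀)))) ≤ (z.im / c) * Real.exp L := by
              gcongr
          _ = 1 / c := by
              rw [h, hδ, Real.exp_neg]
              have := Real.exp_pos L
              field_simp
          _ ≤ C := by rw [hC]; gcongr; linarith
    have hz₁U : z₁ ∈ U := by
      rw [hU, Complex.mem_reProdIm, hz₁re, hz₁im]
      exact ⟨⟨by linarith, by linarith⟩, hδy, by linarith⟩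
    have key := Complex.norm_le_of_forall_mem_frontier_norm_le hUb hGd hfr (subset_closure hz₁U)
    simp only [hG] at key
    rw [norm_mul, hexp, hz₁re, hz₁im, sub_self, mul_zero, Real.cos_zero, mul_one, norm_inv] at key
    have hF1 : 0 < ‖F z₁‖ := hpos z₁ (by show 0 < z₁.im; rw [hz₁im]; positivity)
      (by rw [hz₁re, sub_self, abs_zero]; exact ha.le) (by rw [hz₁im]; linarith)
    have e2 : β * L ≤ b * Real.sinh (k * (y₀ - y₀ / 2)) := by
      have e3 : y₀ - y₀ / 2 = y₀ / 2 := by ring
      have e5 : β * L = (L * Real.sinh (k * (y₀ / 2))) / Real.sinh (k * y₀) := by rw [hβ]; ring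
      have e6 : b * Real.sinh (k * (y₀ / 2)) =
          (L * Real.sinh (k * (y₀ / 2))) / Real.sinh (k * (y₀ - δ)) := by rw [hb']; ring
      rw [e3, e5, e6]
      apply div_le_div_of_nonneg_left _ hsδ
      · apply Real.sinh_le_sinh.2
        gcongr; linarith
      · have := Real.sinh_pos_iff.2 (show 0 < k * (y₀ / 2) by positivity)
        positivity
    have e4 : β * L ≤ Real.exp (b * Real.sinh (k * (y₀ - y₀ / 2))) := by
      have := Real.add_one_le_exp (b * Real.sinh (k * (y₀ - y₀ / 2)))
      linarith
    rw [inv_mul_le_iff₀ hF1] at key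
    linarith
  -- choose L large
  set L : ℝ := max (C * ‖F z₁‖ / β + 1) (Real.log (2 / y₀) + 1) with hL
  have hF1 : 0 ≤ ‖F z₁‖ := norm_nonneg _
  have hL1 : C * ‖F z₁‖ / β + 1 ≤ L := le_max_left _ _
  have hL0 : 0 < L := by
    have : 0 ≤ C * ‖F z₁‖ / β := by positivity
    linarith
  have hL2 : Real.log (2 / y₀) < L := by
    have := le_max_right (C * ‖F z₁‖ / β + 1) (Real.log (2 / y₀) + 1)
    linarith
  have hδ : Real.exp (-L) < y₀ / 2 := by
    rw [Real.exp_neg, inv_lt_comm₀ (Real.exp_pos _) (by positivity), inv_div]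
    rw [← Real.log_lt_iff_lt_exp (by positivity)]
    exact hL2
  have := main L hL0 hδ
  have h3 : β * (C * ‖F z₁‖ / β + 1) ≤ β * L := by gcongr
  have h4 : β * (C * ‖F z₁‖ / β + 1) = C * ‖F z₁‖ + β := by field_simp
  linarith

end Pool.Agent.SS
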