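import Pool.Agent.Lib52.SS.Rect

set_option autoImplicit false

open Set Metric Filter
open scoped Topology

namespace Pool.Agent.SS

variable {g : ℂ → ℂ}

/-- the hypothesis of non-degeneracy -/
def Hyp (g : ℂ → ℂ) (ε : ℝ) : Prop :=
  ∀ z ∈ HH, ε * ‖deriv g z - 1‖ ≤ z.im * ‖deriv (deriv g) z‖ * (1 + z.im / ‖g z‖)

theorem ClsH.le_two (hg : ClsH g) {z : ℂ} (hz : z ∈ HH) (hV : 0 ≤ VH g z) :
    1 + z.im / ‖g z‖ ≤ 2 := by
  have h1 : 0 < z.im := hz
  have h2 := hg.norm_pos hz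
  have h3 : z.im ≤ ‖g z‖ := by
    rw [hg.norm_eq hz]
    have := Real.one_le_exp hV
    nlinarith
  have : z.im / ‖g z‖ ≤ 1 := by rw [div_le_one h2]; exact h3
  linarith

theorem Hyp.half {ε : ℝ} (hg : ClsH g) (h : Hyp g ε) {z : ℂ} (hz : z ∈ HH) (hV : 0 ≤ VH g z) :
    ε / 2 * ‖deriv g z - 1‖ ≤ z.im * ‖deriv (deriv g) z‖ := by
  have h1 := h z hz
  have h2 := hg.le_two hz hV
  have h3 : 0 < z.im := hz
  have h4 : z.im * ‖deriv (deriv g) z‖ * (1 + z.im / ‖g z‖) ≤
      z.im * ‖deriv (deriv g) z‖ * 2 := by gcongr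
  linarith

/-- growth of the second derivative -/
theorem F2 {ε : ℝ} (hε : 0 < ε) (hg : ClsH g) (h : Hyp g ε) {p : ℂ} (hp : p ∈ HH)
    (hV : 1 < VH g p) :
    ε / 8 * Real.exp (Real.log (VH g p) / (2 * C2)) * ‖deriv g p - 1‖ ≤
      p.im * ‖deriv (deriv g) p‖ := by
  have hC := C2_pos
  have hlog : 0 < Real.log (VH g p) := Real.log_pos hV
  set X := Real.exp (Real.log (VH g p) / (2 * C2)) with hX
  have hX1 : 1 < X := by rw [hX]; apply Real.one_lt_exp_iff.2; positivity
  set r := (X - 1) / (X + 1) with hr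
  have hr0 : 0 < r := div_pos (by linarith) (by linarith)
  have hr1 : r < 1 := by rw [hr, div_lt_one (by linarith)]; linarith
  have hrX : (1 + r) / (1 - r) = X := by
    rw [hr]; field_simp; ring
  have key := hg.disc_lower (p := p) (r := r) (c := ε / 2) hp hr0 hr1 (by positivity) (by
    intro ζ hζ
    have hζ1 : ‖ζ‖ < 1 := lt_of_le_of_lt hζ hr1
    apply h.half hg (cay_mem hp hζ1)
    apply le_of_lt
    apply hg.disc_pos hp hζ1 (by linarith)
    have e1 : (1 + ‖ζ‖) / (1 - ‖ζ‖) ≤ X := by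
      rw [← hrX]
      rw [div_le_div_iff₀ (by linarith) (by linarith)]
      nlinarith [norm_nonneg ζ]
    have e2 : 0 < (1 + ‖ζ‖) / (1 - ‖ζ‖) := by
      apply div_pos <;> linarith [norm_nonneg ζ]
    calc C2 * Real.log ((1 + ‖ζ‖) / (1 - ‖ζ‖)) ≤ C2 * Real.log X := by
          gcongr
      _ = Real.log (VH g p) / 2 := by rw [hX, Real.log_exp]; field_simp
      _ < Real.log (VH g p) := by linarith
      _ ≤ NN (VH g p) := log_le_NN (by linarith))
  have h1 : 1 - r ^ 2 ≤ 4 / X := by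
    rw [hr, le_div_iff₀ (by linarith)]
    have h2 : (1 - ((X - 1) / (X + 1)) ^ 2) = 4 * X / (X + 1) ^ 2 := by
      have : X + 1 ≠ 0 := by linarith
      field_simp; ring
    rw [h2, div_mul_eq_mul_div, div_le_iff₀ (by positivity)]
    nlinarith
  have h3 : 0 ≤ p.im * ‖deriv (deriv g) p‖ := mul_nonneg (le_of_lt hp) (norm_nonneg _)
  have h4 : ε / 2 * ‖deriv g p - 1‖ ≤ 4 / X * (p.im * ‖deriv (deriv g) p‖) :=
    key.trans (mul_le_mul_of_nonneg_right h1 h3)
  have hX0 : 0 < X := by linarith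
  have h5 : X * (ε / 2 * ‖deriv g p - 1‖) ≤ 4 * (p.im * ‖deriv (deriv g) p‖) := by
    calc X * (ε / 2 * ‖deriv g p - 1‖) ≤ X * (4 / X * (p.im * ‖deriv (deriv g) p‖)) :=
          mul_le_mul_of_nonneg_left h4 hX0.le
      _ = 4 * (p.im * ‖deriv (deriv g) p‖) := by field_simp
  have h6 : ε / 8 * X * ‖deriv g p - 1‖ = X * (ε / 2 * ‖deriv g p - 1‖) / 4 := by ring
  rw [h6]
  linarith

noncomputable def C4 : ℝ := 16 * (C0 * (1 + Real.exp C2) + 1)

theorem C4_ge : 16 ≤ C4 := by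
  unfold C4
  have := C0_ge
  have := Real.exp_pos C2
  have : 0 ≤ C0 * (1 + Real.exp C2) := by positivity
  linarith

/-- bounded gradient gives a logarithmic bound for the second derivative -/
theorem S3 (hg : ClsH g) {p : ℂ} (hp : p ∈ HH) (hV3 : 3 ≤ VH g p) (hVC : C2 < NN (VH g p))
    (hk1 : 1 / 4 ≤ kap g p) (hk2 : kap g p ≤ 4) :
    p.im * ‖deriv (deriv g) p‖ ≤
      (4 * Real.log (C4 * (1 + VH g p)) + 4) * ‖deriv g p - 1‖ := by
  have hp' : 0 < p.im := hp
  have hC2 := C2_pos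
  have hC0 := C0_ge
  set ρ := p.im / 2 with hρ
  have hρ0 : 0 < ρ := by positivity
  have hsub : ball p ρ ⊆ HH := ball_sub_HH (by linarith)
  have hin : ∀ z ∈ ball p ρ, ρ ≤ z.im := by
    intro z hz
    rw [mem_ball, dist_eq_norm] at hz
    have := Complex.abs_im_le_norm (z - p)
    rw [Complex.sub_im] at this
    have := abs_le.1 this
    linarith
  have hdist : ∀ z ∈ ball p ρ, ‖z - p‖ / min p.im z.im ≤ 1 := by
    intro z hz
    have h1 := hin z hz
    have h2 : ρ ≤ min p.im z.im := le_min (by linarith) h1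
    rw [mem_ball, dist_eq_norm] at hz
    rw [div_le_one (by linarith)]
    linarith
  have hVz : ∀ z ∈ ball p ρ, 0 < VH g z ∧ |VH g z| ≤ Real.exp C2 * (1 + VH g p) := by
    intro z hz
    constructor
    · apply hg.seg_pos hp (hsub hz) (by linarith)
      have := hdist z hz
      nlinarith
    · have h1 := hg.seg_N hp (hsub hz)
      have h2 := hdist z hz
      have h3 : NN (VH g z) ≤ C2 + NN (VH g p) := by
        have := (abs_le.1 h1).2
        nlinarith
      calc |VH g z| ≤ Real.exp (NN (VH g z)) := abs_le_exp_NN _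
        _ ≤ Real.exp (C2 + NN (VH g p)) := Real.exp_le_exp.2 h3
        _ = Real.exp C2 * Real.exp (NN (VH g p)) := Real.exp_add _ _
        _ ≤ Real.exp C2 * (1 + |VH g p|) := by gcongr; exact exp_NN_le _
        _ = Real.exp C2 * (1 + VH g p) := by rw [abs_of_nonneg (by linarith)]
  set A := C0 * (1 + Real.exp C2 * (1 + VH g p)) + 1 with hA
  have hA0 : 0 < A := by
    have : 0 < Real.exp C2 := Real.exp_pos _
    have : 0 ≤ VH g p := by linarith
    positivity
  set F : ℂ → ℂ := fun z => (deriv g z - 1) / g z with hF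
  have hd1 : DifferentiableOn ℂ (deriv g) HH := hg.diff.deriv isOpen_HH
  have hFd : DifferentiableOn ℂ F (ball p ρ) :=
    ((hd1.mono hsub).sub_const 1).div (hg.diff.mono hsub) (fun z hz => hg.ne0 z (hsub hz))
  have hF0 : ∀ z ∈ ball p ρ, F z ≠ 0 := fun z hz =>
    div_ne_zero (sub_ne_zero.2 (hg.ne1 z (hsub hz))) (hg.ne0 z (hsub hz))
  have hFb : ∀ z ∈ ball p ρ, ‖F z‖ ≤ A / ρ := by
    intro z hz
    have hzH := hsub hz
    have hzim : 0 < z.im := hzH
    obtain ⟨h1, h2⟩ := hVz z hz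
    have h3 := hg.norm_pos hzH
    simp only [hF]
    rw [norm_div, div_le_div_iff₀ h3 hρ0]
    have h4 : ‖deriv g z - 1‖ ≤ ‖deriv g z‖ + 1 := by
      simpa using norm_sub_le (deriv g z) 1
    have h5 : z.im * ‖deriv g z‖ ≤ C0 * (1 + |VH g z|) * ‖g z‖ := by
      have := hg.kap_le hzH
      unfold kap at this
      rwa [div_le_iff₀ h3] at this
    have h6 : z.im ≤ ‖g z‖ := by
      rw [hg.norm_eq hzH]
      have := Real.one_le_exp h1.le
      nlinarith
    calc ‖deriv g z - 1‖ * ρ ≤ (‖deriv g z‖ + 1) * z.im := by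
          gcongr; exact hin z hz
      _ = z.im * ‖deriv g z‖ + z.im := by ring
      _ ≤ C0 * (1 + |VH g z|) * ‖g z‖ + ‖g z‖ := add_le_add h5 h6
      _ = (C0 * (1 + |VH g z|) + 1) * ‖g z‖ := by ring
      _ ≤ A * ‖g z‖ := by rw [hA]; gcongr
  have key := logderiv_le hρ0 (by positivity : 0 < A / ρ) hFd hF0 hFb
  have hpH : p ∈ ball p ρ := mem_ball_self hρ0
  have hgp := hg.norm_pos hp
  have hg1 : deriv g p - 1 ≠ 0 := sub_ne_zero.2 (hg.ne1 p hp)
  -- lower bound for F at p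
  have hFp : 1 / (8 * p.im) ≤ ‖F p‖ := by
    simp only [hF]
    rw [norm_div, div_le_div_iff₀ (by positivity) hgp]
    have h4 : ‖deriv g p‖ - 1 ≤ ‖deriv g p - 1‖ := by
      simpa using norm_sub_norm_le (deriv g p) 1
    have h5 : ‖g p‖ / 4 ≤ p.im * ‖deriv g p‖ := by
      unfold kap at hk1
      rw [le_div_iff₀ hgp] at hk1
      linarith
    have h6 : 8 * p.im ≤ ‖g p‖ := by
      rw [hg.norm_eq hp]
      have h7 : (8 : ℝ) ≤ Real.exp (VH g p) := by
        have h8 : Real.exp 3 ≤ Real.exp (VH g p) := Real.exp_le_exp.2 hV3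
        have h9 : Real.exp 3 = Real.exp 1 ^ 3 := by rw [← Real.exp_nat_mul]; norm_num
        have h10 : (2 : ℝ) ≤ Real.exp 1 := by linarith [Real.exp_one_gt_d9]
        have h11 : (2 : ℝ) ^ 3 ≤ Real.exp 1 ^ 3 := pow_le_pow_left₀ (by norm_num) h10 3
        linarith
      nlinarith
    nlinarith
  -- logarithmic derivative
  have hFder : deriv F p / F p = deriv (deriv g) p / (deriv g p - 1) - deriv g p / g p := by
    have e1 : HasDerivAt (fun z => deriv g z - 1) (deriv (deriv g) p) p :=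
      ((hd1.differentiableAt (isOpen_HH.mem_nhds hp)).hasDerivAt).sub_const 1
    have e2 : HasDerivAt g (deriv g p) p :=
      (hg.diff.differentiableAt (isOpen_HH.mem_nhds hp)).hasDerivAt
    have e3 : HasDerivAt F _ p := e1.div e2 (hg.ne0 p hp)
    rw [e3.deriv]
    simp only [hF]
    have := hg.ne0 p hp
    field_simp
  rw [hFder] at key
  have h1 : ‖deriv (deriv g) p / (deriv g p - 1)‖ ≤
      2 * Real.log (A / ρ / ‖F p‖) / ρ + ‖deriv g p / g p‖ := by
    have := norm_sub_norm_le (deriv (deriv g) p / (deriv g p - 1)) (deriv g p / g p)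
    linarith
  have hlogle : Real.log (A / ρ / ‖F p‖) ≤ Real.log (C4 * (1 + VH g p)) := by
    apply Real.log_le_log (by have := norm_pos_iff.2 (hF0 p hpH); positivity)
    rw [div_le_iff₀ (norm_pos_iff.2 (hF0 p hpH))]
    have hV0 : 0 ≤ VH g p := by linarith
    have hA2 : 16 * A ≤ C4 * (1 + VH g p) := by
      rw [hA, C4]
      have := Real.exp_pos C2
      nlinarith [mul_nonneg (by linarith : (0 : ℝ) ≤ C0) hV0]
    have h2 : A / ρ = 16 * A * (1 / (8 * p.im)) := by rw [hρ]; field_simp; ring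
    rw [h2]
    have hC4 := C4_ge
    gcongr
  have h2 : p.im * ‖deriv g p / g p‖ ≤ 4 := by
    have : p.im * ‖deriv g p / g p‖ = kap g p := by rw [norm_div, kap]; ring
    rw [this]; exact hk2
  rw [norm_div] at h1
  have h3 := norm_pos_iff.2 hg1
  have h4 : p.im * (‖deriv (deriv g) p‖ / ‖deriv g p - 1‖) ≤
      4 * Real.log (C4 * (1 + VH g p)) + 4 := by
    calc p.im * (‖deriv (deriv g) p‖ / ‖deriv g p - 1‖)
        ≤ p.im * (2 * Real.log (A / ρ / ‖F p‖) / ρ + ‖deriv g p / g p‖) := by gcongr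
      _ = 4 * Real.log (A / ρ / ‖F p‖) + p.im * ‖deriv g p / g p‖ := by
          rw [hρ]; field_simp; ring
      _ ≤ _ := by linarith
  rw [mul_div_assoc', div_le_iff₀ h3] at h4
  exact h4

/-- for large `V` the gradient `kap` is not of size one -/
theorem S4 {ε : ℝ} (hε : 0 < ε) (hg : ClsH g) (h : Hyp g ε) :
    ∃ V₁ : ℝ, 3 ≤ V₁ ∧ ∀ p ∈ HH, V₁ < VH g p → ¬ (1 / 4 ≤ kap g p ∧ kap g p ≤ 4) := by
  have hC2 := C2_pos
  have hC4 := C4_ge
  set a : ℝ := ε / 16 with ha
  set b : ℝ := 8 * C2 with hb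
  set d : ℝ := 4 * Real.log (2 * C4) + 5 with hd
  have hd0 : 0 < d := by
    have : 0 ≤ Real.log (2 * C4) := Real.log_nonneg (by linarith)
    rw [hd]; linarith
  have ha0 : 0 < a := by positivity
  set X0 : ℝ := (b + d) / a + 1 with hX0
  have hX01 : 1 ≤ X0 := by rw [hX0]; have : 0 ≤ (b + d) / a := by positivity
                           linarith
  set V₁ := max 3 (max (Real.exp C2) (Real.exp (2 * C2 * X0))) with hV₁
  refine ⟨V₁, le_max_left _ _, ?_⟩
  rintro p hp hVp ⟨hk1, hk2⟩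
  have hV3 : 3 < VH g p := lt_of_le_of_lt (le_max_left _ _) hVp
  have hVC : Real.exp C2 < VH g p :=
    lt_of_le_of_lt ((le_max_left _ _).trans (le_max_right _ _)) hVp
  have hVX : Real.exp (2 * C2 * X0) < VH g p :=
    lt_of_le_of_lt ((le_max_right _ _).trans (le_max_right _ _)) hVp
  have hNN : C2 < NN (VH g p) := by
    have h1 := log_le_NN (show 0 < VH g p by linarith)
    have h2 : C2 < Real.log (VH g p) := by
      rw [Real.lt_log_iff_exp_lt (by linarith)]; exact hVC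
    linarith
  have h1 := F2 hε hg h hp (by linarith)
  have h2 := S3 hg hp hV3.le hNN hk1 hk2
  have h3 : 0 < ‖deriv g p - 1‖ := norm_pos_iff.2 (sub_ne_zero.2 (hg.ne1 p hp))
  have h4 : ε / 8 * Real.exp (Real.log (VH g p) / (2 * C2)) ≤
      4 * Real.log (C4 * (1 + VH g p)) + 4 :=
    le_of_mul_le_mul_right (h1.trans h2) h3
  set x := Real.log (VH g p) / (2 * C2) with hx
  have hxX : X0 < x := by
    rw [hx, lt_div_iff₀ (by positivity), Real.lt_log_iff_exp_lt (by linarith)]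
    calc Real.exp (X0 * (2 * C2)) = Real.exp (2 * C2 * X0) := by ring_nf
      _ < VH g p := hVX
  have h5 : x ^ 2 / 2 ≤ Real.exp x := by
    have := Real.quadratic_le_exp_of_nonneg (show 0 ≤ x by linarith)
    linarith
  have h6 : Real.log (C4 * (1 + VH g p)) ≤ Real.log (2 * C4) + 2 * C2 * x := by
    have e1 : C4 * (1 + VH g p) ≤ (2 * C4) * VH g p := by nlinarith
    have e2 : 2 * C2 * x = Real.log (VH g p) := by rw [hx]; field_simp
    rw [e2, ← Real.log_mul (by positivity) (by linarith)]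
    apply Real.log_le_log _ e1
    have : 0 < 1 + VH g p := by linarith
    positivity
  have h7 : a * x ^ 2 ≤ b * x + (d - 1) := by
    rw [ha, hb, hd]
    nlinarith
  have h8 : b + d + a ≤ a * x := by
    have : a * X0 = b + d + a := by rw [hX0]; field_simp
    nlinarith
  have hx1 : 1 < x := by linarith
  nlinarith

end Pool.Agent.SS
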