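import Pool.Agent.Lib52.SS.Rigid1

set_option autoImplicit false

open Set Metric Filter
open scoped Topology

namespace Pool.Agent.SS

variable {g : ℂ → ℂ}

theorem ClsH.contDeriv (hg : ClsH g) : DifferentiableOn ℂ (deriv g) HH := hg.diff.deriv isOpen_HH

theorem ClsH.contV (hg : ClsH g) : ContinuousOn (VH g) HH := by
  unfold VH
  apply ContinuousOn.log
  · apply ContinuousOn.div hg.diff.continuousOn.norm Complex.continuous_im.continuousOn
    intro z hz
    exact ne_of_gt hz
  · intro z hz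
    exact (div_pos (hg.norm_pos hz) hz).ne'

theorem ClsH.contK (hg : ClsH g) : ContinuousOn (kap g) HH := by
  unfold kap
  apply ContinuousOn.div _ hg.diff.continuousOn.norm
  · intro z hz
    exact (hg.norm_pos hz).ne'
  · exact Complex.continuous_im.continuousOn.mul hg.contDeriv.continuousOn.norm

/-- going down vertically -/
noncomputable def vert (x y t : ℝ) : ℂ := x + (y * Real.exp (-t) : ℝ) * Complex.I

theorem vert_im (x y t : ℝ) : (vert x y t).im = y * Real.exp (-t) := by
  simp only [vert, Complex.add_im, Complex.ofReal_im, Complex.mul_im, Complex.ofReal_re,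
    Complex.I_im, Complex.I_re]
  ring

theorem vert_re (x y t : ℝ) : (vert x y t).re = x := by
  simp only [vert, Complex.add_re, Complex.ofReal_im, Complex.mul_re, Complex.ofReal_re,
    Complex.I_im, Complex.I_re]
  ring

theorem vert_mem {x y : ℝ} (hy : 0 < y) (t : ℝ) : vert x y t ∈ HH := by
  show 0 < (vert x y t).im
  rw [vert_im]; positivity

theorem vert_deriv (x y t : ℝ) :
    HasDerivAt (vert x y) ((-(y * Real.exp (-t)) : ℝ) * Complex.I) t := by
  have e1 : HasDerivAt (fun t : ℝ => y * Real.exp (-t)) (-(y * Real.exp (-t))) t := by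
    have := ((hasDerivAt_id t).neg.exp).const_mul y
    simpa using this
  have e2 := (e1.ofReal_comp.mul_const Complex.I).const_add (x : ℂ)
  exact e2

/-- the set where `V` is large and the gradient small is stable under going down -/
theorem ClsH.down (hg : ClsH g) {V₁ : ℝ}
    (h4 : ∀ p ∈ HH, V₁ < VH g p → ¬ (1 / 4 ≤ kap g p ∧ kap g p ≤ 4)) {x y : ℝ} (hy : 0 < y)
    (hV : V₁ < VH g (vert x y 0)) (hk : kap g (vert x y 0) ≤ 1 / 4) (T : ℝ) (hT : 0 ≤ T) :
    V₁ < VH g (vert x y T) := by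
  have hcγ : Continuous (vert x y) :=
    continuous_iff_continuousAt.2 fun t => (vert_deriv x y t).continuousAt
  have hcV : Continuous (fun t => VH g (vert x y t)) := by
    rw [continuous_iff_continuousAt]
    intro t
    exact ContinuousAt.comp (g := VH g) (f := vert x y)
      (hg.contV.continuousAt (isOpen_HH.mem_nhds (vert_mem hy t))) hcγ.continuousAt
  have hcK : Continuous (fun t => kap g (vert x y t)) := by
    rw [continuous_iff_continuousAt]
    intro t
    exact ContinuousAt.comp (g := kap g) (f := vert x y)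
      (hg.contK.continuousAt (isOpen_HH.mem_nhds (vert_mem hy t))) hcγ.continuousAt
  set V₀ := VH g (vert x y 0) with hV₀
  set s : Set ℝ := {t | V₀ ≤ VH g (vert x y t) ∧ kap g (vert x y t) ≤ 1 / 4} with hs
  have hsc : IsClosed s := (isClosed_le continuous_const hcV).inter
    (isClosed_le hcK continuous_const)
  have key : Icc (0 : ℝ) T ⊆ s := by
    apply IsClosed.Icc_subset_of_forall_mem_nhdsWithin (hsc.inter isClosed_Icc)
    · exact ⟨le_rfl, hk⟩
    · rintro t ⟨⟨ht1, ht2⟩, -⟩
      have hV1 : V₁ < VH g (vert x y t) := lt_of_lt_of_le hV ht1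
      have hk1 : kap g (vert x y t) < 1 / 4 := by
        by_contra hcon
        push Not at hcon
        exact h4 _ (vert_mem hy t) hV1 ⟨hcon, by linarith⟩
      have e1 : ∀ᶠ t' in 𝓝[>] t, kap g (vert x y t') < 1 / 4 :=
        (hcK.tendsto t).eventually (isOpen_Iio.mem_nhds hk1) |>.filter_mono nhdsWithin_le_nhds
      have hpath := hg.path (vert_deriv x y t) (vert_mem hy t)
      have hpos : 0 < (deriv g (vert x y t) / g (vert x y t) *
          ((-(y * Real.exp (-t)) : ℝ) * Complex.I)).re -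
            (((-(y * Real.exp (-t)) : ℝ) : ℂ) * Complex.I).im / (vert x y t).im := by
        have hym : 0 < y * Real.exp (-t) := by positivity
        have a1 : (((-(y * Real.exp (-t)) : ℝ) : ℂ) * Complex.I).im / (vert x y t).im = -1 := by
          rw [vert_im, Complex.mul_im, Complex.ofReal_re, Complex.ofReal_im, Complex.I_im,
            Complex.I_re]
          field_simp
          ring
        have a2 : |(deriv g (vert x y t) / g (vert x y t) *
          ((-(y * Real.exp (-t)) : ℝ) * Complex.I)).re| ≤ kap g (vert x y t) := by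
          refine (Complex.abs_re_le_norm _).trans (le_of_eq ?_)
          rw [norm_mul, norm_div, norm_mul, Complex.norm_I, Complex.norm_real, norm_neg,
            Real.norm_of_nonneg hym.le, kap, vert_im]
          field_simp
        have a3 := (abs_le.1 a2).1
        rw [a1]
        linarith
      have e2 : ∀ᶠ t' in 𝓝[>] t, VH g (vert x y t) < VH g (vert x y t') := by
        have := (hasDerivAt_iff_tendsto_slope.1 hpath).eventually (isOpen_Ioi.mem_nhds hpos)
        have h5 : ∀ᶠ t' in 𝓝[>] t, 0 < slope (fun s => VH g (vert x y s)) t t' :=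
          this.filter_mono (nhdsWithin_mono _ (fun a ha => ne_of_gt ha))
        filter_upwards [h5, self_mem_nhdsWithin] with t' h6 h7
        rw [slope_def_field] at h6
        have h8 : 0 < t' - t := sub_pos.2 h7
        have := (div_pos_iff_of_pos_right h8).1 h6
        linarith
      filter_upwards [e1, e2] with t' h5 h6
      exact ⟨by linarith, h5.le⟩
  have := key (right_mem_Icc.2 hT)
  exact lt_of_lt_of_le hV this.1

/-- S5: large `V` forces large gradient -/
theorem S5 {ε : ℝ} (hε : 0 < ε) (hg : ClsH g) (h : Hyp g ε) {V₁ : ℝ} (hV₁ : 3 ≤ V₁)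
    (h4 : ∀ p ∈ HH, V₁ < VH g p → ¬ (1 / 4 ≤ kap g p ∧ kap g p ≤ 4)) :
    ∀ p ∈ HH, V₁ < VH g p → 4 < kap g p := by
  intro p hp hVp
  by_contra hcon
  push Not at hcon
  have hk : kap g p < 1 / 4 := by
    by_contra h5
    push Not at h5
    exact h4 p hp hVp ⟨h5, hcon⟩
  have hp' : 0 < p.im := hp
  have hopen : ∀ᶠ z in 𝓝 p, V₁ < VH g z ∧ kap g z < 1 / 4 := by
    have e1 := (hg.contV.continuousAt (isOpen_HH.mem_nhds hp)).eventually
      (isOpen_Ioi.mem_nhds hVp)
    have e2 := (hg.contK.continuousAt (isOpen_HH.mem_nhds hp)).eventually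
      (isOpen_Iio.mem_nhds hk)
    exact e1.and e2
  obtain ⟨r, hr, hball⟩ := Metric.eventually_nhds_iff_ball.1 hopen
  have hd1 := hg.contDeriv
  refine rect_false (F := fun z => deriv (deriv g) z / (deriv g z - 1)) (x₀ := p.re) (a := r / 2)
    (y₀ := p.im) (c := ε / 2) (by positivity) hp' (by positivity) ?_ ?_
  · apply DifferentiableOn.div (hd1.deriv isOpen_HH) (hd1.sub_const 1)
    intro z hz
    exact sub_ne_zero.2 (hg.ne1 z hz)
  · intro z hz h1 h2
    have hz' : 0 < z.im := hz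
    set q : ℂ := z.re + p.im * Complex.I with hq
    have hq0 : vert z.re p.im 0 = q := by simp [vert, hq]
    have hqb : q ∈ ball p r := by
      rw [mem_ball, dist_eq_norm]
      have : q - p = ((z.re - p.re : ℝ) : ℂ) := by
        apply Complex.ext <;> simp [hq]
      rw [this, Complex.norm_real, Real.norm_eq_abs]
      linarith
    have hqb' := hball q hqb
    have hT : 0 ≤ Real.log (p.im / z.im) := Real.log_nonneg (by rw [one_le_div hz']; exact h2)
    have h3 := hg.down h4 (x := z.re) hp' (by rw [hq0]; exact hqb'.1)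
      (by rw [hq0]; exact hqb'.2.le) _ hT
    have h5 : vert z.re p.im (Real.log (p.im / z.im)) = z := by
      apply Complex.ext
      · rw [vert_re]
      · rw [vert_im, Real.exp_neg, Real.exp_log (by positivity)]
        field_simp
    rw [h5] at h3
    have h6 := h.half hg hz (by linarith)
    have h7 : 0 < ‖deriv g z - 1‖ := norm_pos_iff.2 (sub_ne_zero.2 (hg.ne1 z hz))
    rw [norm_div, div_le_div_iff₀ hz' h7]
    linarith

/-- lower bound for `V` in terms of the derivative -/
theorem ClsH.V_ge (hg : ClsH g) {z : ℂ} (hz : z ∈ HH) (h : 1 / 2 ≤ ‖deriv g z‖) :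
    -(2 * Real.log (3 * C0)) ≤ VH g z := by
  have hC := C0_ge
  by_contra hcon
  push Not at hcon
  set x := -VH g z with hx
  have hlog : 0 ≤ Real.log (3 * C0) := Real.log_nonneg (by linarith)
  have hx0 : 0 < x := by linarith
  have hk := hg.kap_le hz
  rw [hg.deriv_norm hz] at h
  have h1 : 1 / 2 ≤ C0 * (1 + x) * Real.exp (-x) := by
    have : |VH g z| = x := by rw [hx, abs_of_neg (by linarith)]
    rw [this] at hk
    have e1 : VH g z = -x := by rw [hx]; ring
    rw [e1] at h
    calc (1 : ℝ) / 2 ≤ kap g z * Real.exp (-x) := h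
      _ ≤ _ := by gcongr
  have h2 : (1 + x) ≤ 3 / 2 * Real.exp (x / 2) := by
    have := Real.quadratic_le_exp_of_nonneg (show 0 ≤ x / 2 by linarith)
    nlinarith [sq_nonneg (x - 2)]
  have h3 : Real.exp (-x) = Real.exp (-(x / 2)) * Real.exp (-(x / 2)) := by
    rw [← Real.exp_add]; ring_nf
  have h4 : Real.exp (x / 2) * Real.exp (-(x / 2)) = 1 := by
    rw [← Real.exp_add]; simp
  have h5 : 1 / 2 ≤ C0 * (3 / 2) * Real.exp (-(x / 2)) := by
    calc 1 / 2 ≤ C0 * (1 + x) * Real.exp (-x) := h1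
      _ ≤ C0 * (3 / 2 * Real.exp (x / 2)) * Real.exp (-x) := by gcongr
      _ = C0 * (3 / 2) * (Real.exp (x / 2) * Real.exp (-(x / 2))) * Real.exp (-(x / 2)) := by
          rw [h3]; ring
      _ = _ := by rw [h4, mul_one]
  have h6 : Real.exp (x / 2) ≤ 3 * C0 := by
    have h7 : 0 < Real.exp (x / 2) := Real.exp_pos _
    calc Real.exp (x / 2) = 2 * Real.exp (x / 2) * (1 / 2) := by ring
      _ ≤ 2 * Real.exp (x / 2) * (C0 * (3 / 2) * Real.exp (-(x / 2))) := by gcongr
      _ = 3 * C0 * (Real.exp (x / 2) * Real.exp (-(x / 2))) := by ring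
      _ = 3 * C0 := by rw [h4, mul_one]
  have h7 : x / 2 ≤ Real.log (3 * C0) := by
    rw [Real.le_log_iff_exp_le (by linarith)]; exact h6
  linarith

/-- two test points near the real axis -/
theorem S6_pts (hg : ClsH g) {V₁ s y : ℝ} {z : ℂ} (hy : 0 < y) (hyd : y = z.im)
    (hs0 : 0 < s) (hs1 : s ≤ 1 / 16) (hsV : Real.exp V₁ * s = 1 / 4)
    (hbig : ∀ w ∈ HH, V₁ < VH g w → 4 < ‖deriv g w‖)
    (hsmall : ∀ w : ℂ, ‖w - z‖ ≤ (1 - s ^ 2) * y → ‖deriv g w - 1‖ ≤ 1 / 10) : False := by
  -- the two test points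
  set a : ℂ := ((z.re + s * y : ℝ) : ℂ) + ((2 * s ^ 2 * y : ℝ) : ℂ) * Complex.I with ha
  set b : ℂ := ((z.re - s * y : ℝ) : ℂ) + ((2 * s ^ 2 * y : ℝ) : ℂ) * Complex.I with hb
  have hs3 : s ^ 2 ≤ 1 / 16 := by nlinarith
  have hs2 : (1 - 2 * s ^ 2) ^ 2 + s ^ 2 ≤ (1 - s ^ 2) ^ 2 := by
    nlinarith [mul_nonneg (sq_nonneg s) (show 0 ≤ 1 - 3 * s ^ 2 by linarith)]
  have hcl : ∀ t : ℝ, |t| = s → ‖(((z.re + t * y : ℝ) : ℂ) + ((2 * s ^ 2 * y : ℝ) : ℂ) * Complex.I)
      - z‖ ≤ (1 - s ^ 2) * y := by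
    intro t ht
    have e1 : t ^ 2 = s ^ 2 := by rw [← sq_abs, ht]
    have e0 : 0 ≤ (1 - s ^ 2) * y := by apply mul_nonneg _ hy.le; linarith
    rw [← abs_of_nonneg (norm_nonneg _), ← abs_of_nonneg e0]
    apply sq_le_sq.1
    rw [Complex.sq_norm, Complex.normSq_apply]
    simp only [Complex.sub_re, Complex.sub_im, Complex.add_re, Complex.add_im, Complex.mul_re,
      Complex.mul_im, Complex.ofReal_re, Complex.ofReal_im, Complex.I_re, Complex.I_im]
    rw [← hyd]
    calc _ = (t ^ 2 + (1 - 2 * s ^ 2) ^ 2) * y ^ 2 := by ring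
      _ = ((1 - 2 * s ^ 2) ^ 2 + s ^ 2) * y ^ 2 := by rw [e1]; ring
      _ ≤ (1 - s ^ 2) ^ 2 * y ^ 2 := by gcongr
      _ = _ := by ring
  have hca : ‖a - z‖ ≤ (1 - s ^ 2) * y := hcl s (abs_of_pos hs0)
  have hcb : ‖b - z‖ ≤ (1 - s ^ 2) * y := by
    have := hcl (-s) (by rw [abs_neg, abs_of_pos hs0])
    have e : z.re + -s * y = z.re - s * y := by ring
    rw [e] at this
    exact this
  have haH : a ∈ HH := by
    show 0 < a.im
    simp only [ha, Complex.add_im, Complex.mul_im, Complex.ofReal_re, Complex.ofReal_im,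
      Complex.I_re, Complex.I_im]
    ring_nf; positivity
  have hbH : b ∈ HH := by
    show 0 < b.im
    simp only [hb, Complex.add_im, Complex.mul_im, Complex.ofReal_re, Complex.ofReal_im,
      Complex.I_re, Complex.I_im]
    ring_nf; positivity
  have haim : a.im = 2 * s ^ 2 * y := by
    simp only [ha, Complex.add_im, Complex.mul_im, Complex.ofReal_re, Complex.ofReal_im,
      Complex.I_re, Complex.I_im]
    ring
  have hbim : b.im = 2 * s ^ 2 * y := by
    simp only [hb, Complex.add_im, Complex.mul_im, Complex.ofReal_re, Complex.ofReal_im,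
      Complex.I_re, Complex.I_im]
    ring
  have hab : a - b = ((2 * s * y : ℝ) : ℂ) := by
    simp only [ha, hb]; push_cast; ring
  -- mean value inequality
  have hmv : ‖(g a - a) - (g b - b)‖ ≤ 1 / 10 * ‖a - b‖ := by
    have hconv : Convex ℝ (closedBall z ((1 - s ^ 2) * y)) := convex_closedBall _ _
    have hsub2 : closedBall z ((1 - s ^ 2) * y) ⊆ HH := by
      intro w hw
      have hsq : 0 < s ^ 2 := by positivity
      apply ball_sub_HH (z := z) (ρ := y) hyd.le
      rw [mem_closedBall, dist_eq_norm] at hw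
      rw [mem_ball, dist_eq_norm]; nlinarith
    refine hconv.norm_image_sub_le_of_norm_hasDerivWithin_le (f := fun w => g w - w)
      (f' := fun w => deriv g w - 1) ?_ ?_ ?_ ?_
    · intro w hw
      have := (hg.diff.differentiableAt (isOpen_HH.mem_nhds (hsub2 hw))).hasDerivAt
      exact (this.sub (hasDerivAt_id w)).hasDerivWithinAt
    · intro w hw
      rw [mem_closedBall, dist_eq_norm] at hw
      exact hsmall w hw
    · rw [mem_closedBall, dist_eq_norm]; exact hcb
    · rw [mem_closedBall, dist_eq_norm]; exact hca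
  have hnab : ‖a - b‖ = 2 * s * y := by
    rw [hab, Complex.norm_real, Real.norm_of_nonneg (by positivity)]
  rw [hnab] at hmv
  have hsum : 18 / 10 * (s * y) ≤ ‖g a‖ + ‖g b‖ := by
    have e1 : (a - b) = (g a - g b) - ((g a - a) - (g b - b)) := by ring
    have e2 : ‖a - b‖ ≤ ‖g a - g b‖ + ‖(g a - a) - (g b - b)‖ := by
      calc ‖a - b‖ = ‖(g a - g b) - ((g a - a) - (g b - b))‖ := by rw [← e1]
        _ ≤ _ := norm_sub_le _ _
    have e3 : ‖g a - g b‖ ≤ ‖g a‖ + ‖g b‖ := norm_sub_le _ _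
    rw [hnab] at e2
    linarith
  have hfin : ∀ w ∈ HH, w.im = 2 * s ^ 2 * y → ‖w - z‖ ≤ (1 - s ^ 2) * y → 9 / 10 * (s * y) ≤ ‖g w‖ →
      False := by
    intro w hw him hcl hgw
    have h1 : V₁ < VH g w := by
      rw [VH, Real.lt_log_iff_exp_lt (div_pos (hg.norm_pos hw) hw), him,
        lt_div_iff₀ (by positivity)]
      calc Real.exp V₁ * (2 * s ^ 2 * y) = (Real.exp V₁ * s) * (2 * s * y) := by ring
        _ = 1 / 2 * (s * y) := by rw [hsV]; ring
        _ < 9 / 10 * (s * y) := by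
            have : 0 < s * y := by positivity
            linarith
        _ ≤ _ := hgw
    have h2 := hbig w hw h1
    have h3 := hsmall w hcl
    have h4 := norm_sub_norm_le (deriv g w) 1
    rw [norm_one] at h4
    linarith
  rcases le_total (9 / 10 * (s * y)) ‖g a‖ with h | h
  · exact hfin a haH haim hca h
  · exact hfin b hbH hbim hcb (by linarith)

/-- S6: the derivative stays away from one -/
theorem S6 (hg : ClsH g) {V₁ : ℝ} (hV₁ : 3 ≤ V₁)
    (h5 : ∀ p ∈ HH, V₁ < VH g p → 4 < kap g p) :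
    ∃ μ : ℝ, 0 < μ ∧ ∀ z ∈ HH, μ ≤ ‖deriv g z - 1‖ := by
  have hC := C0_ge
  have hC2 := C2_pos
  set s : ℝ := Real.exp (-V₁) / 4 with hs
  have hs0 : 0 < s := by positivity
  have hs1 : s ≤ 1 / 16 := by
    have h1 : Real.exp (-V₁) ≤ 1 / 4 := by
      rw [Real.exp_neg, inv_le_comm₀ (Real.exp_pos _) (by norm_num)]
      have := Real.add_one_le_exp V₁
      norm_num
      linarith
    rw [hs]; linarith
  have hsV : Real.exp V₁ * s = 1 / 4 := by
    rw [hs, Real.exp_neg]
    have := Real.exp_pos V₁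
    field_simp
  set η : ℝ := s ^ 2 with hη
  have hη0 : 0 < η := by positivity
  have hη1 : η ≤ 1 / 2 := by rw [hη]; nlinarith
  set V₂ : ℝ := V₁ + 2 * Real.log (3 * C0) with hV₂
  have hlog : 0 ≤ Real.log (3 * C0) := Real.log_nonneg (by linarith)
  have hV₂0 : 0 ≤ V₂ := by linarith
  set M₃ : ℝ := Real.exp (NN V₂ + C2 * (2 / η)) with hM₃
  have hM₃0 : 0 < M₃ := Real.exp_pos _
  set M₄ : ℝ := C0 * (1 + M₃) * Real.exp M₃ + 1 with hM₄
  have hM₄1 : 1 ≤ M₄ := by
    rw [hM₄]; have : 0 ≤ C0 * (1 + M₃) * Real.exp M₃ := by positivity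
    linarith
  have hM₄0 : 0 < M₄ := by linarith
  set μ : ℝ := min (1 / 2) (M₄ * Real.exp (-(4 / η * Real.log (10 * M₄)))) with hμ
  have hμ0 : 0 < μ := lt_min (by norm_num) (by positivity)
  refine ⟨μ, hμ0, ?_⟩
  intro z hz
  by_contra hcon
  push Not at hcon
  have hy : 0 < z.im := hz
  set y := z.im with hyd
  have hμ1 : ‖deriv g z - 1‖ < 1 / 2 := lt_of_lt_of_le hcon (min_le_left _ _)
  have hμ2 : ‖deriv g z - 1‖ < M₄ * Real.exp (-(4 / η * Real.log (10 * M₄))) :=
    lt_of_lt_of_le hcon (min_le_right _ _)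
  have hpos1 : 0 < ‖deriv g z - 1‖ := norm_pos_iff.2 (sub_ne_zero.2 (hg.ne1 z hz))
  have hbig : ∀ w ∈ HH, V₁ < VH g w → 4 < ‖deriv g w‖ := by
    intro w hw hV
    have h1 := h5 w hw hV
    rw [hg.deriv_norm hw]
    have h2 : 1 ≤ Real.exp (VH g w) := Real.one_le_exp (by linarith)
    nlinarith
  have hgz : ‖deriv g z‖ ≤ 2 := by
    have := norm_sub_norm_le (deriv g z) 1
    rw [norm_one] at this; linarith
  have hgz' : 1 / 2 ≤ ‖deriv g z‖ := by
    have := norm_sub_norm_le (1 : ℂ) (1 - deriv g z)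
    rw [norm_one, sub_sub_cancel, norm_sub_rev] at this; linarith
  have hVz : |VH g z| ≤ V₂ := by
    rw [abs_le]
    constructor
    · have := hg.V_ge hz hgz'
      linarith
    · by_contra h6
      push Not at h6
      have := hbig z hz (by linarith)
      linarith
  have hNz : NN (VH g z) ≤ NN V₂ := by
    unfold NN
    have h1 : VH g z ^ 2 ≤ V₂ ^ 2 := by
      rw [← sq_abs (VH g z)]; exact pow_le_pow_left₀ (abs_nonneg _) hVz 2
    have := Real.log_le_log (show (0 : ℝ) < 1 + VH g z ^ 2 by positivity)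
      (show 1 + VH g z ^ 2 ≤ 1 + V₂ ^ 2 by linarith)
    linarith
  set ρ : ℝ := (1 - η / 2) * y with hρ
  have hρ0 : 0 < ρ := by rw [hρ]; apply mul_pos _ hy; linarith
  have hρy : ρ ≤ y := by rw [hρ]; nlinarith
  have hsub : ball z ρ ⊆ HH := ball_sub_HH hρy
  have hbd : ∀ w ∈ ball z ρ, ‖deriv g w - 1‖ ≤ M₄ := by
    intro w hw
    have hwH := hsub hw
    have hw1 : ‖w - z‖ < ρ := by rwa [mem_ball, dist_eq_norm] at hw
    have hwim : η / 2 * y ≤ w.im := by
      have := Complex.abs_im_le_norm (w - z)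
      rw [Complex.sub_im] at this
      have := (abs_le.1 this).1
      have e : η / 2 * y = y - ρ := by rw [hρ]; ring
      rw [e]; linarith
    have hmin : η / 2 * y ≤ min z.im w.im := le_min (by rw [← hyd]; nlinarith) hwim
    have hdist : ‖w - z‖ / min z.im w.im ≤ 2 / η := by
      calc ‖w - z‖ / min z.im w.im ≤ y / (η / 2 * y) := by
            apply div_le_div₀ hy.le (by linarith) (by positivity) hmin
        _ = 2 / η := by field_simp
    have h1 := hg.seg_N hz hwH
    have h2 : NN (VH g w) ≤ NN V₂ + C2 * (2 / η) := by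
      have e1 := (abs_le.1 h1).2
      have e2 : C2 * (‖w - z‖ / min z.im w.im) ≤ C2 * (2 / η) := by gcongr
      linarith
    have h3 : |VH g w| ≤ M₃ := (abs_le_exp_NN _).trans (Real.exp_le_exp.2 h2)
    have h4 : ‖deriv g w‖ ≤ C0 * (1 + M₃) * Real.exp M₃ := by
      rw [hg.deriv_norm hwH]
      have h6 := hg.kap_le hwH
      have h7 : VH g w ≤ M₃ := (le_abs_self _).trans h3
      calc kap g w * Real.exp (VH g w) ≤ (C0 * (1 + |VH g w|)) * Real.exp (VH g w) := by gcongr
        _ ≤ C0 * (1 + M₃) * Real.exp M₃ := by gcongr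
    calc ‖deriv g w - 1‖ ≤ ‖deriv g w‖ + ‖(1 : ℂ)‖ := norm_sub_le _ _
      _ ≤ M₄ := by rw [norm_one, hM₄]; linarith
  have hd1 := hg.contDeriv
  have hsmall : ∀ w : ℂ, ‖w - z‖ ≤ (1 - η) * y → ‖deriv g w - 1‖ ≤ 1 / 10 := by
    intro w hw
    have hwb : w ∈ ball z ρ := by
      rw [mem_ball, dist_eq_norm, hρ]; nlinarith
    have hwH := hsub hwb
    have h1 := zf_harnack hM₄0 (f := fun w => deriv g w - 1) (c := z) (ρ := ρ)
      ((hd1.sub_const 1).mono hsub) (fun w hw => sub_ne_zero.2 (hg.ne1 w (hsub hw))) hbd hwb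
    have h2 : η / 4 ≤ (ρ - ‖w - z‖) / (ρ + ‖w - z‖) := by
      rw [div_le_div_iff₀ (by norm_num) (by positivity)]
      have e1 : (η / 2) * y ≤ ρ - ‖w - z‖ := by rw [hρ]; linarith
      have e2 : ρ + ‖w - z‖ ≤ 2 * y := by nlinarith
      nlinarith
    have h3 : 4 / η * Real.log (10 * M₄) ≤ Real.log (M₄ / ‖deriv g z - 1‖) := by
      rw [Real.le_log_iff_exp_le (by positivity), le_div_iff₀ hpos1]
      have e1 := mul_le_mul_of_nonneg_left hμ2.le
        (Real.exp_pos (4 / η * Real.log (10 * M₄))).le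
      calc Real.exp (4 / η * Real.log (10 * M₄)) * ‖deriv g z - 1‖ ≤ _ := e1
        _ = M₄ * (Real.exp (4 / η * Real.log (10 * M₄)) *
              Real.exp (-(4 / η * Real.log (10 * M₄)))) := by ring
        _ = M₄ := by rw [← Real.exp_add]; simp
    have hl10 : 0 ≤ Real.log (10 * M₄) := Real.log_nonneg (by linarith)
    have h4 : Real.log (10 * M₄) ≤ Real.log (M₄ / ‖deriv g w - 1‖) := by
      calc Real.log (10 * M₄) = η / 4 * (4 / η * Real.log (10 * M₄)) := by field_simp
        _ ≤ (ρ - ‖w - z‖) / (ρ + ‖w - z‖) * Real.log (M₄ / ‖deriv g z - 1‖) := by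
            apply mul_le_mul h2 h3 (by positivity)
            exact le_trans (by positivity) h2
        _ ≤ _ := h1
    have hpw : 0 < ‖deriv g w - 1‖ := norm_pos_iff.2 (sub_ne_zero.2 (hg.ne1 w hwH))
    have h6 := (Real.log_le_log_iff (by positivity) (by positivity)).1 h4
    rw [le_div_iff₀ hpw] at h6
    have h7 : M₄ * (10 * ‖deriv g w - 1‖) ≤ M₄ * 1 := by linarith
    have := le_of_mul_le_mul_left h7 hM₄0
    linarith
  exact S6_pts hg hy hyd hs0 hs1 hsV hbig hsmall

/-- rigidity -/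
theorem rigid {ε : ℝ} (hε : 0 < ε) (hg : ClsH g) : ¬ Hyp g ε := by
  intro h
  obtain ⟨V₁, hV₁, h4⟩ := S4 hε hg h
  have h5 := S5 hε hg h hV₁ h4
  obtain ⟨μ, hμ, h6⟩ := S6 hg hV₁ h5
  have hd1 := hg.contDeriv
  set c : ℝ := min 1 (μ * Real.exp (-V₁)) with hc
  have hc0 : 0 < c := lt_min one_pos (by positivity)
  refine rect_false (F := fun z => (deriv g z - 1) / g z) (x₀ := 0) (a := 1)
    (y₀ := 1) (c := c) one_pos one_pos hc0 ?_ ?_
  · exact (hd1.sub_const 1).div hg.diff hg.ne0
  · intro z hz _ _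
    have hy : 0 < z.im := hz
    have hgp := hg.norm_pos hz
    rw [norm_div, div_le_div_iff₀ hy hgp]
    rcases le_or_gt (VH g z) V₁ with hV | hV
    · have h7 : ‖g z‖ ≤ z.im * Real.exp V₁ := by
        rw [hg.norm_eq hz]; gcongr
      calc c * ‖g z‖ ≤ (μ * Real.exp (-V₁)) * (z.im * Real.exp V₁) := by
            gcongr; exact min_le_right _ _
        _ = μ * z.im * (Real.exp (-V₁) * Real.exp V₁) := by ring
        _ = μ * z.im := by rw [← Real.exp_add]; simp
        _ ≤ _ := by gcongr; exact h6 z hz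
    · have h7 := h5 z hz hV
      have h8 : 4 < ‖deriv g z‖ := by
        rw [hg.deriv_norm hz]
        have h2 : 1 ≤ Real.exp (VH g z) := Real.one_le_exp (by linarith)
        nlinarith
      have h9 : 4 * ‖g z‖ < z.im * ‖deriv g z‖ := by
        rw [kap, lt_div_iff₀ hgp] at h7
        exact h7
      have h10 := norm_sub_norm_le (deriv g z) 1
      rw [norm_one] at h10
      have h11 : 3 / 4 * ‖deriv g z‖ ≤ ‖deriv g z - 1‖ := by linarith
      have hc1 : c ≤ 1 := min_le_left _ _
      calc c * ‖g z‖ ≤ 1 * ‖g z‖ := by gcongr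
        _ ≤ (3 / 4 * ‖deriv g z‖) * z.im := by nlinarith
        _ ≤ _ := by gcongr

end Pool.Agent.SS
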