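import Pool.Agent.Lib52.SS.PolarDefs

/-!
Taylor formula with integral remainder for the circular means of a function of
log-polar coordinates.
-/

set_option autoImplicit false

open Set Metric Filter MeasureTheory
open scoped Topology Real ComplexConjugate

namespace Pool.Agent.SSP

open Pool.Agent.SS

/-- joint continuity on the half plane `τ > 0` -/
def HC (w : ℝ → ℝ → ℝ) : Prop := ContinuousOn (fun p : ℝ × ℝ => w p.1 p.2) {p | 0 < p.1}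

theorem HC.slice {w : ℝ → ℝ → ℝ} (hw : HC w) {τ : ℝ} (hτ : 0 < τ) : Continuous (w τ) := by
  have h : ContinuousOn ((fun p : ℝ × ℝ => w p.1 p.2) ∘ fun θ : ℝ => (τ, θ)) univ :=
    ContinuousOn.comp hw (by fun_prop) (fun θ _ => hτ)
  exact continuousOn_univ.1 h

theorem HC.ii {w : ℝ → ℝ → ℝ} (hw : HC w) {τ : ℝ} (hτ : 0 < τ) (a b : ℝ) :
    IntervalIntegrable (w τ) volume a b := (hw.slice hτ).intervalIntegrable a b

theorem HC.mean {w : ℝ → ℝ → ℝ} (hw : HC w) :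
    ContinuousOn (fun τ => ∫ θ in (0 : ℝ)..2 * π, w τ θ) (Ioi 0) := by
  intro τ₀ hτ₀
  have hτ₀' : (0 : ℝ) < τ₀ := hτ₀
  have h1 : Continuous (Function.uncurry fun τ θ : ℝ => w (max τ (τ₀ / 2)) θ) := by
    have h : ContinuousOn ((fun p : ℝ × ℝ => w p.1 p.2) ∘
        fun p : ℝ × ℝ => (max p.1 (τ₀ / 2), p.2)) univ :=
      ContinuousOn.comp hw (by fun_prop) (fun p _ => lt_of_lt_of_le (by positivity)
        (le_max_right p.1 (τ₀ / 2)))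
    exact continuousOn_univ.1 h
  have h2 := intervalIntegral.continuous_parametric_intervalIntegral_of_continuous'
    (μ := volume) h1 0 (2 * π)
  have h3 : (fun τ => ∫ θ in (0 : ℝ)..2 * π, w τ θ) =ᶠ[𝓝 τ₀]
      fun τ => ∫ θ in (0 : ℝ)..2 * π, w (max τ (τ₀ / 2)) θ := by
    filter_upwards [Ioi_mem_nhds (show τ₀ / 2 < τ₀ by linarith)] with τ hτ
    rw [max_eq_left (le_of_lt hτ)]
  exact (h2.continuousAt.congr h3.symm).continuousWithinAt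

theorem HC.hasDerivAt_mean {w w1 : ℝ → ℝ → ℝ} (hw : HC w) (hw1 : HC w1)
    (hd : ∀ τ, 0 < τ → ∀ θ, HasDerivAt (fun t => w t θ) (w1 τ θ) τ) {τ : ℝ} (hτ : 0 < τ) :
    HasDerivAt (fun τ => ∫ θ in (0 : ℝ)..2 * π, w τ θ) (∫ θ in (0 : ℝ)..2 * π, w1 τ θ) τ := by
  have hcomp : IsCompact (Icc (τ / 2) (3 * τ / 2) ×ˢ Icc (0 : ℝ) (2 * π)) :=
    isCompact_Icc.prod isCompact_Icc
  obtain ⟨B, hB⟩ := hcomp.exists_bound_of_continuousOn
    (hw1.mono (fun p hp => lt_of_lt_of_le (half_pos hτ) hp.1.1))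
  refine (intervalIntegral.hasDerivAt_integral_of_dominated_loc_of_deriv_le
    (bound := fun _ => B) (s := Ioo (τ / 2) (3 * τ / 2))
    (Ioo_mem_nhds (by linarith) (by linarith)) ?_ (hw.ii hτ _ _) ?_ ?_ ?_ ?_).2
  · filter_upwards [Ioi_mem_nhds hτ] with t ht
    exact (hw.slice ht).aestronglyMeasurable
  · exact (hw1.slice hτ).aestronglyMeasurable
  · refine Eventually.of_forall fun θ hθ x hx => ?_
    rw [uIoc_of_le (by positivity)] at hθ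
    exact hB (x, θ) ⟨⟨hx.1.le, hx.2.le⟩, ⟨hθ.1.le, hθ.2⟩⟩
  · exact intervalIntegrable_const
  · refine Eventually.of_forall fun θ _ x hx => ?_
    exact hd x (lt_trans (half_pos hτ) hx.1) θ

theorem taylor_mean (u u1 u2 v1 v2 : ℝ → ℝ → ℝ) (hu : HC u) (hu1 : HC u1) (hu2 : HC u2)
    (hv2 : HC v2)
    (d1 : ∀ τ, 0 < τ → ∀ θ, HasDerivAt (fun t => u t θ) (u1 τ θ) τ)
    (d2 : ∀ τ, 0 < τ → ∀ θ, HasDerivAt (fun t => u1 t θ) (u2 τ θ) τ)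
    (e2 : ∀ τ, 0 < τ → ∀ θ, HasDerivAt (fun t => v1 τ t) (v2 τ θ) θ)
    (per : ∀ τ, 0 < τ → v1 τ (2 * π) = v1 τ 0) {τ₁ : ℝ} (hτ : 0 < τ₁) (hτ1 : τ₁ ≤ 1) :
    (∫ θ in (0 : ℝ)..2 * π, u τ₁ θ) = (∫ θ in (0 : ℝ)..2 * π, u 1 θ)
      + (τ₁ - 1) * (∫ θ in (0 : ℝ)..2 * π, u1 1 θ)
      + ∫ τ in τ₁..1, (τ - τ₁) * ∫ θ in (0 : ℝ)..2 * π, (u2 τ θ + v2 τ θ) := by
  have hm : ∀ τ, 0 < τ → ∫ θ in (0 : ℝ)..2 * π, (u2 τ θ + v2 τ θ) =
      ∫ θ in (0 : ℝ)..2 * π, u2 τ θ := by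
    intro τ ht
    rw [intervalIntegral.integral_add (hu2.ii ht _ _) (hv2.ii ht _ _),
      intervalIntegral.integral_eq_sub_of_hasDerivAt (fun θ _ => e2 τ ht θ) (hv2.ii ht _ _),
      per τ ht, sub_self, add_zero]
  have hpos : ∀ τ ∈ uIcc τ₁ 1, 0 < τ := by
    intro τ ht
    rw [uIcc_of_le hτ1] at ht
    exact lt_of_lt_of_le hτ ht.1
  have h1 : ∫ τ in τ₁..1, (τ - τ₁) * ∫ θ in (0 : ℝ)..2 * π, (u2 τ θ + v2 τ θ) =
      ∫ τ in τ₁..1, (τ - τ₁) * ∫ θ in (0 : ℝ)..2 * π, u2 τ θ := by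
    refine intervalIntegral.integral_congr fun τ ht => ?_
    show (τ - τ₁) * _ = (τ - τ₁) * _
    rw [hm τ (hpos τ ht)]
  have h2 : ∫ τ in τ₁..1, (τ - τ₁) * ∫ θ in (0 : ℝ)..2 * π, u2 τ θ =
      ((1 - τ₁) * (∫ θ in (0 : ℝ)..2 * π, u1 1 θ) - ∫ θ in (0 : ℝ)..2 * π, u 1 θ) -
      ((τ₁ - τ₁) * (∫ θ in (0 : ℝ)..2 * π, u1 τ₁ θ) - ∫ θ in (0 : ℝ)..2 * π, u τ₁ θ) := by
    refine intervalIntegral.integral_eq_sub_of_hasDerivAt
      (f := fun τ => (τ - τ₁) * (∫ θ in (0 : ℝ)..2 * π, u1 τ θ) -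
        ∫ θ in (0 : ℝ)..2 * π, u τ θ) (fun τ ht => ?_) ?_
    · have ht' := hpos τ ht
      have a1 := hu.hasDerivAt_mean hu1 d1 ht'
      have a2 := hu1.hasDerivAt_mean hu2 d2 ht'
      have a3 := (((hasDerivAt_id τ).sub_const τ₁).mul a2).sub a1
      refine a3.congr_deriv ?_
      simp
    · refine ContinuousOn.intervalIntegrable ?_
      refine ContinuousOn.mul (by fun_prop) ?_
      exact hu2.mean.mono fun τ ht => hpos τ ht
  rw [h1, h2]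
  ring

end Pool.Agent.SSP
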