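import Pool.Agent.Lib52.SS.Rigid2
import Pool.Agent.Lib52.SP.Ultra

set_option autoImplicit false

open Set Metric Filter
open scoped Topology

namespace Pool.Agent.SS

/-- uniform local bounds on the half plane -/
def LocB (G : ℕ → ℂ → ℂ) : Prop :=
  ∀ ζ₀ ∈ HH, ∃ M : ℝ, ∀ n, ∀ ζ ∈ ball ζ₀ (ζ₀.im / 2), ‖G n ζ‖ ≤ M

theorem half_ball_sub {ζ₀ : ℂ} (h : ζ₀ ∈ HH) : ball ζ₀ (ζ₀.im / 2) ⊆ HH := by
  have : 0 < ζ₀.im := h
  exact ball_sub_HH (by linarith)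

theorem ultra_lim (U : Ultrafilter ℕ) {a : ℕ → ℂ} {M : ℝ} (h : ∀ n, ‖a n‖ ≤ M) :
    ∃ l, Tendsto a U (𝓝 l) := by
  obtain ⟨l, -, hl⟩ := (isCompact_closedBall (0 : ℂ) M).ultrafilter_le_nhds (U.map a) (by
    rw [le_principal_iff]
    show ∀ᶠ n in (U : Filter ℕ), a n ∈ closedBall (0 : ℂ) M
    refine Filter.Eventually.of_forall fun n => ?_
    rw [mem_closedBall, dist_zero_right]; exact h n)
  exact ⟨l, hl⟩

theorem ultra_holo (U : Ultrafilter ℕ) {G : ℕ → ℂ → ℂ} (hd : ∀ n, DifferentiableOn ℂ (G n) HH)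
    (hb : LocB G) :
    ∃ g : ℂ → ℂ, (∀ ζ ∈ HH, Tendsto (fun n => G n ζ) U (𝓝 (g ζ))) ∧ DifferentiableOn ℂ g HH ∧
      ∀ ζ ∈ HH, Tendsto (fun n => deriv (G n) ζ) U (𝓝 (deriv g ζ)) := by
  have h1 : ∀ ζ : ℂ, ∃ l, ζ ∈ HH → Tendsto (fun n => G n ζ) U (𝓝 l) := by
    intro ζ
    by_cases hζ : ζ ∈ HH
    · obtain ⟨M, hM⟩ := hb ζ hζ
      have h0 : 0 < ζ.im := hζ
      obtain ⟨l, hl⟩ := ultra_lim U (a := fun n => G n ζ) (M := M)
        (fun n => hM n ζ (mem_ball_self (by linarith)))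
      exact ⟨l, fun _ => hl⟩
    · exact ⟨0, fun h => absurd h hζ⟩
  choose g hg using h1
  have key : ∀ ζ₀ ∈ HH, ∃ D : ℂ, HasDerivAt g D ζ₀ ∧
      Tendsto (fun n => deriv (G n) ζ₀) U (𝓝 D) := by
    intro ζ₀ hζ₀
    have h0 : 0 < ζ₀.im := hζ₀
    obtain ⟨M, hM⟩ := hb ζ₀ hζ₀
    set R := ζ₀.im / 2 with hR
    have hR0 : 0 < R := by positivity
    have hsub : ball ζ₀ R ⊆ HH := half_ball_sub hζ₀
    have hdb : ∀ n, ‖deriv (G n) ζ₀‖ ≤ 2 * M / R := by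
      intro n
      rw [norm_deriv_eq_norm_fderiv]
      exact SP.norm_fderiv_le_of_bound hR0 ((hd n).mono hsub) (hM n)
    obtain ⟨D, hD⟩ := ultra_lim U hdb
    refine ⟨D, ?_, hD⟩
    have hq : HasFDerivAt g (ContinuousLinearMap.toSpanSingleton ℂ D) ζ₀ := by
      refine SP.hasFDerivAt_of_quad hR0 (C := 4 * M / R ^ 2) ?_
      intro z hz
      have t1 : Tendsto (fun n => ‖G n z - G n ζ₀ - (z - ζ₀) * deriv (G n) ζ₀‖) U
          (𝓝 ‖g z - g ζ₀ - (z - ζ₀) * D‖) :=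
        (((hg z (hsub hz)).sub (hg ζ₀ hζ₀)).sub (hD.const_mul _)).norm
      have e : (ContinuousLinearMap.toSpanSingleton ℂ D) (z - ζ₀) = (z - ζ₀) * D := by
        simp
      rw [e]
      apply le_of_tendsto t1
      refine Filter.Eventually.of_forall fun n => ?_
      have := SP.quad_bound hR0 ((hd n).mono hsub) (hM n) z hz
      have e2 : fderiv ℂ (G n) ζ₀ (z - ζ₀) = (z - ζ₀) * deriv (G n) ζ₀ := by
        rw [← smul_eq_mul, ← fderiv_eq_smul_deriv]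
      rw [e2] at this
      exact this
    exact hq.hasDerivAt.congr_deriv (by simp)
  refine ⟨g, hg, ?_, ?_⟩
  · intro ζ hζ
    obtain ⟨D, hD, -⟩ := key ζ hζ
    exact hD.differentiableAt.differentiableWithinAt
  · intro ζ hζ
    obtain ⟨D, hD, hD2⟩ := key ζ hζ
    rw [hD.deriv]
    exact hD2

/-- a Hurwitz type statement along an ultrafilter -/
theorem hurwitz (U : Ultrafilter ℕ) {G : ℕ → ℂ → ℂ} {g : ℂ → ℂ}
    (hd : ∀ n, DifferentiableOn ℂ (G n) HH) (hb : LocB G)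
    (hlim : ∀ ζ ∈ HH, Tendsto (fun n => G n ζ) U (𝓝 (g ζ))) (hg : DifferentiableOn ℂ g HH)
    (hne : ∀ ζ₀ ∈ HH, ∀ᶠ n in (U : Filter ℕ), ∀ ζ ∈ ball ζ₀ (ζ₀.im / 2), G n ζ ≠ 0) :
    (∀ ζ ∈ HH, g ζ ≠ 0) ∨ (∀ ζ ∈ HH, g ζ = 0) := by
  by_cases hz : ∀ ζ ∈ HH, g ζ ≠ 0
  · exact Or.inl hz
  right
  push Not at hz
  obtain ⟨ζ₀, hζ₀, h0⟩ := hz
  have him : 0 < ζ₀.im := hζ₀
  obtain ⟨M', hM'⟩ := hb ζ₀ hζ₀
  set M := max M' 1 with hMd
  have hM0 : 0 < M := lt_max_of_lt_right one_pos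
  have hM : ∀ n, ∀ ζ ∈ ball ζ₀ (ζ₀.im / 2), ‖G n ζ‖ ≤ M := fun n ζ h =>
    (hM' n ζ h).trans (le_max_left _ _)
  set R := ζ₀.im / 2 with hR
  have hR0 : 0 < R := by positivity
  have hsub : ball ζ₀ R ⊆ HH := half_ball_sub hζ₀
  have hz2 : ∀ ζ ∈ ball ζ₀ (R / 2), g ζ = 0 := by
    intro ζ hζ
    have hζR : ζ ∈ ball ζ₀ R := ball_subset_ball (by linarith) hζ
    have hζd : ‖ζ - ζ₀‖ < R / 2 := by rwa [mem_ball, dist_eq_norm] at hζ
    have t1 : Tendsto (fun n => ‖G n ζ‖ ^ 3) U (𝓝 (‖g ζ‖ ^ 3)) :=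
      ((hlim ζ (hsub hζR)).norm).pow 3
    have t2 : Tendsto (fun n => M ^ 2 * ‖G n ζ₀‖) U (𝓝 (M ^ 2 * ‖g ζ₀‖)) :=
      (hlim ζ₀ hζ₀).norm.const_mul _
    have h3 : ‖g ζ‖ ^ 3 ≤ M ^ 2 * ‖g ζ₀‖ := by
      apply le_of_tendsto_of_tendsto t1 t2
      filter_upwards [hne ζ₀ hζ₀] with n hn
      have h4 := zf_harnack hM0 ((hd n).mono hsub) hn (hM n) hζR
      have ha := norm_pos_iff.2 (hn ζ₀ (mem_ball_self hR0))
      have hb := norm_pos_iff.2 (hn ζ hζR)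
      have h5 : 1 / 3 ≤ (R - ‖ζ - ζ₀‖) / (R + ‖ζ - ζ₀‖) := by
        rw [div_le_div_iff₀ (by norm_num) (by positivity)]
        linarith
      have h6 : 0 ≤ Real.log (M / ‖G n ζ₀‖) := by
        apply Real.log_nonneg
        rw [one_le_div ha]
        exact hM n ζ₀ (mem_ball_self hR0)
      have h7 : 1 / 3 * Real.log (M / ‖G n ζ₀‖) ≤ Real.log (M / ‖G n ζ‖) :=
        (mul_le_mul_of_nonneg_right h5 h6).trans h4
      rw [Real.log_div hM0.ne' ha.ne', Real.log_div hM0.ne' hb.ne'] at h7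
      have h8 : Real.log (‖G n ζ‖ ^ 3) ≤ Real.log (M ^ 2 * ‖G n ζ₀‖) := by
        rw [Real.log_pow, Real.log_mul (by positivity) ha.ne', Real.log_pow]
        push_cast
        linarith
      exact (Real.log_le_log_iff (by positivity) (by positivity)).1 h8
    rw [h0, norm_zero, mul_zero] at h3
    have h4 : ‖g ζ‖ = 0 := by
      by_contra hne
      have : 0 < ‖g ζ‖ := lt_of_le_of_ne (norm_nonneg _) (Ne.symm hne)
      have : 0 < ‖g ζ‖ ^ 3 := by positivity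
      linarith
    exact norm_eq_zero.1 h4
  have han : AnalyticOnNhd ℂ g HH := hg.analyticOnNhd isOpen_HH
  have hev : g =ᶠ[𝓝 ζ₀] 0 := by
    filter_upwards [ball_mem_nhds ζ₀ (show 0 < R / 2 by positivity)] with ζ hζ
    exact hz2 ζ hζ
  have := han.eqOn_zero_of_preconnected_of_eventuallyEq_zero convex_HH.isPreconnected hζ₀ hev
  intro ζ hζ
  exact this hζ

end Pool.Agent.SS
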